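import Mathlib
import Pool.Agent.MP_c853c5_nt.SMu
import Pool.Agent.MP_c853c5_nt.SFour

/- Twin primes of `F[X]`, characteristic two: definitions. -/

set_option autoImplicit false
set_option linter.unusedSectionVars false

namespace Pool.Agent.MP_43e117_nt

open Polynomial Finset Pool.Agent.MP_4fffd4_nt Pool.Agent.MP_c853c5_nt
open scoped BigOperators

variable {F : Type*} [Field F] [Fintype F]

variable (F) in
/-- The power `q ^ k` of the number of elements of `F`. -/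
noncomputable def qq (k : ℕ) : ℝ := (Fintype.card F : ℝ) ^ k

/-- Divisible by the square of a monic polynomial of degree at least `T`. -/
def Sq (T : ℕ) (g : F[X]) : Prop := ∃ s : F[X], s.Monic ∧ T ≤ s.natDegree ∧ s ^ 2 ∣ g

/-- The Liouville function. -/
noncomputable def lam (g : F[X]) : ℝ := (liou g : ℝ)

/-- Bounded by one on the monic polynomials of degree `i`. -/
def Bd (i : ℕ) (a : F[X] → ℝ) : Prop := ∀ g ∈ monF F i, |a g| ≤ 1

variable (F) in
/-- A bound for the number of monic divisors up to degree `n`. -/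
def DivB (τ : ℝ) (n : ℕ) : Prop :=
  ∀ g : F[X], g ≠ 0 → g.natDegree ≤ n → ((divs g).card : ℝ) ≤ τ

/-- Sum over the monic divisors of degree `i`. -/
noncomputable def up (a : F[X] → ℝ) (i : ℕ) (f : F[X]) : ℝ :=
  ∑ D ∈ monF F i, ind (D ∣ f) * a D

/-- Sum over the monic divisors of degree at most `R`. -/
noncomputable def upLE (a : F[X] → ℝ) (R : ℕ) (f : F[X]) : ℝ := ∑ t ∈ range (R + 1), up a t f

/-- Convolution with prescribed degrees. -/
noncomputable def cv (a b : F[X] → ℝ) (i j : ℕ) (f : F[X]) : ℝ :=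
  ∑ d ∈ monF F i, ∑ e ∈ monF F j, ind (d * e = f) * (a d * b e)

/-- Triple convolution with prescribed degrees. -/
noncomputable def cv3 (a b c : F[X] → ℝ) (i j k : ℕ) (f : F[X]) : ℝ :=
  ∑ d ∈ monF F i, ∑ e ∈ monF F j, ∑ g ∈ monF F k, ind (d * (e * g) = f) * (a d * (b e * c g))

/-- Correlation over the monic polynomials of degree `n`. -/
noncomputable def corr (h : F[X]) (n : ℕ) (Φ Ψ : F[X] → ℝ) : ℝ :=
  ∑ f ∈ monF F n, Φ f * Ψ (f + h)

/-- Correlation in the model: mean over all polynomials of degree less than `N`. -/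
noncomputable def mcorr (h : F[X]) (N : ℕ) (Φ Ψ : F[X] → ℝ) : ℝ :=
  𝔼 f : degreeLT F N, Φ f.1 * Ψ (f.1 + h)

/-- Periodic modulo `m`. -/
def Per (m : F[X]) (Φ : F[X] → ℝ) : Prop := ∀ f t, Φ (f + m * t) = Φ f

open Classical in
/-- An inverse of `x` modulo `M`. -/
noncomputable def iv (M x : F[X]) : F[X] := if h : IsCoprime x M then h.choose else 0

/-- Sum over the solutions of `d e₁ e₂ = m k + h` with prescribed degrees. -/
noncomputable def cfg (h : F[X]) (μ k₀ ε₁ ε₂ i : ℕ)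
    (G : F[X] → F[X] → F[X] → F[X] → F[X] → ℝ) : ℝ :=
  ∑ m ∈ monF F μ, ∑ k ∈ monF F k₀, ∑ e₁ ∈ monF F ε₁, ∑ e₂ ∈ monF F ε₂, ∑ d ∈ monF F i,
    ind (d * (e₁ * e₂) = m * k + h) * G m k e₁ e₂ d

variable (F) in
/-- The density of the good weight. -/
noncomputable def dens (d u : ℕ) : ℝ :=
  (goodV F d u).card / qq F (∑ j : Fin (u + 1), (d + j))

variable (F) in
/-- Parameters of the good weight. -/
structure Par (N L κ d u r : ℕ) : Prop where
  hu : 1 ≤ u
  hr : r < d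
  hN : ∑ j : Fin (u + 1), (d + j) + r = N
  hL : 6 * d + 2 * u ≤ L
  hκ : 1 ≤ κ
  hd : 2 * (Fintype.card F * (10 * κ)) * 8 ^ (2 * u + 2) + 12 * u + 20 ≤ d
  ge : 1 ≤ dens F d u * qq F κ
  le : dens F d u ≤ 1
  var : ∀ M : F[X], M ≠ 0 → M.natDegree ≤ 210 * κ →
    𝔼 τ : degreeLT F N, (𝔼 x : degreeLT F L,
      (gw (goodV F d u) r (X ^ N + τ.1 + M * x.1) - dens F d u)) ^ 2 ≤ 1 / qq F (500 * κ)

/-- The kernel of the determinant equation, with its mean removed. -/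
noncomputable def kk (h : F[X]) (ν τ : ℕ) (d x : F[X]) : ℝ :=
  ind (IsCoprime d x) * (∑ e ∈ monF F ν, ind (d ∣ x * e + h) - 1 / qq F τ)

/-- The amplified off diagonal sum. -/
noncomputable def offd (h : F[X]) (ν τ I' l : ℕ) (β : F[X] → ℝ) : ℝ :=
  ∑ M ∈ monF F I', ∑ x ∈ monF F I', β M * β x * ∑ l₁ ∈ irrF F l, ∑ l₂ ∈ irrF F l,
    ind (l₁ ≠ l₂) * ∑ g ∈ ltF F l, ind (g ≠ 0) * ∑ d ∈ monF F (ν + τ),
      ind (g * d = l₁ * M + l₂ * x) * (kk h ν τ d M * kk h ν τ d x)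

/-- One Fourier mode of the amplified kernel. -/
noncomputable def xi (e : F → ℝ) (a : F[X]) (I : ℕ) (l₁ l₂ g M x : F[X]) : ℝ :=
  ∑ d ∈ monF F I, ind (g * d = l₁ * M + l₂ * x) *
    (ind (IsCoprime (l₁ * M) d) * e (SFour.res (a * iv d (l₁ * M)) d))

variable (F) in
open Classical in
/-- The index set of the Fourier modes: `(l₁, l₂, g, j₁, j₂)`. -/
noncomputable def modes (l τ : ℕ) : Finset (F[X] × F[X] × F[X] × F[X] × F[X]) :=
  (irrF F l ×ˢ irrF F l ×ˢ ltF F l ×ˢ ltF F τ ×ˢ ltF F τ).filter fun ω =>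
    ω.1 ≠ ω.2.1 ∧ ω.2.2.1 ≠ 0 ∧ ω.2.2.2.1 ≠ 0 ∧ ω.2.2.2.2 ≠ 0

/-- The Fourier mode with index `ω = (l₁, l₂, g, j₁, j₂)`. -/
noncomputable def xw (e : F → ℝ) (h : F[X]) (I : ℕ) (ω : F[X] × F[X] × F[X] × F[X] × F[X])
    (M x : F[X]) : ℝ :=
  xi e (h * (ω.2.2.2.1 * ω.1 + ω.2.2.2.2 * ω.2.1)) I ω.1 ω.2.1 ω.2.2.1 M x

/-- `φ` is a divisor sum of level `R` and norm `B`, up to degree `n`. -/
structure Lev (n R : ℕ) (B : ℝ) (φ κ : F[X] → ℝ) : Prop where
  expand : ∀ f : F[X], f.Monic → f.natDegree ≤ n → φ f = ∑ K ∈ divs f, κ K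
  norm : ∀ f : F[X], f.Monic → f.natDegree ≤ n → ∑ K ∈ divs f, |κ K| ≤ B
  supp : ∀ K g : F[X], K.Monic → κ K ≠ 0 → Squarefree g → g ∣ K → g.natDegree ≤ R

/-- The algebraic properties of the sieve weight. -/
structure Sieve (n R : ℕ) (B : ℝ) (ν κ : F[X] → ℝ) {ι : Type} (Z : Finset ι)
    (a b α : ι → F[X] → ℝ) : Prop where
  one : ∀ P : F[X], P.Monic → Irreducible P → P.natDegree = n → ν P = 1
  unit : ν 1 = 1
  nonneg : ∀ f, 0 ≤ ν f
  lev : Lev n R B ν κ
  sep : ∀ d e : F[X], d.Monic → e.Monic → ν (d * e) = ∑ z ∈ Z, a z d * b z e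
  cardZ : (Z.card : ℝ) ≤ B
  leva : ∀ z ∈ Z, Lev n R B (a z) (α z)
  bdb : ∀ z ∈ Z, ∀ e : F[X], e.Monic → e.natDegree ≤ n → |b z e| ≤ B

/-- The upper bound sieve estimate for the weight `ν`. -/
def Mass (h : F[X]) (n R : ℕ) (C : ℝ) (ν : F[X] → ℝ) : Prop :=
  ∀ i i', i < n → i' < n → n + 2 * R ≤ i + i' →
    ((n : ℝ) - i) * ((n : ℝ) - i') * corr h n (fun f => ν f * up (fun d => |mu d|) i f)
      (fun f => ν f * up (fun d => |mu d|) i' f) ≤ C * qq F n / (n : ℝ) ^ 2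

/-- One piece of `ν` times the von Mangoldt function. -/
noncomputable def nl (ν : F[X] → ℝ) (i : ℕ) (f : F[X]) : ℝ := ν f * up mu i f

variable (F) in
open Classical in
/-- The monic irreducible polynomials of degree in `(y, z]` that do not divide `h`. -/
noncomputable def blk (h : F[X]) (y z : ℕ) : Finset F[X] :=
  ((Ioc y z).biUnion (irrF F)).filter fun P => ¬ P ∣ h

open Classical in
/-- The number of prime factors in `S`, with multiplicity. -/
noncomputable def Om (S : Finset F[X]) (f : F[X]) : ℕ :=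
  ∑ P ∈ S, (UniqueFactorizationMonoid.normalizedFactors f).count P

/-- The truncated alternating sum of binomial coefficients. -/
noncomputable def bonf (k w : ℕ) : ℝ := ∑ l ∈ range (k + 1), (-1) ^ l * (w.choose l : ℝ)

/-- The block number `s` below the height `y`. -/
noncomputable def bl (h : F[X]) (y s : ℕ) : Finset F[X] := blk F h (y / 2 ^ (s + 1)) (y / 2 ^ s)

/-- The sieve weight with `S` blocks below the height `y`. -/
noncomputable def nu (h : F[X]) (y S : ℕ) (f : F[X]) : ℝ :=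
  ∏ s ∈ range S, bonf (2 * s + 2) (Om (bl h y s) f)

open Classical in
/-- The number of elements of `S` that divide `f`. -/
noncomputable def om (S : Finset F[X]) (f : F[X]) : ℕ := (S.filter (· ∣ f)).card

/-- The density of the polynomials with no factor in `S`. -/
noncomputable def VS (S : Finset F[X]) : ℝ := ∏ P ∈ S, (1 - 1 / qq F P.natDegree)

/-- The majorant of one block. -/
noncomputable def gb (k w : ℕ) : ℝ := ind (w = 0) + Real.exp 8 * 3 ^ w / 2 ^ (k + 1)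

/-- The majorant of the sieve weight. -/
noncomputable def GG (h : F[X]) (y S : ℕ) (e : F[X]) : ℝ :=
  ∏ s ∈ range S, gb (2 * s + 2) (Om (bl h y s) e)

open Classical in
/-- The completely multiplicative function with values `w` at the monic irreducibles. -/
noncomputable def cm (w : F[X] → ℝ) (g : F[X]) : ℝ :=
  ((UniqueFactorizationMonoid.normalizedFactors g).map w).prod

variable (F) in
open Classical in
/-- The monic irreducible polynomials of degree at most `n`. -/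
noncomputable def irrLE (n : ℕ) : Finset F[X] := (range (n + 1)).biUnion (irrF F)

open Classical in
/-- The monic irreducible factors. -/
noncomputable def pf (g : F[X]) : Finset F[X] :=
  (UniqueFactorizationMonoid.normalizedFactors g).toFinset

open Classical in
/-- The terms of a modified Moebius series. -/
noncomputable def cc (S : Finset F[X]) (w : F[X] → ℝ) (i : ℕ) : ℝ :=
  ∑ d ∈ monF F i, mu d * ∏ P ∈ pf d, (if P ∈ S then w P else 1 / qq F P.natDegree)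

/-- Partial sums of a modified Moebius series. -/
noncomputable def HH (S : Finset F[X]) (w : F[X] → ℝ) (j : ℕ) : ℝ :=
  ∑ i ∈ range (j + 1), cc S w i

/-- The weighted norm bound for the modified Moebius series. -/
noncomputable def NN (S : Finset F[X]) (w : F[X] → ℝ) : ℝ :=
  ∏ P ∈ S, (1 + 3 * |w P - 1 / qq F P.natDegree| * (4 / 3) ^ P.natDegree)

open Classical in
/-- The expected main term. -/
noncomputable def mainT (h : F[X]) (n I : ℕ) : ℝ :=
  ∑ j ∈ range I, ((n : ℝ) - j) * ∑ d ∈ monF F j,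
    mu d * ∏ P ∈ pf d, (if P ∣ h then 0 else 1 / (qq F P.natDegree - 1))

open Classical in
/-- The partial Euler product of the singular series. -/
noncomputable def sing (h : F[X]) (D : ℕ) : ℝ :=
  ∏ P ∈ irrLE F D,
    (1 - (if P ∣ h then 1 else 2) / qq F P.natDegree) / (1 - 1 / qq F P.natDegree) ^ 2

/-- The truncated form of `ν * up mu i`. -/
noncomputable def tr (κ : F[X] → ℝ) (R i : ℕ) (f : F[X]) : ℝ := up mu i f * upLE κ R f

theorem qq_pos (k : ℕ) : 0 < qq F k := pow_pos card_pos' k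

theorem qq_add (a b : ℕ) : qq F (a + b) = qq F a * qq F b := pow_add _ _ _

theorem qq_zero : qq F 0 = 1 := pow_zero _

theorem qq_mono {a b : ℕ} (h : a ≤ b) : qq F a ≤ qq F b :=
  pow_le_pow_right₀ (one_le_two.trans two_le_card) h

theorem one_le_qq (k : ℕ) : 1 ≤ qq F k := qq_zero (F := F) ▸ qq_mono (Nat.zero_le k)

theorem two_pow_le_qq (k : ℕ) : (2 : ℝ) ^ k ≤ qq F k :=
  pow_le_pow_left₀ zero_le_two two_le_card k

theorem qq_le_two_pow (k : ℕ) : qq F k ≤ (2 : ℝ) ^ (Fintype.card F * k) := by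
  rw [pow_mul]
  exact pow_le_pow_left₀ (Nat.cast_nonneg _) (by exact_mod_cast Nat.lt_two_pow_self.le) k

theorem qq_pow (a b : ℕ) : qq F a ^ b = qq F (a * b) := (pow_mul _ _ _).symm

theorem sum_one_monF (n : ℕ) : ∑ _g ∈ monF F n, (1 : ℝ) = qq F n := by
  rw [Finset.sum_const, card_monF, nsmul_eq_mul, mul_one, qq, Nat.cast_pow]

theorem sum_one_ltF (n : ℕ) : ∑ _g ∈ ltF F n, (1 : ℝ) = qq F n := by
  rw [Finset.sum_const, card_ltF, nsmul_eq_mul, mul_one, qq, Nat.cast_pow]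

omit [Fintype F] in
theorem abs_lam (g : F[X]) : |lam g| = 1 := by
  unfold lam
  rcases liou_cases g with h | h <;> simp [h]

omit [Fintype F] in
theorem lam_mul {f g : F[X]} (hf : f ≠ 0) (hg : g ≠ 0) : lam (f * g) = lam f * lam g := by
  unfold lam
  rw [liou_mul hf hg, Int.cast_mul]

omit [Fintype F] in
theorem iv_mul {M x : F[X]} (h : IsCoprime x M) : M ∣ iv M x * x - 1 := by
  unfold iv
  rw [dif_pos h]
  obtain ⟨b, hb⟩ := h.choose_spec
  exact ⟨-b, by linear_combination hb⟩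

theorem mem_irrLE {n : ℕ} {P : F[X]} :
    P ∈ irrLE F n ↔ P.Monic ∧ Irreducible P ∧ P.natDegree ≤ n := by
  classical
  simp only [irrLE, mem_biUnion, mem_range, mem_irrF]
  exact ⟨fun ⟨_, h1, h2, h3, h4⟩ => ⟨h2, h4, by omega⟩,
    fun ⟨h1, h2, h3⟩ => ⟨_, by omega, h1, rfl, h2⟩⟩

theorem mem_blk {h P : F[X]} {y z : ℕ} : P ∈ blk F h y z ↔
    P.Monic ∧ Irreducible P ∧ y < P.natDegree ∧ P.natDegree ≤ z ∧ ¬ P ∣ h := by
  classical
  simp only [blk, mem_filter, mem_biUnion, mem_Ioc, mem_irrF]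
  exact ⟨fun ⟨⟨_, h1, h2, h3, h4⟩, h5⟩ => ⟨h2, h4, by omega, by omega, h5⟩,
    fun ⟨h1, h2, h3, h4, h5⟩ => ⟨⟨_, ⟨h3, h4⟩, h1, rfl, h2⟩, h5⟩⟩

omit [Fintype F] in
theorem mem_pf {g P : F[X]} (hg : g ≠ 0) : P ∈ pf g ↔ P.Monic ∧ Irreducible P ∧ P ∣ g := by
  classical
  unfold pf
  rw [Multiset.mem_toFinset, Polynomial.mem_normalizedFactors_iff hg]
  tauto

theorem mem_modes {l τ : ℕ} {ω : F[X] × F[X] × F[X] × F[X] × F[X]} : ω ∈ modes F l τ ↔
    ω.1 ∈ irrF F l ∧ ω.2.1 ∈ irrF F l ∧ ω.2.2.1.degree < l ∧ ω.2.2.2.1.degree < τ ∧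
      ω.2.2.2.2.degree < τ ∧ ω.1 ≠ ω.2.1 ∧ ω.2.2.1 ≠ 0 ∧ ω.2.2.2.1 ≠ 0 ∧ ω.2.2.2.2 ≠ 0 := by
  classical
  simp only [modes, mem_filter, mem_product, mem_ltF, and_assoc]

theorem Lev.abs_le {n R : ℕ} {B : ℝ} {φ κ : F[X] → ℝ} (h : Lev n R B φ κ) {f : F[X]}
    (hf : f.Monic) (hn : f.natDegree ≤ n) : |φ f| ≤ B := by
  rw [h.expand f hf hn]
  exact (Finset.abs_sum_le_sum_abs _ _).trans (h.norm f hf hn)

theorem Lev.abs_coef {n R : ℕ} {B : ℝ} {φ κ : F[X] → ℝ} (h : Lev n R B φ κ) {K : F[X]}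
    (hK : K.Monic) (hn : K.natDegree ≤ n) : |κ K| ≤ B :=
  (Finset.single_le_sum (f := fun K => |κ K|) (fun _ _ => abs_nonneg _)
    ((mem_divs hK.ne_zero).2 ⟨hK, dvd_rfl⟩)).trans (h.norm K hK hn)

theorem Lev.coef_one {n R : ℕ} {B : ℝ} {φ κ : F[X] → ℝ} (h : Lev n R B φ κ) : κ 1 = φ 1 := by
  rw [h.expand 1 monic_one (by simp), SConv.divs_one, sum_singleton]

theorem Lev.mono {n R R' : ℕ} {B B' : ℝ} {φ κ : F[X] → ℝ} (h : Lev n R B φ κ) (hR : R ≤ R')
    (hB : B ≤ B') : Lev n R' B' φ κ :=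
  ⟨h.expand, fun f hf hn => (h.norm f hf hn).trans hB,
    fun K g h1 h2 h3 h4 => (h.supp K g h1 h2 h3 h4).trans hR⟩

theorem DivB.mono {τ : ℝ} {n m : ℕ} (h : DivB F τ n) (hm : m ≤ n) : DivB F τ m :=
  fun g hg hd => h g hg (hd.trans hm)

theorem DivB.one_le {τ : ℝ} {n : ℕ} (h : DivB F τ n) : 1 ≤ τ := by
  have := h 1 one_ne_zero (by simp)
  rwa [SConv.divs_one, card_singleton, Nat.cast_one] at this

theorem exists_DivB (c M : ℕ) (hM : 0 < M) :
    ∃ n₀ : ℕ, ∀ n, n₀ ≤ n → DivB F (qq F (n / M)) (c * n) := by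
  obtain ⟨n₀, h⟩ := divs_bound (F := F) ((c + 1) * M) (by positivity)
  refine ⟨n₀, fun n hn g hg hd => (h ((c + 1) * n) (by nlinarith) g hg (by nlinarith)).trans_eq ?_⟩
  rw [Nat.mul_div_mul_left _ _ (Nat.succ_pos c), qq]

theorem exists_poly (c U C : ℕ) (hC : 0 < C) :
    ∃ n₀ : ℕ, ∀ n, n₀ ≤ n → ((c : ℝ) * n) ^ U ≤ qq F (n / C) := by
  obtain ⟨n₀, h⟩ := poly_le c U C hC
  exact ⟨n₀, fun n hn => le_trans (by exact_mod_cast h n hn) (two_pow_le_qq _)⟩

end Pool.Agent.MP_43e117_nt
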