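import Mathlib
import Pool.Agent.MP_43e117_nt.TDefs
import Pool.Agent.MP_c853c5_nt.SPsi

/- Twin primes of `F[X]`: basic counting lemmas. -/

set_option autoImplicit false
set_option linter.unusedSectionVars false

namespace Pool.Agent.MP_43e117_nt

open Polynomial Finset Pool.Agent.MP_4fffd4_nt Pool.Agent.MP_c853c5_nt
open scoped BigOperators

variable {F : Type*} [Field F] [Fintype F]

namespace TBasA

theorem lin {D a : F[X]} (hD : D.Monic) (ha : IsCoprime a D) (b c : F[X]) {n : ℕ}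
    (hn : D.natDegree ≤ n) :
    ∑ y : degreeLT F n, ind (D ∣ a * (b + y.1) + c) = qq F n / qq F D.natDegree := by
  obtain ⟨u, v, huv⟩ := ha
  refine Eq.trans (Finset.sum_congr rfl fun y _ => SPsi.ind_congr ?_)
    (SPsi.cnt_small (b + u * c) hD hn)
  constructor
  · rintro ⟨t, ht⟩
    exact ⟨u * t + v * (b + y.1), by linear_combination u * ht - (b + y.1) * huv⟩
  · rintro ⟨t, ht⟩
    exact ⟨a * t + v * c, by linear_combination a * ht - c * huv⟩

theorem sum_eq_le {α : Type*} (s : Finset α) (a : α) : ∑ x ∈ s, ind (x = a) ≤ 1 := by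
  by_cases ha : a ∈ s
  · rw [Finset.sum_eq_single_of_mem a ha fun x _ hx => ind_neg hx]
    exact ind_le_one _
  · rw [Finset.sum_eq_zero fun x hx => ind_neg fun e : x = a => ha (e ▸ hx)]
    exact zero_le_one

theorem nonneg_of_bd {a : F[X] → ℝ} {i : ℕ} {A : ℝ} (ha : ∀ g ∈ monF F i, |a g| ≤ A) : 0 ≤ A :=
  (abs_nonneg _).trans (ha (X ^ i) (mem_monF.2 ⟨monic_X_pow i, natDegree_X_pow i⟩))

theorem abs_ind_mul (P : Prop) {x A : ℝ} (h : |x| ≤ A) : |ind P * x| ≤ ind P * A := by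
  rw [abs_mul, abs_of_nonneg (ind_nonneg P)]
  exact mul_le_mul_of_nonneg_left h (ind_nonneg P)

end TBasA

open TBasA

theorem sum_dvd_le {D : F[X]} (hD : D.Monic) (n : ℕ) :
    ∑ f ∈ monF F n, ind (D ∣ f) ≤ qq F n / qq F D.natDegree := by
  rw [sum_monF]
  exact sum_dvd_monic (fun y : degreeLT F n => X ^ n + y.1)
    (fun _ _ h => Subtype.ext (add_left_cancel h)) monic_add_LT hD

theorem sum_Sq (n T : ℕ) : ∑ f ∈ monF F n, ind (Sq T f) ≤ 2 * qq F n / qq F T := by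
  have hq := two_le_card (F := F)
  have q0 := card_pos' (F := F)
  calc _ ≤ ∑ f ∈ monF F n, ∑ j ∈ Ico T (n + 1), ∑ s ∈ monF F j, ind (s ^ 2 ∣ f) := by
        refine Finset.sum_le_sum fun f hf => ?_
        obtain ⟨h1, h2⟩ := mem_monF.1 hf
        by_cases h : Sq T f
        · obtain ⟨s, h3, h4, h5⟩ := h
          have h6 := natDegree_le_of_dvd ((dvd_pow_self s two_ne_zero).trans h5) h1.ne_zero
          refine le_trans ?_ (Finset.single_le_sum (f := fun j => ∑ s ∈ monF F j, ind (s ^ 2 ∣ f))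
            (fun j _ => Finset.sum_nonneg fun _ _ => ind_nonneg _)
            (mem_Ico.2 ⟨h4, (by omega : s.natDegree < n + 1)⟩))
          exact ind_le_sum fun _ => ⟨s, mem_monF.2 ⟨h3, rfl⟩, h5⟩
        · rw [ind_neg h]
          exact Finset.sum_nonneg fun _ _ => Finset.sum_nonneg fun _ _ => ind_nonneg _
    _ = ∑ j ∈ Ico T (n + 1), ∑ s ∈ monF F j, ∑ f ∈ monF F n, ind (s ^ 2 ∣ f) := by
        rw [Finset.sum_comm]
        exact Finset.sum_congr rfl fun j _ => Finset.sum_comm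
    _ ≤ ∑ j ∈ Ico T (n + 1), qq F n * (1 / (Fintype.card F : ℝ)) ^ j := by
        refine Finset.sum_le_sum fun j _ => ?_
        refine (Finset.sum_le_sum (g := fun _ => qq F n / qq F (2 * j) * 1) fun s hs => ?_).trans_eq ?_
        · obtain ⟨h1, h2⟩ := mem_monF.1 hs
          have := sum_dvd_le (h1.pow 2) n
          rwa [h1.natDegree_pow, h2, ← mul_one (_ / _)] at this
        · rw [← Finset.mul_sum, sum_one_monF, two_mul, qq_add, one_div_pow]
          have := qq_pos (F := F) j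
          unfold qq at this ⊢
          field_simp
    _ ≤ _ := by
        have h1 : 1 / (Fintype.card F : ℝ) ≤ 1 / 2 := by gcongr
        have h2 := geom_sum_Ico_le_of_lt_one (x := 1 / (Fintype.card F : ℝ)) (m := T) (n := n + 1)
          (by positivity) (by linarith)
        have h3 : (1 / (Fintype.card F : ℝ)) ^ T / (1 - 1 / (Fintype.card F : ℝ)) ≤
            (1 / (Fintype.card F : ℝ)) ^ T / (1 / 2) := by
          gcongr; linarith
        rw [← Finset.mul_sum]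
        refine (mul_le_mul_of_nonneg_left (h2.trans h3) (qq_pos n).le).trans_eq ?_
        rw [one_div_pow, qq, qq]
        field_simp

theorem sum_monF_shift {n : ℕ} {c : F[X]} (hc : c.degree < n) (G : F[X] → ℝ) :
    ∑ f ∈ monF F n, G (f + c) = ∑ f ∈ monF F n, G f := by
  rw [sum_monF, sum_monF]
  exact Fintype.sum_equiv (Equiv.addRight ⟨c, mem_degreeLT.2 hc⟩) _ _ fun y => by
    rw [add_assoc]; rfl

theorem sum_lin_mon {D a : F[X]} (hD : D.Monic) (ha : IsCoprime a D) (c : F[X]) {n : ℕ}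
    (hn : D.natDegree ≤ n) :
    ∑ f ∈ monF F n, ind (D ∣ a * f + c) = qq F n / qq F D.natDegree := by
  rw [sum_monF]
  exact lin hD ha _ c hn

theorem sum_lin_lt {D a : F[X]} (hD : D.Monic) (ha : IsCoprime a D) (c : F[X]) {n : ℕ}
    (hn : D.natDegree ≤ n) :
    ∑ f ∈ ltF F n, ind (D ∣ a * f + c) = qq F n / qq F D.natDegree := by
  rw [← SPsi.sum_LT]
  simpa only [zero_add] using lin hD ha 0 c hn

theorem expect_lin {D a : F[X]} (hD : D.Monic) (ha : IsCoprime a D) (c : F[X]) {n : ℕ}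
    (hn : D.natDegree ≤ n) :
    𝔼 f : degreeLT F n, ind (D ∣ a * f.1 + c) = 1 / qq F D.natDegree := by
  have := lin hD ha 0 c hn
  simp only [zero_add] at this
  rw [expect_LT, this]
  have h1 := qq_pos (F := F) n
  have h2 := qq_pos (F := F) D.natDegree
  unfold qq at h1 h2 ⊢
  field_simp

theorem sum_class {e h : F[X]} (he : e.Monic) (hh : h ≠ 0) (m : F[X]) {κ : ℕ}
    (hκ : e.natDegree ≤ κ) :
    ∑ k ∈ monF F κ, ind (e ∣ m * k + h) ≤ qq F (h.natDegree + κ) / qq F e.natDegree := by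
  rw [sum_monF]
  by_cases h0 : ∃ y : degreeLT F κ, e ∣ m * (X ^ κ + y.1) + h
  · obtain ⟨y₀, t₀, ht₀⟩ := h0
    refine le_trans (Finset.sum_le_sum fun y _ => ind_mono ?_)
      (sum_dvd_lt (fun y : degreeLT F κ => h * (y - y₀).1) (fun y y' e => ?_) (fun y => ?_) he
        (hκ.trans (Nat.le_add_left _ _)))
    · rintro ⟨t, ht⟩
      refine ⟨t₀ * (y.1 - y₀.1) - (X ^ κ + y₀.1) * (t - t₀), ?_⟩
      rw [Submodule.coe_sub]
      linear_combination (y.1 - y₀.1) * ht₀ - (X ^ κ + y₀.1) * (ht - ht₀)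
    · exact sub_left_injective (Subtype.ext (mul_left_cancel₀ hh e))
    · rw [degree_mul, degree_eq_natDegree hh, Nat.cast_add]
      exact WithBot.add_lt_add_left (WithBot.natCast_ne_bot _) (mem_degreeLT.1 (y - y₀).2)
  · rw [Finset.sum_eq_zero fun y _ => ind_neg fun h => h0 ⟨y, h⟩]
    exact (div_pos (qq_pos _) (qq_pos _)).le

theorem exists_sqfree {k : F[X]} (hk : k.Monic) :
    ∃ a γ : F[X], a.Monic ∧ γ.Monic ∧ Squarefree a ∧ k = a * γ ^ 2 := by
  induction hn : k.natDegree using Nat.strong_induction_on generalizing k with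
  | _ n ih =>
    by_cases h : Squarefree k
    · exact ⟨k, 1, hk, monic_one, h, by simp⟩
    · unfold Squarefree at h
      push Not at h
      obtain ⟨x, hx, hu⟩ := h
      obtain ⟨P, h1, h2, h3⟩ := exists_monic_irreducible_factor x hu
      obtain ⟨c, rfl⟩ := (mul_dvd_mul h3 h3).trans hx
      have hc : c.Monic := (h1.mul h1).of_mul_monic_left hk
      have h4 := h2.natDegree_pos
      rw [(h1.mul h1).natDegree_mul hc, h1.natDegree_mul h1] at hn
      obtain ⟨a, γ, h5, h6, h7, rfl⟩ := ih _ (by omega) hc rfl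
      exact ⟨a, P * γ, h5, h1.mul h6, h7, by ring⟩

theorem two_pow_pf_le {f : F[X]} (hf : f ≠ 0) : 2 ^ (pf f).card ≤ (divs f).card := by
  classical
  have key : ∀ s ⊆ pf f, ∀ P ∈ pf f, P ∣ ∏ Q ∈ s, Q → P ∈ s := fun s hs P hP h => by
    obtain ⟨h1, h2, -⟩ := (mem_pf hf).1 hP
    obtain ⟨Q, hQ, h3⟩ := (h2.prime.dvd_finsetProd_iff _).1 h
    obtain ⟨h4, h5, -⟩ := (mem_pf hf).1 (hs hQ)
    rwa [eq_of_monic_of_associated h1 h4 (h2.associated_of_dvd h5 h3)]
  rw [← card_powerset]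
  refine Finset.card_le_card_of_injOn (fun s => ∏ Q ∈ s, Q) (fun s hs => ?_) fun s hs t ht e => ?_
  · have hs' := mem_powerset.1 (mem_coe.1 hs)
    refine mem_coe.2 ((mem_divs hf).2 ⟨monic_prod_of_monic _ _ fun Q hQ =>
      ((mem_pf hf).1 (hs' hQ)).1, Finset.prod_dvd_of_coprime (fun P hP Q hQ hne => ?_)
        fun Q hQ => ((mem_pf hf).1 (hs' hQ)).2.2⟩)
    obtain ⟨h1, h2, -⟩ := (mem_pf hf).1 (hs' hP)
    obtain ⟨h4, h5, -⟩ := (mem_pf hf).1 (hs' hQ)
    exact h2.coprime_iff_not_dvd.2 fun h3 =>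
      hne (eq_of_monic_of_associated h1 h4 (h2.associated_of_dvd h5 h3))
  · have hs' := mem_powerset.1 (mem_coe.1 hs)
    have ht' := mem_powerset.1 (mem_coe.1 ht)
    have e' : ∏ Q ∈ s, Q = ∏ Q ∈ t, Q := e
    exact Finset.Subset.antisymm
      (fun P hP => key t ht' P (hs' hP) (e' ▸ Finset.dvd_prod_of_mem (fun Q => Q) hP))
      fun P hP => key s hs' P (ht' hP) (e' ▸ Finset.dvd_prod_of_mem (fun Q => Q) hP)

theorem sum_range_qq (n : ℕ) : ∑ t ∈ range n, qq F t ≤ qq F n := by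
  induction n with
  | zero => simpa using (qq_pos 0).le
  | succ n ih =>
    rw [sum_range_succ, qq_add, qq, qq, pow_one]
    have h1 := qq_pos (F := F) n
    have h2 := two_le_card (F := F)
    unfold qq at h1 ih ⊢
    nlinarith

theorem sum_inv_irrF (j : ℕ) : ∑ P ∈ irrF F j, 1 / qq F P.natDegree ≤ 1 / j := by
  rcases Nat.eq_zero_or_pos j with rfl | hj
  · rw [Finset.sum_eq_zero fun P hP => ?_]
    · simp
    · obtain ⟨-, h1, h2⟩ := mem_irrF.1 hP
      exact absurd h1 h2.natDegree_pos.ne'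
  · rw [Finset.sum_congr rfl (g := fun _ => 1 / qq F j) fun P hP => by rw [(mem_irrF.1 hP).2.1],
      Finset.sum_const, nsmul_eq_mul, mul_one_div,
      div_le_div_iff₀ (qq_pos j) (by exact_mod_cast hj), one_mul, mul_comm]
    exact SConv.card_irrF_le j

section Div

variable {τ : ℝ} {n : ℕ} (hτ : DivB F τ n)
include hτ

theorem sum_upLE_le {f : F[X]} (hf : f ≠ 0) (hn : f.natDegree ≤ n) (R : ℕ) :
    ∑ t ∈ range R, ∑ D ∈ monF F t, ind (D ∣ f) ≤ τ := by
  have := SPsi.sum_divs_lt hf R fun _ => 1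
  simp only [mul_one] at this
  rw [← this]
  refine (Finset.sum_le_sum fun e _ => ind_le_one _).trans ?_
  rw [Finset.sum_const, nsmul_eq_mul, mul_one]
  exact hτ f hf hn

theorem sum_up_le {f : F[X]} (hf : f ≠ 0) (hn : f.natDegree ≤ n) (i : ℕ) :
    ∑ D ∈ monF F i, ind (D ∣ f) ≤ τ :=
  (Finset.single_le_sum (f := fun t => ∑ D ∈ monF F t, ind (D ∣ f))
    (fun _ _ => Finset.sum_nonneg fun _ _ => ind_nonneg _) (self_mem_range_succ i)).trans
    (sum_upLE_le hτ hf hn (i + 1))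

theorem sum_two_le {i j : ℕ} (hn : i + j ≤ n) (f : F[X]) :
    ∑ d ∈ monF F i, ∑ e ∈ monF F j, ind (d * e = f) ≤ τ := by
  by_cases h : ∃ d ∈ monF F i, ∃ e ∈ monF F j, d * e = f
  · obtain ⟨d₀, hd, e₀, he, e⟩ := h
    obtain ⟨h1, h2⟩ := mem_monF.1 hd
    obtain ⟨h3, h4⟩ := mem_monF.1 he
    refine le_trans (Finset.sum_le_sum fun d hd => ?_) (sum_up_le hτ (f := f)
      (e ▸ (h1.mul h3).ne_zero) (by rw [← e, h1.natDegree_mul h3]; omega) i)
    by_cases h5 : d ∣ f
    · rw [ind_pos h5]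
      obtain ⟨c, rfl⟩ := h5
      exact (Finset.sum_le_sum fun e _ => ind_mono
        (mul_left_cancel₀ (mem_monF.1 hd).1.ne_zero)).trans (sum_eq_le _ c)
    · rw [ind_neg h5, Finset.sum_eq_zero fun e _ => ind_neg fun h => h5 ⟨e, h.symm⟩]
  · rw [Finset.sum_eq_zero fun d hd => Finset.sum_eq_zero fun e he =>
      ind_neg fun e' => h ⟨d, hd, e, he, e'⟩]
    exact zero_le_one.trans hτ.one_le

theorem sum_three_le {i j k : ℕ} (hn : i + j + k ≤ n) (f : F[X]) :
    ∑ d ∈ monF F i, ∑ e ∈ monF F j, ∑ g ∈ monF F k, ind (d * (e * g) = f) ≤ τ ^ 2 := by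
  have τ0 : 0 ≤ τ := zero_le_one.trans hτ.one_le
  by_cases h : ∃ d ∈ monF F i, ∃ e ∈ monF F j, ∃ g ∈ monF F k, d * (e * g) = f
  · obtain ⟨d₀, hd, e₀, he, g₀, hg, e⟩ := h
    obtain ⟨h1, h2⟩ := mem_monF.1 hd
    obtain ⟨h3, h4⟩ := mem_monF.1 he
    obtain ⟨h6, h7⟩ := mem_monF.1 hg
    have h8 := sum_up_le hτ (f := f) (e ▸ (h1.mul (h3.mul h6)).ne_zero)
      (by rw [← e, h1.natDegree_mul (h3.mul h6), h3.natDegree_mul h6]; omega) i
    refine le_trans (Finset.sum_le_sum (g := fun d => ind (d ∣ f) * τ) fun d hd => ?_) ?_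
    · by_cases h5 : d ∣ f
      · rw [ind_pos h5, one_mul]
        obtain ⟨c, rfl⟩ := h5
        exact (Finset.sum_le_sum fun e _ => Finset.sum_le_sum fun g _ => ind_mono
          (mul_left_cancel₀ (mem_monF.1 hd).1.ne_zero)).trans (sum_two_le hτ (by omega) c)
      · rw [ind_neg h5, zero_mul, Finset.sum_eq_zero fun e _ => Finset.sum_eq_zero fun g _ =>
          ind_neg fun h => h5 ⟨e * g, h.symm⟩]
    · rw [← Finset.sum_mul, sq]
      exact mul_le_mul_of_nonneg_right h8 τ0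
  · rw [Finset.sum_eq_zero fun d hd => Finset.sum_eq_zero fun e he =>
      Finset.sum_eq_zero fun g hg => ind_neg fun e' => h ⟨d, hd, e, he, g, hg, e'⟩]
    positivity

theorem abs_up_le {a : F[X] → ℝ} {i : ℕ} {A : ℝ} (ha : ∀ g ∈ monF F i, |a g| ≤ A) {f : F[X]}
    (hf : f ≠ 0) (hn : f.natDegree ≤ n) : |up a i f| ≤ τ * A := by
  refine (Finset.abs_sum_le_sum_abs _ _).trans
    ((Finset.sum_le_sum fun D hD => abs_ind_mul _ (ha D hD)).trans ?_)
  rw [← Finset.sum_mul]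
  exact mul_le_mul_of_nonneg_right (sum_up_le hτ hf hn i) (nonneg_of_bd ha)

theorem abs_cv_le {a b : F[X] → ℝ} {i j : ℕ} {A B : ℝ} (ha : ∀ g ∈ monF F i, |a g| ≤ A)
    (hb : ∀ g ∈ monF F j, |b g| ≤ B) (hn : i + j ≤ n) (f : F[X]) :
    |cv a b i j f| ≤ τ * (A * B) := by
  have A0 := nonneg_of_bd ha
  have B0 := nonneg_of_bd hb
  refine (Finset.abs_sum_le_sum_abs _ _).trans ((Finset.sum_le_sum fun d hd =>
    (Finset.abs_sum_le_sum_abs _ _).trans (Finset.sum_le_sum fun e he =>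
      abs_ind_mul (A := A * B) _ ?_)).trans ?_)
  · rw [abs_mul]
    exact mul_le_mul (ha d hd) (hb e he) (abs_nonneg _) A0
  · simp only [← Finset.sum_mul]
    exact mul_le_mul_of_nonneg_right (sum_two_le hτ hn f) (mul_nonneg A0 B0)

theorem abs_cv3_le {a b c : F[X] → ℝ} {i j k : ℕ} {A B C : ℝ} (ha : ∀ g ∈ monF F i, |a g| ≤ A)
    (hb : ∀ g ∈ monF F j, |b g| ≤ B) (hc : ∀ g ∈ monF F k, |c g| ≤ C) (hn : i + j + k ≤ n)
    (f : F[X]) : |cv3 a b c i j k f| ≤ τ ^ 2 * (A * (B * C)) := by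
  have A0 := nonneg_of_bd ha
  have B0 := nonneg_of_bd hb
  have C0 := nonneg_of_bd hc
  refine (Finset.abs_sum_le_sum_abs _ _).trans ((Finset.sum_le_sum fun d hd =>
    (Finset.abs_sum_le_sum_abs _ _).trans (Finset.sum_le_sum fun e he =>
      (Finset.abs_sum_le_sum_abs _ _).trans (Finset.sum_le_sum fun g hg =>
        abs_ind_mul (A := A * (B * C)) _ ?_))).trans ?_)
  · rw [abs_mul, abs_mul]
    exact mul_le_mul (ha d hd) (mul_le_mul (hb e he) (hc g hg) (abs_nonneg _) B0)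
      (by positivity) A0
  · simp only [← Finset.sum_mul]
    exact mul_le_mul_of_nonneg_right (sum_three_le hτ hn f) (by positivity)

end Div

end Pool.Agent.MP_43e117_nt
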