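import Mathlib
import Pool.Agent.MP_43e117_nt.TBasA

/- Twin primes of `F[X]`: periodic functions and sums over configurations. -/

set_option autoImplicit false
set_option linter.unusedSectionVars false

namespace Pool.Agent.MP_43e117_nt

open Polynomial Finset Pool.Agent.MP_4fffd4_nt Pool.Agent.MP_c853c5_nt
open scoped BigOperators

variable {F : Type*} [Field F] [Fintype F]

namespace TBasB

theorem lin_monic {M a : F[X]} (hM : M.Monic) (ha : IsCoprime a M) {Φ : F[X] → ℝ} (hΦ : Per M Φ)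
    {l : ℕ} (hl : M.natDegree ≤ l) (c : F[X]) :
    𝔼 t : degreeLT F l, Φ (c + a * t.1) = 𝔼 t : degreeLT F M.natDegree, Φ t.1 := by
  have hd : ∀ x : F[X], (x %ₘ M).degree < M.natDegree := fun x =>
    (degree_modByMonic_lt x hM).trans_eq (degree_eq_natDegree hM.ne_zero)
  let θ : degreeLT F l →+ degreeLT F M.natDegree :=
    { toFun := fun t => ⟨(a * t.1) %ₘ M, mem_degreeLT.2 (hd _)⟩
      map_zero' := Subtype.ext (by simp)
      map_add' := fun x y => Subtype.ext (by simp [mul_add, add_modByMonic]) }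
  have hs : Function.Surjective θ := by
    intro r
    obtain ⟨u, v, huv⟩ := ha
    refine ⟨⟨(u * r.1) %ₘ M, mem_degreeLT.2 ((hd _).trans_le (by exact_mod_cast hl))⟩,
      Subtype.ext ?_⟩
    show (a * ((u * r.1) %ₘ M)) %ₘ M = r.1
    rw [modByMonic_eq_of_dvd_sub hM (p₂ := r.1) ⟨-(a * ((u * r.1) /ₘ M)) - v * r.1, by
      linear_combination a * modByMonic_add_div (u * r.1) M + r.1 * huv⟩]
    exact (modByMonic_eq_self_iff hM).2
      ((mem_degreeLT.1 r.2).trans_eq (degree_eq_natDegree hM.ne_zero).symm)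
  rw [← expect_shift (fun y : degreeLT F M.natDegree => Φ y.1) ⟨c %ₘ M, mem_degreeLT.2 (hd _)⟩,
    ← expect_surj θ hs]
  refine Finset.expect_congr rfl fun t _ => ?_
  rw [← hΦ _ (-((a * t.1) /ₘ M + c /ₘ M))]
  congr 1
  show _ = (a * t.1) %ₘ M + c %ₘ M
  linear_combination -modByMonic_add_div (a * t.1) M - modByMonic_add_div c M

theorem lin {m a : F[X]} (hm : m ≠ 0) (ha : IsCoprime a m) {Φ : F[X] → ℝ} (hΦ : Per m Φ)
    {l : ℕ} (hl : m.natDegree ≤ l) (c : F[X]) :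
    𝔼 t : degreeLT F l, Φ (c + a * t.1) = 𝔼 t : degreeLT F m.natDegree, Φ t.1 := by
  have hu : m.leadingCoeff⁻¹ ≠ 0 := inv_ne_zero (leadingCoeff_ne_zero.2 hm)
  have hd : (m * C m.leadingCoeff⁻¹).natDegree = m.natDegree := natDegree_mul_C hu
  have := lin_monic (monic_mul_leadingCoeff_inv hm)
    ((isCoprime_mul_unit_right_right (isUnit_C.2 hu.isUnit) _ _).2 ha) (Φ := Φ)
    (fun f t => by rw [mul_assoc, hΦ]) (hd.trans_le hl) c
  rwa [hd] at this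

theorem mul_mem {i j n : ℕ} (hn : i + j = n) {d e : F[X]} (hd : d ∈ monF F i) (he : e ∈ monF F j) :
    d * e ∈ monF F n := by
  rw [mem_monF] at hd he ⊢
  exact ⟨hd.1.mul he.1, by rw [hd.1.natDegree_mul he.1, hd.2, he.2, hn]⟩

theorem sum_cv_mul {i j n : ℕ} (hn : i + j = n) (a b G : F[X] → ℝ) :
    ∑ f ∈ monF F n, cv a b i j f * G f =
      ∑ d ∈ monF F i, ∑ e ∈ monF F j, a d * b e * G (d * e) := by
  simp only [cv, Finset.sum_mul]
  rw [Finset.sum_comm]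
  refine Finset.sum_congr rfl fun d hd => ?_
  rw [Finset.sum_comm]
  refine Finset.sum_congr rfl fun e he => ?_
  simp only [mul_assoc]
  exact SVar.sum_ind_eq (mul_mem hn hd he) fun f => a d * (b e * G f)

theorem monF_zero : monF F 0 = {1} := by
  ext g
  rw [mem_monF, mem_singleton]
  exact ⟨fun h => h.1.natDegree_eq_zero.1 h.2, fun h => by simp [h]⟩

theorem cfg_eq (h : F[X]) (μ κ ε₁ ε₂ i : ℕ) (G : F[X] → F[X] → F[X] → F[X] → F[X] → ℝ) :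
    cfg h μ κ ε₁ ε₂ i G = ∑ k ∈ monF F κ, ∑ e₁ ∈ monF F ε₁, ∑ e₂ ∈ monF F ε₂, ∑ m ∈ monF F μ,
      ∑ d ∈ monF F i, ind (d * (e₁ * e₂) = m * k + h) * G m k e₁ e₂ d := by
  unfold cfg
  rw [Finset.sum_comm]
  refine Finset.sum_congr rfl fun k _ => ?_
  rw [Finset.sum_comm]
  exact Finset.sum_congr rfl fun e₁ _ => Finset.sum_comm

theorem sum_rot {α : Type*} (A B D : Finset α) (G : α → α → α → ℝ) :
    ∑ d ∈ D, ∑ a ∈ A, ∑ b ∈ B, G a b d = ∑ a ∈ A, ∑ b ∈ B, ∑ d ∈ D, G a b d := by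
  rw [Finset.sum_comm]
  exact Finset.sum_congr rfl fun _ _ => Finset.sum_comm

end TBasB

open TBasB

theorem expect_per {m : F[X]} (hm : m ≠ 0) {Φ : F[X] → ℝ} (hΦ : Per m Φ) {l l' : ℕ}
    (hl : m.natDegree ≤ l) (hl' : m.natDegree ≤ l') (c : F[X]) :
    𝔼 t : degreeLT F l, Φ (c + t.1) = 𝔼 t : degreeLT F l', Φ t.1 := by
  have h1 := lin hm isCoprime_one_left hΦ hl c
  have h2 := lin hm isCoprime_one_left hΦ hl' 0
  simp only [one_mul, zero_add] at h1 h2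
  rw [h1, h2]

theorem sum_monF_per {m : F[X]} (hm : m ≠ 0) {Φ : F[X] → ℝ} (hΦ : Per m Φ) {n l : ℕ}
    (hn : m.natDegree ≤ n) (hl : m.natDegree ≤ l) :
    ∑ f ∈ monF F n, Φ f = qq F n * 𝔼 t : degreeLT F l, Φ t.1 := by
  rw [sum_monF, ← expect_per hm hΦ hn hl (X ^ n), expect_LT, qq,
    mul_div_cancel₀ _ (pow_pos card_pos' n).ne']

theorem expect_mul_coprime {m m' : F[X]} (hm : m ≠ 0) (hm' : m' ≠ 0) (hc : IsCoprime m m')
    {Φ Ψ : F[X] → ℝ} (hΦ : Per m Φ) (hΨ : Per m' Ψ) {l : ℕ}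
    (hl : m.natDegree + m'.natDegree ≤ l) :
    𝔼 t : degreeLT F l, Φ t.1 * Ψ t.1 =
      (𝔼 t : degreeLT F l, Φ t.1) * 𝔼 t : degreeLT F l, Ψ t.1 := by
  rw [expect_avg (fun t : degreeLT F l => Φ t.1 * Ψ t.1) (mulLT m hl), Finset.expect_mul]
  refine Finset.expect_congr rfl fun t _ => ?_
  have h1 := lin hm' hc hΨ le_rfl t.1
  have h2 := expect_per hm' hΨ le_rfl ((Nat.le_add_left _ _).trans hl) 0
  simp only [zero_add] at h2
  rw [← h2, ← h1, Finset.mul_expect]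
  refine Finset.expect_congr rfl fun u _ => ?_
  show Φ (t.1 + m * u.1) * Ψ (t.1 + m * u.1) = _
  rw [hΦ]

theorem expect_prod_coprime {ι : Type*} (s : Finset ι) (m : ι → F[X]) (hm : ∀ i ∈ s, m i ≠ 0)
    (hc : ∀ i ∈ s, ∀ j ∈ s, i ≠ j → IsCoprime (m i) (m j)) (Φ : ι → F[X] → ℝ)
    (hΦ : ∀ i ∈ s, Per (m i) (Φ i)) {l : ℕ} (hl : ∑ i ∈ s, (m i).natDegree ≤ l) :
    𝔼 t : degreeLT F l, ∏ i ∈ s, Φ i t.1 = ∏ i ∈ s, 𝔼 t : degreeLT F l, Φ i t.1 := by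
  classical
  induction s using Finset.induction_on with
  | empty => simp
  | insert a s ha ih =>
    rw [Finset.sum_insert ha] at hl
    have hm' : ∀ i ∈ s, m i ≠ 0 := fun i hi => hm i (mem_insert_of_mem hi)
    simp only [Finset.prod_insert ha]
    rw [← ih hm' (fun i hi j hj => hc i (mem_insert_of_mem hi) j (mem_insert_of_mem hj))
      (fun i hi => hΦ i (mem_insert_of_mem hi)) ((Nat.le_add_left _ _).trans hl)]
    refine expect_mul_coprime (hm a (mem_insert_self _ _)) (Finset.prod_ne_zero_iff.2 hm')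
      (IsCoprime.prod_right fun i hi => hc a (mem_insert_self _ _) i (mem_insert_of_mem hi)
        (ne_of_mem_of_not_mem hi ha).symm) (hΦ a (mem_insert_self _ _))
      (Ψ := fun f => ∏ i ∈ s, Φ i f) (fun f t => Finset.prod_congr rfl fun i hi => ?_)
      (by rwa [natDegree_prod _ _ hm'])
    obtain ⟨c, hc'⟩ := Finset.dvd_prod_of_mem m hi
    rw [hc', mul_assoc, hΦ i (mem_insert_of_mem hi)]

theorem corr_comm [CharP F 2] {h : F[X]} {n : ℕ} (hn : h.degree < n) (Φ Ψ : F[X] → ℝ) :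
    corr h n Φ Ψ = corr h n Ψ Φ := by
  unfold corr
  rw [← sum_monF_shift hn fun f => Ψ f * Φ (f + h)]
  refine Finset.sum_congr rfl fun f _ => ?_
  rw [add_assoc, CharTwo.add_self_eq_zero, add_zero, mul_comm]

theorem mcorr_comm [CharP F 2] {h : F[X]} {N : ℕ} (hn : h.degree < N) (Φ Ψ : F[X] → ℝ) :
    mcorr h N Φ Ψ = mcorr h N Ψ Φ := by
  unfold mcorr
  rw [← expect_shift (fun f : degreeLT F N => Ψ f.1 * Φ (f.1 + h)) ⟨h, mem_degreeLT.2 hn⟩]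
  refine Finset.expect_congr rfl fun f _ => ?_
  show _ = Ψ (f.1 + h) * Φ (f.1 + h + h)
  rw [add_assoc, CharTwo.add_self_eq_zero, add_zero, mul_comm]

theorem up_eq_cv {n μ κ : ℕ} (hn : μ + κ = n) (β : F[X] → ℝ) {f : F[X]} (hf : f ∈ monF F n) :
    up β κ f = cv (fun _ => 1) β μ κ f := by
  unfold up cv
  rw [Finset.sum_comm]
  refine Finset.sum_congr rfl fun e he => ?_
  rw [mem_monF] at hf he
  by_cases hd : e ∣ f
  · obtain ⟨c, rfl⟩ := hd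
    have hc := he.1.of_mul_monic_left hf.1
    have h1 : c ∈ monF F μ := mem_monF.2 ⟨hc, by
      have := hf.2
      rw [he.1.natDegree_mul hc, he.2] at this
      omega⟩
    rw [ind_pos (dvd_mul_right _ _), ← SVar.sum_ind_eq h1 fun _ => 1 * β e]
    refine Finset.sum_congr rfl fun d _ => ?_
    rw [SVar.ind_congr (Q := d * e = e * c) ⟨fun h => by rw [h, mul_comm], fun h =>
      mul_left_cancel₀ he.1.ne_zero (by rw [← h, mul_comm])⟩]
  · rw [ind_neg hd, zero_mul]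
    exact (Finset.sum_eq_zero fun d _ => by
      rw [ind_neg fun h : d * e = f => hd (h ▸ dvd_mul_left _ _), zero_mul]).symm

theorem cv_comm (a b : F[X] → ℝ) (i j : ℕ) (f : F[X]) : cv a b i j f = cv b a j i f := by
  unfold cv
  rw [Finset.sum_comm]
  refine Finset.sum_congr rfl fun e _ => Finset.sum_congr rfl fun d _ => ?_
  rw [mul_comm d e, mul_comm (a d)]

theorem cv3_merge (a b c : F[X] → ℝ) (i j k : ℕ) (f : F[X]) :
    cv3 a b c i j k f = cv3 a (cv b c j k) (fun _ => 1) i (j + k) 0 f := by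
  unfold cv3
  refine Finset.sum_congr rfl fun d _ => ?_
  simp only [monF_zero, sum_singleton, mul_one]
  refine Eq.trans ?_ ((sum_cv_mul rfl b c fun E => ind (d * E = f) * a d).symm.trans
    (Finset.sum_congr rfl fun E _ => by ring))
  exact Finset.sum_congr rfl fun e _ => Finset.sum_congr rfl fun g _ => by ring

section Cfg

variable {h : F[X]} {μ κ ε₁ ε₂ i : ℕ}

theorem corr_eq_cfg {n : ℕ} (hn : μ + κ = n) (α₁ β₁ c α₂ β₂ : F[X] → ℝ) :
    corr h n (cv α₁ β₁ μ κ) (cv3 c α₂ β₂ i ε₁ ε₂) =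
      cfg h μ κ ε₁ ε₂ i fun m k e₁ e₂ d => α₁ m * β₁ k * (c d * (α₂ e₁ * β₂ e₂)) := by
  unfold corr cfg
  rw [sum_cv_mul hn α₁ β₁ fun f => cv3 c α₂ β₂ i ε₁ ε₂ (f + h)]
  refine Finset.sum_congr rfl fun m _ => Finset.sum_congr rfl fun k _ => ?_
  rw [← sum_rot]
  simp only [cv3, Finset.mul_sum]
  exact Finset.sum_congr rfl fun d _ => Finset.sum_congr rfl fun e₁ _ =>
    Finset.sum_congr rfl fun e₂ _ => by ring

theorem cfg_mono {G G' : F[X] → F[X] → F[X] → F[X] → F[X] → ℝ}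
    (H : ∀ m ∈ monF F μ, ∀ k ∈ monF F κ, ∀ e₁ ∈ monF F ε₁, ∀ e₂ ∈ monF F ε₂, ∀ d ∈ monF F i,
      d * (e₁ * e₂) = m * k + h → G m k e₁ e₂ d ≤ G' m k e₁ e₂ d) :
    cfg h μ κ ε₁ ε₂ i G ≤ cfg h μ κ ε₁ ε₂ i G' := by
  refine Finset.sum_le_sum fun m hm => Finset.sum_le_sum fun k hk => Finset.sum_le_sum
    fun e₁ h₁ => Finset.sum_le_sum fun e₂ h₂ => Finset.sum_le_sum fun d hd => ?_
  by_cases he : d * (e₁ * e₂) = m * k + h
  · exact mul_le_mul_of_nonneg_left (H m hm k hk e₁ h₁ e₂ h₂ d hd he) (ind_nonneg _)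
  · rw [ind_neg he, zero_mul, zero_mul]

theorem cfg_congr {G G' : F[X] → F[X] → F[X] → F[X] → F[X] → ℝ}
    (H : ∀ m ∈ monF F μ, ∀ k ∈ monF F κ, ∀ e₁ ∈ monF F ε₁, ∀ e₂ ∈ monF F ε₂, ∀ d ∈ monF F i,
      d * (e₁ * e₂) = m * k + h → G m k e₁ e₂ d = G' m k e₁ e₂ d) :
    cfg h μ κ ε₁ ε₂ i G = cfg h μ κ ε₁ ε₂ i G' :=
  le_antisymm (cfg_mono fun m hm k hk e₁ h₁ e₂ h₂ d hd he => (H m hm k hk e₁ h₁ e₂ h₂ d hd he).le)
    (cfg_mono fun m hm k hk e₁ h₁ e₂ h₂ d hd he => (H m hm k hk e₁ h₁ e₂ h₂ d hd he).ge)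

theorem abs_cfg_le (G : F[X] → F[X] → F[X] → F[X] → F[X] → ℝ) :
    |cfg h μ κ ε₁ ε₂ i G| ≤ cfg h μ κ ε₁ ε₂ i fun m k e₁ e₂ d => |G m k e₁ e₂ d| := by
  refine (Finset.abs_sum_le_sum_abs _ _).trans (Finset.sum_le_sum fun m _ => ?_)
  refine (Finset.abs_sum_le_sum_abs _ _).trans (Finset.sum_le_sum fun k _ => ?_)
  refine (Finset.abs_sum_le_sum_abs _ _).trans (Finset.sum_le_sum fun e₁ _ => ?_)
  refine (Finset.abs_sum_le_sum_abs _ _).trans (Finset.sum_le_sum fun e₂ _ => ?_)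
  refine (Finset.abs_sum_le_sum_abs _ _).trans (Finset.sum_le_sum fun d _ => ?_)
  rw [abs_mul, abs_of_nonneg (ind_nonneg _)]

theorem cfg_add (G G' : F[X] → F[X] → F[X] → F[X] → F[X] → ℝ) :
    (cfg h μ κ ε₁ ε₂ i fun m k e₁ e₂ d => G m k e₁ e₂ d + G' m k e₁ e₂ d) =
      cfg h μ κ ε₁ ε₂ i G + cfg h μ κ ε₁ ε₂ i G' := by
  simp only [cfg, mul_add, Finset.sum_add_distrib]

theorem cfg_mul (c : ℝ) (G : F[X] → F[X] → F[X] → F[X] → F[X] → ℝ) :
    (cfg h μ κ ε₁ ε₂ i fun m k e₁ e₂ d => c * G m k e₁ e₂ d) = c * cfg h μ κ ε₁ ε₂ i G := by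
  simp only [cfg, Finset.mul_sum, mul_left_comm c]

theorem cfg_sum {ι : Type*} (s : Finset ι) (G : ι → F[X] → F[X] → F[X] → F[X] → F[X] → ℝ) :
    (cfg h μ κ ε₁ ε₂ i fun m k e₁ e₂ d => ∑ x ∈ s, G x m k e₁ e₂ d) =
      ∑ x ∈ s, cfg h μ κ ε₁ ε₂ i (G x) := by
  classical
  induction s using Finset.induction_on with
  | empty => simp [cfg]
  | insert a s ha ih =>
    simp only [Finset.sum_insert ha]
    rw [cfg_add, ih]

theorem cfg_expect {ι : Type*} [Fintype ι] (G : ι → F[X] → F[X] → F[X] → F[X] → F[X] → ℝ) :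
    (cfg h μ κ ε₁ ε₂ i fun m k e₁ e₂ d => 𝔼 x, G x m k e₁ e₂ d) =
      𝔼 x, cfg h μ κ ε₁ ε₂ i (G x) := by
  simp only [Fintype.expect_eq_sum_div_card, div_eq_inv_mul]
  rw [cfg_mul, cfg_sum]

theorem cfg_le {τ : ℝ} {n : ℕ} (hτ : DivB F τ n) (hn : μ + κ = n) (hn' : i + ε₁ + ε₂ = n)
    {φ : F[X] → ℝ} (hφ : ∀ f, 0 ≤ φ f) :
    (cfg h μ κ ε₁ ε₂ i fun m k _ _ _ => φ (m * k)) ≤ τ ^ 3 * ∑ f ∈ monF F n, φ f := by
  have h0 : 0 ≤ τ := zero_le_one.trans hτ.one_le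
  calc _ ≤ ∑ m ∈ monF F μ, ∑ k ∈ monF F κ, 1 * 1 * (τ ^ 2 * φ (m * k)) := by
        refine Finset.sum_le_sum fun m _ => Finset.sum_le_sum fun k _ => ?_
        rw [← sum_rot]
        simp only [← Finset.sum_mul, one_mul]
        exact mul_le_mul_of_nonneg_right (sum_three_le hτ hn'.le _) (hφ _)
    _ = ∑ f ∈ monF F n, cv (fun _ => 1) (fun _ => 1) μ κ f * (τ ^ 2 * φ f) :=
        (sum_cv_mul hn (fun _ => 1) (fun _ => 1) fun f => τ ^ 2 * φ f).symm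
    _ ≤ ∑ f ∈ monF F n, τ * (τ ^ 2 * φ f) := by
        refine Finset.sum_le_sum fun f _ => mul_le_mul_of_nonneg_right ?_
          (mul_nonneg (pow_nonneg h0 2) (hφ f))
        simpa only [cv, mul_one] using sum_two_le hτ hn.le f
    _ = _ := by
        rw [Finset.mul_sum]
        exact Finset.sum_congr rfl fun f _ => by ring

theorem cfg_one_le {τ : ℝ} {n : ℕ} (hτ : DivB F τ n) (hn : μ + κ = n) (hn' : i + ε₁ + ε₂ = n) :
    (cfg h μ κ ε₁ ε₂ i fun _ _ _ _ _ => 1) ≤ τ ^ 3 * qq F n := by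
  have := cfg_le (h := h) hτ hn hn' (φ := fun _ => 1) fun _ => zero_le_one
  rwa [sum_one_monF] at this

theorem cfg_shift (hn : i + ε₁ + ε₂ = μ + κ) (s : F[X] → F[X] → F[X] → F[X])
    (hs : ∀ k ∈ monF F κ, ∀ e₁ ∈ monF F ε₁, ∀ e₂ ∈ monF F ε₂, (k * s k e₁ e₂).degree < i)
    (G : F[X] → F[X] → F[X] → F[X] → F[X] → ℝ) :
    cfg h μ κ ε₁ ε₂ i G = cfg h μ κ ε₁ ε₂ i fun m k e₁ e₂ d =>
      G (m + e₁ * e₂ * s k e₁ e₂) k e₁ e₂ (d + k * s k e₁ e₂) := by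
  rw [cfg_eq, cfg_eq]
  refine Finset.sum_congr rfl fun k hk => Finset.sum_congr rfl fun e₁ h₁ =>
    Finset.sum_congr rfl fun e₂ h₂ => ?_
  have h3 := hs k hk e₁ h₁ e₂ h₂
  generalize s k e₁ e₂ = σ at h3 ⊢
  have h4 : (e₁ * e₂ * σ).degree < μ := by
    by_cases h0 : σ = 0
    · rw [h0, mul_zero, degree_zero]
      exact WithBot.bot_lt_coe _
    have h5 := mem_monF.1 (mul_mem rfl h₁ h₂)
    rw [mem_monF] at hk
    rw [← natDegree_lt_iff_degree_lt (mul_ne_zero hk.1.ne_zero h0),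
      natDegree_mul hk.1.ne_zero h0, hk.2] at h3
    rw [← natDegree_lt_iff_degree_lt (mul_ne_zero h5.1.ne_zero h0),
      natDegree_mul h5.1.ne_zero h0, h5.2]
    omega
  rw [← sum_monF_shift h4]
  refine Finset.sum_congr rfl fun m _ => ?_
  rw [← sum_monF_shift h3]
  refine Finset.sum_congr rfl fun d _ => ?_
  rw [SVar.ind_congr (Q := d * (e₁ * e₂) = m * k + h)
    ⟨fun e => by linear_combination e, fun e => by linear_combination e⟩]

end Cfg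

end Pool.Agent.MP_43e117_nt
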