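import Mathlib
import Pool.Agent.MP_43e117_nt.TBasB

/- Twin primes of `F[X]`: exceptional configurations are rare. -/

set_option autoImplicit false
set_option linter.unusedSectionVars false

namespace Pool.Agent.MP_43e117_nt

open Polynomial Finset Pool.Agent.MP_4fffd4_nt Pool.Agent.MP_c853c5_nt
open scoped BigOperators

variable {F : Type*} [Field F] [Fintype F]

namespace TBad

theorem cases_bad {h m k e₁ e₂ d' B : F[X]} (hh : h ≠ 0) {d u : ℕ} (hhd : h.natDegree < d)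
    (hBs : Squarefree B) (he : d' * (e₁ * e₂) = m * k + h)
    (hb : SLine.Bad d u (d' * (k * e₂ * B))) :
    (Sq d (m * k) ∨ Sq d (m * k + h)) ∨ ∃ P : F[X], (P.Monic ∧ P ∣ B) ∧
      (Irreducible P ∧ d ≤ P.natDegree) ∧ (P ∣ m * k ∨ P ∣ m * k + h) := by
  obtain ⟨P, h1, h2, h3, -, h5⟩ := hb
  have e1 : d' * e₂ ∣ m * k + h := ⟨e₁, by rw [← he]; ring⟩
  have e2 : k ∣ m * k := dvd_mul_left _ _
  have key : ∀ x y : F[X], ¬ P ∣ x → P ^ 2 ∣ x * y → P ^ 2 ∣ y := fun x y hx hxy =>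
    ((h2.coprime_iff_not_dvd.2 hx).pow_left).dvd_of_dvd_mul_left hxy
  by_cases hPB : P ∣ B
  · refine Or.inr ⟨P, ⟨h1, hPB⟩, ⟨h2, h3⟩, ?_⟩
    have : P ∣ k * (d' * e₂) := by
      by_contra hn
      have := key _ B hn (by rwa [show k * (d' * e₂) * B = d' * (k * e₂ * B) by ring])
      exact h2.not_isUnit (hBs P (by rwa [← sq]))
    exact (h2.prime.dvd_or_dvd this).imp (·.trans e2) (·.trans e1)
  · have h6 : P ^ 2 ∣ k * (d' * e₂) :=
      key B _ hPB (by rwa [show B * (k * (d' * e₂)) = d' * (k * e₂ * B) by ring])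
    left
    by_cases hk : P ∣ k
    · refine Or.inl ⟨P, h1, h3, (key (d' * e₂) k (fun h7 => ?_) (by rwa [mul_comm])).trans e2⟩
      have := natDegree_le_of_dvd ((dvd_add_right (hk.trans e2)).1 (h7.trans e1)) hh
      omega
    · exact Or.inr ⟨P, h1, h3, (key k _ hk h6).trans e1⟩

theorem equi [CharP F 2] {P C k c : F[X]} {d : ℕ} (hP : P ∈ irrF F d) (hc : c.natDegree ≤ 1)
    (hC : ¬ P ∣ od (c * C)) (hk : ¬ P ∣ k) (W : F[X]) :
    𝔼 t : degreeLT F (2 * d), ind (P ∣ W + k * od (t.1 * C)) ≤ 1 / qq F d := by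
  obtain ⟨h1, h2, h3⟩ := mem_irrF.1 hP
  have hθ : ∀ x : degreeLT F d, x.1 ^ 2 * c ∈ degreeLT F (2 * d) := fun x => by
    rw [mem_degreeLT]
    by_cases h0 : x.1 = 0
    · rw [h0, zero_pow two_ne_zero, zero_mul, degree_zero]
      exact WithBot.bot_lt_coe _
    have h4 := (natDegree_lt_iff_degree_lt h0).2 (mem_degreeLT.1 x.2)
    have h5 : (x.1 ^ 2 * c).natDegree < 2 * d :=
      (natDegree_mul_le.trans (add_le_add natDegree_pow_le hc)).trans_lt (by omega)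
    exact degree_le_natDegree.trans_lt (by exact_mod_cast h5)
  have hco : IsCoprime (k * od (c * C)) P :=
    (h3.coprime_iff_not_dvd.2 fun h => (h3.prime.dvd_or_dvd h).elim hk hC).symm
  rw [expect_avg _ fun x : degreeLT F d => (⟨_, hθ x⟩ : degreeLT F (2 * d))]
  refine Finset.expect_le univ_nonempty fun t _ => le_of_eq ?_
  subst h2
  rw [← expect_lin h1 hco (W + k * od (t.1 * C)) le_rfl]
  refine Finset.expect_congr rfl fun x _ => ?_
  rw [Submodule.coe_add, add_mul, od_add, mul_assoc, od_sq_mul,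
    show W + k * (od (t.1 * C) + x.1 * od (c * C)) =
      k * od (c * C) * x.1 + (W + k * od (t.1 * C)) by ring]

end TBad

theorem cfg_bad {h : F[X]} (hh : h ≠ 0) {n μ κ ε₁ ε₂ i b d u : ℕ} (hn : μ + κ = n)
    (hn' : i + ε₁ + ε₂ = n) {τ : ℝ} (hτ : DivB F τ n) (hhd : h.natDegree < d)
    (hhn : h.natDegree < n) {B : F[X]} (hB : B ∈ monF F b) (hBs : Squarefree B) :
    (cfg h μ κ ε₁ ε₂ i fun _ k _ e₂ d' => ind (SLine.Bad d u (d' * (k * e₂ * B)))) ≤
      τ ^ 3 * (4 + 2 * b) * qq F n / qq F d := by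
  classical
  obtain ⟨hB1, hB2⟩ := mem_monF.1 hB
  have hdeg : h.degree < n := degree_le_natDegree.trans_lt (by exact_mod_cast hhn)
  set S := (divs B).filter fun P => Irreducible P ∧ d ≤ P.natDegree with hS
  have hmem : ∀ P, P ∈ S ↔ (P.Monic ∧ P ∣ B) ∧ Irreducible P ∧ d ≤ P.natDegree := fun P => by
    rw [hS, mem_filter, mem_divs hB1.ne_zero]
  have hSc : (S.card : ℝ) ≤ b := by
    rw [← hB2]
    exact_mod_cast SLine.card_le_natDegree hB1.ne_zero S fun P hP =>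
      ⟨((hmem P).1 hP).1.1, ((hmem P).1 hP).2.1, ((hmem P).1 hP).1.2⟩
  let ψ : F[X] → ℝ := fun f => ind (Sq d f) + ∑ P ∈ S, ind (P ∣ f)
  have hψ : ∀ f, 0 ≤ ψ f := fun f =>
    add_nonneg (ind_nonneg _) (sum_nonneg fun _ _ => ind_nonneg _)
  have hψ1 : ∀ f, Sq d f ∨ (∃ P ∈ S, P ∣ f) → 1 ≤ ψ f := fun f hf => by
    rw [← ind_pos hf]
    exact (ind_le_add id).trans (add_le_add le_rfl (ind_le_sum id))
  have hsum : ∑ f ∈ monF F n, ψ f ≤ (2 + b) * qq F n / qq F d := by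
    have h0 : 0 ≤ qq F n / qq F d := div_nonneg (qq_pos _).le (qq_pos _).le
    rw [sum_add_distrib, sum_comm]
    have h1 : ∑ P ∈ S, ∑ f ∈ monF F n, ind (P ∣ f) ≤ S.card • (qq F n / qq F d) :=
      sum_le_card_nsmul _ _ _ fun P hP => (sum_dvd_le ((hmem P).1 hP).1.1 n).trans
        (div_le_div_of_nonneg_left (qq_pos _).le (qq_pos _) (qq_mono ((hmem P).1 hP).2.2))
    have h2 := sum_Sq (F := F) n d
    rw [nsmul_eq_mul] at h1
    rw [mul_div_assoc] at h2 ⊢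
    nlinarith
  calc _ ≤ cfg h μ κ ε₁ ε₂ i fun m k _ _ _ => ψ (m * k) + ψ (m * k + h) := by
        refine cfg_mono fun m _ k _ e₁ _ e₂ _ d' _ he => ?_
        by_cases hb : SLine.Bad d u (d' * (k * e₂ * B))
        · rw [ind_pos hb]
          have h1 := hψ (m * k)
          have h2 := hψ (m * k + h)
          rcases TBad.cases_bad hh hhd hBs he hb with (h3 | h3) | ⟨P, h3, h4, h5 | h5⟩
          · linarith [hψ1 _ (Or.inl h3)]
          · linarith [hψ1 _ (Or.inl h3)]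
          · linarith [hψ1 _ (Or.inr ⟨P, (hmem P).2 ⟨h3, h4⟩, h5⟩)]
          · linarith [hψ1 _ (Or.inr ⟨P, (hmem P).2 ⟨h3, h4⟩, h5⟩)]
        · rw [ind_neg hb]
          exact add_nonneg (hψ _) (hψ _)
    _ ≤ τ ^ 3 * ∑ f ∈ monF F n, (ψ f + ψ (f + h)) :=
        cfg_le hτ hn hn' (φ := fun f => ψ f + ψ (f + h)) fun f => add_nonneg (hψ _) (hψ _)
    _ ≤ τ ^ 3 * ((2 + b) * qq F n / qq F d + (2 + b) * qq F n / qq F d) := by
        rw [sum_add_distrib, sum_monF_shift hdeg ψ]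
        exact mul_le_mul_of_nonneg_left (add_le_add hsum hsum)
          (pow_nonneg (zero_le_one.trans hτ.one_le) 3)
    _ = _ := by ring

theorem od_equi [CharP F 2] {P C k : F[X]} {d : ℕ} (hP : P ∈ irrF F d) (hC : ¬ P ^ 2 ∣ C)
    (hk : ¬ P ∣ k) (W : F[X]) :
    𝔼 t : degreeLT F (2 * d), ind (P ∣ W + k * od (t.1 * C)) ≤ 1 / qq F d := by
  by_cases h1 : P ∣ od (1 * C)
  · refine TBad.equi hP (c := X) natDegree_X_le (fun h2 => hC ?_) hk W
    obtain ⟨σ, hσ⟩ := exists_od C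
    have h2F : (2 : F[X]) = 0 := by exact_mod_cast CharP.cast_eq_zero F[X] 2
    have h3 : od (X * C) = σ := od_eq (by
      rw [derivative_mul, derivative_X, ← od_sq]
      linear_combination hσ + X * od C ^ 2 * h2F)
    rw [one_mul] at h1
    rw [h3] at h2
    rw [hσ]
    exact dvd_add (pow_dvd_pow_of_dvd h2 2) ((pow_dvd_pow_of_dvd h1 2).mul_left _)
  · exact TBad.equi hP (c := 1) (by simp) h1 hk W

theorem bad_of_dvd [CharP F 2] {P Y : F[X]} {d : ℕ} (u : ℕ) (hP : P ∈ irrF F d) (h1 : P ∣ Y)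
    (h2 : P ∣ od Y) : SLine.Bad d u Y := by
  obtain ⟨h3, h4, h5⟩ := mem_irrF.1 hP
  obtain ⟨σ, hσ⟩ := exists_od Y
  have h6 : P ^ 2 ∣ X * od Y ^ 2 := (pow_dvd_pow_of_dvd h2 2).mul_left _
  have h7 : P ∣ σ := by
    refine h5.prime.dvd_of_dvd_pow (n := 2) ?_
    rw [hσ] at h1
    exact (dvd_add_left ((dvd_pow_self P two_ne_zero).trans h6)).1 h1
  refine ⟨P, h3, h5, h4.ge, by omega, ?_⟩
  rw [hσ]
  exact dvd_add (pow_dvd_pow_of_dvd h7 2) h6

theorem natDegree_lt_of_small {h : F[X]} {n η : ℕ} (hn : 1 ≤ n) {τ : ℝ} (hτ : 1 ≤ τ)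
    (hη : 100 * n * τ ^ 4 * qq F (2 * h.natDegree) ≤ qq F η) : h.natDegree < η := by
  by_contra hlt
  have h1 : qq F η ≤ qq F (2 * h.natDegree) := qq_mono (by omega)
  have h2 : (1 : ℝ) ≤ n := by exact_mod_cast hn
  have h3 : 1 ≤ τ ^ 4 := one_le_pow₀ hτ
  have h4 := qq_pos (F := F) (2 * h.natDegree)
  have h5 : 1 ≤ (n : ℝ) * τ ^ 4 := one_le_mul_of_one_le_of_one_le h2 h3
  nlinarith

end Pool.Agent.MP_43e117_nt
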