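import Mathlib
import Pool.Agent.MP_43e117_nt.THH
import Pool.Agent.MP_43e117_nt.TBasB

/- Twin primes of `F[X]`: conditional means in the model. -/

set_option autoImplicit false
set_option linter.unusedSectionVars false

namespace Pool.Agent.MP_43e117_nt

open Polynomial Finset Pool.Agent.MP_4fffd4_nt Pool.Agent.MP_c853c5_nt
open scoped BigOperators

variable {F : Type*} [Field F] [Fintype F]

namespace TCond

theorem ind_iff {P Q : Prop} (h : P ↔ Q) : ind P = ind Q := by rw [propext h]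

theorem coprime_of_ne {P Q : F[X]} (hP : P.Monic) (hP' : Irreducible P) (hQ : Q.Monic)
    (hQ' : Irreducible Q) (hne : P ≠ Q) : IsCoprime P Q := by
  rw [hP'.coprime_iff_not_dvd]
  intro hd
  exact hne (eq_of_monic_of_associated hP hQ (hP'.associated_of_dvd hQ' hd))

theorem prod_dvd {T : Finset F[X]} (hT : ∀ P ∈ T, P.Monic ∧ Irreducible P) {g : F[X]}
    (hg : ∀ P ∈ T, P ∣ g) : ∏ P ∈ T, P ∣ g :=
  Finset.prod_dvd_of_coprime (fun P hP Q hQ hne =>
    coprime_of_ne (hT P hP).1 (hT P hP).2 (hT Q hQ).1 (hT Q hQ).2 hne) hg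

theorem prod_ind {T : Finset F[X]} (hT : ∀ P ∈ T, P.Monic ∧ Irreducible P) (g : F[X]) :
    ∏ P ∈ T, ind (P ∣ g) = ind (∏ P ∈ T, P ∣ g) := by
  by_cases h : ∀ P ∈ T, P ∣ g
  · rw [ind_pos (prod_dvd hT h)]
    exact Finset.prod_eq_one fun P hP => ind_pos (h P hP)
  · push Not at h
    obtain ⟨P, hP, hn⟩ := h
    rw [ind_neg fun hd => hn ((Finset.dvd_prod_of_mem (fun P => P) hP).trans hd)]
    exact Finset.prod_eq_zero hP (ind_neg hn)

theorem deg_prod {T : Finset F[X]} (hT : ∀ P ∈ T, P.Monic ∧ Irreducible P) :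
    (∏ P ∈ T, P).natDegree = ∑ P ∈ T, P.natDegree :=
  natDegree_prod_of_monic _ _ fun P hP => (hT P hP).1

theorem sum_deg_le {T : Finset F[X]} (hT : ∀ P ∈ T, P.Monic ∧ Irreducible P) {g : F[X]}
    (hg0 : g ≠ 0) (hg : ∀ P ∈ T, P ∣ g) : ∑ P ∈ T, P.natDegree ≤ g.natDegree := by
  rw [← deg_prod hT]
  exact natDegree_le_of_dvd (prod_dvd hT hg) hg0

theorem prod_pf {d : F[X]} (hd : d.Monic) (hs : Squarefree d) : ∏ P ∈ pf d, P = d := by
  classical
  have h1 : (UniqueFactorizationMonoid.normalizedFactors d).Nodup :=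
    (UniqueFactorizationMonoid.squarefree_iff_nodup_normalizedFactors hd.ne_zero).1 hs
  have h2 := UniqueFactorizationMonoid.prod_normalizedFactors_eq hd.ne_zero
  rw [hd.normalize_eq_self] at h2
  unfold pf
  rw [Finset.prod_eq_multiset_prod, Multiset.toFinset_val, Multiset.map_id']
  rw [Multiset.dedup_eq_self.2 h1]
  exact h2

theorem inv_qq_sum (T : Finset F[X]) :
    1 / qq F (∑ P ∈ T, P.natDegree) = ∏ P ∈ T, 1 / qq F P.natDegree := by
  rw [Finset.prod_div_distrib, Finset.prod_const_one]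
  unfold qq
  rw [Finset.prod_pow_eq_pow_sum]

theorem mean_coprime {m : F[X]} (hm : m ≠ 0) {Φ : F[X] → ℝ} (hΦ : Per m Φ) {T : Finset F[X]}
    (hT : ∀ P ∈ T, P.Monic ∧ Irreducible P) (hT' : ∀ P ∈ T, ¬ P ∣ m) {N : ℕ}
    (hN : m.natDegree + ∑ P ∈ T, P.natDegree ≤ N) :
    𝔼 f : degreeLT F N, Φ f.1 * ∏ P ∈ T, ind (P ∣ f.1) =
      (𝔼 f : degreeLT F N, Φ f.1) * ∏ P ∈ T, 1 / qq F P.natDegree := by
  have hmon : (∏ P ∈ T, P).Monic := monic_prod_of_monic _ _ fun P hP => (hT P hP).1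
  have hc : IsCoprime m (∏ P ∈ T, P) :=
    IsCoprime.prod_right fun P hP =>
      (((hT P hP).2.coprime_iff_not_dvd).2 (hT' P hP)).symm
  have hper : Per (∏ P ∈ T, P) fun f => ind (∏ P ∈ T, P ∣ f) := fun f t =>
    ind_iff (dvd_add_left (dvd_mul_right _ _))
  simp only [prod_ind hT]
  rw [expect_mul_coprime hm hmon.ne_zero hc hΦ hper (by rw [deg_prod hT]; exact hN)]
  congr 1
  have := expect_lin hmon (a := 1) isCoprime_one_left 0 (n := N) (by rw [deg_prod hT]; omega)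
  simp only [one_mul, add_zero] at this
  rw [this, deg_prod hT, inv_qq_sum]

open Classical in
theorem mean_sqfree {h K D₁ D₂ : F[X]} (hK : K.Monic) (h₁ : D₁.Monic) (h₂ : D₂.Monic) {N : ℕ}
    {d : F[X]} (hd : d.Monic) (hs : Squarefree d)
    (hN : K.natDegree + D₁.natDegree + D₂.natDegree + d.natDegree ≤ N) :
    𝔼 f : degreeLT F N, ind (K ∣ f.1) * ind (D₁ ∣ f.1 + h) * ind (D₂ ∣ f.1 + h) * ind (d ∣ f.1) =
      (𝔼 f : degreeLT F N, ind (K ∣ f.1) * ind (D₁ ∣ f.1 + h) * ind (D₂ ∣ f.1 + h)) *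
        ∏ P ∈ pf d, (if P ∈ pf (K * D₁ * D₂) then (if P ∣ K ∨ P ∣ h then 1 else 0)
          else 1 / qq F P.natDegree) := by
  have hM : (K * D₁ * D₂).Monic := (hK.mul h₁).mul h₂
  have hpf : ∀ P ∈ pf d, P.Monic ∧ Irreducible P := fun P hP =>
    ⟨((mem_pf hd.ne_zero).1 hP).1, ((mem_pf hd.ne_zero).1 hP).2.1⟩
  set S := pf (K * D₁ * D₂) with hS
  set T := (pf d).filter fun P => ¬ P ∈ S with hT
  have hTp : ∀ P ∈ T, P.Monic ∧ Irreducible P := fun P hP => hpf P (mem_filter.1 hP).1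
  have hT' : ∀ P ∈ T, ¬ P ∣ K * D₁ * D₂ := fun P hP hdv =>
    (mem_filter.1 hP).2 ((mem_pf hM.ne_zero).2 ⟨(hTp P hP).1, (hTp P hP).2, hdv⟩)
  have hper : Per (K * D₁ * D₂)
      fun f => ind (K ∣ f) * ind (D₁ ∣ f + h) * ind (D₂ ∣ f + h) := by
    intro f t
    have e : f + K * D₁ * D₂ * t + h = f + h + K * D₁ * D₂ * t := by ring
    simp only [e]
    rw [ind_iff (dvd_add_left (a := K) (b := f) ⟨D₁ * D₂ * t, by ring⟩),
      ind_iff (dvd_add_left (a := D₁) (b := f + h) ⟨K * D₂ * t, by ring⟩),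
      ind_iff (dvd_add_left (a := D₂) (b := f + h) ⟨K * D₁ * t, by ring⟩)]
  have hdeg : (K * D₁ * D₂).natDegree + ∑ P ∈ T, P.natDegree ≤ N := by
    have := sum_deg_le hTp hd.ne_zero fun P hP => ((mem_pf hd.ne_zero).1 (mem_filter.1 hP).1).2.2
    rw [(hK.mul h₁).natDegree_mul h₂, hK.natDegree_mul h₁]
    omega
  have key := mean_coprime hM.ne_zero hper hTp hT' hdeg
  have hpt : ∀ f : F[X], ind (K ∣ f) * ind (D₁ ∣ f + h) * ind (D₂ ∣ f + h) * ind (d ∣ f) =
      (∏ P ∈ (pf d).filter (· ∈ S), (if P ∣ K ∨ P ∣ h then (1 : ℝ) else 0)) *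
        (ind (K ∣ f) * ind (D₁ ∣ f + h) * ind (D₂ ∣ f + h) * ∏ P ∈ T, ind (P ∣ f)) := by
    intro f
    by_cases e1 : K ∣ f
    swap
    · rw [ind_neg e1]; ring
    by_cases e2 : D₁ ∣ f + h
    swap
    · rw [ind_neg e2]; ring
    by_cases e3 : D₂ ∣ f + h
    swap
    · rw [ind_neg e3]; ring
    have e4 : ind (d ∣ f) = ∏ P ∈ pf d, ind (P ∣ f) := by rw [prod_ind hpf, prod_pf hd hs]
    rw [e4, ← Finset.prod_filter_mul_prod_filter_not (pf d) (· ∈ S)]
    have e5 : ∏ P ∈ (pf d).filter (· ∈ S), ind (P ∣ f) =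
        ∏ P ∈ (pf d).filter (· ∈ S), (if P ∣ K ∨ P ∣ h then (1 : ℝ) else 0) := by
      refine Finset.prod_congr rfl fun P hP => ?_
      obtain ⟨-, hi, hdv⟩ := (mem_pf hM.ne_zero).1 (mem_filter.1 hP).2
      have hiff : P ∣ f ↔ P ∣ K ∨ P ∣ h := by
        by_cases hPK : P ∣ K
        · exact ⟨fun _ => Or.inl hPK, fun _ => hPK.trans e1⟩
        have hfh : P ∣ f + h := by
          rcases hi.prime.dvd_or_dvd hdv with h' | h'
          · exact ((hi.prime.dvd_or_dvd h').resolve_left hPK).trans e2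
          · exact h'.trans e3
        exact ⟨fun hf => Or.inr ((dvd_add_right hf).1 hfh),
          fun hh => (dvd_add_left (hh.resolve_left hPK)).1 hfh⟩
      rw [ind_iff hiff]
      split_ifs with hc
      · exact ind_pos hc
      · exact ind_neg hc
    rw [e5]
    ring
  simp only [hpt]
  rw [← Finset.mul_expect, key, Finset.prod_ite (s := pf d)]
  ring

end TCond

open Classical in
theorem cond_mean {h K D₁ D₂ : F[X]} (hK : K.Monic) (h₁ : D₁.Monic) (h₂ : D₂.Monic) {i N : ℕ}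
    (hN : K.natDegree + D₁.natDegree + D₂.natDegree + i ≤ N) :
    𝔼 f : degreeLT F N, ind (K ∣ f.1) * ind (D₁ ∣ f.1 + h) * ind (D₂ ∣ f.1 + h) * up mu i f.1 =
      (𝔼 f : degreeLT F N, ind (K ∣ f.1) * ind (D₁ ∣ f.1 + h) * ind (D₂ ∣ f.1 + h)) *
        cc (pf (K * D₁ * D₂)) (fun P => if P ∣ K ∨ P ∣ h then 1 else 0) i := by
  unfold up cc
  simp only [Finset.mul_sum]
  rw [Finset.expect_sum_comm]
  refine Finset.sum_congr rfl fun d hd => ?_
  obtain ⟨hd, hdi⟩ := mem_monF.1 hd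
  by_cases hs : Squarefree d
  · simp only [← mul_assoc]
    rw [← Finset.expect_mul, TCond.mean_sqfree hK h₁ h₂ hd hs (by omega)]
    ring
  · have : mu d = 0 := by unfold mu; rw [if_neg hs]
    simp [this]

open Classical in
theorem NN_le {h K D₁ D₂ : F[X]} (hh : h ≠ 0) (hK : K.Monic) (h₁ : D₁.Monic) (h₂ : D₂.Monic)
    {τ : ℝ} {N : ℕ} (hτ : DivB F τ N) (hN : K.natDegree + D₁.natDegree + D₂.natDegree ≤ N) :
    NN (pf (K * D₁ * D₂)) (fun P => if P ∣ K ∨ P ∣ h then 1 else 0) ≤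
      τ ^ 2 * (4 / 3) ^ (K.natDegree + h.natDegree) := by
  have hM : (K * D₁ * D₂).Monic := (hK.mul h₁).mul h₂
  set S := pf (K * D₁ * D₂) with hS
  have h1 : NN S (fun P => if P ∣ K ∨ P ∣ h then 1 else 0) ≤
      ∏ P ∈ S, (4 * (4 / 3 : ℝ) ^ (if P ∣ K ∨ P ∣ h then P.natDegree else 0)) := by
    unfold NN
    refine Finset.prod_le_prod (fun P _ => by positivity) fun P _ => ?_
    have hq := one_le_qq (F := F) P.natDegree
    have hq0 := qq_pos (F := F) P.natDegree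
    have h43 : (1 : ℝ) ≤ (4 / 3) ^ P.natDegree := one_le_pow₀ (by norm_num)
    have hi : 1 / qq F P.natDegree ≤ 1 := (div_le_one hq0).2 hq
    have hi0 : 0 < 1 / qq F P.natDegree := by positivity
    beta_reduce
    split_ifs with hc
    · rw [abs_of_nonneg (by linarith)]
      nlinarith
    · rw [zero_sub, abs_neg, abs_of_pos hi0, pow_zero]
      have h2 : (4 / 3 : ℝ) ^ P.natDegree ≤ qq F P.natDegree :=
        (pow_le_pow_left₀ (by norm_num) (by norm_num) _).trans (two_pow_le_qq _)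
      have h3 : 1 / qq F P.natDegree * (4 / 3 : ℝ) ^ P.natDegree ≤ 1 := by
        rw [one_div, inv_mul_le_iff₀ hq0, mul_one]; exact h2
      nlinarith
  refine h1.trans ?_
  rw [Finset.prod_mul_distrib, Finset.prod_const, Finset.prod_pow_eq_pow_sum, ← Finset.sum_filter]
  have h2 : (2 : ℝ) ^ S.card ≤ τ := by
    refine le_trans ?_ (hτ _ hM.ne_zero (by
      rw [(hK.mul h₁).natDegree_mul h₂, hK.natDegree_mul h₁]; exact hN))
    exact_mod_cast two_pow_pf_le hM.ne_zero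
  have h3 : ∑ P ∈ S.filter (fun P => P ∣ K ∨ P ∣ h), P.natDegree ≤
      K.natDegree + h.natDegree := by
    rw [← natDegree_mul hK.ne_zero hh]
    refine TCond.sum_deg_le (fun P hP => ?_) (mul_ne_zero hK.ne_zero hh) fun P hP => ?_
    · have := (mem_pf hM.ne_zero).1 (mem_filter.1 hP).1
      exact ⟨this.1, this.2.1⟩
    · rcases (mem_filter.1 hP).2 with h' | h'
      · exact h'.mul_right _
      · exact h'.mul_left _
  refine mul_le_mul ?_ (pow_le_pow_right₀ (by norm_num) h3) (by positivity) (by positivity)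
  rw [show (4 : ℝ) ^ S.card = (2 ^ S.card) ^ 2 by rw [← pow_mul, mul_comm, pow_mul]; norm_num]
  exact pow_le_pow_left₀ (by positivity) h2 2

namespace TCond

theorem expect_eq_le (N : ℕ) (c : F[X]) : 𝔼 f : degreeLT F N, ind (f.1 = c) ≤ 1 / qq F N := by
  rw [expect_LT]
  refine div_le_div_of_nonneg_right ?_ (qq_pos N).le
  have := sum_ind_le (P := fun f : degreeLT F N => f.1 = c) {c} (fun f => f.1)
    (fun _ _ _ _ e => Subtype.ext e) fun _ e => mem_singleton.2 e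
  simpa using this

theorem sum_mon_le (i : ℕ) (f : F[X]) : ∑ D ∈ monF F i, ind (D ∣ f) ≤ qq F i :=
  (Finset.sum_le_sum fun _ _ => ind_le_one _).trans (sum_one_monF i).le

theorem sum_monLE_le (R : ℕ) (f : F[X]) :
    ∑ t ∈ range R, ∑ D ∈ monF F t, ind (D ∣ f) ≤ qq F R :=
  (Finset.sum_le_sum fun t _ => sum_mon_le t f).trans (sum_range_qq R)

end TCond

theorem sum_events {h : F[X]} {n R i : ℕ} (hn : 2 ≤ n) (hhn : h.natDegree ≤ n) (hR : R ≤ n)
    (hi : i ≤ n) {τ : ℝ} (hτ : DivB F τ (5 * n)) :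
    ∑ t ∈ range (R + 1), ∑ K ∈ monF F t, ∑ D₁ ∈ monF F i, ∑ t' ∈ range (R + 1), ∑ D₂ ∈ monF F t',
      𝔼 f : degreeLT F (5 * n), ind (K ∣ f.1) * ind (D₁ ∣ f.1 + h) * ind (D₂ ∣ f.1 + h) ≤
      2 * τ ^ 3 := by
  simp only [← Finset.expect_sum_comm]
  have hτ1 := hτ.one_le
  have hpt : ∀ f : degreeLT F (5 * n),
      ∑ t ∈ range (R + 1), ∑ K ∈ monF F t, ∑ D₁ ∈ monF F i, ∑ t' ∈ range (R + 1),
        ∑ D₂ ∈ monF F t', ind (K ∣ f.1) * ind (D₁ ∣ f.1 + h) * ind (D₂ ∣ f.1 + h) ≤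
      τ ^ 3 + qq F (4 * n) * (ind (f.1 = 0) + ind (f.1 = -h)) := by
    intro f
    have e : ∑ t ∈ range (R + 1), ∑ K ∈ monF F t, ∑ D₁ ∈ monF F i, ∑ t' ∈ range (R + 1),
        ∑ D₂ ∈ monF F t', ind (K ∣ f.1) * ind (D₁ ∣ f.1 + h) * ind (D₂ ∣ f.1 + h) =
        (∑ t ∈ range (R + 1), ∑ K ∈ monF F t, ind (K ∣ f.1)) *
          (∑ D₁ ∈ monF F i, ind (D₁ ∣ f.1 + h)) *
          ∑ t' ∈ range (R + 1), ∑ D₂ ∈ monF F t', ind (D₂ ∣ f.1 + h) := by
      simp only [← Finset.mul_sum, ← Finset.sum_mul]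
    rw [e]
    have a0 : 0 ≤ ∑ t ∈ range (R + 1), ∑ K ∈ monF F t, ind (K ∣ f.1) :=
      Finset.sum_nonneg fun _ _ => Finset.sum_nonneg fun _ _ => ind_nonneg _
    have b0 : 0 ≤ ∑ D₁ ∈ monF F i, ind (D₁ ∣ f.1 + h) :=
      Finset.sum_nonneg fun _ _ => ind_nonneg _
    have c0 : 0 ≤ ∑ t ∈ range (R + 1), ∑ K ∈ monF F t, ind (K ∣ f.1 + h) :=
      Finset.sum_nonneg fun _ _ => Finset.sum_nonneg fun _ _ => ind_nonneg _
    have i1 := ind_nonneg (f.1 = 0)
    have i2 := ind_nonneg (f.1 = -h)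
    have hq := qq_pos (F := F) (4 * n)
    by_cases hf : f.1 = 0 ∨ f.1 = -h
    · have h1 : 1 ≤ ind (f.1 = 0) + ind (f.1 = -h) := by
        rcases hf with hf | hf
        · rw [ind_pos hf]; linarith
        · rw [ind_pos hf]; linarith
      have h2 : qq F (R + 1) * qq F i * qq F (R + 1) ≤ qq F (4 * n) := by
        rw [← qq_add, ← qq_add]
        exact qq_mono (by omega)
      have h3 := mul_le_mul (mul_le_mul (TCond.sum_monLE_le (R + 1) f.1)
        (TCond.sum_mon_le i (f.1 + h)) b0 (qq_pos _).le) (TCond.sum_monLE_le (R + 1) (f.1 + h)) c0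
        (mul_pos (qq_pos _) (qq_pos _)).le
      have h4 : 0 ≤ τ ^ 3 := by positivity
      nlinarith
    · push Not at hf
      have hf2 : f.1 + h ≠ 0 := fun e => hf.2 (eq_neg_of_add_eq_zero_left e)
      have d1 : f.1.natDegree ≤ 5 * n := natDegree_le_of_degree_le (mem_degreeLT.1 f.2).le
      have d2 : (f.1 + h).natDegree ≤ 5 * n :=
        (natDegree_add_le _ _).trans (max_le d1 (by omega))
      have h3 := mul_le_mul (mul_le_mul (sum_upLE_le hτ hf.1 d1 (R + 1))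
        (sum_up_le hτ hf2 d2 i) b0 (by linarith)) (sum_upLE_le hτ hf2 d2 (R + 1)) c0
        (by positivity)
      have h4 : 0 ≤ qq F (4 * n) * (ind (f.1 = 0) + ind (f.1 = -h)) := by positivity
      nlinarith
  refine (Finset.expect_le_expect fun f _ => hpt f).trans ?_
  rw [Finset.expect_add_distrib, Fintype.expect_const, ← Finset.mul_expect,
    Finset.expect_add_distrib]
  have e1 := TCond.expect_eq_le (F := F) (5 * n) 0
  have e2 := TCond.expect_eq_le (F := F) (5 * n) (-h)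
  have hq := qq_pos (F := F) (4 * n)
  have hq' := qq_pos (F := F) n
  have h2 : (2 : ℝ) ≤ qq F n :=
    le_trans (le_self_pow₀ (by norm_num) (by omega)) (two_pow_le_qq n)
  have h5 : qq F (4 * n) * (1 / qq F (5 * n) + 1 / qq F (5 * n)) ≤ 1 := by
    rw [show 5 * n = 4 * n + n by ring, qq_add]
    rw [show qq F (4 * n) * (1 / (qq F (4 * n) * qq F n) + 1 / (qq F (4 * n) * qq F n)) =
      2 / qq F n by field_simp; ring]
    exact (div_le_one hq').2 h2
  have h6 : 1 ≤ τ ^ 3 := one_le_pow₀ hτ1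
  have h7 := mul_le_mul_of_nonneg_left (add_le_add e1 e2) hq.le
  linarith

end Pool.Agent.MP_43e117_nt
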