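import Mathlib
import Pool.Agent.MP_43e117_nt.TBasA

/- Twin primes of `F[X]`: mean values of completely multiplicative functions. -/

set_option autoImplicit false
set_option linter.unusedSectionVars false

namespace Pool.Agent.MP_43e117_nt

open Polynomial Finset Pool.Agent.MP_4fffd4_nt Pool.Agent.MP_c853c5_nt
open scoped BigOperators

variable {F : Type*} [Field F] [Fintype F]

theorem cm_mul (w : F[X] → ℝ) {f g : F[X]} (hf : f ≠ 0) (hg : g ≠ 0) :
    cm w (f * g) = cm w f * cm w g := by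
  classical
  unfold cm
  rw [UniqueFactorizationMonoid.normalizedFactors_mul hf hg, Multiset.map_add, Multiset.prod_add]

theorem cm_nonneg {w : F[X] → ℝ} (hw : ∀ P, 0 ≤ w P) (g : F[X]) : 0 ≤ cm w g := by
  unfold cm
  refine Multiset.prod_nonneg fun a ha => ?_
  obtain ⟨P, -, rfl⟩ := Multiset.mem_map.1 ha
  exact hw P

namespace TEuler

theorem cm_one (w : F[X] → ℝ) : cm w 1 = 1 := by
  classical
  unfold cm
  rw [UniqueFactorizationMonoid.normalizedFactors_one, Multiset.map_zero, Multiset.prod_zero]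

theorem cm_irr (w : F[X] → ℝ) {P : F[X]} (h1 : P.Monic) (h2 : Irreducible P) : cm w P = w P := by
  classical
  unfold cm
  rw [UniqueFactorizationMonoid.normalizedFactors_irreducible h2, h1.normalize_eq_self,
    Multiset.map_singleton, Multiset.prod_singleton]

theorem cm_pow (w : F[X] → ℝ) {P : F[X]} (h1 : P.Monic) (h2 : Irreducible P) (a : ℕ) :
    cm w (P ^ a) = w P ^ a := by
  induction a with
  | zero => rw [pow_zero, pow_zero, cm_one]
  | succ a ih =>
    rw [pow_succ, cm_mul w (pow_ne_zero _ h1.ne_zero) h1.ne_zero, ih, cm_irr w h1 h2, pow_succ]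

theorem cm_const (g : F[X]) : cm (fun _ => (1 : ℝ)) g = 1 := by
  unfold cm
  simp

open Classical in
/-- The monic polynomials of degree at most `n` with all their prime factors in `S`. -/
noncomputable def sm (n : ℕ) (S : Finset F[X]) : Finset F[X] :=
  ((range (n + 1)).biUnion (monF F)).filter fun g =>
    ∀ Q : F[X], Q.Monic → Irreducible Q → Q ∣ g → Q ∈ S

theorem mem_sm {n : ℕ} {S : Finset F[X]} {g : F[X]} : g ∈ sm n S ↔
    g.Monic ∧ g.natDegree ≤ n ∧ ∀ Q : F[X], Q.Monic → Irreducible Q → Q ∣ g → Q ∈ S := by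
  classical
  simp only [sm, mem_filter, mem_biUnion, mem_range, mem_monF]
  exact ⟨fun ⟨⟨_, h1, h2, h3⟩, h4⟩ => ⟨h2, by omega, h4⟩,
    fun ⟨h1, h2, h3⟩ => ⟨⟨_, by omega, h1, rfl⟩, h3⟩⟩

theorem sum_sm {t : F[X] → ℝ} (h0 : ∀ g, 0 ≤ t g) (h1 : t 1 = 1)
    (hm : ∀ f g : F[X], f.Monic → g.Monic → t (f * g) = t f * t g) (n : ℕ) (S : Finset F[X])
    (hS : ∀ P ∈ S, P.Monic ∧ t P < 1) : ∑ g ∈ sm n S, t g ≤ ∏ P ∈ S, (1 - t P)⁻¹ := by
  classical
  induction S using Finset.induction_on with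
  | empty =>
    rw [prod_empty, ← h1, ← sum_singleton t 1]
    refine sum_le_sum_of_subset_of_nonneg (fun g hg => ?_) fun _ _ _ => h0 _
    obtain ⟨a, -, c⟩ := mem_sm.1 hg
    rw [mem_singleton]
    by_contra h
    obtain ⟨P, g', b1, b2, -, rfl⟩ := SConv.exists_fac a h
    exact notMem_empty _ (c P b1 b2 (dvd_mul_right _ _))
  | insert P S hP ih =>
    obtain ⟨hPm, hPt⟩ := hS P (mem_insert_self _ _)
    have ih' := ih fun Q hQ => hS Q (mem_insert_of_mem hQ)
    have e1 : ∑ g ∈ (sm n (insert P S)).filter (fun g => ¬ P ∣ g), t g ≤ ∑ g ∈ sm n S, t g := by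
      refine sum_le_sum_of_subset_of_nonneg (fun g hg => ?_) fun _ _ _ => h0 _
      obtain ⟨hg1, hg2⟩ := mem_filter.1 hg
      obtain ⟨a, b, c⟩ := mem_sm.1 hg1
      refine mem_sm.2 ⟨a, b, fun Q q1 q2 q3 => ?_⟩
      rcases mem_insert.1 (c Q q1 q2 q3) with h | h
      · exact absurd (h ▸ q3) hg2
      · exact h
    have e2 : ∑ g ∈ (sm n (insert P S)).filter (fun g => P ∣ g), t g ≤
        t P * ∑ g ∈ sm n (insert P S), t g := by
      rw [mul_sum, ← sum_congr rfl fun g hg => hm P g hPm (mem_sm.1 hg).1,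
        ← sum_image (f := t) (g := fun g => P * g)
          fun _ _ _ _ e => mul_left_cancel₀ hPm.ne_zero e]
      refine sum_le_sum_of_subset_of_nonneg (fun g hg => ?_) fun _ _ _ => h0 _
      obtain ⟨hg1, g', rfl⟩ := mem_filter.1 hg
      obtain ⟨a, b, c⟩ := mem_sm.1 hg1
      have a' := hPm.of_mul_monic_left a
      rw [hPm.natDegree_mul a'] at b
      exact mem_image.2 ⟨g', mem_sm.2 ⟨a', by omega, fun Q q1 q2 q3 =>
        c Q q1 q2 (q3.mul_left _)⟩, rfl⟩
    have e3 := sum_filter_add_sum_filter_not (sm n (insert P S)) (fun g => P ∣ g) t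
    rw [prod_insert hP, ← div_eq_inv_mul, le_div_iff₀ (by linarith)]
    linarith

theorem sum_biU (n : ℕ) (φ : F[X] → ℝ) :
    ∑ j ∈ range (n + 1), ∑ g ∈ monF F j, φ g = ∑ g ∈ sm n (irrLE F n), φ g := by
  classical
  rw [← sum_biUnion]
  · refine sum_congr ?_ fun _ _ => rfl
    ext g
    simp only [mem_sm, mem_biUnion, mem_range, mem_monF, mem_irrLE]
    exact ⟨fun ⟨_, h1, h2, h3⟩ => ⟨h2, by omega, fun Q q1 q2 q3 =>
      ⟨q1, q2, (natDegree_le_of_dvd q3 h2.ne_zero).trans (by omega)⟩⟩,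
      fun ⟨h1, h2, _⟩ => ⟨_, by omega, h1, rfl⟩⟩
  · intro i _ j _ hij
    exact disjoint_left.2 fun d a b => hij ((mem_monF.1 a).2.symm.trans (mem_monF.1 b).2)

theorem conv (n : ℕ) (φ ψ : F[X] → ℝ) : ∑ g ∈ monF F n, ∑ d ∈ divs g, φ d * ψ g =
    ∑ i ∈ range (n + 1), ∑ d ∈ monF F i, ∑ e ∈ monF F (n - i), φ d * ψ (d * e) := by
  classical
  have h1 : ∀ g ∈ monF F n, ∑ d ∈ divs g, φ d * ψ g =
      ∑ i ∈ range (n + 1), ∑ d ∈ monF F i, if d ∣ g then φ d * ψ g else 0 := fun g hg => by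
    unfold divs
    rw [sum_filter, sum_biUnion, (mem_monF.1 hg).2]
    · intro i _ j _ hij
      exact disjoint_left.2 fun d a b => hij ((mem_monF.1 a).2.symm.trans (mem_monF.1 b).2)
  rw [sum_congr rfl h1, sum_comm]
  refine sum_congr rfl fun i hi => ?_
  rw [sum_comm]
  refine sum_congr rfl fun d hd => ?_
  obtain ⟨h2, h3⟩ := mem_monF.1 hd
  have hi' := mem_range.1 hi
  rw [← sum_filter]
  symm
  refine sum_bij (fun e _ => d * e) (fun e he => ?_)
    (fun _ _ _ _ e => mul_left_cancel₀ h2.ne_zero e) (fun g hg => ?_) fun _ _ => rfl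
  · obtain ⟨h4, h5⟩ := mem_monF.1 he
    rw [mem_filter, mem_monF, h2.natDegree_mul h4]
    exact ⟨⟨h2.mul h4, by omega⟩, dvd_mul_right _ _⟩
  · rw [mem_filter, mem_monF] at hg
    obtain ⟨⟨h4, h5⟩, e, rfl⟩ := hg
    have h6 := h2.of_mul_monic_left h4
    rw [h2.natDegree_mul h6] at h5
    exact ⟨e, mem_monF.2 ⟨h6, by omega⟩, rfl⟩

theorem sum_vm_cm {w : F[X] → ℝ} (hw : ∀ P, 0 ≤ w P) (hw3 : ∀ P, w P ≤ 3)
    (hw1 : ∀ P : F[X], P.natDegree < 8 → w P ≤ 1) (n : ℕ) :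
    ∑ g ∈ monF F n, vm g * cm w g ≤ 5 * qq F n := by
  classical
  have hq := two_le_card (F := F)
  have h1 : ∀ g ∈ monF F n, vm g * cm w g ≤ 3 * vm g + 2 ^ (n / 2) *
      ∑ d ∈ range (n / 2 + 1), ∑ P ∈ irrF F d, if g = P ^ (n / d) then (d : ℝ) else 0 := by
    intro g hg
    have a1 : (0 : ℝ) ≤ 3 * vm g := mul_nonneg (by norm_num) (vm_nonneg g)
    have a2 : ∀ d, ∀ P ∈ irrF F d, (0 : ℝ) ≤ if g = P ^ (n / d) then (d : ℝ) else 0 :=
      fun d P _ => by positivity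
    have a3 : ∀ d ∈ range (n / 2 + 1),
        (0 : ℝ) ≤ ∑ P ∈ irrF F d, if g = P ^ (n / d) then (d : ℝ) else 0 :=
      fun d _ => sum_nonneg (a2 d)
    have a4 := mul_nonneg (show (0 : ℝ) ≤ 2 ^ (n / 2) by positivity) (sum_nonneg a3)
    rcases SConv.vm_cases g with h | ⟨P, b1, b2, a, ha, e, h⟩
    · rw [h, zero_mul, mul_zero, zero_add]; exact a4
    have b3 := (mem_monF.1 hg).2
    rw [e, b1.natDegree_pow] at b3
    have c0 : cm w g = w P ^ a := e ▸ cm_pow w b1 b2 a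
    rcases Nat.eq_or_lt_of_le (Nat.succ_le_of_lt ha) with h2 | h2
    · rw [← h2, Nat.succ_eq_add_one, zero_add, pow_one] at c0
      refine le_add_of_le_of_nonneg ?_ a4
      rw [c0, mul_comm]
      exact mul_le_mul_of_nonneg_right (hw3 P) (vm_nonneg g)
    · have b4 := b2.natDegree_pos
      have b5 : P.natDegree ∈ range (n / 2 + 1) := by
        rw [mem_range, Nat.lt_succ_iff, Nat.le_div_iff_mul_le two_pos, ← b3, mul_comm]
        exact Nat.mul_le_mul_right _ h2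
      have c1 : cm w g ≤ 2 ^ (n / 2) := by
        rw [c0]
        by_cases h8 : P.natDegree < 8
        · exact (pow_le_one₀ (hw P) (hw1 P h8)).trans (one_le_pow₀ one_le_two)
        · calc _ ≤ ((2 : ℝ) ^ 2) ^ a := pow_le_pow_left₀ (hw P) ((hw3 P).trans (by norm_num)) a
            _ ≤ _ := by
              rw [← pow_mul]
              refine pow_le_pow_right₀ one_le_two ?_
              rw [Nat.le_div_iff_mul_le two_pos, ← b3]
              nlinarith
      refine le_add_of_nonneg_of_le a1 ?_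
      rw [mul_comm]
      refine mul_le_mul c1 ?_ (vm_nonneg g) (by positivity)
      refine le_trans ?_ (single_le_sum a3 b5)
      refine le_trans ?_ (single_le_sum (a2 _) (mem_irrF.2 ⟨b1, rfl, b2⟩))
      rw [h, if_pos (by rw [← b3, Nat.mul_div_cancel _ b4, e])]
  have h2 := sum_le_sum h1
  rw [sum_add_distrib, ← mul_sum, ← mul_sum, sum_comm] at h2
  have h3 : ∑ d ∈ range (n / 2 + 1), ∑ g ∈ monF F n, ∑ P ∈ irrF F d,
      (if g = P ^ (n / d) then (d : ℝ) else 0) ≤ 2 * (Fintype.card F : ℝ) ^ (n / 2) := by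
    refine (sum_le_sum fun d _ => ?_).trans (SConv.geom _)
    rw [sum_comm]
    refine (sum_le_card_nsmul _ _ (d : ℝ) fun P _ => ?_).trans ?_
    · rw [sum_ite_eq']
      split_ifs
      · exact le_rfl
      · positivity
    · rw [nsmul_eq_mul, mul_comm]
      exact SConv.card_irrF_le d
  have h4 : (2 : ℝ) ^ (n / 2) * qq F (n / 2) ≤ qq F n := by
    calc _ ≤ qq F (n / 2) * qq F (n / 2) :=
          mul_le_mul_of_nonneg_right (two_pow_le_qq _) (qq_pos _).le
      _ ≤ _ := by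
          rw [← qq_add]
          exact qq_mono (by omega)
  have h5 := mul_le_mul_of_nonneg_left h3 (show (0 : ℝ) ≤ 2 ^ (n / 2) by positivity)
  have h6 := sum_vm_monF (F := F) n
  unfold qq at h4 ⊢
  linarith

end TEuler

theorem euler {w : F[X] → ℝ} (hw : ∀ P, 0 ≤ w P) {n : ℕ}
    (hw' : ∀ P ∈ irrLE F n, w P < qq F P.natDegree) :
    ∑ j ∈ range (n + 1), ∑ g ∈ monF F j, cm w g / qq F j ≤
      ∏ P ∈ irrLE F n, (1 - w P / qq F P.natDegree)⁻¹ := by
  have h := TEuler.sum_sm (t := fun g => cm w g / qq F g.natDegree)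
    (fun g => div_nonneg (cm_nonneg hw g) (qq_pos _).le)
    (by rw [TEuler.cm_one, natDegree_one, qq_zero, div_one])
    (fun f g hf hg => by
      rw [cm_mul w hf.ne_zero hg.ne_zero, hf.natDegree_mul hg, qq_add, mul_div_mul_comm])
    n (irrLE F n) fun P hP => ⟨(mem_irrLE.1 hP).1, by
      rw [TEuler.cm_irr w (mem_irrLE.1 hP).1 (mem_irrLE.1 hP).2.1, div_lt_one (qq_pos _)]
      exact hw' P hP⟩
  rw [← TEuler.sum_biU] at h
  refine le_trans (le_of_eq ?_) (h.trans_eq ?_)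
  · exact sum_congr rfl fun j _ => sum_congr rfl fun g hg => by rw [(mem_monF.1 hg).2]
  · exact prod_congr rfl fun P hP => by
      rw [TEuler.cm_irr w (mem_irrLE.1 hP).1 (mem_irrLE.1 hP).2.1]

theorem hall_ten {w : F[X] → ℝ} (hw : ∀ P, 0 ≤ w P) (hw3 : ∀ P, w P ≤ 3)
    (hw1 : ∀ P : F[X], P.natDegree < 8 → w P ≤ 1) {m n : ℕ} (hm : m ≤ n) :
    (m : ℝ) * ∑ e ∈ monF F m, cm w e ≤
      5 * qq F m * ∏ P ∈ irrLE F n, (1 - w P / qq F P.natDegree)⁻¹ := by
  have h0 : ∀ j, 0 ≤ ∑ g ∈ monF F j, cm w g := fun j => sum_nonneg fun g _ => cm_nonneg hw g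
  have h1 : (m : ℝ) * ∑ e ∈ monF F m, cm w e =
      ∑ g ∈ monF F m, ∑ d ∈ divs g, vm d * cm w g := by
    rw [mul_sum]
    refine sum_congr rfl fun g hg => ?_
    rw [← sum_mul, sum_vm_divs (mem_monF.1 hg).1, (mem_monF.1 hg).2]
  have h2 := euler hw (n := n) fun P hP => by
    have a := (mem_irrLE.1 hP).2.1.natDegree_pos
    refine lt_of_lt_of_le ?_ (two_pow_le_qq _)
    by_cases h8 : P.natDegree < 8
    · exact (hw1 P h8).trans_lt (one_lt_pow₀ one_lt_two a.ne')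
    · calc w P ≤ 3 := hw3 P
        _ < 2 ^ 8 := by norm_num
        _ ≤ _ := pow_le_pow_right₀ one_le_two (by omega)
  rw [h1, TEuler.conv]
  refine le_trans ?_ (mul_le_mul_of_nonneg_left h2 (mul_pos (by norm_num) (qq_pos m)).le)
  have h3 : ∑ j ∈ range (m + 1), ∑ g ∈ monF F j, cm w g / qq F j ≤
      ∑ j ∈ range (n + 1), ∑ g ∈ monF F j, cm w g / qq F j :=
    sum_le_sum_of_subset_of_nonneg (range_subset_range.2 (by omega)) fun j _ _ =>
      sum_nonneg fun g _ => div_nonneg (cm_nonneg hw g) (qq_pos _).le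
  refine le_trans ?_ (mul_le_mul_of_nonneg_left h3 (mul_pos (by norm_num) (qq_pos m)).le)
  rw [← sum_range_reflect (fun j => ∑ g ∈ monF F j, cm w g / qq F j), mul_sum]
  refine sum_le_sum fun i hi => ?_
  have hi' := mem_range.1 hi
  have e1 : ∑ d ∈ monF F i, ∑ e ∈ monF F (m - i), vm d * cm w (d * e) =
      (∑ d ∈ monF F i, vm d * cm w d) * ∑ e ∈ monF F (m - i), cm w e := by
    rw [sum_mul_sum]
    refine sum_congr rfl fun d hd => sum_congr rfl fun e he => ?_
    rw [cm_mul w (mem_monF.1 hd).1.ne_zero (mem_monF.1 he).1.ne_zero, mul_assoc]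
  have e2 : qq F m = qq F i * qq F (m - i) := by rw [← qq_add, Nat.add_sub_cancel' (by omega)]
  rw [e1, show m + 1 - 1 - i = m - i by omega, ← sum_div, e2]
  refine (mul_le_mul_of_nonneg_right (TEuler.sum_vm_cm hw hw3 hw1 i) (h0 _)).trans_eq ?_
  have := (qq_pos (F := F) (m - i)).ne'
  field_simp

theorem mertens (y : ℕ) : ((y : ℝ) + 1) * VS (irrLE F y) ≤ 1 := by
  have h0 : ∀ P ∈ irrLE F y, 1 < qq F P.natDegree := fun P hP =>
    (one_lt_pow₀ one_lt_two (mem_irrLE.1 hP).2.1.natDegree_pos.ne').trans_le (two_pow_le_qq _)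
  have h := euler (F := F) (w := fun _ => 1) (fun _ => zero_le_one) h0
  have h1 : ∑ j ∈ range (y + 1), ∑ g ∈ monF F j, cm (fun _ => (1 : ℝ)) g / qq F j = y + 1 := by
    rw [sum_congr rfl (g := fun _ => (1 : ℝ)) fun j _ => ?_]
    · simp
    · simp only [TEuler.cm_const]
      rw [← sum_div, sum_one_monF, div_self (qq_pos j).ne']
  have h2 : 0 < VS (irrLE F y) := prod_pos fun P hP => by
    rw [sub_pos, div_lt_one (qq_pos _)]
    exact h0 P hP
  rw [h1, prod_inv_distrib] at h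
  rw [← le_div_iff₀ h2, one_div]
  exact h

theorem prod_inv_le_exp {ι : Type*} (s : Finset ι) (x : ι → ℝ)
    (hx : ∀ j ∈ s, 0 ≤ x j ∧ x j ≤ 1 / 2) :
    ∏ j ∈ s, (1 - x j)⁻¹ ≤ Real.exp (2 * ∑ j ∈ s, x j) := by
  rw [mul_sum, Real.exp_sum]
  refine prod_le_prod (fun j hj => inv_nonneg.2 (by linarith [(hx j hj).2])) fun j hj => ?_
  obtain ⟨a, b⟩ := hx j hj
  refine le_trans ?_ (Real.add_one_le_exp _)
  rw [inv_le_iff_one_le_mul₀ (by linarith)]
  nlinarith

end Pool.Agent.MP_43e117_nt
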