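import Mathlib
import Pool.Agent.MP_43e117_nt.TBasA

/- Twin primes of `F[X]`: Fourier expansion of the amplified sum. -/

set_option autoImplicit false
set_option linter.unusedSectionVars false

namespace Pool.Agent.MP_43e117_nt

open Polynomial Finset Pool.Agent.MP_4fffd4_nt Pool.Agent.MP_c853c5_nt
open scoped BigOperators

variable {F : Type*} [Field F] [Fintype F]

namespace TOffA

theorem ind_and (P Q : Prop) : ind (P ∧ Q) = ind P * ind Q := by
  by_cases hP : P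
  · rw [ind_pos hP, one_mul]; exact SPsi.ind_congr (and_iff_right hP)
  · rw [ind_neg hP, zero_mul, ind_neg fun h => hP h.1]

theorem ind_mul_congr {P : Prop} {a b : ℝ} (h : P → a = b) : ind P * a = ind P * b := by
  by_cases hP : P
  · rw [h hP]
  · rw [ind_neg hP, zero_mul, zero_mul]

theorem ind_mul_le {P : Prop} {a b : ℝ} (hb : 0 ≤ b) (h : P → a ≤ b) : ind P * a ≤ b := by
  by_cases hP : P
  · rw [ind_pos hP, one_mul]; exact h hP
  · rw [ind_neg hP, zero_mul]; exact hb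

theorem sum_ind_mem {α : Type*} (s : Finset α) (a : α) : ∑ x ∈ s, ind (x = a) = ind (a ∈ s) := by
  by_cases ha : a ∈ s
  · rw [Finset.sum_eq_single_of_mem a ha fun x _ hx => ind_neg hx, ind_pos rfl, ind_pos ha]
  · rw [ind_neg ha]
    exact Finset.sum_eq_zero fun x hx => ind_neg fun e => ha (e ▸ hx)

theorem sum_ind_card {α β : Type*} {s : Finset α} {P : α → Prop} (S : Finset β) (f : α → β)
    (hf : ∀ x ∈ s, ∀ y ∈ s, P x → P y → f x = f y → x = y) (h : ∀ x ∈ s, P x → f x ∈ S) :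
    ∑ x ∈ s, ind (P x) ≤ S.card := by
  classical
  have : ∑ x ∈ s, ind (P x) = (s.filter P).card := by
    rw [Finset.card_filter]
    push_cast
    exact Finset.sum_congr rfl fun x _ => by unfold ind; congr
  rw [this, Nat.cast_le]
  refine Finset.card_le_card_of_injOn f (fun x hx => ?_) fun x hx y hy => ?_
  · have hx' := mem_filter.1 (mem_coe.1 hx)
    exact h x hx'.1 hx'.2
  · have hx' := mem_filter.1 (mem_coe.1 hx)
    have hy' := mem_filter.1 (mem_coe.1 hy)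
    exact hf x hx'.1 y hy'.1 hx'.2 hy'.2

theorem sq_sum_le {α : Type*} {s : Finset α} {P : α → Prop} {a : α → ℝ}
    (hP : ∀ x y, P x → P y → x = y) (ha : ∀ x, |a x| ≤ 1) :
    (∑ x ∈ s, ind (P x) * a x) ^ 2 ≤ ∑ x ∈ s, ind (P x) := by
  by_cases h : ∃ x ∈ s, P x
  · obtain ⟨x, hx, hp⟩ := h
    rw [Finset.sum_eq_single_of_mem x hx fun y _ hy => by
        rw [ind_neg fun hq => hy (hP _ _ hq hp), zero_mul],
      Finset.sum_eq_single_of_mem x hx fun y _ hy => ind_neg fun hq => hy (hP _ _ hq hp),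
      ind_pos hp, one_mul]
    exact (sq_le_one_iff_abs_le_one _).2 (ha x)
  · push Not at h
    rw [Finset.sum_eq_zero fun x hx => by rw [ind_neg (h x hx), zero_mul],
      Finset.sum_eq_zero fun x hx => ind_neg (h x hx)]
    norm_num

theorem sum_modes (l t : ℕ) (G : F[X] × F[X] × F[X] × F[X] × F[X] → ℝ) :
    ∑ ω ∈ modes F l t, G ω = ∑ l₁ ∈ irrF F l, ∑ l₂ ∈ irrF F l, ind (l₁ ≠ l₂) *
      ∑ g ∈ ltF F l, ind (g ≠ 0) * ∑ j₁ ∈ ltF F t, ∑ j₂ ∈ ltF F t,
        ind (j₁ ≠ 0) * (ind (j₂ ≠ 0) * G (l₁, l₂, g, j₁, j₂)) := by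
  have h : ∀ (P : Prop) [Decidable P] (a : ℝ), (if P then a else 0) = ind P * a := fun P _ a => by
    split_ifs with h
    · rw [ind_pos h, one_mul]
    · rw [ind_neg h, zero_mul]
  rw [modes, Finset.sum_filter]
  simp only [h, Finset.sum_product, Finset.mul_sum, ind_and, mul_assoc]

omit [Fintype F] in
theorem two_eq [CharP F 2] : (2 : F[X]) = 0 := by exact_mod_cast CharP.cast_eq_zero F[X] 2

theorem count [CharP F 2] {ν t : ℕ} {d x y : F[X]} (hd : d ∈ monF F (ν + t))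
    (hy : d ∣ y * x - 1) (h : F[X]) :
    ∑ e ∈ monF F ν, ind (d ∣ x * e + h) = ind (((y * h + X ^ ν) %ₘ d).degree < ν) := by
  obtain ⟨hm, hn⟩ := mem_monF.1 hd
  obtain ⟨c, hc⟩ := hy
  rw [sum_monF, SPsi.sum_LT ν fun z => ind (d ∣ x * (X ^ ν + z) + h),
    SPsi.ind_congr (mem_ltF (n := ν)).symm, ← sum_ind_mem]
  refine Finset.sum_congr rfl fun z hz => SPsi.ind_congr ?_
  have hz' : z.degree < d.degree := by
    rw [degree_eq_natDegree hm.ne_zero, hn]
    exact (mem_ltF.1 hz).trans_le (by exact_mod_cast Nat.le_add_right _ _)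
  constructor
  · rintro ⟨k, hk⟩
    rw [← (modByMonic_eq_self_iff hm).2 hz']
    refine modByMonic_eq_of_dvd_sub hm ⟨y * k - c * (X ^ ν + z), ?_⟩
    linear_combination y * hk - (X ^ ν + z) * hc - (y * h + X ^ ν) * two_eq (F := F)
  · intro e
    have h1 := modByMonic_add_div (y * h + X ^ ν) d
    rw [← e] at h1
    refine ⟨-x * ((y * h + X ^ ν) /ₘ d) + c * h, ?_⟩
    linear_combination x * h1 + h * hc + (x * X ^ ν + h) * two_eq (F := F)

/-- The sign of a frequency. -/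
noncomputable def sg (e : F → ℝ) (ν t : ℕ) (a : F[X]) : ℝ := e ((a * X ^ ν).coeff (ν + t - 1))

theorem kk_eq [CharP F 2] {e : F → ℝ} (he : Chr e) {ν t : ℕ} {d x y : F[X]}
    (hd : d ∈ monF F (ν + t)) (hy : d ∣ y * x - 1) (h : F[X]) :
    kk h ν t d x * qq F t =
      ∑ a ∈ ltF F t, ind (a ≠ 0) * (sg e ν t a * e (SFour.res (a * (y * h)) d)) := by
  obtain ⟨hm, hn⟩ := mem_monF.1 hd
  have hc : IsCoprime d x := by
    obtain ⟨c, hc⟩ := hy
    exact ⟨-c, y, by linear_combination hc⟩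
  have hq := (qq_pos (F := F) t).ne'
  have h0 : (0 : F[X]) ∈ ltF F t := by
    rw [mem_ltF, degree_zero]; exact WithBot.bot_lt_coe _
  rw [kk, ind_pos hc, one_mul, count hd hy, ← SFour.expect_res he _ hm hn, expect_LT,
    SPsi.sum_LT t fun a => e (SFour.res (a * (y * h + X ^ ν)) d)]
  change (_ / qq F t - 1 / qq F t) * qq F t = _
  rw [← sub_div, div_mul_cancel₀ _ hq, sub_eq_iff_eq_add, ← ind_pos h0, ← sum_ind_mem,
    ← Finset.sum_add_distrib]
  refine Finset.sum_congr rfl fun a ha => ?_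
  by_cases ha0 : a = 0
  · rw [ind_neg (not_not.2 ha0), ind_pos ha0, ha0]
    simp [SFour.res, he.toSgn.zero]
  · have hlt : (a * X ^ ν).degree < d.degree := by
      have h2 := (natDegree_lt_iff_degree_lt ha0).2 (mem_ltF.1 ha)
      refine degree_lt_degree ?_
      rw [natDegree_mul_X_pow _ ha0, hn]; omega
    rw [ind_pos ha0, ind_neg ha0, mul_add, SFour.res_add, he.add, SFour.res_of_lt hm hlt, hn, sg]
    ring

omit [Fintype F] in
theorem eq_of_dvd {a b : F[X]} (ha : a.Monic) (hb : b.Monic) (ha' : Irreducible a)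
    (hb' : Irreducible b) (h : a ∣ b) : a = b :=
  eq_of_monic_of_associated ha hb (ha'.associated_of_dvd hb' h)

theorem kk_mul [CharP F 2] {e : F → ℝ} (he : Chr e) {ν t l : ℕ} {d M x g l₁ l₂ : F[X]}
    (hd : d ∈ monF F (ν + t)) (h₁ : l₁ ∈ irrF F l) (h₂ : l₂ ∈ irrF F l) (hl : l₁ ≠ l₂)
    (hg : g * d = l₁ * M + l₂ * x) (h : F[X]) :
    kk h ν t d M * kk h ν t d x * qq F (2 * t) = ∑ j₁ ∈ ltF F t, ∑ j₂ ∈ ltF F t,
      ind (j₁ ≠ 0) * (ind (j₂ ≠ 0) * (sg e ν t j₁ * sg e ν t j₂ * (ind (IsCoprime (l₁ * M) d) *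
        e (SFour.res (h * (j₁ * l₁ + j₂ * l₂) * iv d (l₁ * M)) d)))) := by
  by_cases hc : IsCoprime (l₁ * M) d
  · have hy := iv_mul hc
    set y := iv d (l₁ * M)
    have hM : d ∣ l₁ * y * M - 1 := by convert hy using 2; ring
    have hx : d ∣ l₂ * y * x - 1 := by
      obtain ⟨c, hc⟩ := hy
      exact ⟨y * g - c, by linear_combination -y * hg - hc - two_eq (F := F)⟩
    rw [two_mul, qq_add, mul_mul_mul_comm, kk_eq he hd hM, kk_eq he hd hx, Finset.sum_mul_sum]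
    refine Finset.sum_congr rfl fun j₁ _ => Finset.sum_congr rfl fun j₂ _ => ?_
    rw [ind_pos hc, show h * (j₁ * l₁ + j₂ * l₂) * y = j₁ * (l₁ * y * h) + j₂ * (l₂ * y * h) by
      ring, SFour.res_add, he.add]
    ring
  · simp only [ind_neg hc, zero_mul, mul_zero, Finset.sum_const_zero]
    by_cases hM : IsCoprime d M
    · have hx : ¬ IsCoprime d x := fun hx => by
        obtain ⟨m₁, -, i₁⟩ := mem_irrF.1 h₁
        obtain ⟨m₂, -, i₂⟩ := mem_irrF.1 h₂
        refine hc (IsCoprime.mul_left (i₁.coprime_iff_not_dvd.2 fun hdv => ?_) hM.symm)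
        have h3 : l₁ ∣ l₂ * x := by
          rw [show l₂ * x = g * d - l₁ * M by linear_combination -hg]
          exact (hdv.mul_left g).sub (dvd_mul_right _ _)
        rcases i₁.prime.dvd_or_dvd h3 with h4 | h4
        · exact hl (eq_of_dvd m₁ m₂ i₁ i₂ h4)
        · exact i₁.not_isUnit (hx.isUnit_of_dvd' hdv h4)
      rw [kk, kk, ind_neg hx]; ring
    · rw [kk, ind_neg hM]; ring

theorem sum_pair {τ : ℝ} {n : ℕ} (hτ : DivB F τ n) {Y : F[X]} (hY : Y.natDegree ≤ n) (l I : ℕ) :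
    ∑ g ∈ ltF F l, ind (g ≠ 0) * ∑ d ∈ monF F I, ind (g * d = Y) ≤ τ := by
  by_cases h0 : Y = 0
  · refine le_trans (Finset.sum_eq_zero fun g _ => ?_).le (zero_le_one.trans hτ.one_le)
    rw [← mul_zero (ind (g ≠ 0))]
    exact ind_mul_congr fun hg => Finset.sum_eq_zero fun d hd => ind_neg
      (h0 ▸ mul_ne_zero hg (mem_monF.1 hd).1.ne_zero)
  refine le_trans (Finset.sum_le_sum fun g _ => ind_mul_le
    (Finset.sum_nonneg fun d _ => ind_nonneg _) fun _ => le_rfl) ?_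
  rw [Finset.sum_comm]
  refine le_trans (Finset.sum_le_sum fun d hd => ?_) (sum_up_le hτ h0 hY I)
  by_cases hdv : d ∣ Y
  · obtain ⟨c, hc⟩ := hdv
    rw [ind_pos ⟨c, hc⟩]
    refine le_trans (Finset.sum_le_sum fun g _ => ind_mono (Q := g = c) fun hg => ?_)
      ((sum_ind_mem _ c).trans_le (ind_le_one _))
    exact mul_right_cancel₀ (mem_monF.1 hd).1.ne_zero (by rw [hg, hc, mul_comm])
  · exact (Finset.sum_eq_zero fun g _ => ind_neg fun hg => hdv ⟨g, by rw [← hg, mul_comm]⟩).le.trans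
      (ind_nonneg _)

theorem eq_zero_of_dvd {l : ℕ} {a j : F[X]} (ha : a ∈ irrF F l) (hj : j.degree < l)
    (h : a ∣ j) : j = 0 := by
  obtain ⟨m, n, -⟩ := mem_irrF.1 ha
  exact eq_zero_of_dvd_of_degree_lt h (by rwa [degree_eq_natDegree m.ne_zero, n])

theorem eq_zero_of_dvd_comb {l : ℕ} {a b i j : F[X]} (ha : a ∈ irrF F l) (hb : b ∈ irrF F l)
    (hab : a ≠ b) (hj : j.degree < l) (h : a ∣ i * a + j * b) : j = 0 := by
  obtain ⟨m₁, -, i₁⟩ := mem_irrF.1 ha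
  obtain ⟨m₂, -, i₂⟩ := mem_irrF.1 hb
  rcases i₁.prime.dvd_or_dvd ((dvd_add_right (dvd_mul_left a i)).1 h) with h1 | h1
  · exact eq_zero_of_dvd ha hj h1
  · exact (hab (eq_of_dvd m₁ m₂ i₁ i₂ h1)).elim

theorem mem_pair {l : ℕ} {a l₁ l₂ J g Z : F[X]} (ha : a ∈ irrF F l) (h₁ : l₁ ∈ irrF F l)
    (h₂ : l₂ ∈ irrF F l) (hJ : ¬ a ∣ J) (hg : g.degree < l) (hg0 : g ≠ 0)
    (h : Z * a + J * g * (l₁ * l₂) = 0) : a = l₁ ∨ a = l₂ := by
  obtain ⟨m, -, i⟩ := mem_irrF.1 ha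
  obtain ⟨m₁, -, i₁⟩ := mem_irrF.1 h₁
  obtain ⟨m₂, -, i₂⟩ := mem_irrF.1 h₂
  have h1 : a ∣ J * g * (l₁ * l₂) := ⟨-Z, by linear_combination h⟩
  rcases i.prime.dvd_or_dvd h1 with h2 | h2
  · rcases i.prime.dvd_or_dvd h2 with h3 | h3
    · exact (hJ h3).elim
    · exact (hg0 (eq_zero_of_dvd ha hg h3)).elim
  · exact (i.prime.dvd_or_dvd h2).imp (eq_of_dvd m m₁ i i₁) (eq_of_dvd m m₂ i i₂)

theorem degenerate [CharP F 2] {l t : ℕ} (ht : t ≤ l) {l₁ l₂ Y : F[X]} (h₁ : l₁ ∈ irrF F l)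
    (h₂ : l₂ ∈ irrF F l) {ω : F[X] × F[X] × F[X] × F[X] × F[X]} (hω : ω ∈ modes F l t)
    (h : Y * (ω.1 * ω.2.1) +
      (ω.2.2.2.1 * ω.1 + ω.2.2.2.2 * ω.2.1) * ω.2.2.1 * (l₁ * l₂) = 0) :
    (ω.1 = l₁ ∧ ω.2.1 = l₂ ∨ ω.1 = l₂ ∧ ω.2.1 = l₁) ∧
      (ω.2.2.2.1 * ω.1 + ω.2.2.2.2 * ω.2.1) * ω.2.2.1 = Y := by
  obtain ⟨a, b, g, i, j⟩ := ω
  obtain ⟨ha, hb, hg, hi, hj, hab, g0, i0, j0⟩ := mem_modes.1 hω
  dsimp only at *
  have htl : (t : WithBot ℕ) ≤ l := by exact_mod_cast ht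
  have e1 := mem_pair (Z := Y * b) (J := i * a + j * b) ha h₁ h₂
    (fun h => j0 (eq_zero_of_dvd_comb ha hb hab (hj.trans_le htl) h)) hg g0
    (by linear_combination h)
  have e2 := mem_pair (Z := Y * a) (J := i * a + j * b) hb h₁ h₂
    (fun h => i0 (eq_zero_of_dvd_comb hb ha hab.symm (hi.trans_le htl) (add_comm (i * a) _ ▸ h)))
    hg g0 (by linear_combination h)
  have e3 : a = l₁ ∧ b = l₂ ∨ a = l₂ ∧ b = l₁ := by
    rcases e1 with rfl | rfl <;> rcases e2 with e | e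
    · exact (hab e.symm).elim
    · exact Or.inl ⟨rfl, e⟩
    · exact Or.inr ⟨rfl, e⟩
    · exact (hab e.symm).elim
  refine ⟨e3, ?_⟩
  have e4 : a * b = l₁ * l₂ := by
    rcases e3 with ⟨rfl, rfl⟩ | ⟨rfl, rfl⟩
    · rfl
    · exact mul_comm _ _
  refine mul_right_cancel₀ (mul_ne_zero (mem_irrF.1 h₁).1.ne_zero (mem_irrF.1 h₂).1.ne_zero) ?_
  rw [e4] at h
  linear_combination h - Y * (l₁ * l₂) * two_eq (F := F)

end TOffA

open TOffA

theorem offd_eq [CharP F 2] {e : F → ℝ} (he : Chr e) (h : F[X]) (ν t I' l : ℕ) :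
    ∃ s : F[X] × F[X] × F[X] × F[X] × F[X] → ℝ, (∀ ω, |s ω| ≤ 1) ∧ ∀ β : F[X] → ℝ,
      offd h ν t I' l β * qq F (2 * t) = ∑ M ∈ monF F I', ∑ x ∈ monF F I',
        β M * β x * ∑ ω ∈ modes F l t, s ω * xw e h (ν + t) ω M x := by
  refine ⟨fun ω => sg e ν t ω.2.2.2.1 * sg e ν t ω.2.2.2.2, fun ω => ?_, fun β => ?_⟩
  · simp only [sg, abs_mul, he.toSgn.abs_eq, mul_one, le_refl]
  rw [offd, Finset.sum_mul]
  refine Finset.sum_congr rfl fun M _ => ?_
  rw [Finset.sum_mul]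
  refine Finset.sum_congr rfl fun x _ => ?_
  rw [mul_assoc, sum_modes, Finset.sum_mul]
  refine congrArg _ (Finset.sum_congr rfl fun l₁ h₁ => ?_)
  rw [Finset.sum_mul]
  refine Finset.sum_congr rfl fun l₂ h₂ => ?_
  rw [mul_assoc, Finset.sum_mul]
  refine ind_mul_congr fun hl => Finset.sum_congr rfl fun g _ => ?_
  rw [mul_assoc, Finset.sum_mul]
  refine congrArg _ ?_
  rw [Finset.sum_congr rfl fun d hd => (mul_assoc _ _ _).trans
    (ind_mul_congr fun hg => kk_mul he hd h₁ h₂ hl hg h)]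
  simp only [xw, xi, Finset.mul_sum]
  rw [Finset.sum_comm]
  refine Finset.sum_congr rfl fun j₁ _ => ?_
  rw [Finset.sum_comm]
  exact Finset.sum_congr rfl fun j₂ _ => Finset.sum_congr rfl fun d _ => by ring

theorem sum_xw_sq {e : F → ℝ} (he : Chr e) (h : F[X]) {I I' l t : ℕ} {τ : ℝ}
    (hτ : DivB F τ (l + I')) (M x : F[X]) (hM : M ∈ monF F I') (hx : x ∈ monF F I') :
    ∑ ω ∈ modes F l t, xw e h I ω M x ^ 2 ≤
      qq F (2 * t) * ((irrF F l).card : ℝ) ^ 2 * τ := by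
  have hτ0 := zero_le_one.trans hτ.one_le
  have hq := (qq_pos (F := F) (2 * t)).le
  rw [sum_modes]
  refine le_trans (Finset.sum_le_sum fun l₁ h₁ => Finset.sum_le_sum fun l₂ h₂ =>
    ind_mul_le (b := qq F (2 * t) * τ) (mul_nonneg hq hτ0) fun _ => ?_) (le_of_eq ?_)
  · have hY : (l₁ * M + l₂ * x).natDegree ≤ l + I' := by
      refine (natDegree_add_le _ _).trans (max_le (natDegree_mul_le.trans ?_)
        (natDegree_mul_le.trans ?_))
      · rw [(mem_irrF.1 h₁).2.1, (mem_monF.1 hM).2]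
      · rw [(mem_irrF.1 h₂).2.1, (mem_monF.1 hx).2]
    refine le_trans (Finset.sum_le_sum fun g _ => ?_)
      ((Finset.mul_sum _ _ _).ge.trans (mul_le_mul_of_nonneg_left (sum_pair hτ hY l I) hq))
    rw [mul_left_comm]
    by_cases hg : g ≠ 0
    swap
    · rw [ind_neg hg, zero_mul, zero_mul]
    refine mul_le_mul_of_nonneg_left ?_ (ind_nonneg _)
    have h0 : 0 ≤ ∑ d ∈ monF F I, ind (g * d = l₁ * M + l₂ * x) :=
      Finset.sum_nonneg fun d _ => ind_nonneg _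
    refine le_trans (Finset.sum_le_sum fun j₁ _ => Finset.sum_le_sum fun j₂ _ =>
      ind_mul_le h0 fun _ => ind_mul_le h0 fun _ => ?_) (le_of_eq ?_)
    · refine sq_sum_le (fun d d' h1 h2 => mul_left_cancel₀ hg (h1.trans h2.symm)) fun d => ?_
      rw [abs_mul, he.toSgn.abs_eq, mul_one, abs_of_nonneg (ind_nonneg _)]
      exact ind_le_one _
    · simp only [Finset.sum_const, card_ltF, nsmul_eq_mul, qq]
      push_cast; ring
  · simp only [Finset.sum_const, nsmul_eq_mul]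
    ring

theorem card_degenerate [CharP F 2] {l t : ℕ} (ht : t ≤ l) {τ : ℝ} (hτ : DivB F τ (3 * l))
    {ω : F[X] × F[X] × F[X] × F[X] × F[X]} (hω : ω ∈ modes F l t) :
    ∑ ω' ∈ modes F l t, ind ((ω.2.2.2.1 * ω.1 + ω.2.2.2.2 * ω.2.1) * ω.2.2.1 * (ω'.1 * ω'.2.1) +
      (ω'.2.2.2.1 * ω'.1 + ω'.2.2.2.2 * ω'.2.1) * ω'.2.2.1 * (ω.1 * ω.2.1) = 0) ≤
      2 * qq F 1 * τ := by
  classical
  obtain ⟨l₁, l₂, g, i, j⟩ := ω
  obtain ⟨h₁, h₂, hg, hi, hj, hl, g0, i0, j0⟩ := mem_modes.1 hω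
  dsimp only at *
  have htl : (t : WithBot ℕ) ≤ l := by exact_mod_cast ht
  have hY0 : (i * l₁ + j * l₂) * g ≠ 0 := mul_ne_zero (fun h => j0
    (eq_zero_of_dvd_comb h₁ h₂ hl (hj.trans_le htl) (h ▸ dvd_zero _))) g0
  have hY : ((i * l₁ + j * l₂) * g).natDegree ≤ 3 * l := by
    have a1 := natDegree_le_of_degree_le (hi.trans_le htl).le
    have a2 := natDegree_le_of_degree_le (hj.trans_le htl).le
    have a3 := natDegree_le_of_degree_le hg.le
    have a4 := natDegree_mul_le (p := i) (q := l₁)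
    have a5 := natDegree_mul_le (p := j) (q := l₂)
    have a6 := natDegree_add_le (i * l₁) (j * l₂)
    have a7 := natDegree_mul_le (p := i * l₁ + j * l₂) (q := g)
    have a8 := (mem_irrF.1 h₁).2.1
    have a9 := (mem_irrF.1 h₂).2.1
    omega
  generalize (i * l₁ + j * l₂) * g = Y at hY0 hY
  refine le_trans (sum_ind_card (({l₁, l₂} : Finset F[X]) ×ˢ (univ : Finset F) ×ˢ divs Y)
    (fun ω => (ω.1, ω.2.2.1.leadingCoeff, ω.2.2.1 * C ω.2.2.1.leadingCoeff⁻¹)) ?_ ?_) ?_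
  · rintro ⟨a, b, c, u, v⟩ hw ⟨a', b', c', u', v'⟩ hw' p p' e
    obtain ⟨q1, q2⟩ := degenerate ht h₁ h₂ hw p
    obtain ⟨q1', q2'⟩ := degenerate ht h₁ h₂ hw' p'
    obtain ⟨ha, hb, -, hu, hv, hab, c0, -, -⟩ := mem_modes.1 hw
    obtain ⟨-, -, -, hu', hv', -, -, -, -⟩ := mem_modes.1 hw'
    simp only [Prod.mk.injEq] at *
    obtain ⟨rfl, e2, e3⟩ := e
    have eb : b = b' := by
      rcases q1 with ⟨x1, x2⟩ | ⟨x1, x2⟩ <;> rcases q1' with ⟨y1, y2⟩ | ⟨y1, y2⟩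
      · rw [x2, y2]
      · exact (hl (x1.symm.trans y1)).elim
      · exact (hl (y1.symm.trans x1)).elim
      · rw [x2, y2]
    subst eb
    have ec : c = c' := by
      rw [← e2] at e3
      exact mul_right_cancel₀ (C_ne_zero.2 (inv_ne_zero (leadingCoeff_ne_zero.2 c0))) e3
    subst ec
    have e4 := mul_right_cancel₀ c0 (q2.trans q2'.symm)
    have ev : v - v' = 0 := eq_zero_of_dvd_comb (i := u - u') ha hb hab
      (((degree_sub_le _ _).trans_lt (max_lt hv hv')).trans_le htl)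
      (by rw [show (u - u') * a + (v - v') * b = 0 by linear_combination e4]; exact dvd_zero _)
    have ev' := sub_eq_zero.1 ev
    subst ev'
    exact ⟨rfl, rfl, rfl, mul_right_cancel₀ (mem_irrF.1 ha).1.ne_zero (add_right_cancel e4), rfl⟩
  · rintro ⟨a, b, c, u, v⟩ hw p
    obtain ⟨q1, q2⟩ := degenerate ht h₁ h₂ hw p
    obtain ⟨-, -, -, -, -, -, c0, -, -⟩ := mem_modes.1 hw
    dsimp only at *
    simp only [mem_product, mem_insert, mem_singleton, mem_univ, true_and, mem_divs hY0]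
    refine ⟨q1.imp And.left And.left, monic_mul_leadingCoeff_inv c0,
      (u * a + v * b) * C c.leadingCoeff, ?_⟩
    have : C c.leadingCoeff⁻¹ * C c.leadingCoeff = 1 := by
      rw [← C_mul, inv_mul_cancel₀ (leadingCoeff_ne_zero.2 c0), C_1]
    linear_combination -q2 - c * (u * a + v * b) * this
  · rw [card_product, card_product, card_pair hl, card_univ, qq, pow_one, mul_assoc]
    push_cast
    have := hτ Y hY0 hY
    have hq := card_pos' (F := F)
    gcongr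

end Pool.Agent.MP_43e117_nt
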