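import Mathlib
import Pool.Agent.MP_43e117_nt.TBasA

/- Twin primes of `F[X]`: an elementary bound for incomplete Kloosterman sums. -/

set_option autoImplicit false
set_option linter.unusedSectionVars false

namespace Pool.Agent.MP_43e117_nt

open Polynomial Finset Pool.Agent.MP_4fffd4_nt Pool.Agent.MP_c853c5_nt
open scoped BigOperators

variable {F : Type*} [Field F] [Fintype F]

namespace TKl

section Abs

variable {R : Type*} [CommRing R] [Fintype R] [DecidableEq R] {ψ : R → ℝ}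

/-- The complete Kloosterman sum of a finite ring. -/
noncomputable def Kl (ψ : R → ℝ) (a b : R) : ℝ := ∑ y : Rˣ, ψ (a * ↑y⁻¹ + b * ↑y)

theorem orth (hψ : Sgn ψ) (ho : ∀ x, (∀ a, ψ (a * x) = 1) → x = 0) (x : R) :
    ∑ a, ψ (a * x) = Fintype.card R * ind (x = 0) := by
  have h1 := (hψ.comp (fun a => a * x) fun a b => add_mul a b x).expect_eq_ind
  rw [Fintype.expect_eq_sum_div_card, div_eq_iff (by positivity)] at h1
  rw [h1, mul_comm, SVar.ind_congr ⟨ho x, fun h a => by rw [h, mul_zero, hψ.zero]⟩]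

theorem moment (hψ : Sgn ψ) (ho : ∀ x, (∀ a, ψ (a * x) = 1) → x = 0) {ι : Type*} [Fintype ι]
    (α β : ι → R) : ∑ a, ∑ b, (∑ i, ψ (a * α i + b * β i)) ^ 2 = (Fintype.card R : ℝ) ^ 2 *
      ∑ p : ι × ι, ind (α p.1 + α p.2 = 0 ∧ β p.1 + β p.2 = 0) := by
  have h1 : ∀ a b, (∑ i, ψ (a * α i + b * β i)) ^ 2 =
      ∑ p : ι × ι, ψ (a * (α p.1 + α p.2)) * ψ (b * (β p.1 + β p.2)) := by
    intro a b
    rw [sq, Finset.sum_mul_sum, Fintype.sum_prod_type]
    refine Finset.sum_congr rfl fun i _ => Finset.sum_congr rfl fun j _ => ?_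
    rw [← hψ.add, ← hψ.add]
    congr 1
    ring
  simp only [h1]
  rw [Finset.sum_congr rfl fun a _ => Finset.sum_comm, Finset.sum_comm, Finset.mul_sum]
  refine Finset.sum_congr rfl fun p _ => ?_
  rw [← Finset.sum_mul_sum, orth hψ ho, orth hψ ho, SVar.ind_and]
  ring

theorem Kl_sq (hψ : Sgn ψ) (a b : R) : Kl ψ a b ^ 2 =
    ∑ p : Rˣ × Rˣ, ψ (a * (↑p.1⁻¹ + ↑p.2⁻¹) + b * (↑p.1 + ↑p.2)) := by
  rw [Kl, sq, Finset.sum_mul_sum, Fintype.sum_prod_type]
  refine Finset.sum_congr rfl fun i _ => Finset.sum_congr rfl fun j _ => ?_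
  rw [← hψ.add]
  congr 1
  ring

variable (R) in
/-- The idempotents. -/
def idem : Finset R := univ.filter fun x => x * x = x

theorem card_triple (hreg : ∀ x : R, ∃ y, x * x * y = x) :
    (univ.filter fun p : R × R => p.1 * p.2 * (p.1 + p.2) = 0).card ≤
      (idem R).card ^ 2 * Fintype.card R := by
  choose s hs using hreg
  have h1 := Finset.card_le_card_of_injOn (s := univ.filter fun p : R × R =>
    p.1 * p.2 * (p.1 + p.2) = 0) (t := (idem R ×ˢ idem R) ×ˢ (univ : Finset R))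
    (fun p => ((p.1 * s p.1, p.2 * s p.2), p.1 + (1 - p.1 * s p.1) * p.2)) ?_ ?_
  · rwa [card_product, card_product, card_univ, ← sq] at h1
  · intro p _
    simp only [idem, coe_product, coe_filter, mem_univ, true_and, coe_univ, Set.mem_prod,
      Set.mem_ofPred_eq, Set.mem_univ, and_true]
    exact ⟨by linear_combination s p.1 * hs p.1, by linear_combination s p.2 * hs p.2⟩
  · have key : ∀ u v : R, u * v * (u + v) = 0 →
        u = (u * s u) * (u + (1 - u * s u) * v) ∧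
        v = (1 - u * s u - u * s u * (v * s v)) * (u + (1 - u * s u) * v) := by
      intro u v h
      refine ⟨by linear_combination (s u * v - 1) * hs u, ?_⟩
      linear_combination (1 - s u * v + v * s v - v * s v * s u * v) * hs u +
        s u * s v * h - u * s u * hs v - v * s v * hs u
    rintro ⟨u, v⟩ hp ⟨u', v'⟩ hp' e
    simp only [coe_filter, mem_univ, true_and, Set.mem_ofPred_eq] at hp hp'
    simp only [Prod.mk.injEq] at e ⊢
    obtain ⟨⟨e1, e2⟩, e3⟩ := e
    obtain ⟨k1, k2⟩ := key u v hp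
    obtain ⟨k3, k4⟩ := key u' v' hp'
    rw [e3, e2, e1] at k2
    rw [e3, e1] at k1
    exact ⟨k1.trans k3.symm, k2.trans k4.symm⟩

theorem card_le_units (hreg : ∀ x : R, ∃ y, x * x * y = x) :
    Fintype.card R ≤ (idem R).card * Fintype.card Rˣ := by
  choose s hs using hreg
  have hu : ∀ x : R, (x + (1 - x * s x)) * (x * s x * s x + (1 - x * s x)) = 1 := fun x => by
    linear_combination (2 * s x - 1 - s x * s x) * hs x
  have h1 := Finset.card_le_card_of_injOn (s := (univ : Finset R))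
    (t := idem R ×ˢ (univ : Finset Rˣ))
    (fun x => (x * s x, Units.mkOfMulEqOne _ _ (hu x))) ?_ ?_
  · rwa [card_product, card_univ, card_univ] at h1
  · intro x _
    simp only [idem, coe_product, coe_filter, mem_univ, true_and, coe_univ, Set.mem_prod,
      Set.mem_ofPred_eq, Set.mem_univ, and_true]
    linear_combination s x * hs x
  · intro x _ y _ e
    simp only [Prod.mk.injEq, Units.ext_iff, Units.val_mkOfMulEqOne] at e
    linear_combination e.1 + e.2

theorem fourth (h2 : (2 : R) = 0) (hreg : ∀ x : R, ∃ y, x * x * y = x) (hψ : Sgn ψ)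
    (ho : ∀ x, (∀ a, ψ (a * x) = 1) → x = 0) :
    ∑ a, ∑ b, Kl ψ a b ^ 4 ≤ ((idem R).card : ℝ) ^ 2 * (Fintype.card R : ℝ) ^ 4 := by
  have h1 : ∀ a b, Kl ψ a b ^ 4 = (Kl ψ a b ^ 2) ^ 2 := fun a b => by ring
  simp only [h1, Kl_sq hψ]
  rw [moment hψ ho (fun p : Rˣ × Rˣ => ((↑p.1⁻¹ : R) + ↑p.2⁻¹)) fun p => (↑p.1 : R) + ↑p.2]
  have h3 := sum_ind_le (α := (Rˣ × Rˣ) × (Rˣ × Rˣ))
    (P := fun p => ((↑p.1.1⁻¹ : R) + ↑p.1.2⁻¹) + (↑p.2.1⁻¹ + ↑p.2.2⁻¹) = 0 ∧
      ((↑p.1.1 : R) + ↑p.1.2) + (↑p.2.1 + ↑p.2.2) = 0)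
    ((univ : Finset R) ×ˢ univ.filter fun p : R × R => p.1 * p.2 * (p.1 + p.2) = 0)
    (fun p => ((↑p.1.1 : R), ((↑p.1.1 : R) + ↑p.1.2, (↑p.1.1 : R) + ↑p.2.1))) ?_ ?_
  · rw [card_product, card_univ, Nat.cast_mul] at h3
    have h4 : ((univ.filter fun p : R × R => p.1 * p.2 * (p.1 + p.2) = 0).card : ℝ) ≤
        ((idem R).card : ℝ) ^ 2 * Fintype.card R := by exact_mod_cast card_triple hreg
    calc _ ≤ (Fintype.card R : ℝ) ^ 2 * (Fintype.card R *
          (((idem R).card : ℝ) ^ 2 * Fintype.card R)) :=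
          mul_le_mul_of_nonneg_left (h3.trans (mul_le_mul_of_nonneg_left h4 (by positivity)))
            (by positivity)
      _ = _ := by ring
  · rintro ⟨⟨a, b⟩, c, d⟩ ⟨⟨a', b'⟩, c', d'⟩ ⟨-, hp⟩ ⟨-, hp'⟩ e
    simp only [Prod.mk.injEq, Units.ext_iff] at e hp hp' ⊢
    obtain ⟨e1, e2, e3⟩ := e
    exact ⟨⟨e1, by linear_combination e2 - e1⟩, by linear_combination e3 - e1,
      by linear_combination hp - hp' - e2 - e3 + e1⟩
  · rintro ⟨⟨a, b⟩, c, d⟩ ⟨hp, hq⟩
    simp only [mem_product, mem_univ, mem_filter, true_and]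
    dsimp only at hp hq
    have ha := a.mul_inv
    have hb := b.mul_inv
    have hc := c.mul_inv
    have hd := d.mul_inv
    generalize (↑a⁻¹ : R) = a' at *
    generalize (↑b⁻¹ : R) = b' at *
    generalize (↑c⁻¹ : R) = c' at *
    generalize (↑d⁻¹ : R) = d' at *
    generalize (a : R) = x at *
    generalize (b : R) = y at *
    generalize (c : R) = z at *
    generalize (d : R) = w at *
    linear_combination (x * (x + y) * (x + z)) * h2 - (x * y * z * w) * hp + y * z * w * ha +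
      x * z * w * hb + x * y * w * hc + x * y * z * hd + (x * y + y * z + z * x) * hq

theorem Kl_orbit (a b : R) (c : Rˣ) : Kl ψ (a * ↑c) (b * ↑c⁻¹) = Kl ψ a b := by
  refine Fintype.sum_equiv (Equiv.mulLeft c⁻¹) _ _ fun y => ?_
  simp only [Equiv.coe_mulLeft, mul_inv_rev, inv_inv, Units.val_mul]
  congr 1
  ring

theorem fibre (A a : R) : ∑ c : Rˣ, ind (A * ↑c = a) ≤ (univ.filter fun y => A * y = 0).card := by
  by_cases h : ∃ c₀ : Rˣ, A * ↑c₀ = a
  · obtain ⟨c₀, h₀⟩ := h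
    refine sum_ind_le _ (fun c : Rˣ => (↑c : R) - ↑c₀)
      (fun x y _ _ e => Units.ext (sub_left_injective e)) fun c hc => ?_
    simp only [mem_filter, mem_univ, true_and]
    linear_combination hc - h₀
  · rw [Finset.sum_eq_zero fun c _ => ind_neg fun e => h ⟨c, e⟩]
    positivity

theorem abs_bound (h2 : (2 : R) = 0) (hreg : ∀ x : R, ∃ y, x * x * y = x) (hψ : Sgn ψ)
    (ho : ∀ x, (∀ a, ψ (a * x) = 1) → x = 0) (A b : R) {N τ : ℝ}
    (hN : ((univ.filter fun y => A * y = 0).card : ℝ) ≤ N) (hτ : ((idem R).card : ℝ) ≤ τ) :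
    Kl ψ A b ^ 4 ≤ N * τ ^ 3 * (Fintype.card R : ℝ) ^ 3 := by
  have hq : (0 : ℝ) < Fintype.card R := by positivity
  have hN0 : 0 ≤ N := le_trans (by positivity) hN
  have hτ0 : 0 ≤ τ := le_trans (by positivity) hτ
  have h1 : (Fintype.card Rˣ : ℝ) * Kl ψ A b ^ 4 ≤ N * ∑ a, ∑ b, Kl ψ a b ^ 4 := by
    calc (Fintype.card Rˣ : ℝ) * Kl ψ A b ^ 4 = ∑ c : Rˣ, Kl ψ (A * ↑c) (b * ↑c⁻¹) ^ 4 := by
          simp only [Kl_orbit, Finset.sum_const, card_univ, nsmul_eq_mul]
      _ ≤ ∑ c : Rˣ, ∑ a, ind (A * ↑c = a) * ∑ b, Kl ψ a b ^ 4 := by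
          refine Finset.sum_le_sum fun c _ => ?_
          rw [SVar.sum_ind_eq (mem_univ _) fun a => ∑ b, Kl ψ a b ^ 4]
          exact Finset.single_le_sum (f := fun b => Kl ψ (A * ↑c) b ^ 4)
            (fun _ _ => by positivity) (mem_univ _)
      _ ≤ _ := by
          rw [Finset.sum_comm, Finset.mul_sum]
          refine Finset.sum_le_sum fun a _ => ?_
          rw [← Finset.sum_mul]
          exact mul_le_mul_of_nonneg_right ((fibre A a).trans hN) (by positivity)
  have h3 : (Fintype.card R : ℝ) ≤ τ * Fintype.card Rˣ :=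
    le_trans (by exact_mod_cast card_le_units hreg) (mul_le_mul_of_nonneg_right hτ (by positivity))
  have h4 := (fourth h2 hreg hψ ho).trans (mul_le_mul_of_nonneg_right
    (pow_le_pow_left₀ (by positivity) hτ 2) (by positivity))
  refine le_of_mul_le_mul_left ?_ hq
  calc (Fintype.card R : ℝ) * Kl ψ A b ^ 4 ≤ τ * Fintype.card Rˣ * Kl ψ A b ^ 4 :=
        mul_le_mul_of_nonneg_right h3 (by positivity)
    _ ≤ τ * (N * (τ ^ 2 * (Fintype.card R : ℝ) ^ 4)) := by
        rw [mul_assoc]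
        exact mul_le_mul_of_nonneg_left (h1.trans (mul_le_mul_of_nonneg_left h4 hN0)) hτ0
    _ = _ := by ring

end Abs

section Conc

open AdjoinRoot

variable {M : F[X]}

theorem deg_mod (hM : M.Monic) (x : F[X]) : (x %ₘ M).degree < M.natDegree :=
  (degree_modByMonic_lt x hM).trans_eq (degree_eq_natDegree hM.ne_zero)

theorem eq_of_mk (hM : M.Monic) {x y : F[X]} (hx : x.degree < M.natDegree)
    (hy : y.degree < M.natDegree) (h : M ∣ x - y) : x = y := by
  rw [← degree_eq_natDegree hM.ne_zero] at hx hy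
  rw [← (modByMonic_eq_self_iff hM).2 hx, ← (modByMonic_eq_self_iff hM).2 hy,
    modByMonic_eq_of_dvd_sub hM h]

/-- The residue classes are the polynomials of small degree. -/
noncomputable def eqv (hM : M.Monic) : degreeLT F M.natDegree ≃ AdjoinRoot M :=
  Equiv.ofBijective (fun y => mk M y.1) ⟨fun x y h => Subtype.ext
    (eq_of_mk hM (mem_degreeLT.1 x.2) (mem_degreeLT.1 y.2) (mk_eq_mk.1 h)), fun x => by
      obtain ⟨f, rfl⟩ := mk_surjective x
      exact ⟨⟨f %ₘ M, mem_degreeLT.2 (deg_mod hM f)⟩, mk_eq_mk.2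
        ⟨-(f /ₘ M), by linear_combination modByMonic_add_div f M⟩⟩⟩

theorem card_eq (hM : M.Monic) [Fintype (AdjoinRoot M)] :
    (Fintype.card (AdjoinRoot M) : ℝ) = qq F M.natDegree := by
  rw [← Fintype.card_congr (eqv hM), card_degreeLT, qq, Nat.cast_pow]

/-- The additive character of the residue ring. -/
noncomputable def psi (e : F → ℝ) (hM : M.Monic) (x : AdjoinRoot M) : ℝ :=
  e ((modByMonicHom hM x).coeff (M.natDegree - 1))

theorem psi_mk (e : F → ℝ) (hM : M.Monic) (f : F[X]) : psi e hM (mk M f) = e (SFour.res f M) := rfl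

theorem psi_sgn {e : F → ℝ} (he : Chr e) (hM : M.Monic) : Sgn (psi e hM) :=
  he.toSgn.comp (fun x => (modByMonicHom hM x).coeff (M.natDegree - 1)) fun a b => by
    rw [map_add, coeff_add]

theorem psi_prim {e : F → ℝ} (he : Chr e) (hM : M.Monic) (x : AdjoinRoot M)
    (h : ∀ a, psi e hM (a * x) = 1) : x = 0 := by
  obtain ⟨f, rfl⟩ := mk_surjective x
  have h1 := SFour.expect_res he f hM (h := 0) (zero_add _).symm
  have h2 : ∀ a : degreeLT F M.natDegree, e (SFour.res (a.1 * f) M) = 1 := fun a => by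
    rw [← psi_mk e hM, map_mul, h]
  simp only [h2, Fintype.expect_const] at h1
  by_contra h0
  rw [ind_neg] at h1
  · exact one_ne_zero h1
  · intro h3
    rw [Nat.cast_zero, Nat.WithBot.lt_zero_iff, degree_eq_bot, modByMonic_eq_zero_iff_dvd hM] at h3
    exact h0 (mk_eq_zero.2 h3)

theorem regular (hM : M.Monic) (hs : Squarefree M) (x : AdjoinRoot M) : ∃ y, x * x * y = x := by
  classical
  obtain ⟨f, rfl⟩ := mk_surjective x
  obtain ⟨E, hE⟩ := EuclideanDomain.gcd_dvd_right f M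
  obtain ⟨f', hf⟩ := EuclideanDomain.gcd_dvd_left f M
  have hc : IsCoprime f E := by
    refine isCoprime_of_irreducible_dvd (fun h => hM.ne_zero (by rw [hE, h.2, mul_zero]))
      fun z hz h1 h2 => hz.not_isUnit (hs z ?_)
    rw [hE]
    exact mul_dvd_mul (EuclideanDomain.dvd_gcd h1 (h2.trans ⟨_, hE.trans (mul_comm _ _)⟩)) h2
  obtain ⟨s, t, hst⟩ := hc
  refine ⟨mk M s, ?_⟩
  rw [← map_mul, ← map_mul, mk_eq_mk]
  refine ⟨-(f' * t), ?_⟩
  generalize EuclideanDomain.gcd f M = D at hE hf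
  linear_combination f * hst - t * E * hf + f' * t * hE

theorem card_idem (hM : M.Monic) [Fintype (AdjoinRoot M)] [DecidableEq (AdjoinRoot M)] :
    (idem (AdjoinRoot M)).card ≤ (divs M).card := by
  classical
  have hD : ∀ x : AdjoinRoot M, ∃ D : F[X], D ∈ divs M ∧ (∃ s, x = s * mk M D) ∧
      ∃ s, mk M D = s * x := by
    intro x
    obtain ⟨f, rfl⟩ := mk_surjective x
    have h0 : gcd f M ≠ 0 := fun h => hM.ne_zero ((gcd_eq_zero_iff _ _).1 h).2
    refine ⟨gcd f M, (mem_divs hM.ne_zero).2 ⟨?_, gcd_dvd_right _ _⟩, ?_, ?_⟩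
    · rw [← _root_.normalize_gcd]
      exact monic_normalize h0
    · obtain ⟨s, hs⟩ := gcd_dvd_left f M
      exact ⟨mk M s, by rw [← map_mul, mul_comm, ← hs]⟩
    · obtain ⟨a, b, hab⟩ := exists_gcd_eq_mul_add_mul f M
      exact ⟨mk M a, by rw [hab, map_add, map_mul, map_mul, mk_self, zero_mul, add_zero, mul_comm]⟩
  choose D h1 h2 h3 using hD
  refine Finset.card_le_card_of_injOn D (fun x _ => h1 x) fun x hx y hy e => ?_
  simp only [idem, coe_filter, mem_univ, true_and, Set.mem_ofPred_eq] at hx hy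
  obtain ⟨a, ha⟩ := h2 x
  obtain ⟨b, hb⟩ := h2 y
  obtain ⟨a', ha'⟩ := h3 x
  obtain ⟨b', hb'⟩ := h3 y
  have e1 : x = a * b' * y := by rw [mul_assoc, ← hb', ← e, ← ha]
  have e2 : y = b * a' * x := by rw [mul_assoc, ← ha', e, ← hb]
  linear_combination (1 - y) * e1 - (1 - x) * e2 - a * b' * hy + b * a' * hx

theorem card_ann (hM : M.Monic) [Fintype (AdjoinRoot M)] [DecidableEq (AdjoinRoot M)]
    {A Z : F[X]} (hZ : Z ≠ 0) (hA : ∀ y, M ∣ A * y → M ∣ Z * y) :
    ((univ.filter fun y => mk M A * y = 0).card : ℝ) ≤ qq F Z.natDegree := by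
  have hD : ∀ y : AdjoinRoot M, mk M A * y = 0 →
      Z * modByMonicHom hM y = M * ((Z * modByMonicHom hM y) /ₘ M) := by
    intro y hy
    have h1 : M ∣ Z * modByMonicHom hM y := by
      refine hA _ (mk_eq_zero.1 ?_)
      rw [map_mul, mk_leftInverse hM y, hy]
    have h2 := modByMonic_add_div (Z * modByMonicHom hM y) M
    rw [(modByMonic_eq_zero_iff_dvd hM).2 h1, zero_add] at h2
    exact h2.symm
  have h1 := Finset.card_le_card_of_injOn (s := univ.filter fun y => mk M A * y = 0)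
    (t := ltF F Z.natDegree) (fun y => (Z * modByMonicHom hM y) /ₘ M) ?_ ?_
  · rw [card_ltF] at h1
    rw [qq]
    exact_mod_cast h1
  · intro y hy
    simp only [coe_filter, mem_univ, true_and, Set.mem_ofPred_eq] at hy
    have h2 := hD y hy
    have h3 : (modByMonicHom hM y).degree < M.natDegree := by
      obtain ⟨f, rfl⟩ := mk_surjective y
      exact deg_mod hM f
    rw [mem_coe, mem_ltF]
    dsimp only
    generalize (Z * modByMonicHom hM y) /ₘ M = w at h2
    generalize modByMonicHom hM y = r at h2 h3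
    by_cases hw : w = 0
    · rw [hw, degree_zero]
      exact WithBot.bot_lt_coe _
    have hr : r ≠ 0 := fun h => mul_ne_zero hM.ne_zero hw (by rw [← h2, h, mul_zero])
    have h4 := congrArg natDegree h2
    rw [natDegree_mul hZ hr, natDegree_mul hM.ne_zero hw] at h4
    rw [← natDegree_lt_iff_degree_lt hr] at h3
    rw [← natDegree_lt_iff_degree_lt hw]
    omega
  · intro x hx y hy e
    simp only [coe_filter, mem_univ, true_and, Set.mem_ofPred_eq] at hx hy
    dsimp only at e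
    have h2 := hD x hx
    rw [e, ← hD y hy] at h2
    rw [← mk_leftInverse hM x, ← mk_leftInverse hM y, mul_left_cancel₀ hZ h2]

theorem term_eq (e : F → ℝ) (hM : M.Monic) [Fintype (AdjoinRoot M)] [DecidableEq (AdjoinRoot M)]
    (A f : F[X]) : ind (IsCoprime f M) * e (SFour.res (A * iv M f) M) =
      ∑ y : (AdjoinRoot M)ˣ, ind (mk M f = ↑y) * psi e hM (mk M A * ↑y⁻¹) := by
  by_cases h : IsCoprime f M
  · have h1 : mk M f * mk M (iv M f) = 1 := by
      rw [← map_mul, ← map_one (mk M), mk_eq_mk, mul_comm]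
      exact iv_mul h
    rw [ind_pos h, one_mul, ← psi_mk e hM, map_mul,
      Finset.sum_eq_single (Units.mkOfMulEqOne _ _ h1)]
    · rw [ind_pos (Units.val_mkOfMulEqOne h1).symm, one_mul]
      rfl
    · intro y _ hy
      rw [ind_neg fun e => hy (Units.ext e.symm), zero_mul]
    · simp
  · rw [ind_neg h, zero_mul]
    refine (Finset.sum_eq_zero fun y _ => ?_).symm
    rw [ind_neg, zero_mul]
    intro e1
    obtain ⟨g, hg⟩ := mk_surjective (↑y⁻¹ : AdjoinRoot M)
    have h1 : mk M (g * f) = mk M 1 := by rw [map_mul, hg, e1, map_one, Units.inv_mul]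
    obtain ⟨w, hw⟩ := mk_eq_mk.1 h1
    exact h ⟨g, -w, by linear_combination hw⟩

theorem complete {e : F → ℝ} (he : Chr e) (hM : M.Monic) {c c' : F[X]} (hc : M ∣ c' * c - 1)
    (d₀ : F[X]) {l k : ℕ} (hl : M.natDegree = l + k) (y : AdjoinRoot M) :
    ∑ t ∈ ltF F l, ind (mk M (d₀ + c * t) = y) =
      𝔼 b : degreeLT F k, psi e hM (mk M b.1 * mk M c' * (y - mk M d₀)) := by
  obtain ⟨f, rfl⟩ := mk_surjective y
  have h1 := SFour.expect_res he (c' * (f - d₀)) hM hl
  simp only [← psi_mk e hM, map_mul, map_sub, ← mul_assoc] at h1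
  rw [h1]
  obtain ⟨w, hw⟩ := hc
  have h2 : ∀ t ∈ ltF F l, ind (mk M (d₀ + c * t) = mk M f) =
      ind ((c' * (f - d₀)) %ₘ M = t) := by
    intro t ht
    have ht' : t.degree < M.natDegree := (mem_ltF.1 ht).trans_le (by exact_mod_cast (by omega))
    have h3 := modByMonic_add_div (c' * (f - d₀)) M
    refine SVar.ind_congr ⟨fun h => eq_of_mk hM (deg_mod hM _) ht' ?_, fun h => mk_eq_mk.2 ?_⟩
    · obtain ⟨v, hv⟩ := mk_eq_mk.1 h
      exact ⟨w * t - c' * v - (c' * (f - d₀)) /ₘ M, by linear_combination h3 + t * hw - c' * hv⟩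
    · rw [h] at h3
      exact ⟨w * (f - d₀) - c * ((c' * (f - d₀)) /ₘ M), by
        linear_combination c * h3 + (f - d₀) * hw⟩
  rw [Finset.sum_congr rfl h2]
  by_cases h4 : ((c' * (f - d₀)) %ₘ M).degree < l
  · have h5 := SVar.sum_ind_eq (mem_ltF.2 h4) fun _ => (1 : ℝ)
    simp only [mul_one] at h5
    rw [h5, ind_pos h4]
  · rw [ind_neg h4]
    exact Finset.sum_eq_zero fun t ht => ind_neg fun e => h4 (e ▸ mem_ltF.1 ht)

end Conc

end TKl

theorem recip {a b a' b' : F[X]} (ha : a.Monic) (hb : b.Monic) (hab : IsCoprime a b)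
    (h1 : b ∣ a' * a - 1) (h2 : a ∣ b' * b - 1) (c : F[X]) :
    SFour.res (c * a') b + SFour.res (c * b') a = SFour.res c (a * b) := by
  rw [← SFour.res_mul (c * a') hb ha, ← SFour.res_mul (c * b') ha hb, mul_comm b a,
    ← SFour.res_add]
  refine SFour.res_congr (ha.mul hb) ?_
  have h3 : a * b ∣ a' * a + b' * b - 1 := by
    refine hab.mul_dvd ?_ ?_
    · rw [add_sub_assoc]
      exact (dvd_mul_left _ _).add h2
    · rw [add_comm, add_sub_assoc]
      exact (dvd_mul_left _ _).add h1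
  obtain ⟨w, hw⟩ := h3
  exact ⟨c * w, by linear_combination c * hw⟩

open TKl AdjoinRoot in
theorem kloost [CharP F 2] {e : F → ℝ} (he : Chr e) {M A Z c : F[X]} (hM : M.Monic)
    (hs : Squarefree M) (hc : IsCoprime c M) (hZ : Z ≠ 0) (hA : ∀ y, M ∣ A * y → M ∣ Z * y)
    (d₀ : F[X]) {l : ℕ} (hl : l ≤ M.natDegree) {τ : ℝ} (hτ : ((divs M).card : ℝ) ≤ τ) :
    (∑ t ∈ ltF F l, ind (IsCoprime (d₀ + c * t) M) *
      e (SFour.res (A * iv M (d₀ + c * t)) M)) ^ 4 ≤
      qq F Z.natDegree * τ ^ 3 * qq F (3 * M.natDegree) := by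
  classical
  let : Fintype (AdjoinRoot M) := Fintype.ofEquiv _ (eqv hM)
  obtain ⟨k, hk⟩ := Nat.exists_eq_add_of_le hl
  have hψ := psi_sgn he hM
  have h2 : (2 : AdjoinRoot M) = 0 := by
    have h3 : (2 : F[X]) = 0 := by exact_mod_cast CharP.cast_eq_zero F[X] 2
    rw [← map_ofNat (mk M) 2, h3, map_zero]
  have h1 : ∑ t ∈ ltF F l, ind (IsCoprime (d₀ + c * t) M) *
      e (SFour.res (A * iv M (d₀ + c * t)) M) = 𝔼 b : degreeLT F k,
        psi e hM (-(mk M b.1 * mk M (iv M c) * mk M d₀)) *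
          Kl (psi e hM) (mk M A) (mk M b.1 * mk M (iv M c)) := by
    simp only [term_eq e hM]
    rw [Finset.sum_comm]
    simp only [← Finset.sum_mul, complete he hM (iv_mul hc) d₀ hk, Finset.expect_mul, Kl,
      Finset.mul_sum]
    rw [Finset.expect_sum_comm]
    refine Finset.sum_congr rfl fun y _ => Finset.expect_congr rfl fun b _ => ?_
    rw [← hψ.add, ← hψ.add]
    congr 1
    ring
  obtain ⟨b, -, hb⟩ := Finset.exists_le_of_le_expect univ_nonempty (Finset.abs_expect_le univ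
    fun b : degreeLT F k => psi e hM (-(mk M b.1 * mk M (iv M c) * mk M d₀)) *
      Kl (psi e hM) (mk M A) (mk M b.1 * mk M (iv M c)))
  rw [← h1, abs_mul, hψ.abs_eq, one_mul] at hb
  have h4 := abs_bound h2 (regular hM hs) hψ (psi_prim he hM) (mk M A)
    (mk M b.1 * mk M (iv M c)) (card_ann hM hZ hA)
    (le_trans (by exact_mod_cast card_idem hM) hτ)
  rw [card_eq hM, qq_pow, mul_comm M.natDegree] at h4
  refine le_trans ?_ h4
  rw [← Even.pow_abs (by decide), ← Even.pow_abs (by decide) (Kl _ _ _)]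
  exact pow_le_pow_left₀ (abs_nonneg _) hb 4

end Pool.Agent.MP_43e117_nt
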