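import Mathlib
import Pool.Agent.MP_43e117_nt.TKl

/- Twin primes of `F[X]`: a non degenerate pair of Fourier modes. -/

set_option autoImplicit false
set_option linter.unusedSectionVars false

namespace Pool.Agent.MP_43e117_nt

open Polynomial Finset Pool.Agent.MP_4fffd4_nt Pool.Agent.MP_c853c5_nt
open scoped BigOperators

variable {F : Type*} [Field F] [Fintype F]

namespace TPair

omit [Fintype F] in
theorem split {a G : F[X]} (ha : a.Monic) (hs : Squarefree a) :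
    ∃ M₁ D : F[X], M₁.Monic ∧ D.Monic ∧ a = M₁ * D ∧ D ∣ G ∧ IsCoprime M₁ G := by
  classical
  obtain ⟨M₁, h1⟩ := gcd_dvd_left a G
  have hD : (gcd a G).Monic := by
    rw [← normalize_gcd a G]
    exact monic_normalize (gcd_ne_zero_of_left ha.ne_zero)
  have hM : M₁.Monic := hD.of_mul_monic_left (h1 ▸ ha)
  refine ⟨M₁, gcd a G, hM, hD, h1.trans (mul_comm _ _), gcd_dvd_right a G, ?_⟩
  refine isCoprime_of_irreducible_dvd (fun h => hM.ne_zero h.1) fun z hz h2 h3 => hz.not_isUnit ?_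
  refine hs z ?_
  rw [h1]
  exact mul_dvd_mul (dvd_gcd (h1 ▸ h2.mul_left _) h3) h2

theorem xi_eq (e : F → ℝ) (a : F[X]) {I : ℕ} {l₁ l₂ g M x d : F[X]} (hg : g ≠ 0)
    (hd : d ∈ monF F I) (h : g * d = l₁ * M + l₂ * x) :
    xi e a I l₁ l₂ g M x =
      ind (IsCoprime (l₁ * M) d) * e (SFour.res (a * iv d (l₁ * M)) d) := by
  unfold xi
  rw [Finset.sum_eq_single_of_mem d hd fun d' _ hne => by
    rw [ind_neg fun h' => hne (mul_left_cancel₀ hg (h'.trans h.symm)), zero_mul], ind_pos h, one_mul]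

theorem add_mem {I : ℕ} {d z : F[X]} (hd : d ∈ monF F I) (hz : z.degree < I) :
    d + z ∈ monF F I := by
  obtain ⟨h1, h2⟩ := mem_monF.1 hd
  have h3 : z.degree < d.degree := by rwa [degree_eq_natDegree h1.ne_zero, h2]
  exact mem_monF.2 ⟨h1.add_of_left h3, by rw [natDegree_add_eq_left_of_degree_lt h3, h2]⟩

theorem xi_zero (e : F → ℝ) (a : F[X]) {I : ℕ} {l₁ l₂ g M x u : F[X]}
    (h : ¬ ∃ d ∈ monF F I, g * d = l₁ * M + l₂ * x) (hu : (l₂ * u).degree < I) :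
    xi e a I l₁ l₂ g M (x + g * u) = 0 := by
  unfold xi
  refine Finset.sum_eq_zero fun d hd => ?_
  rw [ind_neg fun h' => h ⟨d + -(l₂ * u), add_mem hd (by rwa [degree_neg]), by
    linear_combination h'⟩, zero_mul]

theorem mode [CharP F 2] {e : F → ℝ} (he : Chr e) {a l₁ l₂ g M M₁ N x d : F[X]} {I : ℕ}
    (h1 : M₁.Monic) (hN : N.Monic) (hM : l₁ * M = M₁ * N) (hg : g ≠ 0) (c1 : IsCoprime M₁ N)
    (c2 : IsCoprime M₁ g) (c3 : IsCoprime M₁ l₂)
    (ha : a.degree < (M₁.natDegree + N.natDegree + I - 1 : ℕ)) (hd : d ∈ monF F I)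
    (h : g * d = l₁ * M + l₂ * x) : ∃ K : ℝ, |K| ≤ 1 ∧ ∀ u, N ∣ u → (l₂ * u).degree < I →
      xi e a I l₁ l₂ g M (x + g * u) = K * (ind (IsCoprime (x + g * u) M₁) *
        e (SFour.res (a * g * iv M₁ (N * l₂) * iv M₁ (x + g * u)) M₁)) := by
  refine ⟨ind (IsCoprime N d) * e (SFour.res (a * iv N d * iv N M₁) N), ?_, fun u hu hu' => ?_⟩
  · rw [abs_mul, he.toSgn.abs_eq, mul_one, abs_of_nonneg (ind_nonneg _)]
    exact ind_le_one _
  have hd' := add_mem hd hu'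
  have e1 : g * (d + l₂ * u) = l₁ * M + l₂ * (x + g * u) := by linear_combination h
  rw [xi_eq e a hg hd' e1, hM]
  rw [hM] at e1
  obtain ⟨w, rfl⟩ := hu
  have k1 : IsCoprime N (d + l₂ * (N * w)) ↔ IsCoprime N d := by
    rw [show l₂ * (N * w) = N * (l₂ * w) by ring, IsCoprime.add_mul_left_right_iff]
  generalize x + g * (N * w) = y at e1 ⊢
  have k2 : IsCoprime M₁ (d + l₂ * (N * w)) ↔ IsCoprime y M₁ := by
    constructor
    · intro k
      have := c2.mul_right k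
      rw [e1, add_comm, IsCoprime.add_mul_left_right_iff] at this
      exact this.of_mul_right_right.symm
    · intro k
      have := c3.mul_right k.symm
      rw [← IsCoprime.add_mul_left_right_iff (z := N), add_comm, ← e1] at this
      exact this.of_mul_right_right
  by_cases p1 : IsCoprime N d
  swap
  · rw [ind_neg p1, ind_neg fun k => p1 (k1.1 k.of_mul_left_right)]
    simp
  by_cases p2 : IsCoprime y M₁
  swap
  · rw [ind_neg p2, ind_neg fun k => p2 (k2.1 k.of_mul_left_left)]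
    simp
  have p3 : IsCoprime (M₁ * N) (d + l₂ * (N * w)) := (k2.2 p2).mul_left (k1.2 p1)
  rw [ind_pos p1, ind_pos p2, ind_pos p3, one_mul, one_mul, one_mul, ← he.add]
  congr 1
  obtain ⟨m1, m2⟩ := mem_monF.1 hd'
  have r1 := recip (h1.mul hN) m1 p3 (iv_mul p3) (iv_mul p3.symm) a
  rw [SFour.res_eq_zero ((h1.mul hN).mul m1) (by
    rwa [(h1.mul hN).natDegree_mul m1, h1.natDegree_mul hN, m2]), CharTwo.add_eq_zero] at r1
  have r2 := recip h1 hN c1 (iv_mul c1) (iv_mul c1.symm) (a * iv (M₁ * N) (d + l₂ * (N * w)))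
  rw [r1, ← r2]
  obtain ⟨k1, q1⟩ := iv_mul p3.symm
  obtain ⟨k2, q2⟩ := iv_mul c1.symm
  obtain ⟨k3, q3⟩ := iv_mul (c1.mul_right c3).symm
  obtain ⟨k4, q4⟩ := iv_mul p2
  obtain ⟨k5, q5⟩ := iv_mul p1.symm
  generalize iv (M₁ * N) (d + l₂ * (N * w)) = b at *
  generalize iv M₁ N = b₂ at *
  generalize iv M₁ (N * l₂) = B at *
  generalize iv M₁ y = v at *
  generalize iv N d = s at *
  congr 1
  · refine SFour.res_congr hN ⟨a * iv N M₁ * (-b * k5 + s * M₁ * k1 - s * b * l₂ * w), ?_⟩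
    linear_combination a * iv N M₁ * (-b * q5 + s * q1)
  · refine SFour.res_congr h1 ⟨a * (-b * b₂ * k3 + b * B * l₂ * k2 - b * B * l₂ * k4 - b * B * v * N +
      B * v * g * N * k1), ?_⟩
    linear_combination a * (-b * b₂ * q3 + b * B * l₂ * q2 - b * B * l₂ * q4 - b * B * v * e1 +
      B * v * g * q1)

omit [Fintype F] in
theorem deg_mul_lt {c t : F[X]} {m n I : ℕ} (hc : c.natDegree ≤ m) (ht : t.degree < n)
    (h : m + n ≤ I) : (c * t).degree < I := by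
  by_cases h0 : c * t = 0
  · rw [h0, degree_zero]; exact WithBot.bot_lt_coe _
  have h2 := (natDegree_lt_iff_degree_lt (right_ne_zero_of_mul h0)).2 ht
  have := natDegree_mul_le (p := c) (q := t)
  rw [← natDegree_lt_iff_degree_lt h0]
  omega

omit [Fintype F] in
theorem nd_mul {a b : F[X]} {m n : ℕ} (ha : a.natDegree ≤ m) (hb : b.natDegree ≤ n) :
    (a * b).natDegree ≤ m + n := natDegree_mul_le.trans (add_le_add ha hb)

omit [Fintype F] in
theorem nd_add {a b : F[X]} {m : ℕ} (ha : a.natDegree ≤ m) (hb : b.natDegree ≤ m) :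
    (a + b).natDegree ≤ m := (natDegree_add_le a b).trans (max_le ha hb)

theorem shift_bound {φ : F[X] → ℝ} {c : F[X]} {n k m : ℕ} (hc : c.natDegree ≤ m) (hn : m + k = n)
    {B : ℝ} (hB : ∀ x, (∑ t ∈ ltF F k, φ (x + c * t)) ^ 4 ≤ B) :
    (∑ x ∈ monF F n, φ x) ^ 4 ≤ qq F (4 * m) * B := by
  have e1 : qq F k * ∑ x ∈ monF F n, φ x = ∑ x ∈ monF F n, ∑ t ∈ ltF F k, φ (x + c * t) := by
    rw [Finset.sum_comm, ← sum_one_ltF, Finset.sum_mul]
    refine Finset.sum_congr rfl fun t ht => ?_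
    rw [one_mul, sum_monF_shift (deg_mul_lt hc (mem_ltF.1 ht) hn.le)]
  obtain ⟨x₀, -, h0⟩ := Finset.exists_max_image (monF F n)
    (fun x => |∑ t ∈ ltF F k, φ (x + c * t)|) ⟨X ^ n, mem_monF.2 ⟨monic_X_pow n, natDegree_X_pow n⟩⟩
  have e2 : qq F k * |∑ x ∈ monF F n, φ x| ≤ qq F k * (qq F m * |∑ t ∈ ltF F k, φ (x₀ + c * t)|) := by
    rw [← abs_of_pos (qq_pos (F := F) k), ← abs_mul, e1, abs_of_pos (qq_pos k), ← mul_assoc,
      ← qq_add, add_comm k, hn, ← sum_one_monF, Finset.sum_mul]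
    refine (Finset.abs_sum_le_sum_abs _ _).trans (Finset.sum_le_sum fun x hx => ?_)
    rw [one_mul]
    exact h0 x hx
  have e3 := pow_le_pow_left₀ (abs_nonneg _) (le_of_mul_le_mul_left e2 (qq_pos k)) 4
  rw [mul_pow, (by decide : Even 4).pow_abs, (by decide : Even 4).pow_abs, qq_pow, mul_comm m] at e3
  exact e3.trans (mul_le_mul_of_nonneg_left (hB x₀) (qq_pos _).le)

end TPair

open TPair in
theorem pair [CharP F 2] {e : F → ℝ} (he : Chr e) {h M : F[X]} {I I' l t T : ℕ} {τ : ℝ}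
    (hh : h ≠ 0) (hhl : h.natDegree ≤ l) (hM : M ∈ monF F I') (hMT : ¬ Sq T M) (hI : I' ≤ I)
    (ht : t ≤ l) (hl : 11 * l + 3 * T ≤ I') (hτ : DivB F τ I')
    {ω ω' : F[X] × F[X] × F[X] × F[X] × F[X]} (hω : ω ∈ modes F l t) (hω' : ω' ∈ modes F l t)
    (hZ : (ω.2.2.2.1 * ω.1 + ω.2.2.2.2 * ω.2.1) * ω.2.2.1 * (ω'.1 * ω'.2.1) +
      (ω'.2.2.2.1 * ω'.1 + ω'.2.2.2.2 * ω'.2.1) * ω'.2.2.1 * (ω.1 * ω.2.1) ≠ 0) :
    (∑ x ∈ monF F I', xw e h I ω M x * xw e h I ω' M x) ^ 4 ≤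
      τ ^ 3 * qq F (3 * I' + 50 * l + 12 * T) := by
  obtain ⟨l₁, l₂, g, j₁, j₂⟩ := ω
  obtain ⟨l₁', l₂', g', j₁', j₂'⟩ := ω'
  obtain ⟨a1, a2, a3, a4, a5, -, a6, -, -⟩ := mem_modes.1 hω
  obtain ⟨b1, b2, b3, b4, b5, -, b6, -, -⟩ := mem_modes.1 hω'
  simp only [xw] at *
  obtain ⟨m1, n1, i1⟩ := mem_irrF.1 a1
  obtain ⟨m2, n2, -⟩ := mem_irrF.1 a2
  obtain ⟨m1', n1', -⟩ := mem_irrF.1 b1
  obtain ⟨m2', n2', -⟩ := mem_irrF.1 b2
  have l0 : 0 < l := n1 ▸ i1.natDegree_pos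
  have dg : g.natDegree ≤ l := natDegree_le_iff_degree_le.2 a3.le
  have dg' : g'.natDegree ≤ l := natDegree_le_iff_degree_le.2 b3.le
  have dJ : (j₁ * l₁ + j₂ * l₂).natDegree ≤ l + l :=
    nd_add (nd_mul ((natDegree_le_iff_degree_le.2 a4.le).trans ht) n1.le)
      (nd_mul ((natDegree_le_iff_degree_le.2 a5.le).trans ht) n2.le)
  have dJ' : (j₁' * l₁' + j₂' * l₂').natDegree ≤ l + l :=
    nd_add (nd_mul ((natDegree_le_iff_degree_le.2 b4.le).trans ht) n1'.le)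
      (nd_mul ((natDegree_le_iff_degree_le.2 b5.le).trans ht) n2'.le)
  generalize j₁ * l₁ + j₂ * l₂ = J at *
  generalize j₁' * l₁' + j₂' * l₂' = J' at *
  obtain ⟨hM1, hM2⟩ := mem_monF.1 hM
  obtain ⟨a, γ, ha, hγ, hs, hMa⟩ := exists_sqfree hM1
  have dγ : γ.natDegree ≤ T := by
    by_contra k
    exact hMT ⟨γ, hγ, by omega, hMa ▸ dvd_mul_left _ _⟩
  obtain ⟨M₁, D, h1, hD, haD, hDG, hc⟩ :=
    split (G := γ * (g * g') * (l₁ * l₁') * (l₂ * l₂')) ha hs
  have dD : D.natDegree ≤ T + (l + l) + (l + l) + (l + l) :=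
    (natDegree_le_of_dvd hDG (mul_ne_zero (mul_ne_zero (mul_ne_zero hγ.ne_zero (mul_ne_zero a6 b6))
      (m1.mul m1').ne_zero) (m2.mul m2').ne_zero)).trans
      (nd_mul (nd_mul (nd_mul dγ (nd_mul dg dg')) (nd_mul n1.le n1'.le)) (nd_mul n2.le n2'.le))
  have cγ := hc.of_mul_right_left.of_mul_right_left.of_mul_right_left
  have cg := hc.of_mul_right_left.of_mul_right_left.of_mul_right_right
  have c1 := hc.of_mul_right_left.of_mul_right_right
  have c2 := hc.of_mul_right_right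
  obtain ⟨M₂, hM₂⟩ : ∃ M₂, M₂ = D * γ ^ 2 := ⟨_, rfl⟩
  have h2 : M₂.Monic := hM₂ ▸ hD.mul (hγ.pow 2)
  have cM : IsCoprime M₁ M₂ := hM₂ ▸ (hc.of_isCoprime_of_dvd_right hDG).mul_right cγ.pow_right
  have eM : M = M₁ * M₂ := by rw [hMa, haD, hM₂, mul_assoc]
  have d2 : M₂.natDegree ≤ 6 * l + 3 * T := by
    rw [hM₂, hD.natDegree_mul (hγ.pow 2), hγ.natDegree_pow]; omega
  have d1 : M₁.natDegree + M₂.natDegree = I' := by rw [← hM2, eM, h1.natDegree_mul h2]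
  have sq1 : Squarefree M₁ := (haD ▸ hs).of_mul_left
  obtain ⟨k, hk⟩ : ∃ k, 11 * l + 3 * T + k = I' := ⟨_, Nat.add_sub_cancel' hl⟩
  have τ0 : 0 ≤ τ := zero_le_one.trans hτ.one_le
  have dW : (l₁ * l₁' * M₂).natDegree ≤ l + l + (6 * l + 3 * T) := nd_mul (nd_mul n1.le n1'.le) d2
  have key := shift_bound (c := g * g' * (l₁ * l₁' * M₂)) (m := 11 * l + 3 * T)
    (φ := fun x => xi e (h * J) I l₁ l₂ g M x * xi e (h * J') I l₁' l₂' g' M x)
    ((nd_mul (nd_mul dg dg') dW).trans (by omega)) hk (B := qq F (6 * l) * τ ^ 3 * qq F (3 * I'))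
    fun x => ?_
  · refine key.trans_eq ?_
    rw [show 3 * I' + 50 * l + 12 * T = 4 * (11 * l + 3 * T) + 6 * l + 3 * I' by ring, qq_add,
      qq_add]
    ring
  have B0 : 0 ≤ qq F (6 * l) * τ ^ 3 * qq F (3 * I') := by
    have := qq_pos (F := F) (6 * l)
    have := qq_pos (F := F) (3 * I')
    positivity
  have e1 : ∀ s, g * g' * (l₁ * l₁' * M₂) * s = g * (g' * (l₁ * l₁' * M₂) * s) := fun s => by ring
  have e2 : ∀ s, g * g' * (l₁ * l₁' * M₂) * s = g' * (g * (l₁ * l₁' * M₂) * s) := fun s => by ring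
  have u1 : ∀ s ∈ ltF F k, (l₂ * (g' * (l₁ * l₁' * M₂) * s)).degree < I := fun s hs => by
    rw [← mul_assoc]
    exact deg_mul_lt (nd_mul n2.le (nd_mul dg' dW)) (mem_ltF.1 hs) (by omega)
  have u2 : ∀ s ∈ ltF F k, (l₂' * (g * (l₁ * l₁' * M₂) * s)).degree < I := fun s hs => by
    rw [← mul_assoc]
    exact deg_mul_lt (nd_mul n2'.le (nd_mul dg dW)) (mem_ltF.1 hs) (by omega)
  by_cases p : ∃ d ∈ monF F I, g * d = l₁ * M + l₂ * x
  swap
  · rw [Finset.sum_eq_zero fun s hs => by rw [e1, xi_zero e _ p (u1 s hs), zero_mul]]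
    simpa using B0
  by_cases p' : ∃ d ∈ monF F I, g' * d = l₁' * M + l₂' * x
  swap
  · rw [Finset.sum_eq_zero fun s hs => by rw [e2, xi_zero e _ p' (u2 s hs), mul_zero]]
    simpa using B0
  obtain ⟨d, hd, p⟩ := p
  obtain ⟨d', hd', p'⟩ := p'
  have cN : IsCoprime M₁ (l₁ * M₂) := c1.of_mul_right_left.mul_right cM
  have cN' : IsCoprime M₁ (l₁' * M₂) := c1.of_mul_right_right.mul_right cM
  obtain ⟨K, hK, hxi⟩ := mode he (a := h * J) h1 (m1.mul h2) (by rw [eM]; ring) a6 cN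
    cg.of_mul_right_left c2.of_mul_right_left (degree_le_natDegree.trans_lt (by
      have := nd_mul hhl dJ
      rw [m1.natDegree_mul h2]
      exact_mod_cast (by omega))) hd p
  obtain ⟨K', hK', hxi'⟩ := mode he (a := h * J') h1 (m1'.mul h2) (by rw [eM]; ring) b6 cN'
    cg.of_mul_right_right c2.of_mul_right_right (degree_le_natDegree.trans_lt (by
      have := nd_mul hhl dJ'
      rw [m1'.natDegree_mul h2]
      exact_mod_cast (by omega))) hd' p'
  obtain ⟨k1, q1⟩ := iv_mul (cN.mul_right c2.of_mul_right_left).symm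
  obtain ⟨k2, q2⟩ := iv_mul (cN'.mul_right c2.of_mul_right_right).symm
  generalize iv M₁ (l₁ * M₂ * l₂) = B at *
  generalize iv M₁ (l₁' * M₂ * l₂') = B' at *
  have kl := kloost he (A := h * J * g * B + h * J' * g' * B') h1 sq1
    (cg.mul_right (c1.mul_right cM)).symm (mul_ne_zero hh hZ) (fun y hy => by
      refine cM.dvd_of_dvd_mul_left ?_
      obtain ⟨k3, q3⟩ := hy
      exact ⟨l₁ * M₂ * l₂ * (l₁' * M₂ * l₂') * k3 - h * J * g * (l₁' * M₂ * l₂') * y * k1 -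
        h * J' * g' * (l₁ * M₂ * l₂) * y * k2, by
          linear_combination l₁ * M₂ * l₂ * (l₁' * M₂ * l₂') * q3 -
            h * J * g * (l₁' * M₂ * l₂') * y * q1 - h * J' * g' * (l₁ * M₂ * l₂) * y * q2⟩)
    x (l := k) (by omega) (hτ M₁ h1.ne_zero (by omega))
  rw [Finset.sum_congr rfl (g := fun s => K * K' * (ind (IsCoprime (x + g * g' * (l₁ * l₁' * M₂) * s)
    M₁) * e (SFour.res ((h * J * g * B + h * J' * g' * B') *
      iv M₁ (x + g * g' * (l₁ * l₁' * M₂) * s)) M₁))) fun s hs => ?_, ← Finset.mul_sum, mul_pow]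
  · have k4 : (K * K') ^ 4 ≤ 1 := by
      rw [← (by decide : Even 4).pow_abs, abs_mul]
      exact pow_le_one₀ (by positivity) (mul_le_one₀ hK (abs_nonneg _) hK')
    refine (mul_le_of_le_one_left ((by decide : Even 4).pow_nonneg _) k4).trans (kl.trans ?_)
    have dZ : (h * (J * g * (l₁' * l₂') + J' * g' * (l₁ * l₂))).natDegree ≤ 6 * l :=
      (nd_mul hhl (nd_add (nd_mul (nd_mul dJ dg) (nd_mul n1'.le n2'.le))
        (nd_mul (nd_mul dJ' dg') (nd_mul n1.le n2.le)))).trans (by omega)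
    exact mul_le_mul (mul_le_mul_of_nonneg_right (qq_mono dZ) (by positivity))
      (qq_mono (by omega)) (qq_pos _).le (mul_nonneg (qq_pos _).le (by positivity))
  · have f1 := hxi _ ⟨g' * l₁' * s, by ring⟩ (u1 s hs)
    have f2 := hxi' _ ⟨g * l₁ * s, by ring⟩ (u2 s hs)
    rw [← e1] at f1
    rw [← e2] at f2
    rw [f1, f2, add_mul, SFour.res_add, he.add]
    by_cases k : IsCoprime (x + g * g' * (l₁ * l₁' * M₂) * s) M₁
    · rw [ind_pos k]; ring
    · rw [ind_neg k]; ring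

end Pool.Agent.MP_43e117_nt
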