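import Mathlib
import Pool.Agent.MP_43e117_nt.TPair
import Pool.Agent.MP_43e117_nt.TOffA
import Pool.Agent.MP_43e117_nt.TAmp

/- Twin primes of `F[X]`: the bilinear bound for the determinant kernel. -/

set_option autoImplicit false
set_option linter.unusedSectionVars false

namespace Pool.Agent.MP_43e117_nt

open Polynomial Finset Pool.Agent.MP_4fffd4_nt Pool.Agent.MP_c853c5_nt
open scoped BigOperators

variable {F : Type*} [Field F] [Fintype F]

namespace TOffB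

theorem one {ι κ : Type*} (S : Finset ι) (Ω : Finset κ) (W : κ → ι → ℝ) (s : κ → ℝ)
    (Z : κ → κ → Prop) {A D K : ℝ} (hs : ∀ ω, |s ω| ≤ 1) (hZ : ∀ ω ω', Z ω ω' → Z ω' ω)
    (hK : 0 ≤ K) (hD0 : 0 ≤ D) (hA : ∀ x ∈ S, ∑ ω ∈ Ω, W ω x ^ 2 ≤ A)
    (hD : ∀ ω ∈ Ω, ∑ ω' ∈ Ω, ind (Z ω ω') ≤ D)
    (hP : ∀ ω ∈ Ω, ∀ ω' ∈ Ω, ¬ Z ω ω' → |∑ x ∈ S, W ω x * W ω' x| ≤ K) :
    ∑ x ∈ S, (∑ ω ∈ Ω, s ω * W ω x) ^ 2 ≤ D * (S.card * A) + (Ω.card : ℝ) ^ 2 * K := by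
  have h1 : ∑ x ∈ S, (∑ ω ∈ Ω, s ω * W ω x) ^ 2 =
      ∑ ω ∈ Ω, ∑ ω' ∈ Ω, s ω * s ω' * ∑ x ∈ S, W ω x * W ω' x := by
    simp only [sq, Finset.sum_mul_sum]
    simp only [Finset.mul_sum]
    rw [Finset.sum_comm]
    refine Finset.sum_congr rfl fun ω _ => ?_
    rw [Finset.sum_comm]
    exact Finset.sum_congr rfl fun ω' _ => Finset.sum_congr rfl fun x _ => by ring
  set N : κ → ℝ := fun ω => ∑ x ∈ S, W ω x ^ 2 with hN
  have hN0 : ∀ ω, 0 ≤ N ω := fun ω => Finset.sum_nonneg fun _ _ => sq_nonneg _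
  have h2 : ∀ ω ∈ Ω, ∀ ω' ∈ Ω, s ω * s ω' * ∑ x ∈ S, W ω x * W ω' x ≤
      ind (Z ω ω') * N ω / 2 + ind (Z ω' ω) * N ω' / 2 + K := by
    intro ω hω ω' hω'
    have h3 : s ω * s ω' * ∑ x ∈ S, W ω x * W ω' x ≤ |∑ x ∈ S, W ω x * W ω' x| := by
      refine (le_abs_self _).trans ?_
      rw [abs_mul, abs_mul]
      exact mul_le_of_le_one_left (abs_nonneg _) (mul_le_one₀ (hs ω) (abs_nonneg _) (hs ω'))
    refine h3.trans ?_
    by_cases hz : Z ω ω'
    · rw [ind_pos hz, ind_pos (hZ _ _ hz), one_mul, one_mul]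
      refine le_add_of_le_of_nonneg ((Finset.abs_sum_le_sum_abs _ _).trans ?_) hK
      simp only [hN, Finset.sum_div, ← Finset.sum_add_distrib]
      refine Finset.sum_le_sum fun x _ => ?_
      rw [abs_le]
      constructor <;> nlinarith [sq_nonneg (W ω x + W ω' x), sq_nonneg (W ω x - W ω' x)]
    · have := mul_nonneg (ind_nonneg (Z ω ω')) (hN0 ω)
      have := mul_nonneg (ind_nonneg (Z ω' ω)) (hN0 ω')
      linarith [hP ω hω ω' hω' hz]
  have h4 : ∑ ω ∈ Ω, ∑ ω' ∈ Ω, ind (Z ω ω') * N ω ≤ D * (S.card * A) := by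
    calc _ ≤ ∑ ω ∈ Ω, D * N ω := Finset.sum_le_sum fun ω hω => by
          rw [← Finset.sum_mul]
          exact mul_le_mul_of_nonneg_right (hD ω hω) (hN0 ω)
      _ = D * ∑ x ∈ S, ∑ ω ∈ Ω, W ω x ^ 2 := by rw [← Finset.mul_sum, Finset.sum_comm]
      _ ≤ _ := by
          refine mul_le_mul_of_nonneg_left ?_ hD0
          simpa using Finset.sum_le_card_nsmul _ _ _ hA
  rw [h1]
  refine (Finset.sum_le_sum fun ω hω => Finset.sum_le_sum fun ω' hω' => h2 ω hω ω' hω').trans ?_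
  simp only [Finset.sum_add_distrib, ← Finset.sum_div, Finset.sum_const, nsmul_eq_mul]
  rw [Finset.sum_comm (f := fun ω ω' => ind (Z ω' ω) * N ω')]
  linarith

theorem two {ι : Type*} (S : Finset ι) (β : ι → ℝ) (Y : ι → ι → ℝ) {B : ℝ} (hB : 0 ≤ B)
    (hβ : ∀ x ∈ S, |β x| ≤ 1) (hY : ∀ M ∈ S, β M ≠ 0 → ∑ x ∈ S, Y M x ^ 2 ≤ B) :
    (∑ M ∈ S, ∑ x ∈ S, β M * β x * Y M x) ^ 2 ≤ (S.card : ℝ) ^ 3 * B := by
  have h1 : ∀ M ∈ S, (∑ x ∈ S, β M * β x * Y M x) ^ 2 ≤ S.card * B := by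
    intro M hM
    by_cases h0 : β M = 0
    · simp only [h0, zero_mul, Finset.sum_const_zero]
      rw [zero_pow two_ne_zero]
      positivity
    refine sq_sum_le_card_mul_sum_sq.trans (mul_le_mul_of_nonneg_left ?_ (Nat.cast_nonneg _))
    refine le_trans (Finset.sum_le_sum fun x hx => ?_) (hY M hM h0)
    rw [mul_pow]
    refine mul_le_of_le_one_left (sq_nonneg _) ?_
    rw [sq_le_one_iff_abs_le_one, abs_mul]
    exact mul_le_one₀ (hβ M hM) (abs_nonneg _) (hβ x hx)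
  refine sq_sum_le_card_mul_sum_sq.trans ?_
  calc _ ≤ (S.card : ℝ) * (S.card * (S.card * B)) := by
        refine mul_le_mul_of_nonneg_left ?_ (Nat.cast_nonneg _)
        simpa using Finset.sum_le_card_nsmul _ _ _ h1
    _ = _ := by ring

theorem card_modes (l t : ℕ) :
    ((modes F l t).card : ℝ) ≤ ((irrF F l).card : ℝ) ^ 2 * qq F (l + 2 * t) := by
  classical
  have h : (modes F l t).card ≤ (irrF F l ×ˢ irrF F l ×ˢ ltF F l ×ˢ ltF F t ×ˢ ltF F t).card := by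
    unfold modes
    exact card_filter_le _ _
  refine (Nat.cast_le.2 h).trans_eq ?_
  simp only [card_product, card_ltF, qq]
  push_cast
  ring

theorem card_mon (n : ℕ) : ((monF F n).card : ℝ) = qq F n := by
  rw [card_monF, qq, Nat.cast_pow]

theorem le_sq {l η e f : ℕ} (hl : 4 ≤ l) {c : ℝ} (hc : 4 * (l : ℝ) ^ 2 * c ≤ qq F η)
    (he : η + e ≤ f + 2 * l) : c * qq F e ≤ qq F f * ((irrF F l).card : ℝ) ^ 2 := by
  have hl0 : (0 : ℝ) < l := by exact_mod_cast (by omega : 0 < l)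
  have h1 : qq F l ≤ (irrF F l).card * (2 * l) := (div_le_iff₀ (by positivity)).1 (card_irrF hl)
  have h2 : qq F (2 * l) ≤ ((irrF F l).card * (2 * l)) ^ 2 := by
    rw [mul_comm 2 l, ← qq_pow]
    exact pow_le_pow_left₀ (qq_pos l).le h1 2
  refine le_of_mul_le_mul_left ?_ (show (0 : ℝ) < 4 * (l : ℝ) ^ 2 by positivity)
  calc 4 * (l : ℝ) ^ 2 * (c * qq F e) = 4 * (l : ℝ) ^ 2 * c * qq F e := by ring
    _ ≤ qq F η * qq F e := mul_le_mul_of_nonneg_right hc (qq_pos e).le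
    _ ≤ qq F f * qq F (2 * l) := by rw [← qq_add, ← qq_add]; exact qq_mono he
    _ ≤ qq F f * ((irrF F l).card * (2 * l)) ^ 2 := mul_le_mul_of_nonneg_left h2 (qq_pos f).le
    _ = _ := by ring

end TOffB

theorem offd_sq [CharP F 2] {h : F[X]} (hh : h ≠ 0) {ν t I' l T : ℕ} (hhl : h.natDegree ≤ l)
    (ht : t ≤ l) (hI : I' ≤ ν + t) (hl : 11 * l + 3 * T ≤ I') {τ K₀ : ℝ}
    (hτ : DivB F τ (l + I')) (hK : 0 ≤ K₀)
    (hK' : τ ^ 3 * qq F (3 * I' + 50 * l + 12 * T) ≤ K₀ ^ 4) {β : F[X] → ℝ} (hβ : Bd I' β)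
    (hβ' : ∀ x ∈ monF F I', β x ≠ 0 → ¬ Sq T x) :
    offd h ν t I' l β ^ 2 * qq F (4 * t) ≤ qq F (2 * I') *
      (2 * qq F 1 * τ ^ 2 * qq F (2 * t) * ((irrF F l).card : ℝ) ^ 2 * qq F (2 * I') +
        (((irrF F l).card : ℝ) ^ 2 * qq F (l + 2 * t)) ^ 2 * qq F I' * K₀) := by
  obtain ⟨e, he⟩ := exists_chr (F := F)
  obtain ⟨s, hs, hoff⟩ := offd_eq he h ν t I' l
  have hτ0 : 0 ≤ τ := zero_le_one.trans hτ.one_le
  have hq1 := qq_pos (F := F) 1
  have hq2 := qq_pos (F := F) (2 * t)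
  have hq3 := qq_pos (F := F) I'
  have h1 := TOffB.two (monF F I') β
    (fun M x => ∑ ω ∈ modes F l t, s ω * xw e h (ν + t) ω M x)
    (B := 2 * qq F 1 * τ * ((monF F I').card * (qq F (2 * t) * ((irrF F l).card : ℝ) ^ 2 * τ)) +
      ((modes F l t).card : ℝ) ^ 2 * K₀) (by positivity) hβ fun M hM h0 =>
    TOffB.one (monF F I') (modes F l t) (fun ω x => xw e h (ν + t) ω M x) s _ hs
      (fun ω ω' hz => (add_comm _ _).trans hz) hK (by positivity)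
      (fun x hx => sum_xw_sq he h hτ M x hM hx)
      (fun ω hω => card_degenerate ht (hτ.mono (by omega)) hω)
      fun ω hω ω' hω' hz => by
        have h2 := (pair he hh hhl hM (hβ' M hM h0) hI ht hl (hτ.mono (by omega)) hω hω' hz).trans
          hK'
        rw [← Even.pow_abs (by norm_num)] at h2
        exact le_of_pow_le_pow_left₀ (by norm_num) hK h2
  rw [← hoff, TOffB.card_mon] at h1
  have h3 : ((modes F l t).card : ℝ) ^ 2 ≤ (((irrF F l).card : ℝ) ^ 2 * qq F (l + 2 * t)) ^ 2 :=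
    pow_le_pow_left₀ (Nat.cast_nonneg _) (TOffB.card_modes l t) 2
  have e1 : qq F (4 * t) = qq F (2 * t) ^ 2 := by rw [qq_pow]; congr 1; ring
  have e2 : qq F (2 * I') = qq F I' ^ 2 := by rw [qq_pow, mul_comm]
  rw [e1, ← mul_pow, e2]
  refine h1.trans ?_
  calc _ ≤ qq F I' ^ 3 * (2 * qq F 1 * τ * (qq F I' * (qq F (2 * t) * ((irrF F l).card : ℝ) ^ 2 * τ))
        + (((irrF F l).card : ℝ) ^ 2 * qq F (l + 2 * t)) ^ 2 * K₀) := by gcongr
    _ = _ := by ring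

theorem bilin [CharP F 2] {h : F[X]} (hh : h ≠ 0) {n ν t I' l η : ℕ} (hη : 1 ≤ η)
    (hhl : h.natDegree ≤ l) (h1 : 2 * (ν + t) + 10 * η ≤ n + l) (h2 : ν + I' ≤ n)
    (hI : I' ≤ ν + t) (ht : t + 10 * η ≤ l) (hl : 100 * l ≤ I')
    (hτ : DivB F (qq F η) (2 * n)) (hn : (100 * n : ℝ) ^ 3 ≤ qq F η) {α β : F[X] → ℝ}
    (hα : Bd (ν + t) α) (hβ : Bd I' β) :
    |∑ d ∈ monF F (ν + t), ∑ x ∈ monF F I', α d * β x * kk h ν t d x| ≤ qq F n / qq F η := by
  obtain ⟨a, ha⟩ : ∃ a, n = a + 4 * η := ⟨n - 4 * η, by omega⟩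
  have hdeg : h.degree < (ν + I' : ℕ) :=
    degree_le_natDegree.trans_lt (by exact_mod_cast (by omega : h.natDegree < ν + I'))
  have hl4 : 4 ≤ l := by omega
  have hE := qq_pos (F := F) a
  have hln : (l : ℝ) ≤ n := by exact_mod_cast (by omega : l ≤ n)
  have hn1 : (1 : ℝ) ≤ n := by exact_mod_cast (by omega : 1 ≤ n)
  have hIn : ((ν + t : ℕ) : ℝ) ≤ n := by exact_mod_cast (by omega : ν + t ≤ n)
  have hL : (0 : ℝ) < (irrF F l).card :=
    lt_of_lt_of_le (div_pos (pow_pos card_pos' _) (by exact_mod_cast (by omega : 0 < 2 * l)))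
      (card_irrF hl4)
  set L : ℝ := ((irrF F l).card : ℝ) with hLd
  set β₁ : F[X] → ℝ := fun x => β x * ind (¬ Sq l x) with hβ₁
  have hb : Bd I' β₁ := fun x hx => by
    rw [hβ₁, abs_mul, abs_of_nonneg (ind_nonneg _)]
    exact mul_le_one₀ (hβ x hx) (ind_nonneg _) (ind_le_one _)
  have hb' : ∀ x ∈ monF F I', β₁ x ≠ 0 → ¬ Sq l x := fun x _ h0 hs =>
    h0 (by simp only [hβ₁]; rw [ind_neg (not_not.2 hs), mul_zero])
  have hA := amp h l hI hα hb
  have hk := kk_sq (t := t) hdeg (hτ.mono (by omega : ν + I' ≤ 2 * n))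
  have hk' := kk_Sq (t := t) hdeg (hτ.mono (by omega : ν + I' ≤ 2 * n)) l
  have hO := offd_sq (T := l) (K₀ := qq F (η + (3 * I' + 62 * l) / 4 + 1)) hh hhl (by omega) hI
    (by omega) (hτ.mono (by omega : l + I' ≤ 2 * n)) (qq_pos _).le
    (by rw [qq_pow, qq_pow, ← qq_add]; exact qq_mono (by omega)) hb hb'
  set T₁ := ∑ d ∈ monF F (ν + t), ∑ x ∈ monF F I', α d * β₁ x * kk h ν t d x with hT₁
  set O := offd h ν t I' l β₁
  have i1 : qq F (2 * (ν + t)) * ((2 * (ν + t : ℕ) + 1) * qq F l *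
      (∑ d ∈ monF F (ν + t), ∑ x ∈ monF F I', kk h ν t d x ^ 2)) ≤ qq F a ^ 2 * L ^ 2 := by
    have := qq_pos (F := F) (2 * (ν + t))
    have := qq_pos (F := F) l
    calc _ ≤ qq F (2 * (ν + t)) * ((2 * (ν + t : ℕ) + 1) * qq F l *
          (4 * qq F η * qq F (ν + I'))) := by gcongr
      _ = (4 * (2 * (ν + t : ℕ) + 1)) * qq F (2 * (ν + t) + l + η + (ν + I')) := by
          simp only [qq_add _ (ν + I'), qq_add _ η, qq_add _ l]; ring
      _ ≤ _ := by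
          rw [qq_pow]
          refine TOffB.le_sq hl4 (le_trans ?_ hn) (by omega)
          calc 4 * (l : ℝ) ^ 2 * (4 * (2 * (ν + t : ℕ) + 1)) ≤ 4 * (n : ℝ) ^ 2 * (4 * (2 * n + n)) := by
                gcongr
            _ ≤ _ := by nlinarith [pow_pos (zero_lt_one.trans_le hn1) 3]
  have i2 : qq F (2 * (ν + t)) * |O| ≤ 2 * (qq F a ^ 2 * L ^ 2) := by
    refine le_of_pow_le_pow_left₀ two_ne_zero (by positivity) ?_
    have j1 : 2 * qq F (4 * ν + 2 * I' + 1 + η * 2 + 2 * t + 2 * I') ≤ qq F (a * 4) * L ^ 2 := by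
      refine TOffB.le_sq hl4 (le_trans ?_ hn) (by omega)
      calc 4 * (l : ℝ) ^ 2 * 2 ≤ 4 * (n : ℝ) ^ 2 * (2 * n) := by gcongr; linarith
        _ ≤ _ := by nlinarith [pow_pos (zero_lt_one.trans_le hn1) 3]
    have j2 : qq F (4 * ν + 2 * I' + (l + 2 * t) * 2 + I' + (η + (3 * I' + 62 * l) / 4 + 1)) ≤
        qq F (a * 4) := qq_mono (by omega)
    have e1 : qq F (2 * (ν + t)) ^ 2 = qq F (4 * ν) * qq F (4 * t) := by
      rw [qq_pow, ← qq_add]; congr 1; ring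
    generalize η + (3 * I' + 62 * l) / 4 + 1 = k at hO j2
    rw [qq_add, qq_add, qq_add, qq_add, qq_add, ← qq_pow η, ← qq_pow a] at j1
    rw [qq_add, qq_add, qq_add, qq_add, ← qq_pow (l + 2 * t), ← qq_pow a] at j2
    have j3 := mul_le_mul_of_nonneg_left hO (qq_pos (F := F) (4 * ν)).le
    have j4 := mul_le_mul_of_nonneg_right j1 (sq_nonneg L)
    have j5 := mul_le_mul_of_nonneg_right j2 (show 0 ≤ L ^ 4 by positivity)
    have j6 : 0 ≤ qq F a ^ 4 * L ^ 4 := by positivity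
    rw [mul_pow, sq_abs, e1]
    linarith
  have i3 : |T₁| ≤ 2 * qq F a := by
    refine le_of_pow_le_pow_left₀ two_ne_zero (by positivity) ?_
    rw [sq_abs]
    refine le_of_mul_le_mul_right ?_ (pow_pos hL 2)
    have : 0 ≤ qq F a ^ 2 * L ^ 2 := by positivity
    rw [mul_add] at hA
    linarith
  have i4 : 4 * qq F η * qq F (ν + I') / qq F l ≤ 4 * qq F a := by
    rw [div_le_iff₀ (qq_pos l), mul_assoc, mul_assoc, ← qq_add, ← qq_add]
    exact mul_le_mul_of_nonneg_left (qq_mono (by omega)) (by norm_num)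
  have i5 : |∑ d ∈ monF F (ν + t), ∑ x ∈ monF F I', α d * β x * kk h ν t d x - T₁| ≤
      ∑ d ∈ monF F (ν + t), ∑ x ∈ monF F I', ind (Sq l x) * |kk h ν t d x| := by
    rw [hT₁, ← Finset.sum_sub_distrib]
    refine (Finset.abs_sum_le_sum_abs _ _).trans (Finset.sum_le_sum fun d hd => ?_)
    rw [← Finset.sum_sub_distrib]
    refine (Finset.abs_sum_le_sum_abs _ _).trans (Finset.sum_le_sum fun x hx => ?_)
    by_cases hs : Sq l x
    · simp only [hβ₁, ind_neg (not_not.2 hs), ind_pos hs, mul_zero, zero_mul, sub_zero, one_mul,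
        abs_mul]
      exact mul_le_of_le_one_left (abs_nonneg _) (mul_le_one₀ (hα d hd) (abs_nonneg _) (hβ x hx))
    · simp only [hβ₁, ind_neg hs, ind_pos hs, mul_one, sub_self, abs_zero, zero_mul, le_refl]
  have i6 : 6 * qq F a ≤ qq F n / qq F η := by
    rw [le_div_iff₀ (qq_pos η), show n = 3 + (a + η) + (3 * η - 3) by omega, qq_add, qq_add, qq_add]
    have h8 := two_pow_le_qq (F := F) 3
    have h9 := one_le_qq (F := F) (3 * η - 3)
    have h10 := mul_pos hE (qq_pos (F := F) η)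
    calc 6 * qq F a * qq F η ≤ 2 ^ 3 * (qq F a * qq F η) * 1 := by nlinarith
      _ ≤ _ := by gcongr
  have i7 := abs_add_le (∑ d ∈ monF F (ν + t), ∑ x ∈ monF F I', α d * β x * kk h ν t d x - T₁) T₁
  rw [sub_add_cancel] at i7
  linarith

end Pool.Agent.MP_43e117_nt
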