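import Mathlib
import Pool.Agent.MP_43e117_nt.TOffB
import Pool.Agent.MP_43e117_nt.TBasB

/- Twin primes of `F[X]`: the central range. -/

set_option autoImplicit false
set_option linter.unusedSectionVars false

namespace Pool.Agent.MP_43e117_nt

open Polynomial Finset Pool.Agent.MP_4fffd4_nt Pool.Agent.MP_c853c5_nt
open scoped BigOperators

variable {F : Type*} [Field F] [Fintype F]

namespace TK

/-- The discrepancy of one pair of divisibility conditions. -/
noncomputable def dis (h : F[X]) (n : ℕ) (A B : F[X]) : ℝ :=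
  ∑ f ∈ monF F n, ind (A ∣ f) * ind (B ∣ f + h) -
    qq F n * 𝔼 f : degreeLT F (5 * n), ind (A ∣ f.1) * ind (B ∣ f.1 + h)

theorem ind_iff {P Q : Prop} (h : P ↔ Q) : ind P = ind Q := by rw [propext h]

theorem ind_mul (P Q : Prop) : ind P * ind Q = ind (P ∧ Q) := by
  by_cases hP : P
  · rw [ind_pos hP, one_mul]; exact ind_iff (and_iff_right hP).symm
  · rw [ind_neg hP, zero_mul, ind_neg fun h => hP h.1]

theorem up_mul (h : F[X]) (I I' : ℕ) (α β : F[X] → ℝ) (f : F[X]) :
    up α I f * up β I' (f + h) = ∑ A ∈ monF F I, ∑ B ∈ monF F I',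
      α A * β B * (ind (A ∣ f) * ind (B ∣ f + h)) := by
  unfold up
  rw [Finset.sum_mul_sum]
  exact Finset.sum_congr rfl fun A _ => Finset.sum_congr rfl fun B _ => by ring

theorem expand (h : F[X]) (n I I' : ℕ) (α β : F[X] → ℝ) :
    corr h n (up α I) (up β I') - qq F n * mcorr h (5 * n) (up α I) (up β I') =
      ∑ A ∈ monF F I, ∑ B ∈ monF F I', α A * β B * dis h n A B := by
  have h1 : corr h n (up α I) (up β I') = ∑ A ∈ monF F I, ∑ B ∈ monF F I',
      α A * β B * ∑ f ∈ monF F n, ind (A ∣ f) * ind (B ∣ f + h) := by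
    unfold corr
    simp only [up_mul]
    rw [Finset.sum_comm]
    refine Finset.sum_congr rfl fun A _ => ?_
    rw [Finset.sum_comm]
    exact Finset.sum_congr rfl fun B _ => by rw [Finset.mul_sum]
  have h2 : mcorr h (5 * n) (up α I) (up β I') = ∑ A ∈ monF F I, ∑ B ∈ monF F I',
      α A * β B * 𝔼 f : degreeLT F (5 * n), ind (A ∣ f.1) * ind (B ∣ f.1 + h) := by
    unfold mcorr
    simp only [up_mul]
    rw [Finset.expect_sum_comm]
    refine Finset.sum_congr rfl fun A _ => ?_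
    rw [Finset.expect_sum_comm]
    exact Finset.sum_congr rfl fun B _ => by rw [Finset.mul_expect]
  rw [h1, h2, Finset.mul_sum, ← Finset.sum_sub_distrib]
  refine Finset.sum_congr rfl fun A _ => ?_
  rw [Finset.mul_sum, ← Finset.sum_sub_distrib]
  refine Finset.sum_congr rfl fun B _ => ?_
  unfold dis
  ring

theorem dis_per (h : F[X]) {n : ℕ} {A B m : F[X]} (hm : m ≠ 0) (hA : A ∣ m) (hB : B ∣ m)
    (hn : m.natDegree ≤ n) : dis h n A B = 0 := by
  have hp : Per m fun f => ind (A ∣ f) * ind (B ∣ f + h) := by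
    intro f t
    have e : f + m * t + h = f + h + m * t := by ring
    show ind (A ∣ f + m * t) * ind (B ∣ f + m * t + h) = ind (A ∣ f) * ind (B ∣ f + h)
    rw [e, ind_iff (dvd_add_left (hA.mul_right t)), ind_iff (dvd_add_left (hB.mul_right t))]
  unfold dis
  rw [sum_monF_per hm hp hn (show m.natDegree ≤ 5 * n by omega), sub_self]

theorem dis_gcd {h : F[X]} (n : ℕ) {A B g : F[X]} (hA : g ∣ A) (hB : g ∣ B) (hg : ¬ g ∣ h) :
    dis h n A B = 0 := by
  have h0 : ∀ f : F[X], ind (A ∣ f) * ind (B ∣ f + h) = 0 := fun f => by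
    rw [ind_mul]
    exact ind_neg fun H => hg ((dvd_add_right (hA.trans H.1)).1 (hB.trans H.2))
  unfold dis
  simp only [h0]
  simp

theorem sum_dvd_eq {m : F[X]} (hm : m.Monic) (ν : ℕ) (G : F[X] → ℝ) :
    ∑ f ∈ monF F (m.natDegree + ν), ind (m ∣ f) * G f = ∑ e ∈ monF F ν, G (m * e) := by
  classical
  have h1 : ∑ f ∈ monF F (m.natDegree + ν), ind (m ∣ f) * G f =
      ∑ f ∈ (monF F (m.natDegree + ν)).filter (m ∣ ·), G f := by
    rw [Finset.sum_filter]
    refine Finset.sum_congr rfl fun f _ => ?_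
    split_ifs with H
    · rw [ind_pos H, one_mul]
    · rw [ind_neg H, zero_mul]
  rw [h1]
  symm
  refine Finset.sum_bij (fun e _ => m * e) (fun e he => ?_) (fun a _ b _ hab => ?_)
    (fun f hf => ?_) fun _ _ => rfl
  · obtain ⟨h2, h3⟩ := mem_monF.1 he
    exact mem_filter.2 ⟨mem_monF.2 ⟨hm.mul h2, by rw [hm.natDegree_mul h2, h3]⟩, dvd_mul_right _ _⟩
  · exact mul_left_cancel₀ hm.ne_zero hab
  · obtain ⟨h2, e, rfl⟩ := mem_filter.1 hf
    obtain ⟨h3, h4⟩ := mem_monF.1 h2
    have h5 : e.Monic := hm.of_mul_monic_left h3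
    rw [hm.natDegree_mul h5] at h4
    exact ⟨e, mem_monF.2 ⟨h5, by omega⟩, rfl⟩

theorem dis_kk [CharP F 2] {g d x h₁ : F[X]} (hg : g.Monic) (hd : d.Monic) (hx : x.Monic)
    (hc : IsCoprime d x) {n ν t : ℕ} (hn : g.natDegree + x.natDegree + ν = n)
    (hdd : d.natDegree = ν + t) (ht : t ≤ n) (hh : (g * h₁).degree < n) :
    dis (g * h₁) n (g * d) (g * x) = ∑ e ∈ monF F ν, ind (d ∣ x * e + h₁) - 1 / qq F t := by
  have h2 : (2 : F[X]) = 0 := by exact_mod_cast CharP.cast_eq_zero F[X] 2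
  have e1 : ∑ f ∈ monF F n, ind (g * d ∣ f) * ind (g * x ∣ f + g * h₁) =
      ∑ e ∈ monF F ν, ind (d ∣ x * e + h₁) := by
    have h3 := sum_monF_shift hh fun f => ind (g * x ∣ f) * ind (g * d ∣ f + g * h₁)
    have h4 : ∀ f : F[X], f + g * h₁ + g * h₁ = f := fun f => by linear_combination g * h₁ * h2
    simp only [h4] at h3
    have h5 := sum_dvd_eq (hg.mul hx) ν fun f => ind (g * d ∣ f + g * h₁)
    rw [hg.natDegree_mul hx, hn] at h5
    rw [Finset.sum_congr rfl fun f _ => mul_comm _ _, h3, h5]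
    refine Finset.sum_congr rfl fun e _ => ind_iff ?_
    rw [show g * x * e + g * h₁ = g * (x * e + h₁) by ring]
    exact mul_dvd_mul_iff_left hg.ne_zero
  have e2 : 𝔼 f : degreeLT F (5 * n), ind (g * d ∣ f.1) * ind (g * x ∣ f.1 + g * h₁) =
      1 / qq F (n + t) := by
    obtain ⟨a, b, hab⟩ := hc
    have hD : (g * d * x).Monic := (hg.mul hd).mul hx
    have hDd : (g * d * x).natDegree = n + t := by
      rw [(hg.mul hd).natDegree_mul hx, hg.natDegree_mul hd]; omega
    have h6 := expect_lin hD isCoprime_one_left (g * d * (a * h₁)) (n := 5 * n) (by omega)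
    rw [hDd] at h6
    rw [← h6]
    refine Finset.expect_congr rfl fun f _ => ?_
    rw [ind_mul]
    refine ind_iff ⟨fun ⟨⟨u, hu⟩, ⟨v, hv⟩⟩ => ?_, fun ⟨w, hw⟩ => ⟨?_, ?_⟩⟩
    · have h7 : d * u + h₁ = x * v := by
        apply mul_left_cancel₀ hg.ne_zero
        linear_combination hv - hu
      refine ⟨a * v + b * u, ?_⟩
      rw [hu]
      linear_combination (g * d * a) * h7 - (g * d * u) * hab
    · exact ⟨x * w - a * h₁, by linear_combination hw⟩
    · exact ⟨d * w + b * h₁, by linear_combination hw - (g * h₁) * hab⟩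
  unfold dis
  rw [e1, e2, qq_add]
  have := qq_pos (F := F) n
  have := qq_pos (F := F) t
  field_simp

theorem sum_gcd {h : F[X]} (hh : h ≠ 0) {I I' : ℕ} (hI : h.natDegree ≤ I) (hI' : h.natDegree ≤ I')
    (G : F[X] → F[X] → ℝ) (hG : ∀ A B g, g ∣ A → g ∣ B → ¬ g ∣ h → G A B = 0) :
    ∑ A ∈ monF F I, ∑ B ∈ monF F I', G A B = ∑ g ∈ divs h, ∑ d ∈ monF F (I - g.natDegree),
      ∑ x ∈ monF F (I' - g.natDegree), ind (IsCoprime d x) * G (g * d) (g * x) := by
  classical
  have h1 : ∀ A ∈ monF F I, ∀ B, G A B =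
      ∑ g ∈ divs h, ind (g ∣ A) * (ind (g ∣ B) * (ind (gcd A B = g) * G A B)) := by
    intro A hA B
    have hA0 := (mem_monF.1 hA).1.ne_zero
    by_cases H : gcd A B ∣ h
    · have hm : (gcd A B).Monic := by
        rw [← _root_.normalize_gcd A B]
        exact monic_normalize (gcd_ne_zero_of_left hA0)
      rw [Finset.sum_eq_single_of_mem (gcd A B) ((mem_divs hh).2 ⟨hm, H⟩) fun g _ hg => by
        rw [ind_neg (P := gcd A B = g) hg.symm]; ring]
      rw [ind_pos (gcd_dvd_left A B), ind_pos (gcd_dvd_right A B), ind_pos rfl]; ring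
    · rw [hG A B _ (gcd_dvd_left A B) (gcd_dvd_right A B) H]; simp
  rw [Finset.sum_congr rfl fun A hA => Finset.sum_congr rfl fun B _ => h1 A hA B]
  rw [Finset.sum_congr rfl fun A _ => Finset.sum_comm, Finset.sum_comm]
  refine Finset.sum_congr rfl fun g hg => ?_
  obtain ⟨hm, hd⟩ := (mem_divs hh).1 hg
  have hγ := natDegree_le_of_dvd hd hh
  have h2 := sum_dvd_eq hm (I - g.natDegree) fun A => ∑ B ∈ monF F I',
    ind (g ∣ B) * (ind (gcd A B = g) * G A B)
  rw [show g.natDegree + (I - g.natDegree) = I by omega] at h2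
  rw [Finset.sum_congr rfl fun A _ => (Finset.mul_sum _ _ _).symm, h2]
  refine Finset.sum_congr rfl fun d _ => ?_
  have h3 := sum_dvd_eq hm (I' - g.natDegree) fun B => ind (gcd (g * d) B = g) * G (g * d) B
  rw [show g.natDegree + (I' - g.natDegree) = I' by omega] at h3
  rw [h3]
  refine Finset.sum_congr rfl fun x _ => ?_
  congr 1
  refine ind_iff ?_
  rw [_root_.gcd_mul_left, hm.normalize_eq_self, mul_eq_left₀ hm.ne_zero, ← gcd_isUnit_iff,
    ← normalize_eq_one, _root_.normalize_gcd]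

theorem central_le [CharP F 2] {h : F[X]} (hh : h ≠ 0) :
    ∃ n₀ : ℕ, ∀ n, n₀ ≤ n → ∀ (I I' : ℕ) (α β : F[X] → ℝ), Bd I α → Bd I' β → I' ≤ I →
      n < I + I' → 2 * I ≤ n + n / 100000 →
      |∑ A ∈ monF F I, ∑ B ∈ monF F I', α A * β B * dis h n A B| ≤
        qq F n / qq F (n / 2000000) := by
  obtain ⟨n₁, H₁⟩ := exists_DivB (F := F) 2 1000000 (by norm_num)
  obtain ⟨n₂, H₂⟩ := exists_poly (F := F) 100 3 1000000 (by norm_num)
  obtain ⟨n₃, H₃⟩ := exists_DivB (F := F) 1 2000000 (by norm_num)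
  refine ⟨n₁ + n₂ + n₃ + 1000000 + 1000 * h.natDegree,
    fun n hn I I' α β hα hβ hI hlt hD => ?_⟩
  rw [sum_gcd hh (by omega) (by omega) _ fun A B g hA hB hg => by
    rw [dis_gcd n hA hB hg, mul_zero]]
  have hb : ∀ g ∈ divs h, |∑ d ∈ monF F (I - g.natDegree), ∑ x ∈ monF F (I' - g.natDegree),
      ind (IsCoprime d x) * (α (g * d) * β (g * x) * dis h n (g * d) (g * x))| ≤
      qq F n / qq F (n / 1000000) := by
    intro g hg
    obtain ⟨hm, h₁, rfl⟩ := (mem_divs hh).1 hg
    have h₁0 : h₁ ≠ 0 := right_ne_zero_of_mul hh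
    have hdeg := natDegree_mul hm.ne_zero h₁0
    by_cases hc : I + I' - g.natDegree ≤ n
    · rw [Finset.sum_eq_zero fun d hd => Finset.sum_eq_zero fun x hx => ?_, abs_zero]
      · exact (div_pos (qq_pos _) (qq_pos _)).le
      · obtain ⟨hd1, hd2⟩ := mem_monF.1 hd
        obtain ⟨hx1, hx2⟩ := mem_monF.1 hx
        rw [dis_per _ ((hm.mul hd1).mul hx1).ne_zero (dvd_mul_right _ _)
          ⟨d, by ring⟩ (by
            rw [(hm.mul hd1).natDegree_mul hx1, hm.natDegree_mul hd1]; omega)]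
        ring
    · obtain ⟨t, ht⟩ : ∃ t, I + I' - g.natDegree = n + t := ⟨I + I' - g.natDegree - n, by omega⟩
      have e : I - g.natDegree = n - I' + t := by omega
      have hb := bilin (h := h₁) h₁0 (n := n) (ν := n - I') (t := t) (I' := I' - g.natDegree)
        (l := n / 1000) (η := n / 1000000) (by omega) (by omega) (by omega) (by omega) (by omega)
        (by omega) (by omega) (H₁ n (by omega)) (by exact_mod_cast H₂ n (by omega))
        (α := fun d => α (g * d)) (β := fun x => β (g * x))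
        (fun d hd => hα _ (by
          obtain ⟨hd1, hd2⟩ := mem_monF.1 hd
          exact mem_monF.2 ⟨hm.mul hd1, by rw [hm.natDegree_mul hd1]; omega⟩))
        (fun x hx => hβ _ (by
          obtain ⟨hx1, hx2⟩ := mem_monF.1 hx
          exact mem_monF.2 ⟨hm.mul hx1, by rw [hm.natDegree_mul hx1]; omega⟩))
      rw [e]
      refine le_of_eq_of_le ?_ hb
      congr 1
      refine Finset.sum_congr rfl fun d hd => Finset.sum_congr rfl fun x hx => ?_
      obtain ⟨hd1, hd2⟩ := mem_monF.1 hd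
      obtain ⟨hx1, hx2⟩ := mem_monF.1 hx
      unfold kk
      by_cases hco : IsCoprime d x
      · rw [dis_kk hm hd1 hx1 hco (ν := n - I') (t := t) (by omega) hd2 (by omega)
          ((degree_le_natDegree).trans_lt (by exact_mod_cast (by omega)))]
        ring
      · rw [ind_neg hco]; ring
  refine (Finset.abs_sum_le_sum_abs _ _).trans ((Finset.sum_le_card_nsmul _ _ _ hb).trans ?_)
  have h1 := H₃ n (by omega) h hh (by omega)
  have h2 : qq F (n / 2000000) * qq F (n / 2000000) ≤ qq F (n / 1000000) := by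
    rw [← qq_add]; exact qq_mono (by omega)
  have h3 := qq_pos (F := F) n
  have h4 := qq_pos (F := F) (n / 2000000)
  have h5 := qq_pos (F := F) (n / 1000000)
  rw [nsmul_eq_mul, ← mul_div_assoc, div_le_div_iff₀ h5 h4]
  calc ((divs h).card : ℝ) * qq F n * qq F (n / 2000000)
      = qq F n * ((divs h).card * qq F (n / 2000000)) := by ring
    _ ≤ qq F n * (qq F (n / 2000000) * qq F (n / 2000000)) := by gcongr
    _ ≤ _ := by gcongr

end TK

theorem central [CharP F 2] {h : F[X]} (hh : h ≠ 0) : ∃ D : ℕ, 0 < D ∧ ∃ C : ℕ, 0 < C ∧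
    ∃ n₀ : ℕ, ∀ n, n₀ ≤ n → ∀ (I I' : ℕ) (α β : F[X] → ℝ), Bd I α → Bd I' β →
      (I + I' ≤ n ∨ (2 * I ≤ n + n / D ∧ 2 * I' ≤ n + n / D)) →
      |corr h n (up α I) (up β I') - qq F n * mcorr h (5 * n) (up α I) (up β I')| ≤
        qq F n / qq F (n / C) := by
  obtain ⟨n₀, H⟩ := TK.central_le hh
  refine ⟨100000, by norm_num, 2000000, by norm_num, n₀ + h.natDegree + 1,
    fun n hn I I' α β hα hβ hI => ?_⟩
  by_cases h0 : I + I' ≤ n
  · rw [TK.expand, Finset.sum_eq_zero fun A hA => Finset.sum_eq_zero fun B hB => ?_, abs_zero]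
    · exact (div_pos (qq_pos _) (qq_pos _)).le
    · obtain ⟨h1, h2⟩ := mem_monF.1 hA
      obtain ⟨h3, h4⟩ := mem_monF.1 hB
      rw [TK.dis_per _ (h1.mul h3).ne_zero (dvd_mul_right _ _) (dvd_mul_left _ _)
        (by rw [h1.natDegree_mul h3]; omega), mul_zero]
  obtain ⟨h1, h2⟩ := hI.resolve_left h0
  rcases le_total I' I with hle | hle
  · rw [TK.expand]
    exact H n (by omega) I I' α β hα hβ hle (by omega) h1
  · rw [corr_comm ((degree_le_natDegree).trans_lt (by exact_mod_cast (by omega))),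
      mcorr_comm ((degree_le_natDegree).trans_lt (by exact_mod_cast (by omega))), TK.expand]
    exact H n (by omega) I' I β α hβ hα hle (by omega) h2

end Pool.Agent.MP_43e117_nt
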