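import Mathlib
import Pool.Agent.MP_43e117_nt.TBad
import Pool.Agent.MP_43e117_nt.TLine

/- Twin primes of `F[X]`: the weighted sum with one smooth variable. -/

set_option autoImplicit false
set_option linter.unusedSectionVars false

namespace Pool.Agent.MP_43e117_nt

open Polynomial Finset Pool.Agent.MP_4fffd4_nt Pool.Agent.MP_c853c5_nt
open scoped BigOperators

variable {F : Type*} [Field F] [Fintype F]

namespace TOne

theorem cfg_avg {h : F[X]} {μ κ ε₁ ε₂ i : ℕ} (hn : i + ε₁ + ε₂ = μ + κ) {ι : Type*} [Fintype ι]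
    [Nonempty ι] (s : ι → F[X] → F[X] → F[X] → F[X])
    (hs : ∀ x, ∀ k ∈ monF F κ, ∀ e₁ ∈ monF F ε₁, ∀ e₂ ∈ monF F ε₂, (k * s x k e₁ e₂).degree < i)
    (G : F[X] → F[X] → F[X] → F[X] → F[X] → ℝ) :
    cfg h μ κ ε₁ ε₂ i G = cfg h μ κ ε₁ ε₂ i fun m k e₁ e₂ d =>
      𝔼 x, G (m + e₁ * e₂ * s x k e₁ e₂) k e₁ e₂ (d + k * s x k e₁ e₂) := by
  rw [cfg_expect (fun x m k e₁ e₂ d => G (m + e₁ * e₂ * s x k e₁ e₂) k e₁ e₂
    (d + k * s x k e₁ e₂))]
  rw [Finset.expect_congr rfl fun x _ => (cfg_shift hn (s x) (hs x) G).symm, Fintype.expect_const]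

theorem deg_shift {A s x : F[X]} {a r l i : ℕ} (hA : A ∈ monF F a) (hs : s ∈ monF F r)
    (hx : x.degree < l) (hi : a + 4 * r + 2 * l ≤ i) : (A * (s ^ 2 * x) ^ 2).degree < i := by
  obtain ⟨hs1, hs2⟩ := mem_monF.1 hs
  obtain ⟨hA1, hA2⟩ := mem_monF.1 hA
  by_cases hx0 : x = 0
  · rw [hx0, mul_zero, zero_pow two_ne_zero, mul_zero, degree_zero]
    exact WithBot.bot_lt_coe _
  have h1 := (natDegree_lt_iff_degree_lt hx0).2 hx
  refine degree_le_natDegree.trans_lt (Nat.cast_lt.2 ?_)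
  rw [hA1.natDegree_mul' (pow_ne_zero _ (mul_ne_zero (pow_ne_zero _ hs1.ne_zero) hx0)),
    natDegree_pow, (hs1.pow 2).natDegree_mul' hx0, natDegree_pow]
  omega

theorem mon_mul {f g : F[X]} {a b : ℕ} (hf : f ∈ monF F a) (hg : g ∈ monF F b) :
    f * g ∈ monF F (a + b) := by
  obtain ⟨h1, h2⟩ := mem_monF.1 hf
  obtain ⟨h3, h4⟩ := mem_monF.1 hg
  exact mem_monF.2 ⟨h1.mul h3, by rw [h1.natDegree_mul h3, h2, h4]⟩

theorem pointwise [CharP F 2] {d u r β N a i : ℕ} (hr : r < d)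
    (hd : 2 * (Fintype.card F * β) * 8 ^ (2 * u + 2) + 12 * u + 20 ≤ d) {A D v s : F[X]}
    (hv : v ∈ goodV F d u) (hs : s ∈ monF F r) (hA : A ∈ monF F a) (hD : D ∈ monF F i)
    (hN : i + a = 2 * N + 1) (hi : a + 4 * r + 4 * (d + u) ≤ i) {c : ℝ} (hc : |c| ≤ 1) :
    |𝔼 x : degreeLT F (2 * (d + u)), c * lam (D + A * (s ^ 2 * x.1) ^ 2) *
      ind (v * s = od ((D + A * (s ^ 2 * x.1) ^ 2) * A))| ≤
      𝔼 x : degreeLT F (2 * (d + u)), ind (v * s = od ((D + A * (s ^ 2 * x.1) ^ 2) * A)) *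
        (2 * ind (SLine.Bad d u ((D + A * (s ^ 2 * x.1) ^ 2) * A))) +
      ind (v * s = od (D * A)) * (ind (SLine.Bad d u (D * A)) + 1 / qq F β) := by
  obtain ⟨hs1, hs2⟩ := mem_monF.1 hs
  obtain ⟨hA1, hA2⟩ := mem_monF.1 hA
  obtain ⟨hD1, hD2⟩ := mem_monF.1 hD
  have e1 : ∀ x : F[X], (D + A * (s ^ 2 * x) ^ 2) * A = D * A + (A * s ^ 2 * x) ^ 2 :=
    fun x => by ring
  have hod : ∀ x : F[X], od ((D + A * (s ^ 2 * x) ^ 2) * A) = od (D * A) := fun x => by
    rw [e1, od_add, od_of_sq, add_zero]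
  simp only [hod]
  by_cases hW : v * s = od (D * A)
  · simp only [ind_pos hW, mul_one, one_mul]
    have hl := line_one (β := β) (N := N) (α := A * s ^ 2) hr hd hv hs (hN ▸ mon_mul hD hA) hW
      (dvd_mul_left _ _) (by
        rw [hA1.natDegree_mul (hs1.pow 2), natDegree_pow, hA2, hs2]; omega)
    have hlam : ∀ x : degreeLT F (2 * (d + u)), c * lam (D + A * (s ^ 2 * x.1) ^ 2) =
        c * lam A * lam (D * A + (A * s ^ 2 * x.1) ^ 2) := fun x => by
      have hne : D + A * (s ^ 2 * x.1) ^ 2 ≠ 0 := by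
        refine (hD1.add_of_left ?_).ne_zero
        rw [degree_eq_natDegree hD1.ne_zero, hD2]
        exact deg_shift hA hs (mem_degreeLT.1 x.2) (by omega)
      have h2 : lam A * lam A = 1 := by
        rw [← abs_mul_abs_self, abs_lam, mul_one]
      rw [← e1, lam_mul hne hA1.ne_zero]
      linear_combination (-(c * lam (D + A * (s ^ 2 * x.1) ^ 2))) * h2
    have hb : ind (∃ P ∈ irrF F d, P ∣ od (D * A) ∧ P ∣ A * s ^ 2) ≤
        ind (SLine.Bad d u (D * A)) := by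
      refine ind_mono fun ⟨P, hP, h1, h2⟩ => bad_of_dvd u hP ?_ h1
      obtain ⟨-, hP2, hP3⟩ := mem_irrF.1 hP
      rcases hP3.prime.dvd_or_dvd h2 with h3 | h3
      · exact h3.mul_left _
      · have := natDegree_le_of_dvd (hP3.prime.dvd_of_dvd_pow h3) hs1.ne_zero
        omega
    simp only [hlam, e1]
    rw [← Finset.mul_expect, ← Finset.mul_expect, abs_mul, abs_mul, abs_lam, mul_one]
    refine (mul_le_of_le_one_left (abs_nonneg _) hc).trans (hl.trans ?_)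
    linarith
  · simp [ind_neg hW]

theorem key [CharP F 2] {h : F[X]} {N β d u r μ κ ε i b : ℕ} (hr : r < d)
    (hd : 2 * (Fintype.card F * β) * 8 ^ (2 * u + 2) + 12 * u + 20 ≤ d) (hn : i + ε + 0 = μ + κ)
    (hN : i + (κ + b) = 2 * N + 1) (h2 : κ + b + 4 * r + 4 * (d + u) ≤ i) (c : F[X] → F[X] → ℝ)
    (hc : ∀ k ∈ monF F κ, ∀ e ∈ monF F ε, |c k e| ≤ 1) {B : F[X]} (hB : B ∈ monF F b)
    {v s : F[X]} (hv : v ∈ goodV F d u) (hs : s ∈ monF F r) :
    |cfg h μ κ ε 0 i fun _ k e₁ e₂ d' =>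
      c k e₁ * lam d' * ind (v * s = od (d' * (k * e₂ * B)))| ≤
      cfg h μ κ ε 0 i fun _ k _ e₂ d' => ind (v * s = od (d' * (k * e₂ * B))) *
        (3 * ind (SLine.Bad d u (d' * (k * e₂ * B))) + 1 / qq F β) := by
  have hA : ∀ k ∈ monF F κ, ∀ e₂ ∈ monF F 0, k * e₂ * B ∈ monF F (κ + b) := fun k hk e₂ he => by
    have h1 := mon_mul hk he
    rw [add_zero] at h1
    exact mon_mul h1 hB
  have e1 : ∀ k e₂ x : F[X], k * (e₂ * B * (s ^ 2 * x) ^ 2) = k * e₂ * B * (s ^ 2 * x) ^ 2 :=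
    fun k e₂ x => by ring
  have hsh : ∀ x : degreeLT F (2 * (d + u)), ∀ k ∈ monF F κ, ∀ e₁ ∈ monF F ε, ∀ e₂ ∈ monF F 0,
      (k * (e₂ * B * (s ^ 2 * x.1) ^ 2)).degree < i := fun x k hk e₁ _ e₂ he => by
    rw [e1]
    exact deg_shift (hA k hk e₂ he) hs (mem_degreeLT.1 x.2) (by omega)
  have hav := cfg_avg (h := h) hn
    (fun (x : degreeLT F (2 * (d + u))) _ _ e₂ => e₂ * B * (s ^ 2 * x.1) ^ 2) hsh
  have h3 := hav fun _ k _ e₂ d' => ind (v * s = od (d' * (k * e₂ * B))) *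
    (2 * ind (SLine.Bad d u (d' * (k * e₂ * B))))
  have h4 : (cfg h μ κ ε 0 i fun _ k _ e₂ d' => ind (v * s = od (d' * (k * e₂ * B))) *
      (3 * ind (SLine.Bad d u (d' * (k * e₂ * B))) + 1 / qq F β)) =
      (cfg h μ κ ε 0 i fun _ k _ e₂ d' => ind (v * s = od (d' * (k * e₂ * B))) *
        (2 * ind (SLine.Bad d u (d' * (k * e₂ * B))))) +
      cfg h μ κ ε 0 i fun _ k _ e₂ d' => ind (v * s = od (d' * (k * e₂ * B))) *
        (ind (SLine.Bad d u (d' * (k * e₂ * B))) + 1 / qq F β) := by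
    rw [← cfg_add]
    exact cfg_congr fun _ _ _ _ _ _ _ _ _ _ _ => by ring
  have h5 := hav fun _ k e₁ e₂ d' => c k e₁ * lam d' * ind (v * s = od (d' * (k * e₂ * B)))
  rw [h5, h4, h3, ← cfg_add]
  refine (abs_cfg_le _).trans (cfg_mono fun m _ k hk e₁ he₁ e₂ he₂ D hD _ => ?_)
  simp only [e1]
  exact pointwise hr hd hv hs (hA k hk e₂ he₂) hD hN h2 (hc k hk e₁ he₁)

end TOne

open TOne in
theorem typeU [CharP F 2] {h : F[X]} (hh : h ≠ 0) {N L η d u r : ℕ} (hp : Par F N L η d u r)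
    {n μ κ ε i b : ℕ} (hn : μ + κ = n) (hn' : i + ε = n) (hN : i + κ + b = 2 * N + 1)
    (h2 : κ + b + 2 * L ≤ i) {τ : ℝ} (hτ : DivB F τ n)
    (hη : 100 * n * τ ^ 4 * qq F (2 * h.natDegree) ≤ qq F η) (c : F[X] → F[X] → ℝ)
    (hc : ∀ k ∈ monF F κ, ∀ e ∈ monF F ε, |c k e| ≤ 1) {B : F[X]} (hB : B ∈ monF F b)
    (hBs : Squarefree B) :
    |cfg h μ κ ε 0 i fun _ k e₁ e₂ d' =>
      c k e₁ * lam d' * gw (goodV F d u) r (od (d' * (k * e₂ * B)))| ≤
      qq F n / qq F (4 * η) := by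
  have hr := hp.hr
  have hL := hp.hL
  have hu := hp.hu
  have hτ1 := hτ.one_le
  have hn1 : 1 ≤ n := by omega
  have hhη := natDegree_lt_of_small hn1 hτ1 hη
  have hηd : 10 * η ≤ d := by
    have h1 : 1 ≤ Fintype.card F := Fintype.card_pos
    have h3 : 1 ≤ 8 ^ (2 * u + 2) := Nat.one_le_pow _ _ (by norm_num)
    have h4 : 10 * η ≤ Fintype.card F * (10 * η) := Nat.le_mul_of_pos_left _ h1
    have h5 : 2 * (Fintype.card F * (10 * η)) ≤
        2 * (Fintype.card F * (10 * η)) * 8 ^ (2 * u + 2) := Nat.le_mul_of_pos_right _ h3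
    have := hp.hd
    omega
  have hbad := cfg_bad (μ := μ) (κ := κ) (ε₁ := ε) (ε₂ := 0) (i := i) (d := d) (u := u) hh hn
    (by omega) hτ (by omega) (by omega) hB hBs
  have hone := cfg_one_le (h := h) (μ := μ) (κ := κ) (ε₁ := ε) (ε₂ := 0) (i := i) hτ hn (by omega)
  have hq := qq_pos (F := F)
  calc _ = |∑ v ∈ goodV F d u, ∑ s ∈ monF F r, cfg h μ κ ε 0 i fun _ k e₁ e₂ d' =>
          c k e₁ * lam d' * ind (v * s = od (d' * (k * e₂ * B)))| := by
        simp only [← cfg_sum, gw, Finset.mul_sum]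
    _ ≤ ∑ v ∈ goodV F d u, ∑ s ∈ monF F r, cfg h μ κ ε 0 i fun _ k _ e₂ d' =>
          ind (v * s = od (d' * (k * e₂ * B))) *
            (3 * ind (SLine.Bad d u (d' * (k * e₂ * B))) + 1 / qq F (10 * η)) :=
        (Finset.abs_sum_le_sum_abs _ _).trans (Finset.sum_le_sum fun v hv =>
          (Finset.abs_sum_le_sum_abs _ _).trans (Finset.sum_le_sum fun s hs =>
            key (N := N) hr hp.hd (by omega) (by omega) (by omega) c hc hB hv hs))
    _ ≤ cfg h μ κ ε 0 i fun _ k _ e₂ d' =>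
          3 * ind (SLine.Bad d u (d' * (k * e₂ * B))) + 1 / qq F (10 * η) * 1 := by
        simp only [← cfg_sum, ← Finset.sum_mul]
        refine cfg_mono fun m _ k _ e₁ _ e₂ _ D _ _ => ?_
        rw [mul_one]
        refine mul_le_of_le_one_left ?_ (gw_le_one hr _)
        have := ind_nonneg (SLine.Bad d u (D * (k * e₂ * B)))
        have := hq (10 * η)
        positivity
    _ ≤ 3 * (τ ^ 3 * (4 + 2 * b) * qq F n / qq F (10 * η)) +
          1 / qq F (10 * η) * (τ ^ 3 * qq F n) := by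
        rw [cfg_add, cfg_mul, cfg_mul]
        have h1 := hq (10 * η)
        have h3 := hq n
        refine add_le_add (mul_le_mul_of_nonneg_left (hbad.trans ?_) (by norm_num))
          (mul_le_mul_of_nonneg_left hone (by positivity))
        exact div_le_div_of_nonneg_left (by positivity) h1 (qq_mono hηd)
    _ = τ ^ 3 * (13 + 6 * b) * qq F n / qq F (10 * η) := by ring
    _ ≤ qq F (6 * η) * qq F n / qq F (10 * η) := by
        have h1 := hq (10 * η)
        have h3 := hq n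
        have hb : (13 : ℝ) + 6 * b ≤ 100 * n := by
          have : 13 + 6 * b ≤ 100 * n := by omega
          exact_mod_cast this
        have h4 : τ ^ 3 * (13 + 6 * b) ≤ qq F (6 * η) :=
          calc τ ^ 3 * (13 + 6 * b) ≤ τ ^ 4 * (100 * n) :=
                mul_le_mul (pow_le_pow_right₀ hτ1 (by norm_num)) hb (by positivity) (by positivity)
            _ = 100 * n * τ ^ 4 * 1 := by ring
            _ ≤ 100 * n * τ ^ 4 * qq F (2 * h.natDegree) :=
                mul_le_mul_of_nonneg_left (one_le_qq _) (by positivity)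
            _ ≤ qq F η := hη
            _ ≤ _ := qq_mono (by omega)
        gcongr
    _ = _ := by
        rw [show 10 * η = 6 * η + 4 * η by ring, qq_add, mul_div_mul_left _ _ (hq _).ne']

end Pool.Agent.MP_43e117_nt
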