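import Mathlib
import Pool.Agent.MP_43e117_nt.TBasA
import Pool.Agent.MP_c853c5_nt.SPack

/- Twin primes of `F[X]`: choice of the parameters of the weight. -/

set_option autoImplicit false
set_option linter.unusedSectionVars false

namespace Pool.Agent.MP_43e117_nt

open Polynomial Finset Pool.Agent.MP_4fffd4_nt Pool.Agent.MP_c853c5_nt
open scoped BigOperators

variable {F : Type*} [Field F] [Fintype F]

namespace TPar

theorem par_of [CharP F 2] {N L κ d u r k : ℕ} (hu : 7 ≤ u)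
    (hr : r < d) (hN : ∑ j : Fin (u + 1), (d + j) + r = N) (h1 : 6 * d + 2 * u ≤ L)
    (h2 : 2 * L ≤ N) (h3 : 2 * (Fintype.card F * (10 * κ)) * 8 ^ (2 * u + 2) + 12 * u + 20 ≤ d)
    (h4 : 210 * κ ≤ r) (h5 : 2 * N ≤ 2 ^ k * (r - 210 * κ))
    (h6 : 2 ^ (2 * k + 3) * (400 * κ) ≤ r - 210 * κ)
    (h7 : (2 * N) ^ (u + 1) ≤ 2 ^ κ) (h8 : 1 ≤ κ) : Par F N L κ d u r := by
  have hq := card_pos' (F := F)
  have hq2 := two_le_card (F := F)
  have hq1 : (1 : ℝ) ≤ Fintype.card F := one_le_two.trans hq2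
  have h9 : ((2 * N : ℝ)) ^ (u + 1) ≤ (Fintype.card F : ℝ) ^ κ :=
    le_trans (by exact_mod_cast h7) (pow_le_pow_left₀ zero_le_two hq2 κ)
  refine ⟨by omega, hr, hN, h1, h8, h3, ?_, ?_, fun Δ hΔ hd => ?_⟩
  · unfold dens qq
    rw [div_mul_eq_mul_div, le_div_iff₀ (by positivity), one_mul]
    have hc := card_goodV (F := F) (d := d) (u := u) (by omega)
    have hd0 : (0 : ℝ) < d := by exact_mod_cast (by omega)
    rw [div_le_iff₀ (by positivity)] at hc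
    refine hc.trans (mul_le_mul_of_nonneg_left (le_trans ?_ h9) (by positivity))
    have : (d + u : ℝ) ≤ N := by exact_mod_cast (by omega)
    gcongr
  · unfold dens qq
    rw [div_le_one (by positivity), ← Nat.cast_pow, ← card_monF, Nat.cast_le]
    exact Finset.card_le_card fun v hv => mem_monF.2 ⟨(goodV_spec hv).1, (goodV_spec hv).2.1⟩
  · have := variance (T := goodV F d u) (N₁ := ∑ j : Fin (u + 1), (d + j)) (r := r) (L := L)
      (k := k) (b := 400 * κ) (Δ := Δ) (fun v hv => ⟨(goodV_spec hv).1, (goodV_spec hv).2.1,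
        (goodV_spec hv).2.2 Δ hΔ (by omega)⟩) hΔ (by omega) (by omega) (by omega)
      (hN ▸ h5.trans (Nat.mul_le_mul_left _ (by omega))) (by omega)
    rw [hN] at this
    unfold dens qq
    simp only [Finset.expect_sub_distrib, Finset.expect_const Finset.univ_nonempty]
    refine this.trans ?_
    rw [div_le_div_iff₀ (by positivity) (by positivity), one_mul]
    calc _ ≤ (Fintype.card F : ℝ) ^ 2 * (Fintype.card F : ℝ) ^ Δ.natDegree *
          (Fintype.card F : ℝ) ^ (500 * κ) := by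
          gcongr; nlinarith
      _ ≤ _ := by rw [← pow_add, ← pow_add]; exact pow_le_pow_right₀ hq1 (by omega)

end TPar

theorem exists_Par [CharP F 2] (M C₀ : ℕ) : ∃ C : ℕ, C₀ ≤ C ∧ 0 < C ∧ ∃ n₀ : ℕ, ∀ n, n₀ ≤ n →
    ∀ N L, n ≤ 4 * N → N ≤ n → n ≤ M * L → 2 * L ≤ N →
      ∃ d u r, Par F N L (n / C) d u r := by
  obtain ⟨u, hu⟩ : ∃ u, u + 1 = 8 * (M + 1) := ⟨8 * (M + 1) - 1, by omega⟩
  obtain ⟨k, hk⟩ : ∃ k, 16 * (u + 1) ≤ 2 ^ k := ⟨_, Nat.lt_two_pow_self.le⟩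
  obtain ⟨c₀, hc₀⟩ : ∃ c₀ : ℕ, ∀ d : ℕ, ∑ j : Fin (u + 1), (d + j) = (u + 1) * d + c₀ :=
    ⟨∑ j : Fin (u + 1), (j : ℕ), fun d => by rw [Finset.sum_add_distrib]; simp⟩
  set C' := 1600 * 2 ^ (2 * k + 3) + 40 * Fintype.card F * 8 ^ (2 * u + 2) + (1000 + C₀) with hC'
  have hC : 0 < 8 * (u + 1) * C' := by positivity
  obtain ⟨N₁, hN₁⟩ := poly_le 2 (u + 1) _ hC
  refine ⟨8 * (u + 1) * C', by
    have : C₀ ≤ C' := by omega
    nlinarith, hC, N₁ + 8 * (u + 1) * C' + 4 * (c₀ +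
    (2 * (u + 1) + 1) * (2 * c₀ + 24 * u + 40)), fun n hn N L hN hN' hL hL' => ?_⟩
  obtain ⟨N', rfl⟩ : ∃ N', N = N' + c₀ := ⟨N - c₀, by omega⟩
  have a1 := Nat.div_mul_le_self (2 * N') (2 * (u + 1) + 1)
  have a2 := Nat.lt_mul_div_succ (2 * N') (b := 2 * (u + 1) + 1) (by omega)
  have a3 : 2 * c₀ + 24 * u + 40 ≤ 2 * N' / (2 * (u + 1) + 1) :=
    (Nat.le_div_iff_mul_le (by omega)).2 (by rw [mul_comm]; omega)
  generalize 2 * N' / (2 * (u + 1) + 1) = d at a1 a2 a3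
  obtain ⟨r, hr⟩ : ∃ r, (u + 1) * d + r = N' := ⟨N' - (u + 1) * d, by
    have : (u + 1) * d ≤ N' := by nlinarith
    omega⟩
  have b1 : d ≤ 2 * r := by nlinarith
  have b2 : r < d := by nlinarith
  have b3 : N' + c₀ ≤ 2 * (u + 1) * d := by nlinarith
  have b4 := Nat.div_mul_le_self n (8 * (u + 1) * C')
  have b5 : 1 ≤ n / (8 * (u + 1) * C') := (Nat.le_div_iff_mul_le hC).2 (by omega)
  have b6 := hN₁ n (by omega)
  generalize n / (8 * (u + 1) * C') = κ at b4 b5 b6 ⊢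
  have b7 : κ * C' ≤ d := Nat.le_of_mul_le_mul_left (c := 8 * (u + 1)) (by nlinarith) (by omega)
  have b8 : 8 * d ≤ L := Nat.le_of_mul_le_mul_left (c := M + 1) (by nlinarith) (by omega)
  rw [hC', mul_add, mul_add, mul_add] at b7
  refine ⟨d, u, r, TPar.par_of (k := k) (by omega) b2 (by rw [hc₀]; omega) (by omega)
    hL' (by
      have : κ * (40 * Fintype.card F * 8 ^ (2 * u + 2)) =
        2 * (2 * (Fintype.card F * (10 * κ)) * 8 ^ (2 * u + 2)) := by ring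
      omega) (by omega) ?_ (by
      have : κ * (1600 * 2 ^ (2 * k + 3)) = 4 * (2 ^ (2 * k + 3) * (400 * κ)) := by ring
      omega) (le_trans (Nat.pow_le_pow_left (by omega) _) b6) b5⟩
  have b9 : d ≤ 4 * (r - 210 * κ) := by omega
  calc _ ≤ 16 * (u + 1) * (r - 210 * κ) := by nlinarith
    _ ≤ _ := Nat.mul_le_mul_right _ hk

end Pool.Agent.MP_43e117_nt
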