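import Mathlib
import Pool.Agent.MP_43e117_nt.TBad
import Pool.Agent.MP_43e117_nt.TLine

/- Twin primes of `F[X]`: the off diagonal terms of the bilinear sum. -/

set_option autoImplicit false
set_option linter.unusedSectionVars false

namespace Pool.Agent.MP_43e117_nt

open Polynomial Finset Pool.Agent.MP_4fffd4_nt Pool.Agent.MP_c853c5_nt
open scoped BigOperators

variable {F : Type*} [Field F] [Fintype F]

namespace TTwoA

/-- The sum over the pairs of solutions with a common `m`. -/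
noncomputable def SS (h k k' e₁ e₂ e₂' : F[X]) (μ i : ℕ) (G : F[X] → F[X] → ℝ) : ℝ :=
  ∑ m ∈ monF F μ, ∑ a ∈ monF F i, ∑ a' ∈ monF F i,
    ind (a * (e₁ * e₂) = m * k + h) * ind (a' * (e₁ * e₂') = m * k' + h) * G a a'

section Basic

variable {h k k' e₁ e₂ e₂' : F[X]} {μ i : ℕ}

theorem SS_mono {G G' : F[X] → F[X] → ℝ}
    (H : ∀ m, ∀ a ∈ monF F i, ∀ a' ∈ monF F i, a * (e₁ * e₂) = m * k + h →
      a' * (e₁ * e₂') = m * k' + h → G a a' ≤ G' a a') :
    SS h k k' e₁ e₂ e₂' μ i G ≤ SS h k k' e₁ e₂ e₂' μ i G' := by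
  refine sum_le_sum fun m _ => sum_le_sum fun a ha => sum_le_sum fun a' ha' => ?_
  by_cases h1 : a * (e₁ * e₂) = m * k + h
  · by_cases h2 : a' * (e₁ * e₂') = m * k' + h
    · rw [ind_pos h1, ind_pos h2, one_mul, one_mul, one_mul]
      exact H m a ha a' ha' h1 h2
    · simp [ind_neg h2]
  · simp [ind_neg h1]

theorem abs_SS_le (G : F[X] → F[X] → ℝ) :
    |SS h k k' e₁ e₂ e₂' μ i G| ≤ SS h k k' e₁ e₂ e₂' μ i fun a a' => |G a a'| := by
  refine (abs_sum_le_sum_abs _ _).trans (sum_le_sum fun m _ => (abs_sum_le_sum_abs _ _).trans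
    (sum_le_sum fun a _ => (abs_sum_le_sum_abs _ _).trans (sum_le_sum fun a' _ => ?_)))
  rw [abs_mul, abs_of_nonneg (mul_nonneg (ind_nonneg _) (ind_nonneg _))]

theorem SS_sum {ι : Type*} (s : Finset ι) (G : ι → F[X] → F[X] → ℝ) :
    (SS h k k' e₁ e₂ e₂' μ i fun a a' => ∑ x ∈ s, G x a a') =
      ∑ x ∈ s, SS h k k' e₁ e₂ e₂' μ i (G x) := by
  unfold SS
  simp only [mul_sum]
  rw [sum_comm (s := s)]
  refine sum_congr rfl fun m _ => ?_
  rw [sum_comm (s := s)]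
  refine sum_congr rfl fun a _ => ?_
  rw [sum_comm (s := s)]

theorem SS_expect {ι : Type*} [Fintype ι] (G : ι → F[X] → F[X] → ℝ) :
    (SS h k k' e₁ e₂ e₂' μ i fun a a' => 𝔼 x, G x a a') =
      𝔼 x, SS h k k' e₁ e₂ e₂' μ i (G x) := by
  unfold SS
  simp only [Finset.mul_expect, Finset.expect_sum_comm]

theorem SS_add (G G' : F[X] → F[X] → ℝ) :
    (SS h k k' e₁ e₂ e₂' μ i fun a a' => G a a' + G' a a') =
      SS h k k' e₁ e₂ e₂' μ i G + SS h k k' e₁ e₂ e₂' μ i G' := by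
  unfold SS
  simp only [mul_add, sum_add_distrib]

theorem SS_const (c : ℝ) :
    (SS h k k' e₁ e₂ e₂' μ i fun _ _ => c) = c * SS h k k' e₁ e₂ e₂' μ i fun _ _ => 1 := by
  unfold SS
  simp only [mul_sum]
  exact sum_congr rfl fun _ _ => sum_congr rfl fun _ _ => sum_congr rfl fun _ _ => by ring

theorem SS_one_nonneg : 0 ≤ SS h k k' e₁ e₂ e₂' μ i fun _ _ => 1 :=
  sum_nonneg fun _ _ => sum_nonneg fun _ _ => sum_nonneg fun _ _ =>
    mul_nonneg (mul_nonneg (ind_nonneg _) (ind_nonneg _)) zero_le_one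

omit [Fintype F] in
theorem degree_mul_lt {c t : F[X]} (hc : c.Monic) {j l : ℕ} (ht : t.degree < j)
    (hl : c.natDegree + j ≤ l) : (c * t).degree < l := by
  by_cases h0 : t = 0
  · rw [h0, mul_zero, degree_zero]
    exact WithBot.bot_lt_coe _
  have h1 := (natDegree_lt_iff_degree_lt h0).2 ht
  refine degree_le_natDegree.trans_lt (Nat.cast_lt.2 ?_)
  rw [hc.natDegree_mul' h0]
  omega

variable {κ ε₁ ε₂ : ℕ} (hn : i + ε₁ + ε₂ = μ + κ) (hk : k ∈ monF F κ) (hk' : k' ∈ monF F κ)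
  (he₁ : e₁ ∈ monF F ε₁) (he₂ : e₂ ∈ monF F ε₂) (he₂' : e₂' ∈ monF F ε₂)
include hn hk hk' he₁ he₂ he₂'

theorem SS_shift {t : F[X]} {j : ℕ} (ht : t.degree < j) (hj : ε₁ + 2 * ε₂ + j ≤ μ)
    (G : F[X] → F[X] → ℝ) :
    SS h k k' e₁ e₂ e₂' μ i G =
      SS h k k' e₁ e₂ e₂' μ i fun a a' => G (a + k * e₂' * t) (a' + k' * e₂ * t) := by
  obtain ⟨k1, k2⟩ := mem_monF.1 hk
  obtain ⟨k1', k2'⟩ := mem_monF.1 hk'
  obtain ⟨a1, a2⟩ := mem_monF.1 he₁
  obtain ⟨b1, b2⟩ := mem_monF.1 he₂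
  obtain ⟨b1', b2'⟩ := mem_monF.1 he₂'
  have d1 : (e₁ * e₂ * e₂' * t).degree < μ := degree_mul_lt ((a1.mul b1).mul b1') ht (by
    rw [(a1.mul b1).natDegree_mul b1', a1.natDegree_mul b1]; omega)
  have d2 : (k * e₂' * t).degree < i := degree_mul_lt (k1.mul b1') ht (by
    rw [k1.natDegree_mul b1']; omega)
  have d3 : (k' * e₂ * t).degree < i := degree_mul_lt (k1'.mul b1) ht (by
    rw [k1'.natDegree_mul b1]; omega)
  unfold SS
  rw [← sum_monF_shift d1]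
  refine sum_congr rfl fun m _ => ?_
  rw [← sum_monF_shift d2]
  refine sum_congr rfl fun a _ => ?_
  rw [← sum_monF_shift d3]
  refine sum_congr rfl fun a' _ => ?_
  have e1 : (a + k * e₂' * t) * (e₁ * e₂) = (m + e₁ * e₂ * e₂' * t) * k + h ↔
      a * (e₁ * e₂) = m * k + h :=
    ⟨fun e => by linear_combination e, fun e => by linear_combination e⟩
  have e2 : (a' + k' * e₂ * t) * (e₁ * e₂') = (m + e₁ * e₂ * e₂' * t) * k' + h ↔
      a' * (e₁ * e₂') = m * k' + h :=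
    ⟨fun e => by linear_combination e, fun e => by linear_combination e⟩
  rw [e1, e2]

theorem SS_avg {ι : Type*} [Fintype ι] [Nonempty ι] (t : ι → F[X]) {j : ℕ}
    (ht : ∀ x, (t x).degree < j) (hj : ε₁ + 2 * ε₂ + j ≤ μ) (G : F[X] → F[X] → ℝ) :
    SS h k k' e₁ e₂ e₂' μ i G =
      SS h k k' e₁ e₂ e₂' μ i fun a a' => 𝔼 x, G (a + k * e₂' * t x) (a' + k' * e₂ * t x) := by
  rw [SS_expect fun x a a' => G (a + k * e₂' * t x) (a' + k' * e₂ * t x)]
  simp only [← SS_shift hn hk hk' he₁ he₂ he₂' (ht _) hj G]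
  rw [Fintype.expect_const]

theorem SS_dvd [CharP F 2] {P B : F[X]} {d : ℕ} (hP : P ∈ irrF F d) (hA : ¬ P ∣ k * e₂ * B)
    (hs : Squarefree e₂') (hj : ε₁ + 2 * ε₂ + 2 * d ≤ μ) :
    (SS h k k' e₁ e₂ e₂' μ i fun a _ => ind (P ∣ od (a * (k * e₂ * B)))) ≤
      1 / qq F d * SS h k k' e₁ e₂ e₂' μ i fun _ _ => 1 := by
  obtain ⟨-, -, hI⟩ := mem_irrF.1 hP
  rw [← SS_const, SS_avg hn hk hk' he₁ he₂ he₂' (fun x : degreeLT F (2 * d) => x.1)
    (fun x => mem_degreeLT.1 x.2) hj]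
  refine SS_mono fun m a _ a' _ _ _ => ?_
  have hC : ¬ P ^ 2 ∣ e₂ * B * e₂' := fun hd => by
    have h1 : IsCoprime (P ^ 2) (e₂ * B) :=
      (hI.coprime_iff_not_dvd.2 fun e => hA (by rw [mul_assoc]; exact e.mul_left k)).pow_left
    have h2 := h1.dvd_of_dvd_mul_left hd
    rw [sq] at h2
    exact hI.not_isUnit (hs P h2)
  refine le_trans (le_of_eq ?_) (od_equi hP hC
    (fun e => hA (by rw [mul_assoc]; exact e.mul_right _)) (od (a * (k * e₂ * B))))
  refine Finset.expect_congr rfl fun x _ => ?_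
  rw [show (a + k * e₂' * x.1) * (k * e₂ * B) =
    a * (k * e₂ * B) + k ^ 2 * (x.1 * (e₂ * B * e₂')) by ring, od_add, od_sq_mul]

end Basic

theorem event_le [CharP F 2] {h k k' e₁ e₂ e₂' B s s' m a a' : F[X]} {d r : ℕ} (u : ℕ)
    (hr : r < d) (hs : s ∈ monF F r) (hs' : s' ∈ monF F r)
    (h1 : a * (e₁ * e₂) = m * k + h) (h2 : a' * (e₁ * e₂') = m * k' + h) (S : Finset F[X])
    (hS : ∀ P ∈ irrF F d, P ∣ k' * e₂' * h * (k + k') → ¬ P ∣ k * e₂ * B → P ∈ S) (x : F[X]) :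
    ind (∃ P ∈ irrF F d, P ∣ od (a * (k * e₂ * B)) ∧
      (P ∣ (k * e₂ * B * e₂' * s ^ 2 * s' ^ 2) * (k' * e₂' * B * e₂ * s ^ 2 * s' ^ 2) ∨
        P ∣ (k' * e₂' * B * e₂ * s ^ 2 * s' ^ 2) ^ 2 * (a * (k * e₂ * B)) +
          (k * e₂ * B * e₂' * s ^ 2 * s' ^ 2) ^ 2 * (a' * (k' * e₂' * B)))) ≤
    ind (SLine.Bad d u (a * (k * e₂ * B) + (k * e₂ * B * e₂' * s ^ 2 * s' ^ 2 * x) ^ 2)) +
      ∑ P ∈ S, ind (P ∣ od (a * (k * e₂ * B))) := by
  refine le_trans (ind_le_add (R := ∃ P ∈ S, P ∣ od (a * (k * e₂ * B))) ?_)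
    (add_le_add le_rfl (ind_le_sum id))
  rintro ⟨P, hP, hod, hev⟩
  obtain ⟨-, hPd, hI⟩ := mem_irrF.1 hP
  by_cases hA : P ∣ k * e₂ * B
  · left
    refine bad_of_dvd u hP (dvd_add (hA.mul_left a) (dvd_pow ?_ two_ne_zero)) ?_
    · exact (((hA.mul_right _).mul_right _).mul_right _).mul_right _
    · rwa [od_add, od_of_sq, add_zero]
  right
  refine ⟨P, hS P hP ?_ hA, hod⟩
  have hns : ∀ s ∈ monF F r, ¬ P ∣ s := fun s hs e => by
    obtain ⟨s1, s2⟩ := mem_monF.1 hs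
    have := natDegree_le_of_dvd e s1.ne_zero
    omega
  have hc : IsCoprime P ((k * e₂ * B) ^ 3 * (s ^ 4 * s' ^ 4)) :=
    (hI.coprime_iff_not_dvd.2 hA).pow_right.mul_right
      ((hI.coprime_iff_not_dvd.2 (hns s hs)).pow_right.mul_right
        (hI.coprime_iff_not_dvd.2 (hns s' hs')).pow_right)
  have h2F : (2 : F[X]) = 0 := by exact_mod_cast CharP.cast_eq_zero F[X] 2
  have e3 : e₁ * (k' * e₂ * a + k * e₂' * a') = h * (k + k') := by
    linear_combination k' * h1 + k * h2 + m * k * k' * h2F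
  have hfin : P ∣ (k' * e₂') ^ 2 * (h * (k + k')) → P ∣ k' * e₂' * h * (k + k') := fun e => by
    rcases hI.prime.dvd_or_dvd e with e | e
    · exact ((hI.prime.dvd_of_dvd_pow e).mul_right _).mul_right _
    · rw [mul_assoc]; exact e.mul_left _
  refine hfin (hc.dvd_of_dvd_mul_left ?_)
  rcases hev with e | e
  · refine e.trans ⟨k ^ 2 * e₂ * B * k' * (h * (k + k')), by ring⟩
  · refine (e.mul_left (e₁ * k ^ 2 * e₂ * k')).trans (dvd_of_eq ?_)
    rw [← e3]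
    ring

end TTwoA

open TTwoA in
theorem two_point [CharP F 2] {h : F[X]} (hh : h ≠ 0) {N L η d u r : ℕ} (hp : Par F N L η d u r)
    {n μ κ ε₁ ε₂ i b : ℕ} (hn : μ + κ = n) (hn' : i + ε₁ + ε₂ = n)
    (hN : i + κ + ε₂ + b = 2 * N + 1) (h2 : ε₁ + b + 4 * ε₂ + 2 * L ≤ μ)
    (hhd : h.natDegree < d) {B k k' e₁ e₂ e₂' : F[X]} (hB : B ∈ monF F b) (hk : k ∈ monF F κ)
    (hk' : k' ∈ monF F κ) (hkk : k ≠ k') (he₁ : e₁ ∈ monF F ε₁) (he₂ : e₂ ∈ monF F ε₂)
    (he₂' : e₂' ∈ monF F ε₂) (hs : Squarefree e₂') :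
    |∑ m ∈ monF F μ, ∑ a ∈ monF F i, ∑ a' ∈ monF F i,
      ind (a * (e₁ * e₂) = m * k + h) * ind (a' * (e₁ * e₂') = m * k' + h) *
        (lam a * gw (goodV F d u) r (od (a * (k * e₂ * B))) *
          (lam a' * gw (goodV F d u) r (od (a' * (k' * e₂' * B)))))| ≤
    ∑ m ∈ monF F μ, ∑ a ∈ monF F i, ∑ a' ∈ monF F i,
      ind (a * (e₁ * e₂) = m * k + h) * ind (a' * (e₁ * e₂') = m * k' + h) *
        (3 * ind (SLine.Bad d u (a * (k * e₂ * B))) + 2 * ind (SLine.Bad d u (a' * (k' * e₂' * B))) +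
          (4 * n / qq F d + 1 / qq F (10 * η))) := by
  classical
  obtain ⟨k1, k2⟩ := mem_monF.1 hk
  obtain ⟨k1', k2'⟩ := mem_monF.1 hk'
  obtain ⟨b1, b2⟩ := mem_monF.1 he₂
  obtain ⟨b1', b2'⟩ := mem_monF.1 he₂'
  obtain ⟨B1, B2⟩ := mem_monF.1 hB
  have hL := hp.hL
  have hr := hp.hr
  have hnn : i + ε₁ + ε₂ = μ + κ := by omega
  have A1 : (k * e₂ * B).Monic := (k1.mul b1).mul B1
  have A2 : (k * e₂ * B).natDegree = κ + ε₂ + b := by
    rw [(k1.mul b1).natDegree_mul B1, k1.natDegree_mul b1, k2, b2, B2]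
  have A1' : (k' * e₂' * B).Monic := (k1'.mul b1').mul B1
  have A2' : (k' * e₂' * B).natDegree = κ + ε₂ + b := by
    rw [(k1'.mul b1').natDegree_mul B1, k1'.natDegree_mul b1', k2', b2', B2]
  have hkk' : k + k' ≠ 0 := fun e => hkk (by rwa [CharTwo.add_eq_zero] at e)
  have hZ : k' * e₂' * h * (k + k') ≠ 0 :=
    mul_ne_zero (mul_ne_zero (mul_ne_zero k1'.ne_zero b1'.ne_zero) hh) hkk'
  set S := (irrF F d).filter fun P => P ∣ k' * e₂' * h * (k + k') ∧ ¬ P ∣ k * e₂ * B with hS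
  have hSc : (S.card : ℝ) ≤ 4 * n := by
    have h1 := SLine.card_le_natDegree hZ S fun P hP => by
      rw [hS, mem_filter, mem_irrF] at hP
      exact ⟨hP.1.1, hP.1.2.2, hP.2.1⟩
    rw [natDegree_mul (mul_ne_zero (mul_ne_zero k1'.ne_zero b1'.ne_zero) hh) hkk',
      natDegree_mul (mul_ne_zero k1'.ne_zero b1'.ne_zero) hh, k1'.natDegree_mul b1'] at h1
    have h3 := natDegree_add_le k k'
    have : S.card ≤ 4 * n := by omega
    exact_mod_cast this
  set W : F[X] → F[X] → ℝ := fun a a' => 3 * ind (SLine.Bad d u (a * (k * e₂ * B))) +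
    2 * ind (SLine.Bad d u (a' * (k' * e₂' * B))) +
      (∑ P ∈ S, ind (P ∣ od (a * (k * e₂ * B))) + 1 / qq F (10 * η)) with hW
  have hW0 : ∀ a a', 0 ≤ W a a' := fun a a' => by
    have := ind_nonneg (SLine.Bad d u (a * (k * e₂ * B)))
    have := ind_nonneg (SLine.Bad d u (a' * (k' * e₂' * B)))
    have : 0 ≤ ∑ P ∈ S, ind (P ∣ od (a * (k * e₂ * B))) := sum_nonneg fun _ _ => ind_nonneg _
    have := qq_pos (F := F) (10 * η)
    rw [hW]
    positivity
  have key : ∀ v ∈ goodV F d u, ∀ s ∈ monF F r, ∀ v' ∈ goodV F d u, ∀ s' ∈ monF F r,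
      |SS h k k' e₁ e₂ e₂' μ i fun a a' => lam a * ind (v * s = od (a * (k * e₂ * B))) *
        (lam a' * ind (v' * s' = od (a' * (k' * e₂' * B))))| ≤
      SS h k k' e₁ e₂ e₂' μ i fun a a' => ind (v * s = od (a * (k * e₂ * B))) *
        ind (v' * s' = od (a' * (k' * e₂' * B))) * W a a' := by
    intro v hv s hs₀ v' hv' s' hs₀'
    obtain ⟨s1, s2⟩ := mem_monF.1 hs₀
    obtain ⟨s1', s2'⟩ := mem_monF.1 hs₀'
    have ht : ∀ x : degreeLT F (2 * (d + u)),
        (B * e₂ * e₂' * (s ^ 2 * s' ^ 2 * x.1) ^ 2).degree <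
          (b + 2 * ε₂ + 8 * r + 4 * (d + u) : ℕ) := fun x => by
      have h1 : (s ^ 2 * s' ^ 2 * x.1).degree < (4 * r + 2 * (d + u) : ℕ) :=
        degree_mul_lt ((s1.pow 2).mul (s1'.pow 2)) (mem_degreeLT.1 x.2) (by
          rw [(s1.pow 2).natDegree_mul (s1'.pow 2), natDegree_pow, natDegree_pow]; omega)
      have h3 : ((s ^ 2 * s' ^ 2 * x.1) ^ 2).degree < (8 * r + 4 * (d + u) : ℕ) := by
        by_cases h0 : s ^ 2 * s' ^ 2 * x.1 = 0
        · rw [h0, zero_pow two_ne_zero, degree_zero]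
          exact WithBot.bot_lt_coe _
        have h4 := (natDegree_lt_iff_degree_lt h0).2 h1
        refine degree_le_natDegree.trans_lt (Nat.cast_lt.2 ?_)
        rw [natDegree_pow]
        omega
      exact degree_mul_lt ((B1.mul b1).mul b1') h3 (by
        rw [(B1.mul b1).natDegree_mul b1', B1.natDegree_mul b1]; omega)
    have hj : ε₁ + 2 * ε₂ + (b + 2 * ε₂ + 8 * r + 4 * (d + u)) ≤ μ := by omega
    have eY : ∀ a x : F[X], (a + k * e₂' * (B * e₂ * e₂' * (s ^ 2 * s' ^ 2 * x) ^ 2)) *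
        (k * e₂ * B) = a * (k * e₂ * B) + (k * e₂ * B * e₂' * s ^ 2 * s' ^ 2 * x) ^ 2 :=
      fun a x => by ring
    have eY' : ∀ a x : F[X], (a + k' * e₂ * (B * e₂ * e₂' * (s ^ 2 * s' ^ 2 * x) ^ 2)) *
        (k' * e₂' * B) = a * (k' * e₂' * B) + (k' * e₂' * B * e₂ * s ^ 2 * s' ^ 2 * x) ^ 2 :=
      fun a x => by ring
    rw [SS_avg hnn hk hk' he₁ he₂ he₂' _ ht hj,
      SS_avg hnn hk hk' he₁ he₂ he₂' _ ht hj fun a a' => ind (v * s = od (a * (k * e₂ * B))) *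
        ind (v' * s' = od (a' * (k' * e₂' * B))) * W a a']
    refine (abs_SS_le _).trans (SS_mono fun m a ha a' ha' h1 h1' => ?_)
    obtain ⟨a1, a2⟩ := mem_monF.1 ha
    obtain ⟨a1', a2'⟩ := mem_monF.1 ha'
    simp only [hW, eY, eY', od_add, od_of_sq, add_zero]
    by_cases hod : v * s = od (a * (k * e₂ * B))
    swap
    · simp [ind_neg hod]
    by_cases hod' : v' * s' = od (a' * (k' * e₂' * B))
    swap
    · simp [ind_neg hod']
    have hl := line_two (β := 10 * η) (N := N) hr hp.hd (Y := a * (k * e₂ * B))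
      (α := k * e₂ * B * e₂' * s ^ 2 * s' ^ 2) (Y' := a' * (k' * e₂' * B))
      (α' := k' * e₂' * B * e₂ * s ^ 2 * s' ^ 2) hv hs₀
      (mem_monF.2 ⟨a1.mul A1, by rw [a1.natDegree_mul A1]; omega⟩) hod
      ((dvd_mul_left _ _).mul_right _)
      (by
        rw [((A1.mul b1').mul (s1.pow 2)).natDegree_mul (s1'.pow 2),
          (A1.mul b1').natDegree_mul (s1.pow 2), A1.natDegree_mul b1', natDegree_pow,
          natDegree_pow]
        omega)
      hv' hs₀' (mem_monF.2 ⟨a1'.mul A1', by rw [a1'.natDegree_mul A1']; omega⟩) hod'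
      (dvd_mul_left _ _)
      (by
        rw [((A1'.mul b1).mul (s1.pow 2)).natDegree_mul (s1'.pow 2),
          (A1'.mul b1).natDegree_mul (s1.pow 2), A1'.natDegree_mul b1, natDegree_pow,
          natDegree_pow]
        omega)
    have hev := Finset.expect_le_expect (s := (univ : Finset (degreeLT F (2 * (d + u)))))
      fun x _ => event_le u hr hs₀ hs₀' h1 h1' S
        (fun P hP e e' => by rw [hS, mem_filter]; exact ⟨hP, e, e'⟩) (B := B) x.1
    have hne : ∀ (c : F[X]) (_ : c ∈ monF F i) (w : F[X]), w.degree < i → c + w ≠ 0 :=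
      fun c hc w hw => by
        obtain ⟨c1, c2⟩ := mem_monF.1 hc
        exact (c1.add_of_left (by rwa [degree_eq_natDegree c1.ne_zero, c2])).ne_zero
    have hlam : ∀ x : degreeLT F (2 * (d + u)),
        lam (a + k * e₂' * (B * e₂ * e₂' * (s ^ 2 * s' ^ 2 * x.1) ^ 2)) *
          lam (a' + k' * e₂ * (B * e₂ * e₂' * (s ^ 2 * s' ^ 2 * x.1) ^ 2)) =
        lam (k * e₂ * B) * lam (k' * e₂' * B) *
          (lam (a * (k * e₂ * B) + (k * e₂ * B * e₂' * s ^ 2 * s' ^ 2 * x.1) ^ 2) *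
            lam (a' * (k' * e₂' * B) + (k' * e₂' * B * e₂ * s ^ 2 * s' ^ 2 * x.1) ^ 2)) := by
      intro x
      rw [← eY, ← eY', lam_mul (hne a ha _ (degree_mul_lt (k1.mul b1') (ht x) (by
          rw [k1.natDegree_mul b1']; omega))) A1.ne_zero,
        lam_mul (hne a' ha' _ (degree_mul_lt (k1'.mul b1) (ht x) (by
          rw [k1'.natDegree_mul b1]; omega))) A1'.ne_zero]
      have q1 : lam (k * e₂ * B) ^ 2 = 1 := by rw [← sq_abs, abs_lam, one_pow]
      have q2 : lam (k' * e₂' * B) ^ 2 = 1 := by rw [← sq_abs, abs_lam, one_pow]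
      generalize lam (a + k * e₂' * (B * e₂ * e₂' * (s ^ 2 * s' ^ 2 * x.1) ^ 2)) = y
      generalize lam (a' + k' * e₂ * (B * e₂ * e₂' * (s ^ 2 * s' ^ 2 * x.1) ^ 2)) = y'
      linear_combination (-(y * y')) * q1 - y * y' * lam (k * e₂ * B) ^ 2 * q2
    simp only [ind_pos hod, ind_pos hod', mul_one, one_mul, hlam]
    rw [← Finset.mul_expect, abs_mul, abs_mul, abs_lam, abs_lam, one_mul, one_mul]
    simp only [Finset.expect_add_distrib, Fintype.expect_const, ← Finset.mul_expect] at hl hev ⊢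
    linarith
  have hq := qq_pos (F := F) d
  change |SS h k k' e₁ e₂ e₂' μ i fun a a' => lam a * gw (goodV F d u) r (od (a * (k * e₂ * B))) *
      (lam a' * gw (goodV F d u) r (od (a' * (k' * e₂' * B))))| ≤
    SS h k k' e₁ e₂ e₂' μ i fun a a' => 3 * ind (SLine.Bad d u (a * (k * e₂ * B))) +
      2 * ind (SLine.Bad d u (a' * (k' * e₂' * B))) + (4 * n / qq F d + 1 / qq F (10 * η))
  have e1 : (fun a a' => lam a * gw (goodV F d u) r (od (a * (k * e₂ * B))) *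
      (lam a' * gw (goodV F d u) r (od (a' * (k' * e₂' * B))))) = fun a a' =>
      ∑ v ∈ goodV F d u, ∑ s ∈ monF F r, ∑ v' ∈ goodV F d u, ∑ s' ∈ monF F r,
        lam a * ind (v * s = od (a * (k * e₂ * B))) *
          (lam a' * ind (v' * s' = od (a' * (k' * e₂' * B)))) := by
    funext a a'
    unfold gw
    rw [mul_sum, sum_mul]
    refine sum_congr rfl fun v _ => ?_
    rw [mul_sum, sum_mul]
    refine sum_congr rfl fun s _ => ?_
    simp only [mul_sum]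
  have e2 : |SS h k k' e₁ e₂ e₂' μ i fun a a' =>
      lam a * gw (goodV F d u) r (od (a * (k * e₂ * B))) *
        (lam a' * gw (goodV F d u) r (od (a' * (k' * e₂' * B))))| ≤
      SS h k k' e₁ e₂ e₂' μ i W := by
    rw [e1]
    simp only [SS_sum]
    refine (abs_sum_le_sum_abs _ _).trans ((sum_le_sum fun v hv =>
      (abs_sum_le_sum_abs _ _).trans (sum_le_sum fun s hs₀ =>
        (abs_sum_le_sum_abs _ _).trans (sum_le_sum fun v' hv' =>
          (abs_sum_le_sum_abs _ _).trans (sum_le_sum fun s' hs₀' =>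
            key v hv s hs₀ v' hv' s' hs₀')))).trans ?_)
    simp only [← SS_sum]
    refine SS_mono fun m a _ a' _ _ _ => ?_
    simp only [← sum_mul, ← mul_sum]
    exact mul_le_of_le_one_left (hW0 a a') (mul_le_one₀ (gw_le_one hr _)
      (gw_nonneg _ _ _) (gw_le_one hr _))
  refine e2.trans ?_
  rw [hW]
  simp only [SS_add, SS_sum]
  have h5 : ∑ P ∈ S, (SS h k k' e₁ e₂ e₂' μ i fun a _ => ind (P ∣ od (a * (k * e₂ * B)))) ≤
      SS h k k' e₁ e₂ e₂' μ i fun _ _ => 4 * n / qq F d := by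
    refine (sum_le_card_nsmul _ _ _ fun P hP => SS_dvd hnn hk hk' he₁ he₂ he₂'
      (mem_filter.1 hP).1 (mem_filter.1 hP).2.2 hs (by omega)).trans ?_
    rw [nsmul_eq_mul, SS_const (4 * n / qq F d), ← mul_assoc, mul_one_div]
    exact mul_le_mul_of_nonneg_right (div_le_div_of_nonneg_right hSc hq.le) SS_one_nonneg
  linarith

end Pool.Agent.MP_43e117_nt
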