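import Mathlib
import Pool.Agent.MP_43e117_nt.TTwoA
import Pool.Agent.MP_c853c5_nt.SDiv

/- Twin primes of `F[X]`: the weighted bilinear sum. -/

set_option autoImplicit false
set_option linter.unusedSectionVars false

namespace Pool.Agent.MP_43e117_nt

open Polynomial Finset Pool.Agent.MP_4fffd4_nt Pool.Agent.MP_c853c5_nt
open scoped BigOperators

variable {F : Type*} [Field F] [Fintype F]

namespace TTwoB

theorem abstr {X K Z : Type*} (sX : Finset X) (sK : Finset K) (sZ : Finset Z)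
    (I : X → K → Z → ℝ) (hI : ∀ x k z, 0 ≤ I x k z) (α : X → ℝ) (hα : ∀ x ∈ sX, |α x| ≤ 1)
    (g : K → Z → ℝ) (hg : ∀ k ∈ sK, ∀ z ∈ sZ, |g k z| ≤ 1) {τ Λ c : ℝ}
    (hτ : ∀ x ∈ sX, ∀ k ∈ sK, ∑ z ∈ sZ, I x k z ≤ τ)
    (hΛ : ∀ x ∈ sX, ∑ k ∈ sK, ∑ z ∈ sZ, I x k z ≤ Λ) (b : K → Z → ℝ) (hb : ∀ k z, 0 ≤ b k z)
    (hc : 0 ≤ c)
    (hoff : ∀ k ∈ sK, ∀ k' ∈ sK, k ≠ k' →
      ∑ x ∈ sX, ∑ z ∈ sZ, ∑ z' ∈ sZ, I x k z * g k z * (I x k' z' * g k' z') ≤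
        ∑ x ∈ sX, ∑ z ∈ sZ, ∑ z' ∈ sZ, I x k z * I x k' z' * (3 * b k z + 2 * b k' z' + c)) :
    (∑ x ∈ sX, α x * ∑ k ∈ sK, ∑ z ∈ sZ, I x k z * g k z) ^ 2 ≤
      sX.card * (τ * ∑ x ∈ sX, ∑ k ∈ sK, ∑ z ∈ sZ, I x k z +
        Λ * (5 * ∑ x ∈ sX, ∑ k ∈ sK, ∑ z ∈ sZ, I x k z * b k z +
          c * ∑ x ∈ sX, ∑ k ∈ sK, ∑ z ∈ sZ, I x k z)) := by
  classical
  have hJ : ∀ x k, 0 ≤ ∑ z ∈ sZ, I x k z := fun x k => sum_nonneg fun z _ => hI x k z
  have h1 : ∑ x ∈ sX, α x ^ 2 ≤ sX.card := by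
    rw [card_eq_sum_ones, Nat.cast_sum]
    exact sum_le_sum fun x hx => by simpa using (sq_le_one_iff_abs_le_one _).2 (hα x hx)
  have hd : ∀ x ∈ sX, ∀ k ∈ sK, (∑ z ∈ sZ, I x k z * g k z) * (∑ z ∈ sZ, I x k z * g k z) ≤
      τ * ∑ z ∈ sZ, I x k z := fun x hx k hk => by
    have h2 : |∑ z ∈ sZ, I x k z * g k z| ≤ ∑ z ∈ sZ, I x k z :=
      (abs_sum_le_sum_abs _ _).trans (sum_le_sum fun z hz => by
        rw [abs_mul, abs_of_nonneg (hI x k z)]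
        exact mul_le_of_le_one_right (hI x k z) (hg k hk z hz))
    rw [← abs_mul_abs_self]
    exact mul_le_mul (h2.trans (hτ x hx k hk)) h2 (abs_nonneg _) ((hJ x k).trans (hτ x hx k hk))
  have hR : ∀ k k', 0 ≤ ∑ x ∈ sX, ∑ z ∈ sZ, ∑ z' ∈ sZ,
      I x k z * I x k' z' * (3 * b k z + 2 * b k' z' + c) := fun k k' =>
    sum_nonneg fun x _ => sum_nonneg fun z _ => sum_nonneg fun z' _ =>
      mul_nonneg (mul_nonneg (hI _ _ _) (hI _ _ _)) (by have := hb k z; have := hb k' z'; positivity)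
  have h3 : ∀ k ∈ sK, ∀ k' ∈ sK,
      ∑ x ∈ sX, (∑ z ∈ sZ, I x k z * g k z) * (∑ z ∈ sZ, I x k' z * g k' z) ≤
        (if k = k' then ∑ x ∈ sX, τ * ∑ z ∈ sZ, I x k z else 0) + ∑ x ∈ sX, ∑ z ∈ sZ, ∑ z' ∈ sZ,
          I x k z * I x k' z' * (3 * b k z + 2 * b k' z' + c) := fun k hk k' hk' => by
    split_ifs with h
    · subst h
      exact (sum_le_sum fun x hx => hd x hx k hk).trans (le_add_of_nonneg_right (hR k k))
    · simp only [sum_mul_sum, zero_add]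
      exact hoff k hk k' hk' h
  have h4 : ∀ x ∈ sX, ∑ k ∈ sK, ∑ k' ∈ sK, ∑ z ∈ sZ, ∑ z' ∈ sZ,
      I x k z * I x k' z' * (3 * b k z + 2 * b k' z' + c) ≤
      Λ * (5 * ∑ k ∈ sK, ∑ z ∈ sZ, I x k z * b k z + c * ∑ k ∈ sK, ∑ z ∈ sZ, I x k z) := by
    intro x hx
    have e : ∑ k ∈ sK, ∑ k' ∈ sK, ∑ z ∈ sZ, ∑ z' ∈ sZ,
        I x k z * I x k' z' * (3 * b k z + 2 * b k' z' + c) =
        3 * ((∑ k ∈ sK, ∑ z ∈ sZ, I x k z * b k z) * ∑ k ∈ sK, ∑ z ∈ sZ, I x k z) +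
        2 * ((∑ k ∈ sK, ∑ z ∈ sZ, I x k z) * ∑ k ∈ sK, ∑ z ∈ sZ, I x k z * b k z) +
        c * ((∑ k ∈ sK, ∑ z ∈ sZ, I x k z) * ∑ k ∈ sK, ∑ z ∈ sZ, I x k z) := by
      simp only [sum_mul_sum]
      simp only [mul_sum, ← sum_add_distrib]
      exact sum_congr rfl fun _ _ => sum_congr rfl fun _ _ => sum_congr rfl fun _ _ =>
        sum_congr rfl fun _ _ => by ring
    have p1 : 0 ≤ ∑ k ∈ sK, ∑ z ∈ sZ, I x k z := sum_nonneg fun k _ => hJ x k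
    have p2 : 0 ≤ ∑ k ∈ sK, ∑ z ∈ sZ, I x k z * b k z :=
      sum_nonneg fun k _ => sum_nonneg fun z _ => mul_nonneg (hI _ _ _) (hb _ _)
    rw [e]
    nlinarith [mul_le_mul_of_nonneg_left (hΛ x hx) p2,
      mul_le_mul_of_nonneg_left (hΛ x hx) (mul_nonneg hc p1)]
  refine (sum_mul_sq_le_sq_mul_sq _ _ _).trans
    (mul_le_mul h1 ?_ (sum_nonneg fun _ _ => sq_nonneg _) (Nat.cast_nonneg _))
  calc ∑ x ∈ sX, (∑ k ∈ sK, ∑ z ∈ sZ, I x k z * g k z) ^ 2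
      = ∑ k ∈ sK, ∑ k' ∈ sK,
        ∑ x ∈ sX, (∑ z ∈ sZ, I x k z * g k z) * (∑ z ∈ sZ, I x k' z * g k' z) := by
        simp only [sq, sum_mul_sum (s := sK)]
        rw [sum_comm]
        exact sum_congr rfl fun _ _ => sum_comm
    _ ≤ ∑ k ∈ sK, ∑ k' ∈ sK, ((if k = k' then ∑ x ∈ sX, τ * ∑ z ∈ sZ, I x k z else 0) +
        ∑ x ∈ sX, ∑ z ∈ sZ, ∑ z' ∈ sZ, I x k z * I x k' z' * (3 * b k z + 2 * b k' z' + c)) :=
        sum_le_sum fun k hk => sum_le_sum fun k' hk' => h3 k hk k' hk'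
    _ = τ * ∑ x ∈ sX, ∑ k ∈ sK, ∑ z ∈ sZ, I x k z + ∑ x ∈ sX, ∑ k ∈ sK, ∑ k' ∈ sK,
        ∑ z ∈ sZ, ∑ z' ∈ sZ, I x k z * I x k' z' * (3 * b k z + 2 * b k' z' + c) := by
        simp only [sum_add_distrib]
        congr 1
        · rw [sum_congr rfl fun k hk => by rw [sum_ite_eq, if_pos hk], sum_comm]
          simp only [mul_sum]
        · rw [sum_comm (s := sX)]
          exact sum_congr rfl fun _ _ => sum_comm
    _ ≤ _ := by
        refine add_le_add le_rfl ((sum_le_sum h4).trans_eq ?_)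
        rw [← mul_sum, sum_add_distrib, ← mul_sum, ← mul_sum]

theorem reorder {A : Type*} (s₁ s₂ s₃ s₄ : Finset A) (f : A → A → A → A → A → A → ℝ) :
    ∑ x ∈ s₁ ×ˢ s₂, ∑ z ∈ s₃ ×ˢ s₄, ∑ z' ∈ s₃ ×ˢ s₄, f x.1 x.2 z.1 z.2 z'.1 z'.2 =
      ∑ e ∈ s₂, ∑ p ∈ s₃, ∑ p' ∈ s₃, ∑ m ∈ s₁, ∑ a ∈ s₄, ∑ a' ∈ s₄, f m e p a p' a' := by
  rw [sum_product_right]
  refine sum_congr rfl fun e _ => ?_
  simp only [sum_product]
  rw [sum_comm]
  refine sum_congr rfl fun p _ => ?_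
  rw [sum_comm (s := s₃)]
  exact sum_congr rfl fun m _ => sum_comm

theorem cfg_eq (h : F[X]) (μ κ ε₁ ε₂ i : ℕ) (G : F[X] → F[X] → F[X] → F[X] → F[X] → ℝ) :
    cfg h μ κ ε₁ ε₂ i G = ∑ x ∈ monF F μ ×ˢ monF F ε₁, ∑ k ∈ monF F κ,
      ∑ z ∈ monF F ε₂ ×ˢ monF F i, ind (z.2 * (x.2 * z.1) = x.1 * k + h) * G x.1 k x.2 z.1 z.2 := by
  simp only [cfg, sum_product]
  exact sum_congr rfl fun m _ => sum_comm

theorem mass_le {τ : ℝ} {n ε₂ i : ℕ} (hτ : DivB F τ n) (hn : i + ε₂ ≤ n) {e : F[X]} (he : e ≠ 0)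
    (Y : F[X]) :
    ∑ z ∈ monF F ε₂ ×ˢ monF F i, ind (z.2 * (e * z.1) = Y) ≤ τ * ind (e ∣ Y) := by
  by_cases h : e ∣ Y
  · obtain ⟨f, rfl⟩ := h
    rw [ind_pos (dvd_mul_right e f), mul_one, sum_product_right]
    refine (sum_le_sum fun a _ => sum_le_sum fun p _ => ind_mono fun h => ?_).trans
      (sum_two_le hτ hn f)
    exact mul_left_cancel₀ he (by rw [← h]; ring)
  · rw [ind_neg h, mul_zero]
    exact (sum_eq_zero fun z _ => ind_neg fun h' => h ⟨z.2 * z.1, by rw [← h']; ring⟩).le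

theorem final {T τ Q H n b A E K D P : ℝ} (hτ : 1 ≤ τ) (hn : 1 ≤ n) (hb : b ≤ n)
    (hH : 1 ≤ H) (hA : 0 < A) (hE : 0 < E) (hP : 1 ≤ P) (hQ : A * K = Q) (hK : E * P ^ 10 ≤ K)
    (hD : P ^ 10 ≤ D) (hη : 100 * n * τ ^ 4 * H ^ 2 ≤ P)
    (hT : T ^ 2 ≤ A * E * (τ * (τ ^ 3 * Q) + τ * (H * K / E) *
      (5 * (τ ^ 3 * (4 + 2 * b) * Q / D) + (4 * n / D + 1 / P ^ 10) * (τ ^ 3 * Q)))) :
    |T| ≤ Q / P ^ 4 := by
  have hP0 : 0 < P := by positivity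
  have hK0 : 0 < K := lt_of_lt_of_le (by positivity) hK
  have hQ0 : 0 < Q := by rw [← hQ]; positivity
  have hD0 : 0 < D := lt_of_lt_of_le (by positivity) hD
  have h1 : A * E ≤ Q / P ^ 10 := by
    rw [le_div_iff₀ (by positivity), ← hQ, mul_assoc]
    exact mul_le_mul_of_nonneg_left hK hA.le
  have h2 : 1 / D ≤ 1 / P ^ 10 := one_div_le_one_div_of_le (by positivity) hD
  have h3 : (20 + 10 * b + 4 * n) * (1 / D) + 1 / P ^ 10 ≤ 35 * n * (1 / P ^ 10) := by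
    have : (20 + 10 * b + 4 * n) * (1 / D) ≤ (34 * n) * (1 / P ^ 10) :=
      mul_le_mul (by linarith) h2 (by positivity) (by positivity)
    have h4 : 1 * (1 / P ^ 10) ≤ n * (1 / P ^ 10) := mul_le_mul_of_nonneg_right hn (by positivity)
    linarith
  have h5 : 1 + 35 * n * H ≤ 100 * n * H ^ 2 := by nlinarith [mul_le_mul hn hH zero_le_one (by linarith)]
  refine abs_le_of_sq_le_sq' (hT.trans ?_) (by positivity) |> abs_le.2
  calc _ = A * E * (τ ^ 4 * Q) +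
        τ ^ 4 * Q ^ 2 * H * ((20 + 10 * b + 4 * n) * (1 / D) + 1 / P ^ 10) := by
        rw [← hQ]; field_simp; ring
    _ ≤ Q / P ^ 10 * (τ ^ 4 * Q) + τ ^ 4 * Q ^ 2 * H * (35 * n * (1 / P ^ 10)) := by gcongr
    _ = Q ^ 2 / P ^ 10 * (τ ^ 4 * (1 + 35 * n * H)) := by ring
    _ ≤ Q ^ 2 / P ^ 10 * (τ ^ 4 * (100 * n * H ^ 2)) := by gcongr
    _ ≤ Q ^ 2 / P ^ 10 * P ^ 2 := by
        gcongr
        nlinarith
    _ = (Q / P ^ 4) ^ 2 := by field_simp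

end TTwoB

theorem typeL [CharP F 2] {h : F[X]} (hh : h ≠ 0) {N L η d u r : ℕ} (hp : Par F N L η d u r)
    {n μ κ ε₁ ε₂ i b : ℕ} (hn : μ + κ = n) (hn' : i + ε₁ + ε₂ = n)
    (hN : i + κ + ε₂ + b = 2 * N + 1) (h2 : ε₁ + b + 4 * ε₂ + 2 * L ≤ μ)
    (h3 : ε₁ + 10 * η ≤ κ) {τ : ℝ} (hτ : DivB F τ n)
    (hη : 100 * n * τ ^ 4 * qq F (2 * h.natDegree) ≤ qq F η) (α β : F[X] → F[X] → ℝ)
    (hα : ∀ m ∈ monF F μ, ∀ e ∈ monF F ε₁, |α m e| ≤ 1)
    (hβ : ∀ k ∈ monF F κ, ∀ e ∈ monF F ε₂, |β k e| ≤ ind (Squarefree e)) {B : F[X]}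
    (hB : B ∈ monF F b) (hBs : Squarefree B) :
    |cfg h μ κ ε₁ ε₂ i fun m k e₁ e₂ d' =>
      α m e₁ * (β k e₂ * lam d') * gw (goodV F d u) r (od (d' * (k * e₂ * B)))| ≤
      qq F n / qq F (4 * η) := by
  have hη1 := hp.hκ
  have hτ1 := hτ.one_le
  have hd : 10 * η ≤ d := by
    have h4 : 10 * η ≤ Fintype.card F * (10 * η) := Nat.le_mul_of_pos_left _ Fintype.card_pos
    have h5 : 2 * (Fintype.card F * (10 * η)) ≤ 2 * (Fintype.card F * (10 * η)) * 8 ^ (2 * u + 2) :=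
      Nat.le_mul_of_pos_right _ (by positivity)
    have := hp.hd
    omega
  have hhη : h.natDegree < η := natDegree_lt_of_small (by omega) hτ1 hη
  have hw : ∀ W, |gw (goodV F d u) r W| ≤ 1 := fun W => by
    rw [abs_of_nonneg (gw_nonneg _ _ _)]
    exact gw_le_one hp.hr W
  have hβ1 : ∀ k ∈ monF F κ, ∀ e ∈ monF F ε₂, |β k e| ≤ 1 := fun k hk e he =>
    (hβ k hk e he).trans (ind_le_one _)
  have hc : (0 : ℝ) ≤ 4 * n / qq F d + 1 / qq F (10 * η) := by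
    have := qq_pos (F := F) d
    have := qq_pos (F := F) (10 * η)
    positivity
  have hm : ∀ x ∈ monF F μ ×ˢ monF F ε₁, ∀ k : F[X], ∑ z ∈ monF F ε₂ ×ˢ monF F i,
      ind (z.2 * (x.2 * z.1) = x.1 * k + h) ≤ τ * ind (x.2 ∣ x.1 * k + h) := fun x hx k =>
    TTwoB.mass_le hτ (by omega) (mem_monF.1 (mem_product.1 hx).2).1.ne_zero _
  have key := TTwoB.abstr (monF F μ ×ˢ monF F ε₁) (monF F κ) (monF F ε₂ ×ˢ monF F i)
    (fun x k z => ind (z.2 * (x.2 * z.1) = x.1 * k + h)) (fun _ _ _ => ind_nonneg _)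
    (fun x => α x.1 x.2) (fun x hx => hα _ (mem_product.1 hx).1 _ (mem_product.1 hx).2)
    (fun k z => β k z.1 * (lam z.2 * gw (goodV F d u) r (od (z.2 * (k * z.1 * B)))))
    (fun k hk z hz => by
      rw [abs_mul, abs_mul, abs_lam, one_mul]
      exact mul_le_one₀ (hβ1 k hk _ (mem_product.1 hz).1) (abs_nonneg _) (hw _))
    (τ := τ) (Λ := τ * (qq F (h.natDegree + κ) / qq F ε₁))
    (fun x hx k _ => (hm x hx k).trans (mul_le_of_le_one_right (by linarith) (ind_le_one _)))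
    (fun x hx => by
      obtain ⟨h4, h5⟩ := mem_monF.1 (mem_product.1 hx).2
      refine (sum_le_sum fun k _ => hm x hx k).trans ?_
      rw [← mul_sum, ← h5]
      exact mul_le_mul_of_nonneg_left (sum_class h4 hh _ (by omega)) (by linarith))
    (fun k z => ind (SLine.Bad d u (z.2 * (k * z.1 * B)))) (fun _ _ => ind_nonneg _) hc
    (fun k hk k' hk' hkk => by
      refine (TTwoB.reorder _ _ _ _ fun m e p a p' a' => ind (a * (e * p) = m * k + h) *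
        (β k p * (lam a * gw (goodV F d u) r (od (a * (k * p * B))))) *
        (ind (a' * (e * p') = m * k' + h) *
          (β k' p' * (lam a' * gw (goodV F d u) r (od (a' * (k' * p' * B))))))).trans_le
        (le_of_le_of_eq ?_ (TTwoB.reorder _ _ _ _ fun m e p a p' a' =>
          ind (a * (e * p) = m * k + h) * ind (a' * (e * p') = m * k' + h) *
            (3 * ind (SLine.Bad d u (a * (k * p * B))) +
              2 * ind (SLine.Bad d u (a' * (k' * p' * B))) +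
              (4 * n / qq F d + 1 / qq F (10 * η)))).symm)
      refine sum_le_sum fun e he => sum_le_sum fun p hp' => sum_le_sum fun p' hp'' => ?_
      by_cases hs : Squarefree p'
      · refine le_trans ?_ (two_point hh hp hn hn' hN h2 (by omega) hB hk hk' hkk he hp' hp'' hs)
        refine le_trans (le_of_eq ?_) ((le_abs_self _).trans ((abs_mul (β k p * β k' p') _).trans_le
          (mul_le_of_le_one_left (abs_nonneg _) ?_)))
        · simp only [mul_sum]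
          exact sum_congr rfl fun _ _ => sum_congr rfl fun _ _ => sum_congr rfl fun _ _ => by ring
        · rw [abs_mul]
          exact mul_le_one₀ (hβ1 k hk p hp') (abs_nonneg _) (hβ1 k' hk' p' hp'')
      · have h0 : β k' p' = 0 := abs_nonpos_iff.1 ((hβ k' hk' p' hp'').trans_eq (ind_neg hs))
        refine sum_le_sum fun m _ => sum_le_sum fun a _ => sum_le_sum fun a' _ => ?_
        rw [h0, zero_mul, mul_zero, mul_zero]
        exact mul_nonneg (mul_nonneg (ind_nonneg _) (ind_nonneg _)) (add_nonneg (add_nonneg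
          (mul_nonneg (by norm_num) (ind_nonneg _)) (mul_nonneg (by norm_num) (ind_nonneg _))) hc))
  have e1 := cfg_one_le (h := h) hτ hn hn'
  have e2 := cfg_bad (u := u) (d := d) hh hn hn' hτ (by omega) (by omega) hB hBs
  rw [TTwoB.cfg_eq] at e1 e2
  simp only [mul_one] at e1
  have e3 : ((monF F μ ×ˢ monF F ε₁).card : ℝ) = qq F μ * qq F ε₁ := by
    rw [card_product, card_monF, card_monF, qq, qq]
    push_cast
    rfl
  have e4 : ∀ j, qq F (j * η) = qq F η ^ j := fun j => by rw [qq_pow, mul_comm]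
  rw [e4]
  refine TTwoB.final (H := qq F h.natDegree) (n := n) (b := b) (A := qq F μ) (E := qq F ε₁)
    (K := qq F κ) (D := qq F d) hτ1 (by exact_mod_cast (by omega : 1 ≤ n))
    (by exact_mod_cast (by omega : b ≤ n)) (one_le_qq _) (qq_pos _) (qq_pos _) (one_le_qq _)
    (by rw [← qq_add, hn]) (by rw [← e4, ← qq_add]; exact qq_mono h3)
    (by rw [← e4]; exact qq_mono hd) (by rwa [qq_pow, mul_comm h.natDegree]) ?_
  rw [e3, qq_add] at key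
  rw [← e4]
  refine le_of_eq_of_le ?_ (key.trans ?_)
  · rw [TTwoB.cfg_eq]
    congr 1
    simp only [mul_sum]
    exact sum_congr rfl fun _ _ => sum_congr rfl fun _ _ => sum_congr rfl fun _ _ => by ring
  · have := qq_pos (F := F) μ
    have := qq_pos (F := F) ε₁
    have := qq_pos (F := F) κ
    have := qq_pos (F := F) h.natDegree
    gcongr

end Pool.Agent.MP_43e117_nt
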