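import Mathlib
import Pool.Agent.MP_43e117_nt.TBasA
import Pool.Agent.MP_c853c5_nt.SEquiA

/- Twin primes of `F[X]`: major and minor arcs for the weight. -/

set_option autoImplicit false
set_option linter.unusedSectionVars false

namespace Pool.Agent.MP_43e117_nt

open Polynomial Finset Pool.Agent.MP_4fffd4_nt Pool.Agent.MP_c853c5_nt
open scoped BigOperators

variable {F : Type*} [Field F] [Fintype F]

namespace TMaj

/-- The frequency `θ` is trivial on the multiples of `D`. -/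
def An (e : F → ℝ) (N L : ℕ) (θ D : F[X]) : Prop :=
  ∀ x : degreeLT F L, e ((θ * (D * x.1)).coeff (N - 1)) = 1

/-- The Fourier coefficient. -/
noncomputable def hat (e : F → ℝ) (N : ℕ) (g : F[X] → ℝ) (θ : F[X]) : ℝ :=
  𝔼 W : degreeLT F N, g W.1 * e ((θ * W.1).coeff (N - 1))

theorem An.add {e : F → ℝ} (he : Chr e) {N L : ℕ} {θ D D' : F[X]} (h : An e N L θ D)
    (h' : An e N L θ D') : An e N L θ (D + D') := fun x => by
  rw [add_mul, mul_add, coeff_add, he.add, h x, h' x, mul_one]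

theorem orth [CharP F 2] {e : F → ℝ} (he : Chr e) {N : ℕ} (u u' : degreeLT F N) :
    ∑ y : degreeLT F N, e ((y.1 * u.1).coeff (N - 1)) * e ((y.1 * u'.1).coeff (N - 1)) =
      qq F N * ind (u' = u) := by
  have hq := qq_pos (F := F) N
  have h2 := expect_chr he (l := 0) (k := N) (u := u.1 + u'.1)
    ((mem_degreeLT.1 (u + u').2).trans_le (by exact_mod_cast by omega))
  simp only [zero_add, mul_add, coeff_add, he.add] at h2
  rw [expect_LT, div_eq_iff (by exact hq.ne')] at h2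
  rw [h2, mul_comm]
  congr 2
  rw [Nat.cast_zero, Nat.WithBot.lt_zero_iff, degree_eq_bot, CharTwo.add_eq_zero]
  exact propext ⟨fun h => Subtype.ext h.symm, fun h => by rw [h]⟩

theorem inversion [CharP F 2] {e : F → ℝ} (he : Chr e) {N : ℕ} (g : F[X] → ℝ) {w : F[X]}
    (hw : w.degree < N) :
    g w = ∑ θ : degreeLT F N, e ((θ.1 * w).coeff (N - 1)) * hat e N g θ.1 := by
  have hq := qq_pos (F := F) N
  have h1 : ∀ W : degreeLT F N, ∑ θ : degreeLT F N, e ((θ.1 * w).coeff (N - 1)) *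
      (g W.1 * e ((θ.1 * W.1).coeff (N - 1))) =
      qq F N * (ind ((⟨w, mem_degreeLT.2 hw⟩ : degreeLT F N) = W) * g W.1) := by
    intro W
    rw [← mul_assoc, ← orth he W ⟨w, mem_degreeLT.2 hw⟩, Finset.sum_mul]
    exact Finset.sum_congr rfl fun θ _ => by ring
  simp only [hat, Finset.mul_expect, ← Finset.expect_sum_comm, h1]
  rw [expect_LT, ← Finset.mul_sum, Finset.sum_eq_single_of_mem (⟨w, mem_degreeLT.2 hw⟩ :
    degreeLT F N) (mem_univ _) fun x _ hx => by rw [ind_neg hx.symm, zero_mul], ind_pos rfl,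
    one_mul]
  exact (mul_div_cancel_left₀ _ hq.ne').symm

theorem sum_hat [CharP F 2] {e : F → ℝ} (he : Chr e) {N : ℕ} {g : F[X] → ℝ}
    (hg : ∀ W, |g W| ≤ 1) : ∑ θ : degreeLT F N, hat e N g θ.1 ^ 2 ≤ 1 := by
  rw [← SEquiA.parseval he (le_refl N) fun θ => hat e N g θ.1]
  refine Finset.expect_le univ_nonempty fun W _ => ?_
  rw [← inversion he g (mem_degreeLT.1 W.2), ← sq_abs]
  exact pow_le_one₀ (abs_nonneg _) (hg _)

theorem ident [CharP F 2] {e : F → ℝ} (he : Chr e) {N L : ℕ} (g : F[X] → ℝ) {D : F[X]}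
    (hD : D.natDegree + L ≤ N) :
    𝔼 τ : degreeLT F N, (𝔼 x : degreeLT F L, g (τ.1 + D * x.1)) ^ 2 =
      ∑ θ : degreeLT F N, hat e N g θ.1 ^ 2 * ind (An e N L θ.1 D) := by
  have h1 : ∀ τ : degreeLT F N, 𝔼 x : degreeLT F L, g (τ.1 + D * x.1) =
      ∑ θ : degreeLT F N, e ((θ.1 * τ.1).coeff (N - 1)) *
        (hat e N g θ.1 * ind (An e N L θ.1 D)) := by
    intro τ
    have h2 : ∀ x : degreeLT F L, g (τ.1 + D * x.1) = ∑ θ : degreeLT F N,
        e ((θ.1 * τ.1).coeff (N - 1)) * hat e N g θ.1 * e ((θ.1 * (D * x.1)).coeff (N - 1)) := by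
      intro x
      rw [inversion he g (N := N) ((degree_add_le _ _).trans_lt (max_lt (mem_degreeLT.1 τ.2)
        (SEquiA.degree_mul_lt' le_rfl (mem_degreeLT.1 x.2) hD)))]
      refine Finset.sum_congr rfl fun θ _ => ?_
      rw [mul_add, coeff_add, he.add]
      ring
    simp only [h2, Finset.expect_sum_comm, ← Finset.mul_expect]
    refine Finset.sum_congr rfl fun θ _ => ?_
    rw [(he.toSgn.comp (fun x : degreeLT F L => (θ.1 * (D * x.1)).coeff (N - 1)) fun a b => by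
      rw [Submodule.coe_add, mul_add, mul_add, coeff_add]).expect_eq_ind, mul_assoc]
    rfl
  simp only [h1]
  rw [SEquiA.parseval he (le_refl N) fun θ => hat e N g θ.1 * ind (An e N L θ.1 D)]
  refine Finset.sum_congr rfl fun θ _ => ?_
  by_cases h : An e N L θ.1 D
  · rw [ind_pos h, mul_one, mul_one]
  · rw [ind_neg h, mul_zero, mul_zero, zero_pow two_ne_zero]

theorem minor [CharP F 2] {e : F → ℝ} (he : Chr e) {N L κ c : ℕ} {θ Δ : F[X]}
    (h : ∀ M : F[X], M.degree < c → M.natDegree ≤ κ → An e N L θ (M * Δ) → M = 0) :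
    ∑ M ∈ monF F κ, ind (An e N L θ (M * Δ)) ≤ qq F κ / qq F c := by
  have hq := qq_pos (F := F)
  have hX : (X ^ c : F[X]).Monic := monic_X_pow c
  by_cases hc : c ≤ κ
  · rw [sum_monF]
    refine (sum_ind_le (P := fun y : degreeLT F κ => An e N L θ ((X ^ κ + y.1) * Δ))
      (monF F (κ - c)) (fun y => (X ^ κ + y.1) /ₘ X ^ c) ?_ ?_).trans_eq ?_
    · intro y y' hy hy' hyy
      have h1 := hy.add he hy'
      rw [← add_mul] at h1
      have h2 := modByMonic_add_div (X ^ κ + y.1) (X ^ c : F[X])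
      have h3 := modByMonic_add_div (X ^ κ + y'.1) (X ^ c : F[X])
      have h2F : (2 : F[X]) = 0 := by exact_mod_cast CharP.cast_eq_zero F[X] 2
      have h4 : X ^ κ + y.1 + (X ^ κ + y'.1) =
          (X ^ κ + y.1) %ₘ X ^ c + (X ^ κ + y'.1) %ₘ X ^ c := by
        rw [hyy] at h2
        linear_combination -h2 - h3 + (X ^ c * ((X ^ κ + y'.1) /ₘ X ^ c)) * h2F
      have h5 := h _ (by
        rw [h4, ← degree_X_pow (R := F)]
        exact (degree_add_le _ _).trans_lt
          (max_lt (degree_modByMonic_lt _ hX) (degree_modByMonic_lt _ hX)))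
        (natDegree_add_le_of_degree_le (monic_add_LT y).2.le (monic_add_LT y').2.le) h1
      exact Subtype.ext (add_left_cancel (CharTwo.add_eq_zero.1 h5))
    · intro y _
      obtain ⟨h1, h2⟩ := monic_add_LT y
      refine mem_monF.2 ⟨?_, by rw [natDegree_divByMonic _ hX, natDegree_X_pow, h2]⟩
      rw [Monic, leadingCoeff_divByMonic_of_monic hX (by
        rw [degree_X_pow, degree_eq_natDegree h1.ne_zero, h2]
        exact_mod_cast hc)]
      exact h1
    · rw [card_monF, eq_div_iff (hq c).ne', Nat.cast_pow]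
      exact (qq_add (κ - c) c).symm.trans (by rw [Nat.sub_add_cancel hc])
  · rw [Finset.sum_eq_zero fun M hM => ind_neg fun hA => ?_]
    · exact (div_pos (hq κ) (hq c)).le
    obtain ⟨h1, h2⟩ := mem_monF.1 hM
    refine h1.ne_zero (h M ?_ h2.le hA)
    rw [degree_eq_natDegree h1.ne_zero, h2]
    exact_mod_cast not_le.1 hc

theorem count [CharP F 2] {e : F → ℝ} (he : Chr e) (N L κ c : ℕ) (θ Δ : F[X]) :
    ∑ M ∈ monF F κ, ind (An e N L θ (M * Δ)) ≤ qq F κ / qq F c +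
      qq F κ * ∑ M ∈ ltF F c, ind ((M ≠ 0 ∧ M.natDegree ≤ κ) ∧ An e N L θ (M * Δ)) := by
  have hq := qq_pos (F := F)
  by_cases h : ∃ M ∈ ltF F c, (M ≠ 0 ∧ M.natDegree ≤ κ) ∧ An e N L θ (M * Δ)
  · have h1 := (ind_pos trivial).symm.le.trans (ind_le_sum fun _ => h)
    refine (Finset.sum_le_sum fun M _ => ind_le_one _).trans ?_
    rw [sum_one_monF]
    exact le_add_of_nonneg_of_le (div_pos (hq κ) (hq c)).le (le_mul_of_one_le_right (hq κ).le h1)
  · refine le_add_of_le_of_nonneg (minor he fun M h1 h2 h3 => ?_)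
      (mul_nonneg (hq κ).le (Finset.sum_nonneg fun _ _ => ind_nonneg _))
    by_contra h0
    exact h ⟨M, mem_ltF.2 h1, ⟨h0, h2⟩, h3⟩

end TMaj

open TMaj in
theorem major [CharP F 2] {N L κ c : ℕ} {Δ : F[X]} (hΔ : Δ ≠ 0) (hd : κ + Δ.natDegree + L ≤ N)
    {g : F[X] → ℝ} (hg : ∀ W, |g W| ≤ 1) {V : ℝ} (hV0 : 0 ≤ V)
    (hV : ∀ M : F[X], M ≠ 0 → M.degree < c →
      𝔼 τ : degreeLT F N, (𝔼 x : degreeLT F L, g (X ^ N + τ.1 + M * Δ * x.1)) ^ 2 ≤ V) :
    ∑ M ∈ monF F κ, 𝔼 τ : degreeLT F N, (𝔼 x : degreeLT F L, g (X ^ N + τ.1 + M * Δ * x.1)) ^ 2 ≤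
      qq F κ * (1 / qq F c + qq F c * V) := by
  have _ := hΔ
  have hq := qq_pos (F := F)
  obtain ⟨e, he⟩ := exists_chr (F := F)
  set G : F[X] → ℝ := fun W => g (X ^ N + W) with hG
  have h1 : ∀ M : F[X], M.natDegree ≤ κ → 𝔼 τ : degreeLT F N,
      (𝔼 x : degreeLT F L, g (X ^ N + τ.1 + M * Δ * x.1)) ^ 2 =
      ∑ θ : degreeLT F N, hat e N G θ.1 ^ 2 * ind (An e N L θ.1 (M * Δ)) := by
    intro M hM
    rw [← ident he G (D := M * Δ) (by have := natDegree_mul_le (p := M) (q := Δ); omega)]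
    simp only [hG, add_assoc]
  have h2 : ∑ θ : degreeLT F N, hat e N G θ.1 ^ 2 ≤ 1 := sum_hat he fun W => hg _
  have h3 : ∀ M ∈ ltF F c, ∑ θ : degreeLT F N, hat e N G θ.1 ^ 2 *
      ind ((M ≠ 0 ∧ M.natDegree ≤ κ) ∧ An e N L θ.1 (M * Δ)) ≤ V := by
    intro M hM
    by_cases h : M ≠ 0 ∧ M.natDegree ≤ κ
    · refine le_trans (Finset.sum_le_sum fun θ _ => mul_le_mul_of_nonneg_left
        (ind_mono fun h' => h'.2) (sq_nonneg _)) ?_
      rw [← h1 M h.2]
      exact hV M h.1 (mem_ltF.1 hM)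
    · rw [Finset.sum_eq_zero fun θ _ => by rw [ind_neg fun h' => h h'.1, mul_zero]]
      exact hV0
  rw [Finset.sum_congr rfl fun M hM => h1 M (mem_monF.1 hM).2.le, Finset.sum_comm]
  simp only [← Finset.mul_sum]
  refine (Finset.sum_le_sum fun θ _ => mul_le_mul_of_nonneg_left (count he N L κ c θ.1 Δ)
    (sq_nonneg _)).trans ?_
  simp only [mul_add, Finset.sum_add_distrib, ← Finset.sum_mul, mul_left_comm _ (qq F κ),
    ← Finset.mul_sum]
  refine add_le_add ?_ (mul_le_mul_of_nonneg_left ?_ (hq κ).le)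
  · rw [mul_one_div]
    exact mul_le_of_le_one_left (div_pos (hq κ) (hq c)).le h2
  · simp only [Finset.mul_sum]
    rw [Finset.sum_comm, ← sum_one_ltF, Finset.sum_mul]
    exact Finset.sum_le_sum fun M hM => (h3 M hM).trans_eq (one_mul V).symm

end Pool.Agent.MP_43e117_nt
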