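import Mathlib
import Pool.Agent.MP_43e117_nt.TBasA

/- Twin primes of `F[X]`: multiplicity of the odd part. -/

set_option autoImplicit false
set_option linter.unusedSectionVars false

namespace Pool.Agent.MP_43e117_nt

open Polynomial Finset Pool.Agent.MP_4fffd4_nt Pool.Agent.MP_c853c5_nt
open scoped BigOperators

variable {F : Type*} [Field F] [Fintype F]

namespace TMult

theorem degree_div_lt {c p : F[X]} (hc : c ≠ 0) (hd : c ∣ p) {n : ℕ}
    (h : p.degree < (n + c.natDegree : ℕ)) : (p / c).degree < n := by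
  obtain ⟨z, rfl⟩ := hd
  rw [mul_div_cancel_left₀ _ hc]
  by_cases hz : z = 0
  · rw [hz, degree_zero]; exact WithBot.bot_lt_coe _
  rw [← natDegree_lt_iff_degree_lt (mul_ne_zero hc hz), natDegree_mul hc hz] at h
  rw [← natDegree_lt_iff_degree_lt hz]
  omega

open Classical in
theorem card_le_fib {α : Type*} (s : Finset α) (g : α → F[X]) {c : F[X]} (hc : c ≠ 0) (n M : ℕ)
    (hd : ∀ y ∈ s, c ∣ g y) (hdeg : ∀ y ∈ s, (g y).degree < (n + c.natDegree : ℕ))
    (hf : ∀ x ∈ s, (s.filter fun y => g y = g x).card ≤ M) :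
    s.card ≤ M * Fintype.card F ^ n := by
  rw [← card_ltF]
  refine card_le_mul_card_image_of_maps_to (f := fun y => g y / c)
    (fun y hy => mem_ltF.2 (degree_div_lt hc (hd y hy) (hdeg y hy))) M fun z _ => ?_
  rcases (s.filter fun y => g y / c = z).eq_empty_or_nonempty with h | ⟨x, hx⟩
  · rw [h]; exact Nat.zero_le _
  rw [mem_filter] at hx
  refine le_trans (card_le_card fun y hy => ?_) (hf x hx.1)
  rw [mem_filter] at hy ⊢
  refine ⟨hy.1, ?_⟩
  rw [← EuclideanDomain.mul_div_cancel' hc (hd y hy.1), hy.2, ← hx.2,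
    EuclideanDomain.mul_div_cancel' hc (hd x hx.1)]

theorem card_le_inj {α : Type*} (s : Finset α) (g : α → F[X]) {c : F[X]} (hc : c ≠ 0) (n : ℕ)
    (hd : ∀ y ∈ s, c ∣ g y) (hdeg : ∀ y ∈ s, (g y).degree < (n + c.natDegree : ℕ))
    (hf : ∀ x ∈ s, ∀ y ∈ s, g y = g x → y = x) : s.card ≤ Fintype.card F ^ n := by
  classical
  have := card_le_fib s g hc n 1 hd hdeg fun x hx => by
    refine card_le_one.2 fun y hy z hz => ?_
    rw [mem_filter] at hy hz
    rw [hf x hx y hy.1 hy.2, hf x hx z hz.1 hz.2]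
  rwa [one_mul] at this

theorem exists_gcd {a : F[X]} (ha : a ≠ 0) (b : F[X]) :
    ∃ g a₀ b₀ : F[X], g.Monic ∧ a = g * a₀ ∧ b = g * b₀ ∧ IsCoprime a₀ b₀ := by
  classical
  obtain ⟨a₀, b₀, h1, h2, h3⟩ := extract_gcd a b
  refine ⟨gcd a b, a₀, b₀, ?_, h1, h2, (gcd_isUnit_iff _ _).1 h3⟩
  rw [← _root_.normalize_gcd]
  exact monic_normalize fun h => ha ((gcd_eq_zero_iff _ _).1 h).1

variable [CharP F 2]

theorem two_eq : (2 : F[X]) = 0 := by exact_mod_cast CharP.cast_eq_zero F[X] 2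

theorem degree_add_lt {p q : F[X]} (hp : p.Monic) (hq : q.Monic) {n : ℕ} (h1 : p.natDegree = n)
    (h2 : q.natDegree = n) : (p + q).degree < n := by
  rw [← CharTwo.sub_eq_add]
  have e1 : p.degree = n := by rw [degree_eq_natDegree hp.ne_zero, h1]
  have e2 : q.degree = n := by rw [degree_eq_natDegree hq.ne_zero, h2]
  rw [← e1]
  exact degree_sub_lt_left (e1.trans e2.symm) hp.ne_zero (by rw [hp.leadingCoeff, hq.leadingCoeff])

theorem degree_mul_lt {c p : F[X]} (hc : c ≠ 0) {n : ℕ} (h : p.degree < n) :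
    (c * p).degree < (c.natDegree + n : ℕ) := by
  by_cases hp : p = 0
  · rw [hp, mul_zero, degree_zero]; exact WithBot.bot_lt_coe _
  rw [← natDegree_lt_iff_degree_lt hp] at h
  rw [← natDegree_lt_iff_degree_lt (mul_ne_zero hc hp), natDegree_mul hc hp]
  omega

theorem od_X_mul_sq {g : F[X]} (h : od g = 0) : od (X * g) ^ 2 = g := by
  have h1 := od_sq g
  rw [h] at h1
  rw [od_sq, derivative_mul, derivative_X, ← h1]
  ring

theorem eq_of_add_eq {x y z : F[X]} (h : x + y = x + z) : y = z := add_left_cancel h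

/-- the number of `d` for fixed `B`, `e₁` -/
theorem step2 {h k e₂ B e₁ : F[X]} (hh : h ≠ 0) (hk : k.Monic) {T : ℕ} (he : e₂.Monic)
    (hs : Squarefree e₂) {i N : ℕ} (hB : B.Monic) (hBs : Squarefree B)
    (hN : i + k.natDegree + e₂.natDegree + B.natDegree = 2 * N + 1)
    (h2 : k.natDegree + e₂.natDegree + B.natDegree ≤ i)
    (hT : ∀ δ : F[X], δ.Monic → δ ∣ B → δ ∣ e₁ * e₂ → δ.natDegree ≤ T) (W : F[X])
    (s : Finset F[X]) (hsub : ∀ d ∈ s, d ∈ monF F i ∧ k ∣ d * (e₁ * e₂) + h ∧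
      od (d * (k * e₂ * B)) = W) :
    s.card ≤ Fintype.card F ^ (h.natDegree + (i - N) + T) := by
  rcases s.eq_empty_or_nonempty with rfl | ⟨d, hd⟩
  · exact Nat.zero_le _
  obtain ⟨hd1, hd2, hd3⟩ := hsub d hd
  obtain ⟨g, e₀, B₀, hg, he₀, hB₀, hcop⟩ := exists_gcd he.ne_zero B
  have hgT : g.natDegree ≤ T :=
    hT g hg ⟨_, hB₀⟩ (Dvd.dvd.mul_left ⟨_, he₀⟩ _)
  have he₀0 : e₀ ≠ 0 := fun h0 => he.ne_zero (by rw [he₀, h0, mul_zero])
  have hc2 : IsCoprime e₀ B := by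
    rw [hB₀]
    refine IsCoprime.mul_right ?_ hcop
    exact (IsRelPrime.of_squarefree_mul (he₀ ▸ hs)).isCoprime.symm
  have hdeg₀ : e₂.natDegree = g.natDegree + e₀.natDegree := by
    rw [he₀, natDegree_mul hg.ne_zero he₀0]
  have hM : k * e₂ * B ≠ 0 := mul_ne_zero (mul_ne_zero hk.ne_zero he.ne_zero) hB.ne_zero
  have hMd : (k * e₂ * B).natDegree = k.natDegree + e₂.natDegree + B.natDegree := by
    rw [natDegree_mul (mul_ne_zero hk.ne_zero he.ne_zero) hB.ne_zero,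
      natDegree_mul hk.ne_zero he.ne_zero]
  have hsq : ∀ y ∈ s, od (X * ((d + y) * (k * e₂ * B))) ^ 2 = (d + y) * (k * e₂ * B) := by
    intro y hy
    refine od_X_mul_sq ?_
    rw [add_mul, od_add, hd3, (hsub y hy).2.2, CharTwo.add_self_eq_zero]
  refine card_le_inj s (fun y => h * od (X * ((d + y) * (k * e₂ * B)))) (c := k * (e₀ * B))
    (mul_ne_zero hk.ne_zero (mul_ne_zero he₀0 hB.ne_zero)) _ (fun y hy => ?_) (fun y hy => ?_)
    fun x hx y hy e => ?_
  · have hz := hsq y hy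
    set z := od (X * ((d + y) * (k * e₂ * B)))
    have k1 : k ∣ (d + y) * (e₁ * e₂) := by
      have := dvd_add hd2 (hsub y hy).2.1
      rwa [show d * (e₁ * e₂) + h + (y * (e₁ * e₂) + h) = (d + y) * (e₁ * e₂) by
        linear_combination h * two_eq (F := F)] at this
    have k2 : k ∣ (d + y) * h := by
      have := dvd_sub (hd2.mul_left (d + y)) (k1.mul_left d)
      rwa [show (d + y) * (d * (e₁ * e₂) + h) - d * ((d + y) * (e₁ * e₂)) = (d + y) * h by ring]
        at this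
    obtain ⟨δ, hδ⟩ := k2
    have k3 : (h * z) ^ 2 = k ^ 2 * (h * δ * e₂ * B) := by
      rw [mul_pow, hz]
      linear_combination h * k * e₂ * B * hδ
    obtain ⟨z₁, hz₁⟩ := (IsIntegrallyClosed.pow_dvd_pow_iff two_ne_zero).1 ⟨_, k3⟩
    have k4 : z₁ ^ 2 = h * δ * e₂ * B := by
      rw [hz₁, mul_pow] at k3
      exact mul_left_cancel₀ (pow_ne_zero _ hk.ne_zero) k3
    have k5 : e₂ ∣ z₁ := (hs.dvd_pow_iff_dvd two_ne_zero).1 ⟨h * δ * B, by rw [k4]; ring⟩
    have k6 : B ∣ z₁ := (hBs.dvd_pow_iff_dvd two_ne_zero).1 ⟨h * δ * e₂, by rw [k4]; ring⟩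
    show k * (e₀ * B) ∣ h * z
    rw [hz₁]
    exact mul_dvd_mul_left k (hc2.mul_dvd (dvd_trans ⟨g, by rw [he₀]; ring⟩ k5) k6)
  · have hz := hsq y hy
    set z := od (X * ((d + y) * (k * e₂ * B)))
    have hy1 := mem_monF.1 (hsub y hy).1
    have hd1' := mem_monF.1 hd1
    have l1 := degree_mul_lt hM (degree_add_lt hd1'.1 hy1.1 hd1'.2 hy1.2)
    rw [mul_comm, ← hz] at l1
    have l2 : z.degree < (N + 1 : ℕ) := by
      by_cases h0 : z = 0
      · rw [h0, degree_zero]; exact WithBot.bot_lt_coe _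
      rw [← natDegree_lt_iff_degree_lt (pow_ne_zero _ h0), natDegree_pow] at l1
      rw [← natDegree_lt_iff_degree_lt h0]
      omega
    refine (degree_mul_lt hh l2).trans_le ?_
    rw [natDegree_mul hk.ne_zero (mul_ne_zero he₀0 hB.ne_zero), natDegree_mul he₀0 hB.ne_zero]
    exact_mod_cast (by omega)
  · have e1 := mul_left_cancel₀ hh e
    have e2 := hsq y hy
    rw [e1, hsq x hx] at e2
    exact (add_left_cancel (mul_right_cancel₀ hM e2)).symm

/-- the number of pairs `(B, e₁)` -/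
theorem step1 {h k e₂ : F[X]} (hh : h ≠ 0) (hk : k.Monic) {T : ℕ} (hkT : ¬ Sq T k) {b ε₁ : ℕ}
    (h1 : k.natDegree ≤ b + ε₁) (W : F[X]) (s : Finset (F[X] × F[X]))
    (hsub : ∀ p ∈ s, p.1 ∈ monF F b ∧ p.2 ∈ monF F ε₁ ∧
      (∀ δ : F[X], δ.Monic → δ ∣ p.1 → δ ∣ p.2 * e₂ → δ.natDegree ≤ T) ∧
      ∃ d : F[X], k ∣ d * (p.2 * e₂) + h ∧ od (d * (k * e₂ * p.1)) = W) :
    s.card ≤ Fintype.card F ^ (h.natDegree + (b + ε₁ - k.natDegree) + 3 * T) := by
  classical
  rcases s.eq_empty_or_nonempty with rfl | ⟨⟨B, e₁⟩, hp⟩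
  · exact Nat.zero_le _
  obtain ⟨a, γ, ha, hγ, has, hka⟩ := exists_sqfree hk
  have hγT : γ.natDegree < T := by
    by_contra hc
    exact hkT ⟨γ, hγ, not_lt.1 hc, ⟨a, by rw [hka]; ring⟩⟩
  have hkd : k.natDegree = a.natDegree + 2 * γ.natDegree := by
    rw [hka, natDegree_mul ha.ne_zero (pow_ne_zero _ hγ.ne_zero), natDegree_pow]
  have hk' : derivative k = derivative a * γ ^ 2 := by
    rw [hka, derivative_mul, derivative_sq, map_ofNat, two_eq]
    ring
  have hsep : IsCoprime a (derivative a) := PerfectField.separable_iff_squarefree.2 has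
  have key : ∀ p ∈ s, k ∣ derivative k * h * p.1 + W ^ 2 * p.2 := by
    intro p hp
    obtain ⟨-, -, -, d, hd1, hd2⟩ := hsub p hp
    have e := od_sq (d * (k * e₂ * p.1))
    rw [hd2, show d * (k * e₂ * p.1) = k * (d * e₂ * p.1) by ring, derivative_mul] at e
    have := dvd_add (hd1.mul_left (derivative k * p.1))
      (dvd_mul_right k (derivative (d * e₂ * p.1) * p.2))
    convert this using 1
    rw [e]
    ring
  obtain ⟨hB, he₁, hT, -⟩ := hsub _ hp
  have hB' := mem_monF.1 hB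
  have he₁' := mem_monF.1 he₁
  simp only at hB' he₁' hT
  obtain ⟨g, B₀, e₀, hg, hB₀, he₀, hcop⟩ := exists_gcd hB'.1.ne_zero e₁
  have hgT : g.natDegree ≤ T := hT g hg ⟨_, hB₀⟩ (Dvd.dvd.mul_right ⟨_, he₀⟩ _)
  have hB₀0 : B₀ ≠ 0 := fun h0 => hB'.1.ne_zero (by rw [hB₀, h0, mul_zero])
  have hBd : b = g.natDegree + B₀.natDegree := by
    rw [← hB'.2, hB₀, natDegree_mul hg.ne_zero hB₀0]
  have main := card_le_fib s (fun p => h * (B * p.2 + p.1 * e₁)) ha.ne_zero
    (h.natDegree + (b + ε₁ - k.natDegree) + 2 * T) (Fintype.card F ^ T) (fun p hp' => ?_)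
    (fun p hp' => ?_) fun x hx => ?_
  · rw [← pow_add] at main
    exact main.trans_eq (by congr 1; ring)
  · have := dvd_add ((key _ hp).mul_right p.2) ((key p hp').mul_right e₁)
    rw [show (derivative k * h * (B, e₁).1 + W ^ 2 * (B, e₁).2) * p.2 +
        (derivative k * h * p.1 + W ^ 2 * p.2) * e₁ =
        derivative a * (h * (B * p.2 + p.1 * e₁)) * γ ^ 2 by
      rw [hk']
      linear_combination W ^ 2 * e₁ * p.2 * two_eq (F := F)] at this
    nth_rewrite 1 [hka] at this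
    exact hsep.dvd_of_dvd_mul_left
      ((mul_dvd_mul_iff_right (pow_ne_zero _ hγ.ne_zero)).1 this)
  · obtain ⟨q1, q2, -, -⟩ := hsub p hp'
    rw [mem_monF] at q1 q2
    have l1 := degree_add_lt (hB'.1.mul q2.1) (q1.1.mul he₁'.1) (n := b + ε₁)
      (by rw [natDegree_mul hB'.1.ne_zero q2.1.ne_zero, hB'.2, q2.2])
      (by rw [natDegree_mul q1.1.ne_zero he₁'.1.ne_zero, q1.2, he₁'.2])
    refine (degree_mul_lt hh l1).trans_le ?_
    exact_mod_cast (by omega)
  · have hrel : ∀ y ∈ s.filter fun y => h * (B * y.2 + y.1 * e₁) = h * (B * x.2 + x.1 * e₁),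
        B * y.2 + y.1 * e₁ = B * x.2 + x.1 * e₁ := fun y hy =>
      mul_left_cancel₀ hh (mem_filter.1 hy).2
    refine card_le_inj _ (fun y => x.1 + y.1) hB₀0 T (fun y hy => ?_) (fun y hy => ?_)
      fun y hy z hz e => ?_
    · have r := hrel y hy
      rw [hB₀, he₀] at r
      have r2 : B₀ * (x.2 + y.2) = (x.1 + y.1) * e₀ := by
        refine mul_left_cancel₀ hg.ne_zero ?_
        linear_combination r + (g * B₀ * x.2 - y.1 * (g * e₀)) * two_eq (F := F)
      exact hcop.dvd_of_dvd_mul_right ⟨_, r2.symm⟩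
    · have q1 := mem_monF.1 (hsub x hx).1
      have q2 := mem_monF.1 (hsub y (mem_filter.1 hy).1).1
      refine (degree_add_lt q1.1 q2.1 q1.2 q2.2).trans_le ?_
      exact_mod_cast (by omega)
    · have e1 : z.1 = y.1 := add_left_cancel e
      have e2 := (hrel z hz).trans (hrel y hy).symm
      rw [e1] at e2
      exact Prod.ext e1 (mul_left_cancel₀ hB'.1.ne_zero (add_right_cancel e2))

theorem sum_ind_card {α : Type*} (s : Finset α) (P : α → Prop) [DecidablePred P] :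
    ∑ x ∈ s, ind (P x) = ((s.filter P).card : ℝ) := by
  rw [card_filter, Nat.cast_sum]
  refine sum_congr rfl fun x _ => ?_
  by_cases h : P x
  · rw [ind_pos h, if_pos h, Nat.cast_one]
  · rw [ind_neg h, if_neg h, Nat.cast_zero]

end TMult

theorem mult [CharP F 2] {h k e₂ : F[X]} (hh : h ≠ 0) (hk : k.Monic) {T : ℕ} (hkT : ¬ Sq T k)
    (he : e₂.Monic) (hs : Squarefree e₂) {b ε₁ i N : ℕ}
    (hN : i + k.natDegree + e₂.natDegree + b = 2 * N + 1) (h1 : k.natDegree ≤ b + ε₁)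
    (h2 : k.natDegree + e₂.natDegree + b ≤ i) (W : F[X]) :
    (∑ B ∈ monF F b, ∑ e₁ ∈ monF F ε₁, ∑ d ∈ monF F i,
      ind (Squarefree B ∧ k ∣ d * (e₁ * e₂) + h ∧
        (∀ δ : F[X], δ.Monic → δ ∣ B → δ ∣ e₁ * e₂ → δ.natDegree ≤ T) ∧
        od (d * (k * e₂ * B)) = W)) * qq F (k.natDegree + N) ≤
      qq F (b + ε₁ + i + 2 * h.natDegree + 4 * T) := by
  classical
  set P : F[X] × F[X] → Prop := fun p =>
    (∀ δ : F[X], δ.Monic → δ ∣ p.1 → δ ∣ p.2 * e₂ → δ.natDegree ≤ T) ∧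
      ∃ d : F[X], k ∣ d * (p.2 * e₂) + h ∧ od (d * (k * e₂ * p.1)) = W with hP
  have inner : ∀ B ∈ monF F b, ∀ e₁ ∈ monF F ε₁, ∑ d ∈ monF F i,
      ind (Squarefree B ∧ k ∣ d * (e₁ * e₂) + h ∧
        (∀ δ : F[X], δ.Monic → δ ∣ B → δ ∣ e₁ * e₂ → δ.natDegree ≤ T) ∧
        od (d * (k * e₂ * B)) = W) ≤ ind (P (B, e₁)) * qq F (h.natDegree + (i - N) + T) := by
    intro B hB e₁ _
    rw [TMult.sum_ind_card]
    rcases ((monF F i).filter fun d => Squarefree B ∧ k ∣ d * (e₁ * e₂) + h ∧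
        (∀ δ : F[X], δ.Monic → δ ∣ B → δ ∣ e₁ * e₂ → δ.natDegree ≤ T) ∧
        od (d * (k * e₂ * B)) = W).eq_empty_or_nonempty with h0 | ⟨d, hd⟩
    · rw [h0, card_empty, Nat.cast_zero]
      exact mul_nonneg (ind_nonneg _) (qq_pos _).le
    obtain ⟨-, q1, q2, q3, q4⟩ := mem_filter.1 hd
    have hB' := mem_monF.1 hB
    rw [ind_pos (show P (B, e₁) from ⟨q3, d, q2, q4⟩), one_mul, qq]
    exact_mod_cast TMult.step2 hh hk he hs hB'.1 q1 (hB'.2 ▸ hN) (hB'.2 ▸ h2) q3 W _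
      fun y hy => by
        obtain ⟨r0, -, r2, -, r4⟩ := mem_filter.1 hy
        exact ⟨r0, r2, r4⟩
  have outer : ∑ B ∈ monF F b, ∑ e₁ ∈ monF F ε₁, ind (P (B, e₁)) ≤
      qq F (h.natDegree + (b + ε₁ - k.natDegree) + 3 * T) := by
    rw [← sum_product' (f := fun B e₁ => ind (P (B, e₁))), TMult.sum_ind_card, qq]
    exact_mod_cast TMult.step1 hh hk hkT h1 W _ fun p hp => by
      obtain ⟨r0, r1⟩ := mem_filter.1 hp
      exact ⟨(mem_product.1 r0).1, (mem_product.1 r0).2, r1⟩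
  refine (mul_le_mul_of_nonneg_right (sum_le_sum fun B hB => sum_le_sum (inner B hB))
    (qq_pos _).le).trans ?_
  simp only [← sum_mul]
  refine (mul_le_mul_of_nonneg_right (mul_le_mul_of_nonneg_right outer (qq_pos _).le)
    (qq_pos _).le).trans ?_
  rw [← qq_add, ← qq_add]
  exact qq_mono (by omega)

end Pool.Agent.MP_43e117_nt
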