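import Mathlib
import Pool.Agent.MP_43e117_nt.TBasB
import Pool.Agent.MP_43e117_nt.TMaj
import Pool.Agent.MP_43e117_nt.TMult

/- Twin primes of `F[X]`: equidistribution of the odd part on average. -/

set_option autoImplicit false
set_option linter.unusedSectionVars false

namespace Pool.Agent.MP_43e117_nt

open Polynomial Finset Pool.Agent.MP_4fffd4_nt Pool.Agent.MP_c853c5_nt
open scoped BigOperators

variable {F : Type*} [Field F] [Fintype F]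

namespace TWa

/-- All common monic divisors have small degree. -/
def Cop (T : ℕ) (B e : F[X]) : Prop :=
  ∀ δ : F[X], δ.Monic → δ ∣ B → δ ∣ e → δ.natDegree ≤ T

theorem point {G θ : ℝ} (h0 : 0 ≤ G) (h1 : G ≤ 1) (hθ : 0 < θ) {P Q Q' R : Prop} (hQ : Q → Q') :
    ind P * G ≤ ind Q' + ind (¬ R) + θ * 1 + θ⁻¹ * (ind ((P ∧ ¬ Q) ∧ R) * G ^ 2) := by
  have a1 := ind_nonneg Q'
  have a2 := ind_nonneg (¬ R)
  have a3 : 0 ≤ θ⁻¹ * (ind ((P ∧ ¬ Q) ∧ R) * G ^ 2) :=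
    mul_nonneg (inv_nonneg.2 hθ.le) (mul_nonneg (ind_nonneg _) (sq_nonneg _))
  have a4 : ind P * G ≤ 1 := mul_le_one₀ (ind_le_one _) h0 h1
  by_cases hq : Q
  · rw [ind_pos (hQ hq)]
    linarith
  by_cases hr : R
  swap
  · rw [ind_pos hr]
    linarith
  by_cases hp : P
  swap
  · rw [ind_neg hp, zero_mul]
    linarith
  rw [ind_pos hp, ind_pos (P := (P ∧ ¬ Q) ∧ R) ⟨⟨hp, hq⟩, hr⟩, one_mul, one_mul]
  rw [ind_pos (P := (P ∧ ¬ Q) ∧ R) ⟨⟨hp, hq⟩, hr⟩, one_mul] at a3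
  by_cases hG : G ≤ θ
  · linarith
  · have : G ≤ θ⁻¹ * G ^ 2 := by
      rw [inv_mul_eq_div, le_div_iff₀ hθ]
      nlinarith
    linarith

theorem sum_notCop {τ : ℝ} {n : ℕ} (hτ : DivB F τ n) {e : F[X]} (he : e ≠ 0)
    (hn : e.natDegree ≤ n) (T b : ℕ) :
    ∑ B ∈ monF F b, ind (¬ Cop T B e) ≤ τ * (qq F b / qq F T) := by
  calc ∑ B ∈ monF F b, ind (¬ Cop T B e)
      ≤ ∑ B ∈ monF F b, ∑ δ ∈ divs e, ind (T ≤ δ.natDegree ∧ δ ∣ B) := by
        refine Finset.sum_le_sum fun B _ => ind_le_sum fun hB => ?_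
        unfold Cop at hB
        push Not at hB
        obtain ⟨δ, h1, h2, h3, h4⟩ := hB
        exact ⟨δ, (mem_divs he).2 ⟨h1, h3⟩, h4.le, h2⟩
    _ = ∑ δ ∈ divs e, ∑ B ∈ monF F b, ind (T ≤ δ.natDegree ∧ δ ∣ B) := Finset.sum_comm
    _ ≤ ∑ _δ ∈ divs e, qq F b / qq F T := by
        refine Finset.sum_le_sum fun δ hδ => ?_
        by_cases hT : T ≤ δ.natDegree
        · refine le_trans (Finset.sum_le_sum fun B _ => ind_mono fun h => h.2) ?_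
          refine (sum_dvd_le ((mem_divs he).1 hδ).1 b).trans ?_
          exact div_le_div_of_nonneg_left (qq_pos b).le (qq_pos T) (qq_mono hT)
        · rw [Finset.sum_eq_zero fun B _ => ind_neg fun h => hT h.1]
          exact div_nonneg (qq_pos b).le (qq_pos T).le
    _ ≤ τ * (qq F b / qq F T) := by
        rw [Finset.sum_const, nsmul_eq_mul]
        exact mul_le_mul_of_nonneg_right (hτ e he hn) (div_nonneg (qq_pos b).le (qq_pos T).le)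

theorem sum_m [CharP F 2] {k : F[X]} (hk : k ≠ 0) (a h : F[X]) (μ : ℕ) :
    ∑ m ∈ monF F μ, ind (a = m * k + h) ≤ ind (k ∣ a + h) := by
  have h2 : (2 : F[X]) = 0 := by exact_mod_cast CharP.cast_eq_zero F[X] 2
  by_cases hd : k ∣ a + h
  · rw [ind_pos hd]
    obtain ⟨c, hc⟩ := hd
    refine le_trans (Finset.sum_le_sum fun m _ => ind_mono fun e => ?_)
      (SVar.sum_ind_eq_le (monF F μ) c)
    refine mul_right_cancel₀ hk ?_
    linear_combination hc - e - h * h2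
  · rw [ind_neg hd, Finset.sum_eq_zero fun m _ => ind_neg fun e => hd ⟨m, ?_⟩]
    linear_combination e + h * h2

theorem cfg_drop [CharP F 2] (h : F[X]) (μ κ ε₁ ε₂ i : ℕ) (g : F[X] → F[X] → F[X] → F[X] → ℝ)
    (hg : ∀ k e₁ e₂ d, 0 ≤ g k e₁ e₂ d) :
    (cfg h μ κ ε₁ ε₂ i fun _ k e₁ e₂ d => g k e₁ e₂ d) ≤
      ∑ k ∈ monF F κ, ∑ e₂ ∈ monF F ε₂, ∑ e₁ ∈ monF F ε₁, ∑ d ∈ monF F i,
        ind (k ∣ d * (e₁ * e₂) + h) * g k e₁ e₂ d := by
  unfold cfg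
  rw [Finset.sum_comm]
  refine Finset.sum_le_sum fun k hk => ?_
  rw [Finset.sum_comm, Finset.sum_comm (s := monF F ε₂)]
  refine Finset.sum_le_sum fun e₁ _ => ?_
  rw [Finset.sum_comm]
  refine Finset.sum_le_sum fun e₂ _ => ?_
  rw [Finset.sum_comm]
  refine Finset.sum_le_sum fun d _ => ?_
  rw [← Finset.sum_mul]
  exact mul_le_mul_of_nonneg_right (sum_m (mem_monF.1 hk).1.ne_zero _ _ _) (hg _ _ _ _)

theorem inner [CharP F 2] {h k e₂ : F[X]} (hh : h ≠ 0) {T b κ ε₁ ε₂ i N : ℕ}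
    (hk : k ∈ monF F κ) (he : e₂ ∈ monF F ε₂) (hN : i + κ + ε₂ + b = 2 * N + 1)
    (h1 : κ ≤ b + ε₁) (h2 : κ + ε₂ + b ≤ i) (S : Finset F[X])
    (hS : ∀ B ∈ S, B ∈ monF F b ∧ Squarefree B) (Φ : F[X] → ℝ) (hΦ : ∀ W, 0 ≤ Φ W) :
    ∑ B ∈ S, ∑ e₁ ∈ monF F ε₁, ∑ d ∈ monF F i, ind (k ∣ d * (e₁ * e₂) + h) *
      (ind ((Squarefree e₂ ∧ ¬ Sq T k) ∧ Cop T B (e₁ * e₂)) * Φ (od (d * (k * e₂ * B)))) ≤
      qq F (b + ε₁ + i + 2 * h.natDegree + 4 * T) / qq F (κ + N) * ∑ W ∈ monF F N, Φ W := by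
  obtain ⟨hk1, hk2⟩ := mem_monF.1 hk
  obtain ⟨he1, he2⟩ := mem_monF.1 he
  have hpos : 0 ≤ qq F (b + ε₁ + i + 2 * h.natDegree + 4 * T) / qq F (κ + N) :=
    div_nonneg (qq_pos _).le (qq_pos _).le
  by_cases hg : Squarefree e₂ ∧ ¬ Sq T k
  swap
  · rw [Finset.sum_eq_zero fun B _ => Finset.sum_eq_zero fun e₁ _ => Finset.sum_eq_zero
      fun d _ => by rw [ind_neg (P := _ ∧ _) fun e => hg e.1, zero_mul, mul_zero]]
    exact mul_nonneg hpos (Finset.sum_nonneg fun W _ => hΦ W)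
  calc ∑ B ∈ S, ∑ e₁ ∈ monF F ε₁, ∑ d ∈ monF F i, ind (k ∣ d * (e₁ * e₂) + h) *
        (ind ((Squarefree e₂ ∧ ¬ Sq T k) ∧ Cop T B (e₁ * e₂)) * Φ (od (d * (k * e₂ * B))))
      ≤ ∑ B ∈ S, ∑ e₁ ∈ monF F ε₁, ∑ d ∈ monF F i, ∑ W ∈ monF F N,
          ind (Squarefree B ∧ k ∣ d * (e₁ * e₂) + h ∧ Cop T B (e₁ * e₂) ∧
            od (d * (k * e₂ * B)) = W) * Φ W := by
        refine Finset.sum_le_sum fun B hB => Finset.sum_le_sum fun e₁ _ =>
          Finset.sum_le_sum fun d hd => ?_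
        obtain ⟨hB1, hB2⟩ := mem_monF.1 (hS B hB).1
        obtain ⟨hd1, hd2⟩ := mem_monF.1 hd
        have hm : od (d * (k * e₂ * B)) ∈ monF F N := by
          refine mem_monF.2 (monic_od (hd1.mul ((hk1.mul he1).mul hB1)) ?_)
          rw [hd1.natDegree_mul ((hk1.mul he1).mul hB1), (hk1.mul he1).natDegree_mul hB1,
            hk1.natDegree_mul he1]
          omega
        refine le_trans ?_ (Finset.single_le_sum (f := fun W =>
          ind (Squarefree B ∧ k ∣ d * (e₁ * e₂) + h ∧ Cop T B (e₁ * e₂) ∧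
            od (d * (k * e₂ * B)) = W) * Φ W)
          (fun W _ => mul_nonneg (ind_nonneg _) (hΦ W)) hm)
        rw [← mul_assoc, ← SVar.ind_and]
        exact mul_le_mul_of_nonneg_right
          (ind_mono fun e => ⟨(hS B hB).2, e.1, e.2.2, rfl⟩) (hΦ _)
    _ ≤ ∑ B ∈ monF F b, ∑ e₁ ∈ monF F ε₁, ∑ d ∈ monF F i, ∑ W ∈ monF F N,
          ind (Squarefree B ∧ k ∣ d * (e₁ * e₂) + h ∧ Cop T B (e₁ * e₂) ∧
            od (d * (k * e₂ * B)) = W) * Φ W :=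
        Finset.sum_le_sum_of_subset_of_nonneg (fun B hB => (hS B hB).1) fun B _ _ =>
          Finset.sum_nonneg fun _ _ => Finset.sum_nonneg fun _ _ => Finset.sum_nonneg
            fun W _ => mul_nonneg (ind_nonneg _) (hΦ W)
    _ = ∑ W ∈ monF F N, (∑ B ∈ monF F b, ∑ e₁ ∈ monF F ε₁, ∑ d ∈ monF F i,
          ind (Squarefree B ∧ k ∣ d * (e₁ * e₂) + h ∧ Cop T B (e₁ * e₂) ∧
            od (d * (k * e₂ * B)) = W)) * Φ W := by
        simp only [Finset.sum_mul]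
        rw [Finset.sum_comm (s := monF F N)]
        refine Finset.sum_congr rfl fun B _ => ?_
        rw [Finset.sum_comm (s := monF F N)]
        refine Finset.sum_congr rfl fun e₁ _ => ?_
        rw [Finset.sum_comm (s := monF F N)]
    _ ≤ _ := by
        rw [Finset.mul_sum]
        refine Finset.sum_le_sum fun W _ => mul_le_mul_of_nonneg_right ?_ (hΦ W)
        rw [le_div_iff₀ (qq_pos _), ← hk2]
        exact mult hh hk1 hg.2 he1 hg.1 (by omega) (by omega) (by omega) W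

theorem sum_pair {τ : ℝ} {n : ℕ} (hτ : DivB F τ n) {κ ε : ℕ} (hn : κ + ε ≤ n) (Ψ : F[X] → ℝ)
    (hΨ : ∀ M, 0 ≤ Ψ M) :
    ∑ k ∈ monF F κ, ∑ e ∈ monF F ε, Ψ (k * e) ≤ τ * ∑ M ∈ monF F (κ + ε), Ψ M := by
  calc ∑ k ∈ monF F κ, ∑ e ∈ monF F ε, Ψ (k * e)
      = ∑ k ∈ monF F κ, ∑ e ∈ monF F ε, ∑ M ∈ monF F (κ + ε), ind (k * e = M) * Ψ M := by
        refine Finset.sum_congr rfl fun k hk => Finset.sum_congr rfl fun e he => ?_
        obtain ⟨hk1, hk2⟩ := mem_monF.1 hk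
        obtain ⟨he1, he2⟩ := mem_monF.1 he
        rw [SVar.sum_ind_eq (mem_monF.2 ⟨hk1.mul he1, by rw [hk1.natDegree_mul he1, hk2, he2]⟩)]
    _ = ∑ M ∈ monF F (κ + ε), (∑ k ∈ monF F κ, ∑ e ∈ monF F ε, ind (k * e = M)) * Ψ M := by
        simp only [Finset.sum_mul]
        rw [Finset.sum_comm (s := monF F (κ + ε))]
        refine Finset.sum_congr rfl fun k _ => ?_
        rw [Finset.sum_comm (s := monF F (κ + ε))]
    _ ≤ _ := by
        rw [Finset.mul_sum]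
        exact Finset.sum_le_sum fun M _ =>
          mul_le_mul_of_nonneg_right (sum_two_le hτ hn M) (hΨ M)

theorem dens_nonneg (d u : ℕ) : 0 ≤ dens F d u :=
  div_nonneg (Nat.cast_nonneg _) (qq_pos _).le

theorem vv_01 [CharP F 2] {N L η d u r : ℕ} (hp : Par F N L η d u r) (Δ W : F[X]) :
    0 ≤ SMu.vv L (gw (goodV F d u) r) (dens F d u) Δ W ∧
      SMu.vv L (gw (goodV F d u) r) (dens F d u) Δ W ≤ 1 := by
  have h1 : 0 ≤ 𝔼 x : degreeLT F L, gw (goodV F d u) r (W + Δ * x.1) :=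
    Finset.expect_nonneg fun _ _ => gw_nonneg _ _ _
  have h2 : 𝔼 x : degreeLT F L, gw (goodV F d u) r (W + Δ * x.1) ≤ 1 :=
    Finset.expect_le univ_nonempty fun _ _ => gw_le_one hp.hr _
  have h3 := dens_nonneg (F := F) d u
  exact ⟨abs_nonneg _, abs_le.2 ⟨by linarith [hp.le], by linarith⟩⟩

theorem sum_vv [CharP F 2] {N L η d u r : ℕ} (hp : Par F N L η d u r) {κ : ℕ} {Δ : F[X]}
    (hΔ : Δ ≠ 0) (hΔ' : Δ.natDegree ≤ 10 * η) (hd : κ + 10 * η + L ≤ N) :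
    ∑ M ∈ monF F κ, ∑ W ∈ monF F N, SMu.vv L (gw (goodV F d u) r) (dens F d u) (M * Δ) W ^ 2 ≤
      qq F N * (qq F κ * (2 / qq F (200 * η))) := by
  have key := major (N := N) (L := L) (κ := κ) (c := 200 * η) hΔ (by omega)
    (g := fun W => gw (goodV F d u) r W - dens F d u) (fun W => by
      have := gw_nonneg (goodV F d u) r W
      have := gw_le_one (F := F) (u := u) hp.hr W
      have := dens_nonneg (F := F) d u
      exact abs_le.2 ⟨by linarith [hp.le], by linarith⟩)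
    (V := 1 / qq F (500 * η)) (div_nonneg zero_le_one (qq_pos _).le) fun M hM hM' => by
      refine hp.var (M * Δ) (mul_ne_zero hM hΔ) ?_
      have := (natDegree_lt_iff_degree_lt hM).2 hM'
      rw [natDegree_mul hM hΔ]
      omega
  have e1 : ∀ M : F[X], ∑ W ∈ monF F N,
      SMu.vv L (gw (goodV F d u) r) (dens F d u) (M * Δ) W ^ 2 =
      qq F N * 𝔼 τ : degreeLT F N, (𝔼 x : degreeLT F L,
        (gw (goodV F d u) r (X ^ N + τ.1 + M * Δ * x.1) - dens F d u)) ^ 2 := by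
    intro M
    rw [expect_LT, sum_monF, qq, mul_div_cancel₀ _ (pow_pos card_pos' N).ne']
    refine Finset.sum_congr rfl fun τ _ => ?_
    rw [SMu.vv, sq_abs, Finset.expect_sub_distrib, Fintype.expect_const]
  simp only [e1]
  rw [← Finset.mul_sum]
  refine mul_le_mul_of_nonneg_left (key.trans (mul_le_mul_of_nonneg_left ?_ (qq_pos _).le))
    (qq_pos _).le
  have e2 : qq F (200 * η) * (1 / qq F (500 * η)) ≤ 1 / qq F (200 * η) := by
    rw [mul_one_div, div_le_div_iff₀ (qq_pos _) (qq_pos _), one_mul, ← qq_add]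
    exact qq_mono (by omega)
  have e3 : 2 / qq F (200 * η) = 1 / qq F (200 * η) + 1 / qq F (200 * η) := by ring
  linarith

theorem final {s b τ H Q B x : ℝ} (hs : 0 ≤ s) (hb : 1 ≤ b) (hτ : 1 ≤ τ) (hH : 1 ≤ H) (hQ : 0 < Q)
    (hx : 1 ≤ x) (hB : B ≤ 2 * b * x ^ 2 * s) :
    s * (τ ^ 3 * (2 * Q / x ^ 3)) + τ * (B / x ^ 3) * (τ ^ 3 * Q) + s * ((x ^ 2)⁻¹ * (τ ^ 3 * Q)) +
      x ^ 2 * (2 * τ * H * Q * B / x ^ 8) ≤ s * (9 * b * τ ^ 4 * H * Q / x) := by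
  have hx0 : 0 < x := by linarith
  set y := x⁻¹ with hy
  have hy0 : 0 < y := inv_pos.2 hx0
  have hy1 : y ≤ 1 := inv_le_one_of_one_le₀ hx
  have hB' : B * y ^ 2 ≤ 2 * b * s := by
    rw [hy, inv_pow, ← div_eq_mul_inv, div_le_iff₀ (by positivity)]
    linarith
  have e1 : s * (τ ^ 3 * (2 * Q / x ^ 3)) + τ * (B / x ^ 3) * (τ ^ 3 * Q) +
      s * ((x ^ 2)⁻¹ * (τ ^ 3 * Q)) + x ^ 2 * (2 * τ * H * Q * B / x ^ 8) =
      Q * y * (2 * s * τ ^ 3 * y ^ 2 + τ ^ 4 * (B * y ^ 2) + s * τ ^ 3 * y +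
        2 * τ * H * (B * y ^ 2) * y ^ 3) := by
    rw [hy]
    field_simp
  have e2 : s * (9 * b * τ ^ 4 * H * Q / x) = Q * y * (9 * (s * b * τ ^ 4 * H)) := by
    rw [hy]
    field_simp
  rw [e1, e2]
  refine mul_le_mul_of_nonneg_left ?_ (by positivity)
  have t0 : 0 ≤ τ := by linarith
  have t3 : τ ^ 3 ≤ τ ^ 4 := pow_le_pow_right₀ hτ (by norm_num)
  have t1 : τ ≤ τ ^ 4 := le_self_pow₀ hτ (by norm_num)
  have y2 : y ^ 2 ≤ 1 := pow_le_one₀ hy0.le hy1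
  have y3 : y ^ 3 ≤ 1 := pow_le_one₀ hy0.le hy1
  have hbH : 1 ≤ b * H := one_le_mul_of_one_le_of_one_le hb hH
  have u0 : s * τ ^ 4 ≤ s * b * τ ^ 4 * H := by
    calc s * τ ^ 4 = s * τ ^ 4 * 1 := (mul_one _).symm
      _ ≤ s * τ ^ 4 * (b * H) := by gcongr
      _ = _ := by ring
  have u1 : s * τ ^ 3 * y ^ 2 ≤ s * τ ^ 4 * 1 := by gcongr
  have u2 : s * τ ^ 3 * y ≤ s * τ ^ 4 * 1 := by gcongr
  have u3 : τ ^ 4 * (B * y ^ 2) ≤ τ ^ 4 * (2 * b * s) * H := by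
    calc τ ^ 4 * (B * y ^ 2) ≤ τ ^ 4 * (2 * b * s) * 1 := by rw [mul_one]; gcongr
      _ ≤ _ := by gcongr
  have u4 : τ * H * (B * y ^ 2) * y ^ 3 ≤ τ ^ 4 * H * (2 * b * s) * 1 := by
    calc τ * H * (B * y ^ 2) * y ^ 3 ≤ τ * H * (2 * b * s) * y ^ 3 := by gcongr
      _ ≤ _ := by gcongr
  nlinarith

end TWa

theorem cross [CharP F 2] {h : F[X]} (hh : h ≠ 0) {N L η d u r : ℕ} (hp : Par F N L η d u r)
    {n μ κ ε₁ ε₂ i b : ℕ} (hn : μ + κ = n) (hn' : i + ε₁ + ε₂ = n)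
    (hN : i + κ + ε₂ + b = 2 * N + 1) (h1 : κ ≤ b + ε₁) (h2 : κ + ε₂ + b + 2 * L ≤ i)
    (h3 : 20 * η + 4 ≤ b) {τ : ℝ} (hτ : DivB F τ n) (hhn : h.natDegree < n) {Δ : F[X]}
    (hΔ : Δ ≠ 0) (hΔ' : Δ.natDegree ≤ 10 * η) (S : Finset F[X])
    (hS : ∀ B ∈ S, B ∈ monF F b ∧ Squarefree B)
    (hS' : qq F b ≤ 2 * b * qq F (20 * η) * S.card) :
    ∑ B ∈ S, (cfg h μ κ ε₁ ε₂ i fun _ k _ e₂ d' => ind (Squarefree e₂) *
      SMu.vv L (gw (goodV F d u) r) (dens F d u) (k * e₂ * Δ) (od (d' * (k * e₂ * B)))) ≤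
      S.card * (9 * b * τ ^ 4 * qq F (2 * h.natDegree) * qq F n / qq F (10 * η)) := by
  set G := SMu.vv L (gw (goodV F d u) r) (dens F d u) with hG
  have hτ1 := hτ.one_le
  have hτ0 : 0 ≤ τ := by linarith
  have hθ : 0 < (qq F (20 * η))⁻¹ := inv_pos.2 (qq_pos _)
  have s1 : ∀ B ∈ S, (cfg h μ κ ε₁ ε₂ i fun _ k _ e₂ d' => ind (Squarefree e₂) *
      G (k * e₂ * Δ) (od (d' * (k * e₂ * B)))) ≤
      τ ^ 3 * (2 * qq F n / qq F (30 * η)) +
      (cfg h μ κ ε₁ ε₂ i fun _ _ e₁ e₂ _ => ind (¬ TWa.Cop (30 * η) B (e₁ * e₂))) +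
      (qq F (20 * η))⁻¹ * (τ ^ 3 * qq F n) +
      qq F (20 * η) * cfg h μ κ ε₁ ε₂ i fun _ k e₁ e₂ d' =>
        ind ((Squarefree e₂ ∧ ¬ Sq (30 * η) k) ∧ TWa.Cop (30 * η) B (e₁ * e₂)) *
          G (k * e₂ * Δ) (od (d' * (k * e₂ * B))) ^ 2 := by
    intro B _
    refine (cfg_mono (G' := fun m k e₁ e₂ d' => ind (Sq (30 * η) (m * k)) +
      ind (¬ TWa.Cop (30 * η) B (e₁ * e₂)) + (qq F (20 * η))⁻¹ * 1 + (qq F (20 * η))⁻¹⁻¹ *
        (ind ((Squarefree e₂ ∧ ¬ Sq (30 * η) k) ∧ TWa.Cop (30 * η) B (e₁ * e₂)) *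
          G (k * e₂ * Δ) (od (d' * (k * e₂ * B))) ^ 2))
      fun m _ k _ e₁ _ e₂ _ d' _ _ => TWa.point (TWa.vv_01 hp _ _).1 (TWa.vv_01 hp _ _).2 hθ
        fun ⟨s, a1, a2, a3⟩ => ⟨s, a1, a2, a3.mul_left m⟩).trans ?_
    rw [cfg_add, cfg_add, cfg_add, cfg_mul, cfg_mul, inv_inv]
    have b1 := cfg_le (h := h) hτ hn hn' (φ := fun f => ind (Sq (30 * η) f))
      fun _ => ind_nonneg _
    have b2 := mul_le_mul_of_nonneg_left (sum_Sq (F := F) n (30 * η)) (pow_nonneg hτ0 3)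
    have b3 := mul_le_mul_of_nonneg_left (cfg_one_le (h := h) hτ hn hn') hθ.le
    linarith
  have s2 : ∑ B ∈ S, (cfg h μ κ ε₁ ε₂ i fun _ _ e₁ e₂ _ =>
      ind (¬ TWa.Cop (30 * η) B (e₁ * e₂))) ≤
      τ * (qq F b / qq F (30 * η)) * (τ ^ 3 * qq F n) := by
    rw [← cfg_sum]
    refine (cfg_mono (G' := fun _ _ _ _ _ => τ * (qq F b / qq F (30 * η)) * 1)
      fun m _ k _ e₁ he₁ e₂ he₂ d' _ _ => ?_).trans ?_
    · obtain ⟨a1, a2⟩ := mem_monF.1 he₁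
      obtain ⟨a3, a4⟩ := mem_monF.1 he₂
      rw [mul_one]
      refine le_trans (Finset.sum_le_sum_of_subset_of_nonneg (fun B hB => (hS B hB).1)
        fun _ _ _ => ind_nonneg _) (TWa.sum_notCop hτ (a1.mul a3).ne_zero ?_ _ _)
      rw [a1.natDegree_mul a3]
      omega
    · rw [cfg_mul]
      exact mul_le_mul_of_nonneg_left (cfg_one_le hτ hn hn')
        (mul_nonneg hτ0 (div_nonneg (qq_pos _).le (qq_pos _).le))
  have s3 : ∑ B ∈ S, (cfg h μ κ ε₁ ε₂ i fun _ k e₁ e₂ d' =>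
        ind ((Squarefree e₂ ∧ ¬ Sq (30 * η) k) ∧ TWa.Cop (30 * η) B (e₁ * e₂)) *
          G (k * e₂ * Δ) (od (d' * (k * e₂ * B))) ^ 2) ≤
      2 * τ * qq F (2 * h.natDegree) * qq F n * qq F b / qq F (80 * η) := by
    refine (Finset.sum_le_sum fun B _ => TWa.cfg_drop h μ κ ε₁ ε₂ i _
      fun _ _ _ _ => mul_nonneg (ind_nonneg _) (sq_nonneg _)).trans ?_
    rw [Finset.sum_comm]
    have c1 : ∀ k ∈ monF F κ, ∑ B ∈ S, ∑ e₂ ∈ monF F ε₂, ∑ e₁ ∈ monF F ε₁, ∑ d' ∈ monF F i,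
        ind (k ∣ d' * (e₁ * e₂) + h) *
          (ind ((Squarefree e₂ ∧ ¬ Sq (30 * η) k) ∧ TWa.Cop (30 * η) B (e₁ * e₂)) *
            G (k * e₂ * Δ) (od (d' * (k * e₂ * B))) ^ 2) ≤
        qq F (b + ε₁ + i + 2 * h.natDegree + 4 * (30 * η)) / qq F (κ + N) *
          ∑ e₂ ∈ monF F ε₂, ∑ W ∈ monF F N, G (k * e₂ * Δ) W ^ 2 := by
      intro k hk
      rw [Finset.sum_comm, Finset.mul_sum]
      exact Finset.sum_le_sum fun e₂ he => TWa.inner hh hk he hN h1 (by omega) S hS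
        (fun W => G (k * e₂ * Δ) W ^ 2) fun _ => sq_nonneg _
    refine (Finset.sum_le_sum c1).trans ?_
    rw [← Finset.mul_sum]
    have c2 := TWa.sum_pair hτ (κ := κ) (ε := ε₂) (by omega)
      (fun M => ∑ W ∈ monF F N, G (M * Δ) W ^ 2)
      fun _ => Finset.sum_nonneg fun _ _ => sq_nonneg _
    have c3 := mul_le_mul_of_nonneg_left
      (TWa.sum_vv hp (κ := κ + ε₂) hΔ hΔ' (by omega)) hτ0
    refine (mul_le_mul_of_nonneg_left (c2.trans c3)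
      (div_nonneg (qq_pos _).le (qq_pos _).le)).trans_eq ?_
    have p1 := (qq_pos (F := F) κ).ne'
    have p2 := (qq_pos (F := F) N).ne'
    have p3 := (qq_pos (F := F) (120 * η)).ne'
    have p4 := (qq_pos (F := F) (80 * η)).ne'
    rw [show 200 * η = 120 * η + 80 * η by omega, show 4 * (30 * η) = 120 * η by omega, ← hn']
    simp only [qq_add]
    field_simp
  refine (Finset.sum_le_sum s1).trans ?_
  rw [Finset.sum_add_distrib, Finset.sum_add_distrib, Finset.sum_add_distrib, Finset.sum_const,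
    Finset.sum_const, ← Finset.mul_sum, nsmul_eq_mul, nsmul_eq_mul]
  have s4 := mul_le_mul_of_nonneg_left s3 (qq_pos (F := F) (20 * η)).le
  have q2 : qq F (20 * η) = qq F (10 * η) ^ 2 := by rw [qq_pow]; congr 1; omega
  have q3 : qq F (30 * η) = qq F (10 * η) ^ 3 := by rw [qq_pow]; congr 1; omega
  have q8 : qq F (80 * η) = qq F (10 * η) ^ 8 := by rw [qq_pow]; congr 1; omega
  have fin := TWa.final (s := S.card) (b := b) (τ := τ) (H := qq F (2 * h.natDegree))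
    (Q := qq F n) (B := qq F b) (x := qq F (10 * η)) (Nat.cast_nonneg _)
    (by exact_mod_cast (by omega : 1 ≤ b)) hτ1 (one_le_qq _) (qq_pos _) (one_le_qq _)
    (by rw [← q2]; exact hS')
  rw [← q2, ← q3, ← q8] at fin
  linarith

end Pool.Agent.MP_43e117_nt
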