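import Mathlib
import Pool.Agent.MP_43e117_nt.TWa

/- Twin primes of `F[X]`: insertion of the weight. -/

set_option autoImplicit false
set_option linter.unusedSectionVars false

namespace Pool.Agent.MP_43e117_nt

open Polynomial Finset Pool.Agent.MP_4fffd4_nt Pool.Agent.MP_c853c5_nt
open scoped BigOperators

variable {F : Type*} [Field F] [Fintype F]

namespace TWb

theorem abs_sub_le_one {a ρ : ℝ} (h : 0 ≤ a ∧ a ≤ 1) (hρ : 0 ≤ ρ) (hρ' : ρ ≤ 1) :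
    |a - ρ| ≤ 1 :=
  abs_le.2 ⟨by linarith [h.1], by linarith [h.2]⟩

theorem pair_le [CharP F 2] {h : F[X]} {μ κ ε₁ ε₂ i b L : ℕ} (hn : i + ε₁ + ε₂ = μ + κ)
    (h2 : κ + ε₂ + b + 2 * L ≤ i) {B B' : F[X]} (hB : B ∈ monF F b) (w : F[X] → ℝ)
    (hw : ∀ W, 0 ≤ w W ∧ w W ≤ 1) {ρ : ℝ} (hρ : 0 ≤ ρ) (hρ' : ρ ≤ 1) :
    (cfg h μ κ ε₁ ε₂ i fun _ k _ e₂ d => ind (Squarefree e₂) *
      ((w (od (d * (k * e₂ * B))) - ρ) * (w (od (d * (k * e₂ * B'))) - ρ))) ≤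
    cfg h μ κ ε₁ ε₂ i fun _ k _ e₂ d => ind (Squarefree e₂) *
      SMu.vv L w ρ (k * e₂ * od (B * B')) (od (d * (k * e₂ * B'))) := by
  have e1 : ∀ d k e x : F[X], od ((d + k * (e * B * x ^ 2)) * (k * e * B)) =
      od (d * (k * e * B)) := fun d k e x => by
    rw [show (d + k * (e * B * x ^ 2)) * (k * e * B) = d * (k * e * B) + (k * e * B * x) ^ 2 by
      ring, od_add, od_of_sq, add_zero]
  have e2 : ∀ d k e x : F[X], od ((d + k * (e * B * x ^ 2)) * (k * e * B')) =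
      od (d * (k * e * B')) + k * e * od (B * B') * x := fun d k e x => by
    rw [show (d + k * (e * B * x ^ 2)) * (k * e * B') =
      d * (k * e * B') + (k * e * x) ^ 2 * (B * B') by ring, od_add, od_sq_mul]
    ring
  have h1 : ∀ x : degreeLT F L, (cfg h μ κ ε₁ ε₂ i fun _ k _ e₂ d => ind (Squarefree e₂) *
      ((w (od (d * (k * e₂ * B))) - ρ) * (w (od (d * (k * e₂ * B'))) - ρ))) =
      cfg h μ κ ε₁ ε₂ i fun _ k _ e₂ d => ind (Squarefree e₂) *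
      ((w (od (d * (k * e₂ * B))) - ρ) *
        (w (od (d * (k * e₂ * B')) + k * e₂ * od (B * B') * x.1) - ρ)) := fun x => by
    rw [cfg_shift hn (fun _ _ e₂ => e₂ * B * x.1 ^ 2)]
    · simp only [e1, e2]
    · intro k hk e₁ _ e₂ he₂
      obtain ⟨k1, k2⟩ := mem_monF.1 hk
      obtain ⟨k3, k4⟩ := mem_monF.1 he₂
      obtain ⟨k5, k6⟩ := mem_monF.1 hB
      have := mem_degreeLT.1 (SBox.sq_mul_mem (A := k * e₂ * B) (l := i) (L := L) (by
        rw [(k1.mul k3).natDegree_mul k5, k1.natDegree_mul k3, k2, k4, k6]; exact h2) x)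
      rwa [show x.1 ^ 2 * (k * e₂ * B) = k * (e₂ * B * x.1 ^ 2) by ring] at this
  rw [← Fintype.expect_const (ι := degreeLT F L) (cfg h μ κ ε₁ ε₂ i fun _ k _ e₂ d =>
    ind (Squarefree e₂) * ((w (od (d * (k * e₂ * B))) - ρ) * (w (od (d * (k * e₂ * B'))) - ρ))),
    Finset.expect_congr rfl fun x _ => h1 x, ← cfg_expect]
  refine cfg_mono fun m _ k _ e₁ _ e₂ _ d _ _ => ?_
  rw [← Finset.mul_expect, ← Finset.mul_expect, Finset.expect_sub_distrib, Fintype.expect_const]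
  refine mul_le_mul_of_nonneg_left ((le_abs_self _).trans ?_) (ind_nonneg _)
  rw [abs_mul]
  exact mul_le_of_le_one_left (abs_nonneg _) (abs_sub_le_one (hw _) hρ hρ')

theorem step [CharP F 2] {h : F[X]} {n μ κ ε₁ ε₂ i b L : ℕ} (hn : μ + κ = n)
    (hn' : i + ε₁ + ε₂ = n) (h2 : κ + ε₂ + b + 2 * L ≤ i) {τ : ℝ} (hτ : DivB F τ n)
    {Z : Type*} [Fintype Z] [Nonempty Z] (B : Z → F[X]) (hB : ∀ y, B y ∈ monF F b)
    (w : F[X] → ℝ) (hw : ∀ W, 0 ≤ w W ∧ w W ≤ 1) {ρ θ : ℝ} (hρ : 0 ≤ ρ) (hρ' : ρ ≤ 1)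
    (hθ : 0 < θ) (c : F[X] → F[X] → F[X] → F[X] → F[X] → ℝ)
    (hc : ∀ m ∈ monF F μ, ∀ k ∈ monF F κ, ∀ e₁ ∈ monF F ε₁, ∀ e₂ ∈ monF F ε₂, ∀ d' ∈ monF F i,
      |c m k e₁ e₂ d'| ≤ ind (Squarefree e₂)) {Y : ℝ}
    (hY : ∀ y, |cfg h μ κ ε₁ ε₂ i fun m k e₁ e₂ d' =>
      c m k e₁ e₂ d' * w (od (d' * (k * e₂ * B y)))| ≤ Y) :
    ρ * |cfg h μ κ ε₁ ε₂ i c| ≤ Y + θ * (τ ^ 3 * qq F n) +
      (τ ^ 3 * qq F n / Fintype.card Z + 𝔼 y, 𝔼 y', ind (y ≠ y') *
        cfg h μ κ ε₁ ε₂ i fun _ k _ e₂ d => ind (Squarefree e₂) *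
          SMu.vv L w ρ (k * e₂ * od (B y * B y')) (od (d * (k * e₂ * B y')))) / θ := by
  set W : Z → F[X] → F[X] → F[X] → ℝ := fun y k e d => w (od (d * (k * e * B y))) with hW
  have hone := cfg_one_le (h := h) hτ hn hn'
  have h1 : ρ * cfg h μ κ ε₁ ε₂ i c =
      𝔼 y, (cfg h μ κ ε₁ ε₂ i fun m k e₁ e₂ d => c m k e₁ e₂ d * W y k e₂ d) +
      cfg h μ κ ε₁ ε₂ i fun m k e₁ e₂ d => c m k e₁ e₂ d * (ρ - 𝔼 y, W y k e₂ d) := by
    rw [← cfg_expect, ← cfg_add, ← cfg_mul]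
    refine cfg_congr fun m _ k _ e₁ _ e₂ _ d _ _ => ?_
    rw [← Finset.mul_expect]
    ring
  have h3 : |𝔼 y, (cfg h μ κ ε₁ ε₂ i fun m k e₁ e₂ d => c m k e₁ e₂ d * W y k e₂ d)| ≤ Y :=
    (Finset.abs_expect_le _ _).trans (Finset.expect_le univ_nonempty fun y _ => hY y)
  have h4 : |cfg h μ κ ε₁ ε₂ i fun m k e₁ e₂ d => c m k e₁ e₂ d * (ρ - 𝔼 y, W y k e₂ d)| ≤
      θ * (τ ^ 3 * qq F n) + (cfg h μ κ ε₁ ε₂ i fun _ k _ e₂ d =>
        ind (Squarefree e₂) * (𝔼 y, (W y k e₂ d - ρ)) ^ 2) / θ := by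
    refine (abs_cfg_le _).trans ((cfg_mono (G' := fun _ k _ e₂ d => θ * 1 + θ⁻¹ *
      (ind (Squarefree e₂) * (𝔼 y, (W y k e₂ d - ρ)) ^ 2))
      fun m hm k hk e₁ he₁ e₂ he₂ d hd _ => ?_).trans ?_)
    · rw [abs_mul, Finset.expect_sub_distrib, Fintype.expect_const, abs_sub_comm]
      refine (mul_le_mul_of_nonneg_right (hc m hm k hk e₁ he₁ e₂ he₂ d hd) (abs_nonneg _)).trans ?_
      by_cases e : Squarefree e₂
      · rw [ind_pos e, one_mul, one_mul, mul_one, inv_mul_eq_div]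
        exact SBox.abs_le_sq hθ
      · rw [ind_neg e, zero_mul, zero_mul, mul_zero, add_zero, mul_one]
        exact hθ.le
    · rw [cfg_add, cfg_mul, cfg_mul, inv_mul_eq_div]
      gcongr
  have h5 : (cfg h μ κ ε₁ ε₂ i fun _ k _ e₂ d =>
        ind (Squarefree e₂) * (𝔼 y, (W y k e₂ d - ρ)) ^ 2) ≤
      τ ^ 3 * qq F n / Fintype.card Z + 𝔼 y, 𝔼 y', ind (y ≠ y') *
        cfg h μ κ ε₁ ε₂ i fun _ k _ e₂ d => ind (Squarefree e₂) *
          SMu.vv L w ρ (k * e₂ * od (B y * B y')) (od (d * (k * e₂ * B y'))) := by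
    simp only [sq, Fintype.expect_mul_expect]
    simp only [Finset.mul_expect]
    rw [cfg_expect, div_eq_mul_one_div, ← SBox.expect_diag, Finset.mul_expect,
      ← Finset.expect_add_distrib]
    refine Finset.expect_le_expect fun y _ => ?_
    rw [cfg_expect, Finset.mul_expect, ← Finset.expect_add_distrib]
    refine Finset.expect_le_expect fun y' _ => ?_
    by_cases e : y = y'
    · rw [ind_pos e, ind_neg (not_not.2 e), zero_mul, add_zero, mul_one]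
      refine le_trans (cfg_mono fun m _ k _ e₁ _ e₂ _ d _ _ => ?_) hone
      refine mul_le_one₀ (ind_le_one _) ?_ ?_
      · rw [e]; exact mul_self_nonneg _
      refine (le_abs_self _).trans ?_
      rw [abs_mul]
      exact mul_le_one₀ (abs_sub_le_one (hw _) hρ hρ') (abs_nonneg _)
        (abs_sub_le_one (hw _) hρ hρ')
    · rw [ind_neg e, ind_pos e, one_mul, mul_zero, zero_add]
      exact pair_le (hn'.trans hn.symm) h2 (hB y) w hw hρ hρ'
  rw [← abs_of_nonneg hρ, ← abs_mul, abs_of_nonneg hρ, h1, add_assoc]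
  refine (abs_add_le _ _).trans (add_le_add h3 (h4.trans ?_))
  gcongr

theorem sqfree_of_od [CharP F 2] {A B : F[X]} (h : od (A * B) = 1) : Squarefree A :=
  fun _ hP => isUnit_of_dvd_one (h ▸ dvd_od (by rw [sq]; exact hP.mul_right B))

theorem fam_inj [CharP F 2] {a k : ℕ} (c : F[X] → F[X])
    (hc : ∀ A ∈ irrF F a, (c A).degree < A.degree ∧ od (c A * A) = 1) (y : degreeLT F k) :
    Set.InjOn (fun A => SMu.fam k A (c A) y.1) (irrF F a) := by
  intro A hA A' hA' e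
  have hA := mem_coe.1 hA
  have hA' := mem_coe.1 hA'
  obtain ⟨m1, m2⟩ := SMu.fam_monic (mem_irrF.1 hA).1 (hc A hA).1 y
  refine sub_eq_zero.1 (eq_zero_of_od (SMu.od_fam (k := k) (hc A hA).2 y.1) ?_ ?_)
  · refine (degree_sub_lt_left ?_ (mem_irrF.1 hA).1.ne_zero ?_).trans_le ?_
    · rw [degree_eq_natDegree (mem_irrF.1 hA).1.ne_zero,
        degree_eq_natDegree (mem_irrF.1 hA').1.ne_zero, (mem_irrF.1 hA).2.1,
        (mem_irrF.1 hA').2.1]
    · rw [(mem_irrF.1 hA).1.leadingCoeff, (mem_irrF.1 hA').1.leadingCoeff]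
    · rw [degree_eq_natDegree m1.ne_zero, m2]
      exact degree_le_natDegree.trans (by exact_mod_cast Nat.le_add_right _ _)
  · rw [CharTwo.sub_eq_add, add_mul, od_add, mul_comm, SMu.od_fam (hc A hA).2, mul_comm]
    dsimp only at e
    rw [e, SMu.od_fam (hc A' hA').2, CharTwo.add_self_eq_zero]

theorem final {τ t Q H n b : ℝ} (hτ : 1 ≤ τ) (ht : 0 < t) (hQ : 0 < Q) (hH : 1 ≤ H)
    (hn : 1 ≤ n) (hb : b ≤ n) (hη : 100 * n * τ ^ 4 * H ≤ t) :
    1 / t ^ 5 * (τ ^ 3 * Q) + (τ ^ 3 * Q / t ^ 10 + 9 * b * τ ^ 4 * H * Q / t ^ 10) /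
      (1 / t ^ 5) ≤ Q / t ^ 4 := by
  have h1 : τ ^ 3 ≤ n * τ ^ 4 * H :=
    calc τ ^ 3 ≤ τ ^ 4 := pow_le_pow_right₀ hτ (by norm_num)
      _ = 1 * τ ^ 4 * 1 := by ring
      _ ≤ _ := by gcongr
  have h2 : b * τ ^ 4 * H ≤ n * τ ^ 4 * H := by gcongr
  have h3 : 0 ≤ τ ^ 3 := by positivity
  calc _ = (2 * τ ^ 3 + 9 * (b * τ ^ 4 * H)) * Q / t ^ 5 := by
        field_simp
        ring
    _ ≤ t * Q / t ^ 5 := by
        gcongr
        linarith
    _ = _ := by field_simp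

end TWb

theorem weight [CharP F 2] {h : F[X]} (hh : h ≠ 0) {N L η d u r : ℕ} (hp : Par F N L η d u r)
    {n μ κ ε₁ ε₂ i b : ℕ} (hn : μ + κ = n) (hn' : i + ε₁ + ε₂ = n)
    (hN : i + κ + ε₂ + b = 2 * N + 1) (h1 : κ ≤ b + ε₁) (h2 : κ + ε₂ + b + 2 * L ≤ i)
    (h3 : 20 * η + 4 ≤ b) {τ : ℝ} (hτ : DivB F τ n) (hhn : h.natDegree < n)
    (hη : 100 * n * τ ^ 4 * qq F (2 * h.natDegree) ≤ qq F η)
    (c : F[X] → F[X] → F[X] → F[X] → F[X] → ℝ)
    (hc : ∀ m ∈ monF F μ, ∀ k ∈ monF F κ, ∀ e₁ ∈ monF F ε₁, ∀ e₂ ∈ monF F ε₂, ∀ d' ∈ monF F i,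
      |c m k e₁ e₂ d'| ≤ ind (Squarefree e₂)) {Y : ℝ}
    (hY : ∀ B ∈ monF F b, Squarefree B → |cfg h μ κ ε₁ ε₂ i fun m k e₁ e₂ d' =>
      c m k e₁ e₂ d' * gw (goodV F d u) r (od (d' * (k * e₂ * B)))| ≤ Y) :
    |cfg h μ κ ε₁ ε₂ i c| ≤ qq F η * (Y + qq F n / qq F (4 * η)) := by
  classical
  have hne := SMu.exists_irr (F := F) (a := b - 20 * η) (by omega)
  have hcard := card_irrF (F := F) (n := b - 20 * η) (by omega)
  have hex : ∀ A₂ : F[X], ∃ A₁ : F[X], A₂ ∈ irrF F (b - 20 * η) →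
      A₁.degree < A₂.degree ∧ od (A₁ * A₂) = 1 := fun A₂ => by
    by_cases hA : A₂ ∈ irrF F (b - 20 * η)
    · obtain ⟨A₁, h⟩ := exists_comp (mem_irrF.1 hA).1 (mem_irrF.1 hA).2.2
      exact ⟨A₁, fun _ => h⟩
    · exact ⟨0, fun h => absurd h hA⟩
  choose s hs using hex
  have hη0 := qq_pos (F := F) η
  have hρ : 0 ≤ dens F d u := by
    have := qq_pos (F := F) (∑ j : Fin (u + 1), (d + j))
    unfold dens
    positivity
  have hB : ∀ A ∈ irrF F (b - 20 * η), ∀ y : degreeLT F (10 * η),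
      SMu.fam (10 * η) A (s A) y.1 ∈ monF F b ∧ Squarefree (SMu.fam (10 * η) A (s A) y.1) :=
    fun A hA y => by
      obtain ⟨m1, m2⟩ := SMu.fam_monic (mem_irrF.1 hA).1 (hs A hA).1 y
      refine ⟨mem_monF.2 ⟨m1, ?_⟩, TWb.sqfree_of_od (SMu.od_fam (hs A hA).2 _)⟩
      rw [m2, (mem_irrF.1 hA).2.1]
      omega
  have hτ1 := hτ.one_le
  have hQ := qq_pos (F := F) n
  have hH := one_le_qq (F := F) (2 * h.natDegree)
  have h4 := Finset.expect_le_expect (s := irrF F (b - 20 * η)) fun A hA =>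
    TWb.step (h := h) (L := L) hn hn' h2 hτ
      (fun y : degreeLT F (10 * η) => SMu.fam (10 * η) A (s A) y.1) (fun y => (hB A hA y).1)
      (gw (goodV F d u) r) (fun W => ⟨gw_nonneg _ _ _, gw_le_one hp.hr W⟩) hρ hp.le
      (θ := 1 / qq F η ^ 5) (by positivity) c hc fun y => hY _ (hB A hA y).1 (hB A hA y).2
  rw [Finset.expect_const hne, Finset.expect_add_distrib, Finset.expect_const hne,
    ← Finset.expect_div, Finset.expect_add_distrib, Finset.expect_const hne,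
    Finset.expect_comm] at h4
  have h5 : 𝔼 y : degreeLT F (10 * η), 𝔼 A ∈ irrF F (b - 20 * η), 𝔼 y' : degreeLT F (10 * η),
      ind (y ≠ y') * (cfg h μ κ ε₁ ε₂ i fun _ k _ e₂ d' => ind (Squarefree e₂) *
        SMu.vv L (gw (goodV F d u) r) (dens F d u)
          (k * e₂ * od (SMu.fam (10 * η) A (s A) y.1 * SMu.fam (10 * η) A (s A) y'.1))
          (od (d' * (k * e₂ * SMu.fam (10 * η) A (s A) y'.1)))) ≤
      9 * b * τ ^ 4 * qq F (2 * h.natDegree) * qq F n / qq F η ^ 10 := by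
    simp only [Finset.expect_comm (s := irrF F (b - 20 * η))
      (t := (univ : Finset (degreeLT F (10 * η)))), ← Finset.mul_expect]
    refine SMu.expect_ind_le' _ (by positivity) fun y y' hy => ?_
    have hinj := TWb.fam_inj s hs y'
    have h6 := cross hh hp hn hn' hN h1 h2 h3 hτ hhn (SMu.ne_data hy).1 (SMu.ne_data hy).2
      ((irrF F (b - 20 * η)).image fun A => SMu.fam (10 * η) A (s A) y'.1)
      (fun B hB' => by
        obtain ⟨A, hA, rfl⟩ := mem_image.1 hB'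
        exact hB A hA y') (by
        rw [Finset.card_image_of_injOn hinj]
        have h7 : (0 : ℝ) < (b - 20 * η : ℕ) := by exact_mod_cast (by omega)
        have h8 : ((b - 20 * η : ℕ) : ℝ) ≤ b := by exact_mod_cast Nat.sub_le _ _
        have h9 := qq_pos (F := F) (20 * η)
        rw [div_le_iff₀ (by positivity)] at hcard
        calc qq F b = qq F (b - 20 * η) * qq F (20 * η) := by
              rw [← qq_add]; congr 1; omega
          _ ≤ (irrF F (b - 20 * η)).card * (2 * ((b - 20 * η : ℕ) : ℝ)) * qq F (20 * η) := by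
              gcongr; exact hcard
          _ ≤ (irrF F (b - 20 * η)).card * (2 * (b : ℝ)) * qq F (20 * η) := by gcongr
          _ = _ := by ring)
    rw [Finset.sum_image hinj, Finset.card_image_of_injOn hinj] at h6
    have h7 : (0 : ℝ) < (irrF F (b - 20 * η)).card := by exact_mod_cast hne.card_pos
    rw [Finset.expect_eq_sum_div_card, div_le_iff₀' h7, qq_pow, mul_comm η 10]
    refine le_trans (le_of_eq (Finset.sum_congr rfl fun A hA => ?_)) h6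
    rw [SMu.od_fam_fam (hs A hA).2]
  have h6 : dens F d u * |cfg h μ κ ε₁ ε₂ i c| ≤ Y + qq F n / qq F (4 * η) := by
    refine h4.trans ?_
    rw [add_assoc, mul_comm 4 η, ← qq_pow, card_degreeLT, Nat.cast_pow,
      show (Fintype.card F : ℝ) ^ (10 * η) = qq F η ^ 10 by rw [qq_pow, mul_comm η 10, qq]]
    refine add_le_add le_rfl (le_trans ?_ (TWb.final (b := b) hτ1 hη0 hQ hH
      (by exact_mod_cast (by omega : 1 ≤ n)) (by exact_mod_cast (by omega : b ≤ n)) hη))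
    gcongr
  calc _ = 1 * |cfg h μ κ ε₁ ε₂ i c| := (one_mul _).symm
    _ ≤ dens F d u * qq F η * |cfg h μ κ ε₁ ε₂ i c| := by gcongr; exact hp.ge
    _ = qq F η * (dens F d u * |cfg h μ κ ε₁ ε₂ i c|) := by ring
    _ ≤ _ := by gcongr

end Pool.Agent.MP_43e117_nt
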