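import Mathlib
import Pool.Agent.MP_43e117_nt.TWb
import Pool.Agent.MP_43e117_nt.TOne
import Pool.Agent.MP_43e117_nt.TTwoB
import Pool.Agent.MP_43e117_nt.TPar

/- Twin primes of `F[X]`: the two estimates for the Liouville function. -/

set_option autoImplicit false
set_option linter.unusedSectionVars false

namespace Pool.Agent.MP_43e117_nt

open Polynomial Finset Pool.Agent.MP_4fffd4_nt Pool.Agent.MP_c853c5_nt
open scoped BigOperators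

variable {F : Type*} [Field F] [Fintype F]

namespace TLU

theorem setup [CharP F 2] (h : F[X]) (M : ℕ) : ∃ C : ℕ, 0 < C ∧ ∃ n₀ : ℕ, ∀ n, n₀ ≤ n →
    ∃ (L : ℕ) (τ : ℝ), DivB F τ n ∧ 1 ≤ n / C ∧ h.natDegree < n ∧
      100 * n * τ ^ 4 * qq F (2 * h.natDegree) ≤ qq F (n / C) ∧
      (∀ E, n ≤ M * E → 2 * L + 20 * (n / C) + 5 ≤ E) ∧
      ∀ N, n ≤ 4 * N → N ≤ n → ∃ d u r, Par F N L (n / C) d u r := by
  obtain ⟨C, hC, hC0, n₁, H⟩ := exists_Par (F := F) (16 * (M + 1)) (100 * (M + 1))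
  obtain ⟨n₂, H₂⟩ := exists_DivB (F := F) 1 (10 * C) (by omega)
  obtain ⟨n₃, H₃⟩ := exists_poly (F := F) 100 1 (10 * C) (by omega)
  refine ⟨C, hC0, n₁ + n₂ + n₃ + 10 * C * (h.natDegree + 1) + 100 * (M + 1), fun n hn =>
    ⟨n / (8 * (M + 1)), qq F (n / (10 * C)), by simpa using H₂ n (by omega), ?_, by nlinarith,
      ?_, fun E hE => ?_, fun N h1 h2 => H n (by omega) N _ h1 h2 ?_ ?_⟩⟩
  · exact (Nat.le_div_iff_mul_le hC0).2 (by nlinarith)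
  · have a1 := H₃ n (by omega)
    have a2 : h.natDegree ≤ n / (10 * C) := (Nat.le_div_iff_mul_le (by omega)).2 (by nlinarith)
    have a3 : 10 * (n / (10 * C)) ≤ n / C := by
      rw [mul_comm 10 C, ← Nat.div_div_eq_div_mul]; omega
    rw [pow_one] at a1
    generalize n / (10 * C) = z at a1 a2 a3
    calc _ ≤ qq F z * qq F z ^ 4 * qq F (2 * z) := by
          have := qq_pos (F := F) z
          have := qq_pos (F := F) (2 * h.natDegree)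
          gcongr
          · exact_mod_cast a1
          · exact qq_mono (by omega)
      _ ≤ _ := by rw [qq_pow, ← qq_add, ← qq_add]; exact qq_mono (by omega)
  · have a1 := Nat.div_mul_le_self n (8 * (M + 1))
    have a2 := Nat.div_mul_le_self n C
    generalize n / (8 * (M + 1)) = L at a1
    generalize n / C = η at a2
    have a3 : 8 * L ≤ E := Nat.le_of_mul_le_mul_left (c := M + 1) (by nlinarith) (by omega)
    have a4 : 100 * η ≤ E := Nat.le_of_mul_le_mul_left (c := M + 1) (by nlinarith) (by omega)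
    have a5 : 100 ≤ E := Nat.le_of_mul_le_mul_left (c := M + 1) (by nlinarith) (by omega)
    omega
  · have a1 := Nat.lt_mul_div_succ n (b := 8 * (M + 1)) (by omega)
    have a2 : 1 ≤ n / (8 * (M + 1)) := (Nat.le_div_iff_mul_le (by omega)).2 (by omega)
    nlinarith
  · have a1 := Nat.div_mul_le_self n (8 * (M + 1))
    nlinarith

theorem fin {n η : ℕ} (hη : 1 ≤ η) {τ x : ℝ} (hτ : 1 ≤ τ) (hτ' : τ ≤ qq F η)
    (hx : |x| ≤ qq F η * (qq F n / qq F (4 * η) + qq F n / qq F (4 * η))) :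
    |τ * x| ≤ qq F n / qq F η := by
  have h1 := qq_pos (F := F) η
  have h2 := qq_pos (F := F) n
  have h3 : 2 ≤ qq F η := le_trans (by simpa using two_pow_le_qq (F := F) 1) (qq_mono hη)
  rw [mul_comm 4 η, ← qq_pow] at hx
  rw [abs_mul, abs_of_pos (by linarith : 0 < τ)]
  calc _ ≤ qq F η * (qq F η * (qq F n / qq F η ^ 4 + qq F n / qq F η ^ 4)) := by gcongr
    _ = qq F n / qq F η * (2 / qq F η) := by field_simp; ring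
    _ ≤ _ := mul_le_of_le_one_right (by positivity) (by rw [div_le_one h1]; exact h3)

theorem tau_le {h : F[X]} {n η : ℕ} (hn : 1 ≤ n) {τ : ℝ} (hτ : 1 ≤ τ)
    (hη : 100 * n * τ ^ 4 * qq F (2 * h.natDegree) ≤ qq F η) : τ ≤ qq F η := by
  refine le_trans ?_ hη
  have h1 : (1 : ℝ) ≤ n := by exact_mod_cast hn
  have h2 := one_le_qq (F := F) (2 * h.natDegree)
  have h3 : τ ≤ τ ^ 4 := le_self_pow₀ hτ (by norm_num)
  calc τ = 1 * τ * 1 := by ring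
    _ ≤ _ := by gcongr; linarith

theorem corr_merge {h : F[X]} {n i ε₁ ε₂ : ℕ} {τ : ℝ} (hτ : τ ≠ 0) (Ψ α β : F[X] → ℝ) :
    corr h n Ψ (cv3 lam α β i ε₁ ε₂) =
      τ * corr h n Ψ (cv3 lam (fun e => cv α β ε₁ ε₂ e / τ) (fun _ => 1) i (ε₁ + ε₂) 0) := by
  unfold corr
  rw [Finset.mul_sum]
  refine Finset.sum_congr rfl fun f _ => ?_
  rw [cv3_merge, mul_left_comm]
  congr 1
  simp only [cv3, Finset.mul_sum]
  refine Finset.sum_congr rfl fun _ _ => Finset.sum_congr rfl fun _ _ =>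
    Finset.sum_congr rfl fun _ _ => ?_
  field_simp

theorem bd_merge {n ε₁ ε₂ : ℕ} {τ : ℝ} (hτ : DivB F τ n) (hn : ε₁ + ε₂ ≤ n) {α β : F[X] → ℝ}
    (hα : Bd ε₁ α) (hβ : Bd ε₂ β) : Bd (ε₁ + ε₂) fun e => cv α β ε₁ ε₂ e / τ := fun e _ => by
  have h1 : 0 < τ := one_pos.trans_le hτ.one_le
  rw [abs_div, abs_of_pos h1, div_le_one h1]
  simpa using abs_cv_le hτ hα hβ hn e

theorem sq_zero {e : F[X]} (he : e ∈ monF F 0) : ind (Squarefree e) = 1 := by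
  obtain ⟨h1, h2⟩ := mem_monF.1 he
  rw [h1.natDegree_eq_zero.1 h2]
  exact ind_pos squarefree_one

theorem coreL [CharP F 2] {h : F[X]} (hh : h ≠ 0) {n L η E : ℕ} {τ : ℝ} (hτ : DivB F τ n)
    (hhn : h.natDegree < n) (hη : 100 * n * τ ^ 4 * qq F (2 * h.natDegree) ≤ qq F η)
    (hE : 2 * L + 20 * η + 5 ≤ E) (hP : ∀ N, n ≤ 4 * N → N ≤ n → ∃ d u r, Par F N L η d u r)
    {i ε₁ ε₂ μ κ : ℕ} (h1 : i + ε₁ + ε₂ = n) (h2 : μ + κ = n) (h3 : ε₁ + E ≤ κ)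
    (h4 : 2 * κ + 4 * ε₂ + E ≤ n) {α₁ β₁ α₂ β₂ : F[X] → ℝ} (a1 : Bd μ α₁) (b1 : Bd κ β₁)
    (a2 : Bd ε₁ α₂) (b2 : ∀ e ∈ monF F ε₂, |β₂ e| ≤ ind (Squarefree e)) :
    |corr h n (cv α₁ β₁ μ κ) (cv3 lam α₂ β₂ i ε₁ ε₂)| ≤
      qq F η * (qq F n / qq F (4 * η) + qq F n / qq F (4 * η)) := by
  obtain ⟨b, N, hN, c1, c2⟩ : ∃ b N, i + κ + ε₂ + b = 2 * N + 1 ∧ κ ≤ b + ε₁ ∧ b + ε₁ ≤ κ + 1 :=
    ⟨κ - ε₁ + (i + ε₂ + ε₁ + 1) % 2, (i + κ + ε₂ + (κ - ε₁ + (i + ε₂ + ε₁ + 1) % 2)) / 2,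
      by omega, by omega, by omega⟩
  obtain ⟨d, u, r, hp⟩ := hP N (by omega) (by omega)
  have hβ : ∀ k ∈ monF F κ, ∀ e ∈ monF F ε₂, |β₁ k * β₂ e| ≤ ind (Squarefree e) :=
    fun k hk e he => by
      rw [abs_mul]
      exact (mul_le_of_le_one_left (abs_nonneg _) (b1 k hk)).trans (b2 e he)
  have hα : ∀ m ∈ monF F μ, ∀ e ∈ monF F ε₁, |α₁ m * α₂ e| ≤ 1 := fun m hm e he => by
    rw [abs_mul]
    exact mul_le_one₀ (a1 m hm) (abs_nonneg _) (a2 e he)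
  rw [corr_eq_cfg h2, cfg_congr (G' := fun m k e₁ e₂ d' =>
    α₁ m * α₂ e₁ * (β₁ k * β₂ e₂ * lam d')) fun _ _ _ _ _ _ _ _ _ _ _ => by ring]
  refine weight hh hp h2 h1 hN c1 (by omega) (by omega) hτ hhn hη _
    (fun m hm k hk e₁ he₁ e₂ he₂ d' _ => ?_) fun B hB hBs =>
      typeL hh hp h2 h1 hN (by omega) (by omega) hτ hη (fun m e => α₁ m * α₂ e)
        (fun k e => β₁ k * β₂ e) hα hβ hB hBs
  rw [abs_mul, abs_mul _ (lam d'), abs_lam, mul_one]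
  exact (mul_le_of_le_one_left (abs_nonneg _) (hα m hm e₁ he₁)).trans (hβ k hk e₂ he₂)

theorem coreU [CharP F 2] {h : F[X]} (hh : h ≠ 0) {n L η E : ℕ} {τ : ℝ} (hτ : DivB F τ n)
    (hhn : h.natDegree < n) (hη : 100 * n * τ ^ 4 * qq F (2 * h.natDegree) ≤ qq F η)
    (hE : 2 * L + 20 * η + 5 ≤ E) (hP : ∀ N, n ≤ 4 * N → N ≤ n → ∃ d u r, Par F N L η d u r)
    {i ε κ : ℕ} (h1 : i + ε = n) (h2 : n ≤ 2 * i) (h3 : κ + E ≤ i) (h4 : 2 * κ + E ≤ n)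
    {β α : F[X] → ℝ} (b1 : Bd κ β) (a2 : Bd ε α) :
    |corr h n (up β κ) (cv3 lam α (fun _ => 1) i ε 0)| ≤
      qq F η * (qq F n / qq F (4 * η) + qq F n / qq F (4 * η)) := by
  obtain ⟨μ, hμ⟩ : ∃ μ, μ + κ = n := ⟨n - κ, by omega⟩
  obtain ⟨b₀, c1, c2, c3⟩ : ∃ b₀, κ ≤ b₀ + ε ∧ 20 * η + 4 ≤ b₀ ∧ κ + b₀ + 1 + 2 * L ≤ i :=
    ⟨max (κ - ε) (20 * η + 4), by omega, by omega, by omega⟩
  obtain ⟨b, N, hN, c4, c5⟩ : ∃ b N, i + κ + b = 2 * N + 1 ∧ b₀ ≤ b ∧ b ≤ b₀ + 1 :=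
    ⟨b₀ + (i + κ + b₀ + 1) % 2, (i + κ + (b₀ + (i + κ + b₀ + 1) % 2)) / 2,
      by omega, by omega, by omega⟩
  obtain ⟨d, u, r, hp⟩ := hP N (by omega) (by omega)
  have hc : ∀ k ∈ monF F κ, ∀ e ∈ monF F ε, |β k * α e| ≤ 1 := fun k hk e he => by
    rw [abs_mul]
    exact mul_le_one₀ (b1 k hk) (abs_nonneg _) (a2 e he)
  have e1 : corr h n (up β κ) (cv3 lam α (fun _ => 1) i ε 0) =
      corr h n (cv (fun _ => 1) β μ κ) (cv3 lam α (fun _ => 1) i ε 0) :=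
    Finset.sum_congr rfl fun f hf => by rw [up_eq_cv hμ β hf]
  rw [e1, corr_eq_cfg hμ, cfg_congr (G' := fun _ k e₁ _ d' => β k * α e₁ * lam d')
    fun _ _ _ _ _ _ _ _ _ _ _ => by ring]
  refine weight hh hp hμ h1 hN (by omega) (by omega) (by omega) hτ hhn hη _
    (fun m hm k hk e₁ he₁ e₂ he₂ d' _ => ?_) fun B hB hBs =>
      typeU hh hp hμ h1 hN (by omega) hτ hη (fun k e => β k * α e) hc hB hBs
  rw [abs_mul, abs_lam, mul_one, sq_zero he₂]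
  exact hc k hk e₁ he₁

end TLU

open TLU

theorem estL [CharP F 2] {h : F[X]} (hh : h ≠ 0) (M : ℕ) : ∃ C : ℕ, 0 < C ∧ ∃ n₀ : ℕ,
    ∀ n, n₀ ≤ n → ∀ E i ε₁ ε₂ μ κ : ℕ, n ≤ M * E → i + ε₁ + ε₂ = n → μ + κ = n →
      (ε₁ + E ≤ κ ∧ 2 * κ + 4 * ε₂ + E ≤ n ∨ ε₁ + ε₂ + E ≤ κ ∧ 2 * κ + E ≤ n) →
      ∀ α₁ β₁ α₂ β₂ : F[X] → ℝ, Bd μ α₁ → Bd κ β₁ → Bd ε₁ α₂ →
        (∀ e ∈ monF F ε₂, |β₂ e| ≤ ind (Squarefree e)) →
        |corr h n (cv α₁ β₁ μ κ) (cv3 lam α₂ β₂ i ε₁ ε₂)| ≤ qq F n / qq F (n / C) := by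
  obtain ⟨C, hC, n₀, H⟩ := setup h M
  refine ⟨C, hC, n₀, fun n hn E i ε₁ ε₂ μ κ hE h1 h2 h3 α₁ β₁ α₂ β₂ a1 b1 a2 b2 => ?_⟩
  obtain ⟨L, τ, hτ, hη1, hhn, hη, hL, hP⟩ := H n hn
  rcases h3 with ⟨h3, h4⟩ | ⟨h3, h4⟩
  · simpa using fin hη1 le_rfl (one_le_qq _)
      (coreL hh hτ hhn hη (hL E hE) hP h1 h2 h3 h4 a1 b1 a2 b2)
  · rw [corr_merge (τ := τ) (one_pos.trans_le hτ.one_le).ne']
    exact fin hη1 hτ.one_le (tau_le (by omega) hτ.one_le hη)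
      (coreL hh hτ hhn hη (hL E hE) hP (by omega) h2 h3 h4 a1 b1
        (bd_merge hτ (by omega) a2 fun e he => (b2 e he).trans (ind_le_one _))
        fun e he => by rw [sq_zero he, abs_one])

theorem estU [CharP F 2] {h : F[X]} (hh : h ≠ 0) (M : ℕ) : ∃ C : ℕ, 0 < C ∧ ∃ n₀ : ℕ,
    ∀ n, n₀ ≤ n → ∀ E i ε₁ ε₂ κ : ℕ, n ≤ M * E → i + ε₁ + ε₂ = n → n ≤ 2 * i → κ + E ≤ i →
      2 * κ + E ≤ n → ∀ β₁ α₂ β₂ : F[X] → ℝ, Bd κ β₁ → Bd ε₁ α₂ → Bd ε₂ β₂ →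
        |corr h n (up β₁ κ) (cv3 lam α₂ β₂ i ε₁ ε₂)| ≤ qq F n / qq F (n / C) := by
  obtain ⟨C, hC, n₀, H⟩ := setup h M
  refine ⟨C, hC, n₀, fun n hn E i ε₁ ε₂ κ hE h1 h2 h3 h4 β₁ α₂ β₂ b1 a2 b2 => ?_⟩
  obtain ⟨L, τ, hτ, hη1, hhn, hη, hL, hP⟩ := H n hn
  rw [corr_merge (τ := τ) (one_pos.trans_le hτ.one_le).ne']
  exact fin hη1 hτ.one_le (tau_le (by omega) hτ.one_le hη)
    (coreU hh hτ hhn hη (hL E hE) hP (by omega) h2 h3 h4 b1 (bd_merge hτ (by omega) a2 b2))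

end Pool.Agent.MP_43e117_nt
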