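import Mathlib
import Pool.Agent.MP_43e117_nt.TBasA

/- Twin primes of `F[X]`: divisor sums of bounded level. -/

set_option autoImplicit false
set_option linter.unusedSectionVars false

namespace Pool.Agent.MP_43e117_nt

open Polynomial Finset Pool.Agent.MP_4fffd4_nt Pool.Agent.MP_c853c5_nt
open scoped BigOperators

variable {F : Type*} [Field F] [Fintype F]

namespace TLev

theorem ind_and' (P Q : Prop) : ind (P ∧ Q) = ind P * ind Q := by
  by_cases hP : P
  · by_cases hQ : Q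
    · rw [ind_pos hP, ind_pos hQ, ind_pos ⟨hP, hQ⟩, mul_one]
    · rw [ind_neg hQ, ind_neg fun h => hQ h.2, mul_zero]
  · rw [ind_neg hP, ind_neg fun h => hP h.1, zero_mul]

theorem ind_congr' {P Q : Prop} (h : P ↔ Q) : ind P = ind Q := by rw [propext h]

theorem sum_divs_ind {f K : F[X]} (hf : f ≠ 0) (hK : K.Monic) (c : ℝ) :
    ∑ D ∈ divs f, ind (K = D) * c = ind (K ∣ f) * c := by
  rw [← Finset.sum_mul]
  congr 1
  by_cases h : K ∣ f
  · rw [ind_pos h, Finset.sum_eq_single K, ind_pos rfl]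
    · exact fun b _ hb => ind_neg (Ne.symm hb)
    · exact fun h' => absurd ((mem_divs hf).2 ⟨hK, h⟩) h'
  · rw [ind_neg h]
    refine Finset.sum_eq_zero fun D hD => ind_neg fun e => h ?_
    rw [e]; exact ((mem_divs hf).1 hD).2

/-- A divisor sum given by a finite family of monic moduli. -/
theorem of_family {ι : Type*} {n R : ℕ} {B : ℝ} {φ : F[X] → ℝ} (A : Finset ι) (K : ι → F[X])
    (c : ι → ℝ) (hK : ∀ a ∈ A, (K a).Monic)
    (he : ∀ f : F[X], f.Monic → f.natDegree ≤ n → φ f = ∑ a ∈ A, ind (K a ∣ f) * c a)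
    (hn : ∀ f : F[X], f.Monic → f.natDegree ≤ n → ∑ a ∈ A, ind (K a ∣ f) * |c a| ≤ B)
    (hs : ∀ a ∈ A, c a ≠ 0 → ∀ g : F[X], Squarefree g → g ∣ K a → g.natDegree ≤ R) :
    ∃ κ, Lev n R B φ κ := by
  refine ⟨fun D => ∑ a ∈ A, ind (K a = D) * c a, fun f hf h => ?_, fun f hf h => ?_,
    fun D g _ h2 h3 h4 => ?_⟩
  · rw [he f hf h, Finset.sum_comm]
    exact Finset.sum_congr rfl fun a ha => (sum_divs_ind hf.ne_zero (hK a ha) _).symm
  · refine le_trans ?_ (hn f hf h)
    refine (Finset.sum_le_sum (g := fun D => ∑ a ∈ A, ind (K a = D) * |c a|) fun D _ => ?_).trans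
      (le_of_eq ?_)
    · refine (Finset.abs_sum_le_sum_abs _ _).trans (le_of_eq ?_)
      exact Finset.sum_congr rfl fun a _ => by rw [abs_mul, abs_of_nonneg (ind_nonneg _)]
    · rw [Finset.sum_comm]
      exact Finset.sum_congr rfl fun a ha => sum_divs_ind hf.ne_zero (hK a ha) _
  · obtain ⟨a, ha, h⟩ := Finset.exists_ne_zero_of_sum_ne_zero h2
    have e : K a = D := by
      by_contra e
      exact h (by rw [ind_neg e, zero_mul])
    exact hs a ha (right_ne_zero_of_mul h) g h3 (e ▸ h4)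

variable (F) in
open Classical in
/-- The monic polynomials of degree at most `n`. -/
noncomputable def monLE (n : ℕ) : Finset F[X] := (range (n + 1)).biUnion (monF F)

theorem mem_monLE {n : ℕ} {g : F[X]} : g ∈ monLE F n ↔ g.Monic ∧ g.natDegree ≤ n := by
  classical
  simp only [monLE, mem_biUnion, mem_range, mem_monF]
  exact ⟨fun ⟨_, h1, h2, h3⟩ => ⟨h2, by omega⟩, fun ⟨h1, h2⟩ => ⟨_, by omega, h1, rfl⟩⟩

theorem sum_divs_eq {n : ℕ} {f : F[X]} (hf : f.Monic) (h : f.natDegree ≤ n) (κ : F[X] → ℝ) :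
    ∑ D ∈ divs f, κ D = ∑ D ∈ monLE F n, ind (D ∣ f) * κ D := by
  symm
  refine (Finset.sum_subset (s₁ := divs f) (fun D hD => ?_) fun D hD hD' => ?_).symm.trans ?_
  · obtain ⟨h1, h2⟩ := (mem_divs hf.ne_zero).1 hD
    exact mem_monLE.2 ⟨h1, (natDegree_le_of_dvd h2 hf.ne_zero).trans h⟩
  · rw [ind_neg fun e => hD' ((mem_divs hf.ne_zero).2 ⟨(mem_monLE.1 hD).1, e⟩), zero_mul]
  · exact Finset.sum_congr rfl fun D hD => by
      rw [ind_pos ((mem_divs hf.ne_zero).1 hD).2, one_mul]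

omit [Fintype F] in
theorem exists_lcm (a b : F[X]) : ∃ L : F[X], a.Monic → b.Monic →
    L.Monic ∧ ∀ f, L ∣ f ↔ a ∣ f ∧ b ∣ f := by
  classical
  refine ⟨normalize (EuclideanDomain.lcm a b), fun ha hb => ⟨monic_normalize ?_, fun f => ?_⟩⟩
  · rw [Ne, EuclideanDomain.lcm_eq_zero_iff]
    exact fun h => h.elim ha.ne_zero hb.ne_zero
  · rw [normalize_dvd_iff, EuclideanDomain.lcm_dvd_iff]

theorem lv_congr {n R : ℕ} {B : ℝ} {φ ψ : F[X] → ℝ} (h : ∃ κ, Lev n R B φ κ)
    (e : ∀ f, ψ f = φ f) : ∃ κ, Lev n R B ψ κ := by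
  rw [funext e]; exact h

theorem lv_mono {n R R' : ℕ} {B B' : ℝ} {φ : F[X] → ℝ} (h : ∃ κ, Lev n R B φ κ) (hR : R ≤ R')
    (hB : B ≤ B') : ∃ κ, Lev n R' B' φ κ :=
  h.imp fun _ h => h.mono hR hB

theorem lv_const (n : ℕ) (c : ℝ) : ∃ κ, Lev n 0 |c| (fun _ : F[X] => c) κ := by
  refine of_family ({()} : Finset Unit) (fun _ => 1) (fun _ => c) (fun _ _ => monic_one)
    (fun f _ _ => ?_) (fun f _ _ => ?_) fun _ _ _ g _ hg => ?_
  · rw [sum_singleton, ind_pos (one_dvd f), one_mul]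
  · rw [sum_singleton, ind_pos (one_dvd f), one_mul]
  · exact (natDegree_le_of_dvd hg one_ne_zero).trans (by simp)

theorem lv_add {n R : ℕ} {B B' : ℝ} {φ ψ : F[X] → ℝ} (h : ∃ κ, Lev n R B φ κ)
    (h' : ∃ κ, Lev n R B' ψ κ) : ∃ κ, Lev n R (B + B') (fun f => φ f + ψ f) κ := by
  obtain ⟨κ, h⟩ := h
  obtain ⟨κ', h'⟩ := h'
  refine ⟨fun K => κ K + κ' K, fun f hf hn => ?_, fun f hf hn => ?_, fun K g h1 h2 h3 h4 => ?_⟩
  · rw [Finset.sum_add_distrib, h.expand f hf hn, h'.expand f hf hn]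
  · refine le_trans ?_ (add_le_add (h.norm f hf hn) (h'.norm f hf hn))
    rw [← Finset.sum_add_distrib]
    exact Finset.sum_le_sum fun K _ => abs_add_le _ _
  · by_cases e : κ K = 0
    · exact h'.supp K g h1 (fun e' => h2 (by simp only [e, e', add_zero])) h3 h4
    · exact h.supp K g h1 e h3 h4

theorem lv_mul {n R R' : ℕ} {B B' : ℝ} {φ ψ : F[X] → ℝ} (h : ∃ κ, Lev n R B φ κ)
    (h' : ∃ κ, Lev n R' B' ψ κ) : ∃ κ, Lev n (R + R') (B * B') (fun f => φ f * ψ f) κ := by
  obtain ⟨κ, h⟩ := h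
  obtain ⟨κ', h'⟩ := h'
  choose L hL using exists_lcm (F := F)
  have hm : ∀ a ∈ monLE F n ×ˢ monLE F n, a.1.Monic ∧ a.2.Monic := fun a ha =>
    ⟨(mem_monLE.1 (mem_product.1 ha).1).1, (mem_monLE.1 (mem_product.1 ha).2).1⟩
  have key : ∀ (f : F[X]) (u v : F[X] → ℝ),
      ∑ a ∈ monLE F n ×ˢ monLE F n, ind (L a.1 a.2 ∣ f) * (u a.1 * v a.2) =
        (∑ D ∈ monLE F n, ind (D ∣ f) * u D) * ∑ D ∈ monLE F n, ind (D ∣ f) * v D := by
    intro f u v
    rw [Finset.sum_mul_sum, ← Finset.sum_product']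
    refine Finset.sum_congr rfl fun a ha => ?_
    rw [ind_congr' ((hL _ _ (hm a ha).1 (hm a ha).2).2 f), ind_and']
    ring
  refine of_family (monLE F n ×ˢ monLE F n) (fun a => L a.1 a.2) (fun a => κ a.1 * κ' a.2)
    (fun a ha => (hL _ _ (hm a ha).1 (hm a ha).2).1) (fun f hf hn => ?_) (fun f hf hn => ?_)
    fun a ha hc g hg hd => ?_
  · rw [key, h.expand f hf hn, h'.expand f hf hn, sum_divs_eq hf hn, sum_divs_eq hf hn]
  · simp only [abs_mul]
    rw [key f (fun D => |κ D|) fun D => |κ' D|, ← sum_divs_eq hf hn, ← sum_divs_eq hf hn]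
    have h0 : 0 ≤ ∑ D ∈ divs f, |κ D| := Finset.sum_nonneg fun _ _ => abs_nonneg _
    exact mul_le_mul (h.norm f hf hn) (h'.norm f hf hn)
      (Finset.sum_nonneg fun _ _ => abs_nonneg _) (h0.trans (h.norm f hf hn))
  · have h1 : L a.1 a.2 ∣ a.1 * a.2 :=
      ((hL _ _ (hm a ha).1 (hm a ha).2).2 _).2 ⟨dvd_mul_right _ _, dvd_mul_left _ _⟩
    obtain ⟨g₁, g₂, d₁, d₂, rfl⟩ := exists_dvd_and_dvd_of_dvd_mul (hd.trans h1)
    exact natDegree_mul_le.trans (add_le_add
      (h.supp _ _ (hm a ha).1 (left_ne_zero_of_mul hc) (hg.squarefree_of_dvd (dvd_mul_right _ _)) d₁)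
      (h'.supp _ _ (hm a ha).2 (right_ne_zero_of_mul hc)
        (hg.squarefree_of_dvd (dvd_mul_left _ _)) d₂))

theorem lv_sum {ι : Type*} (s : Finset ι) {n R : ℕ} (B : ι → ℝ) (φ : ι → F[X] → ℝ)
    (h : ∀ j ∈ s, ∃ κ, Lev n R (B j) (φ j) κ) :
    ∃ κ, Lev n R (∑ j ∈ s, B j) (fun f => ∑ j ∈ s, φ j f) κ := by
  classical
  induction s using Finset.induction_on with
  | empty => exact lv_mono (lv_congr (lv_const n 0) fun f => by simp) (Nat.zero_le _) (by simp)
  | insert a s ha ih =>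
    simp only [Finset.sum_insert ha]
    exact lv_add (h a (mem_insert_self _ _)) (ih fun j hj => h j (mem_insert_of_mem hj))

omit [Fintype F] in
open Classical in
theorem card_fac_le {f : F[X]} (hf : f ≠ 0) :
    (UniqueFactorizationMonoid.normalizedFactors f).card ≤ f.natDegree := by
  have h1 := UniqueFactorizationMonoid.prod_normalizedFactors hf
  rw [← natDegree_eq_of_degree_eq (degree_eq_degree_of_associated h1), natDegree_multiset_prod _
    (UniqueFactorizationMonoid.zero_notMem_normalizedFactors f)]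
  have := Multiset.card_nsmul_le_sum (s := (UniqueFactorizationMonoid.normalizedFactors f).map
    natDegree) (a := 1) fun x hx => by
      obtain ⟨P, hP, rfl⟩ := Multiset.mem_map.1 hx
      exact (UniqueFactorizationMonoid.irreducible_of_normalized_factor P hP).natDegree_pos
  simpa using this

omit [Fintype F] in
theorem Om_le (S : Finset F[X]) {f : F[X]} (hf : f ≠ 0) : Om S f ≤ f.natDegree := by
  classical
  refine le_trans ?_ (card_fac_le hf)
  unfold Om
  set m := UniqueFactorizationMonoid.normalizedFactors f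
  calc ∑ P ∈ S, m.count P ≤ ∑ P ∈ S ∪ m.toFinset, m.count P :=
        Finset.sum_le_sum_of_subset subset_union_left
    _ = m.card := Multiset.sum_count_eq_card fun a ha =>
        mem_union_right _ (Multiset.mem_toFinset.2 ha)

omit [Fintype F] in
open Classical in
theorem count_eq {P f : F[X]} (hP : P.Monic) (hPi : Irreducible P) (hf : f ≠ 0) {n : ℕ}
    (hn : f.natDegree ≤ n) : (((UniqueFactorizationMonoid.normalizedFactors f).count P : ℕ) : ℝ) =
      ∑ a ∈ Icc 1 n, ind (P ^ a ∣ f) := by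
  set c := (UniqueFactorizationMonoid.normalizedFactors f).count P with hc
  have h1 : c ≤ n := ((Multiset.count_le_card _ _).trans (card_fac_le hf)).trans hn
  have h2 : ∀ a, P ^ a ∣ f ↔ a ≤ c := by
    intro a
    rw [pow_dvd_iff_le_emultiplicity,
      UniqueFactorizationMonoid.emultiplicity_eq_count_normalizedFactors hPi hf,
      hP.normalize_eq_self, Nat.cast_le]
  rw [← Finset.sum_subset (s₁ := Icc 1 c) (Icc_subset_Icc_right h1) fun a ha ha' => ?_,
    Finset.sum_congr rfl (g := fun _ => (1 : ℝ)) fun a ha => ind_pos ((h2 a).2 (mem_Icc.1 ha).2)]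
  · simp
  · exact ind_neg fun e => ha' (mem_Icc.2 ⟨(mem_Icc.1 ha).1, (h2 a).1 e⟩)

theorem lv_Om {S : Finset F[X]} {y : ℕ}
    (hS : ∀ P ∈ S, P.Monic ∧ Irreducible P ∧ P.natDegree ≤ y) (n : ℕ) :
    ∃ κ, Lev n y (n : ℝ) (fun f : F[X] => (Om S f : ℝ)) κ := by
  have key : ∀ f : F[X], f.Monic → f.natDegree ≤ n →
      (Om S f : ℝ) = ∑ a ∈ S ×ˢ Icc 1 n, ind (a.1 ^ a.2 ∣ f) * 1 := by
    intro f hf hn
    rw [Finset.sum_product]
    unfold Om
    rw [Nat.cast_sum]
    refine Finset.sum_congr rfl fun P hP => ?_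
    simp only [mul_one]
    convert count_eq (hS P hP).1 (hS P hP).2.1 hf.ne_zero hn
  refine of_family (S ×ˢ Icc 1 n) (fun a => a.1 ^ a.2) (fun _ => 1)
    (fun a ha => (hS _ (mem_product.1 ha).1).1.pow _) key (fun f hf hn => ?_)
    fun a ha _ g hg hd => ?_
  · rw [abs_one, ← key f hf hn]
    exact_mod_cast (Om_le S hf.ne_zero).trans hn
  · have h := hS _ (mem_product.1 ha).1
    exact (natDegree_le_of_dvd (hg.isRadical _ _ hd) h.1.ne_zero).trans h.2.2

theorem choose_succ (w l : ℕ) :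
    (w.choose (l + 1) : ℝ) = w.choose l * (1 / ((l : ℝ) + 1) * (w + -(l : ℝ))) := by
  have h0 : (0 : ℝ) < l + 1 := by positivity
  rcases le_or_gt l w with h | h
  · have := Nat.choose_succ_right_eq w l
    have h2 : (w.choose (l + 1) : ℝ) * (l + 1) = w.choose l * (w - l) := by
      rw [← Nat.cast_sub h]; exact_mod_cast this
    field_simp
    linarith
  · rw [Nat.choose_eq_zero_of_lt h, Nat.choose_eq_zero_of_lt (by omega)]
    simp

end TLev

open TLev

theorem lev_choose {S : Finset F[X]} {y : ℕ}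
    (hS : ∀ P ∈ S, P.Monic ∧ Irreducible P ∧ P.natDegree ≤ y) (n l : ℕ) :
    ∃ κ, Lev n (l * y) (((n : ℝ) + l + 1) ^ l) (fun f : F[X] => ((Om S f).choose l : ℝ)) κ := by
  induction l with
  | zero => exact lv_mono (lv_congr (lv_const n 1) fun f => by simp) (Nat.zero_le _) (by simp)
  | succ l ih =>
    have h1 := lv_add (lv_Om hS n) (lv_mono (lv_const (F := F) n (-(l : ℝ))) (Nat.zero_le y) le_rfl)
    have h2 := lv_mul ih (lv_mul (lv_const (F := F) n (1 / ((l : ℝ) + 1))) h1)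
    refine lv_mono (lv_congr h2 fun f => choose_succ _ _) (by rw [zero_add, Nat.succ_mul]) ?_
    have h0 : (0 : ℝ) ≤ l := Nat.cast_nonneg _
    have hn : (0 : ℝ) ≤ n := Nat.cast_nonneg _
    have h3 : 1 / ((l : ℝ) + 1) ≤ 1 := (div_le_one (by positivity)).2 (by linarith)
    rw [abs_neg, abs_of_nonneg h0, abs_of_nonneg (by positivity), pow_succ]
    push_cast
    refine mul_le_mul (pow_le_pow_left₀ (by positivity) (by linarith) _) ?_ (by positivity)
      (by positivity)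
    exact (mul_le_of_le_one_left (by positivity) h3).trans (by linarith)

theorem lev_bonf {S : Finset F[X]} {y : ℕ}
    (hS : ∀ P ∈ S, P.Monic ∧ Irreducible P ∧ P.natDegree ≤ y) (n k : ℕ) :
    ∃ κ, Lev n (k * y) (((n : ℝ) + k + 1) ^ (k + 1)) (fun f : F[X] => bonf k (Om S f)) κ := by
  have hn : (0 : ℝ) ≤ n := Nat.cast_nonneg _
  have hk : (0 : ℝ) ≤ k := Nat.cast_nonneg _
  have h := lv_sum (range (k + 1)) (n := n) (R := k * y) (fun _ => ((n : ℝ) + k + 1) ^ k)
    (fun l (f : F[X]) => (-1) ^ l * ((Om S f).choose l : ℝ)) fun l hl => by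
      have hl' : l ≤ k := Nat.lt_succ_iff.1 (mem_range.1 hl)
      have hl'' : (l : ℝ) ≤ k := by exact_mod_cast hl'
      refine lv_mono (lv_mul (lv_const (F := F) n ((-1) ^ l)) (lev_choose hS n l)) ?_ ?_
      · rw [zero_add]; exact Nat.mul_le_mul_right _ hl'
      · rw [abs_pow, abs_neg, abs_one, one_pow, one_mul]
        exact (pow_le_pow_left₀ (by positivity) (by linarith) _).trans
          (pow_le_pow_right₀ (by linarith) hl')
  refine lv_mono h le_rfl ?_
  rw [Finset.sum_const, card_range, nsmul_eq_mul, pow_succ']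
  push_cast
  exact mul_le_mul_of_nonneg_right (by linarith) (by positivity)

theorem lev_prod {ι : Type*} (s : Finset ι) {n : ℕ} (R : ι → ℕ) (B : ι → ℝ) (φ : ι → F[X] → ℝ)
    (h : ∀ j ∈ s, ∃ κ, Lev n (R j) (B j) (φ j) κ) :
    ∃ κ, Lev n (∑ j ∈ s, R j) (∏ j ∈ s, B j) (fun f => ∏ j ∈ s, φ j f) κ := by
  classical
  induction s using Finset.induction_on with
  | empty => exact lv_mono (lv_congr (lv_const n 1) fun f => by simp) (Nat.zero_le _) (by simp)
  | insert a s ha ih =>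
    simp only [Finset.sum_insert ha, Finset.prod_insert ha]
    exact lv_mul (h a (mem_insert_self _ _)) (ih fun j hj => h j (mem_insert_of_mem hj))

end Pool.Agent.MP_43e117_nt
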