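import Mathlib
import Pool.Agent.MP_43e117_nt.TLev

/- Twin primes of `F[X]`: algebraic properties of the sieve weight. -/

set_option autoImplicit false
set_option linter.unusedSectionVars false

namespace Pool.Agent.MP_43e117_nt

open Polynomial Finset Pool.Agent.MP_4fffd4_nt Pool.Agent.MP_c853c5_nt
open scoped BigOperators

variable {F : Type*} [Field F] [Fintype F]

namespace TSep

theorem bonf_succ (k w : ℕ) : bonf k (w + 1) = (-1) ^ k * (w.choose k : ℝ) := by
  unfold bonf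
  induction k with
  | zero => simp
  | succ k ih =>
    rw [sum_range_succ, ih, Nat.choose_succ_succ, pow_succ]
    push_cast
    ring

theorem choose_le (w k : ℕ) : (w.choose k : ℝ) * 2 ^ k ≤ 3 ^ w := by
  by_cases hk : k ≤ w
  · have h : (3 : ℝ) ^ w = ∑ m ∈ range (w + 1), 2 ^ m * 1 ^ (w - m) * (w.choose m : ℝ) := by
      rw [← add_pow]
      norm_num
    rw [h]
    refine le_trans (le_of_eq ?_) (single_le_sum
      (f := fun m => (2 : ℝ) ^ m * 1 ^ (w - m) * (w.choose m : ℝ)) (fun _ _ => by positivity)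
      (mem_range.2 (Nat.lt_succ_of_le hk)))
    rw [one_pow, mul_one, mul_comm]
  · rw [Nat.choose_eq_zero_of_lt (not_le.1 hk), Nat.cast_zero, zero_mul]
    positivity

theorem bonf_add (k v w : ℕ) : bonf k (v + w) =
    ∑ l ∈ range (k + 1), (v.choose l : ℝ) * ((-1) ^ l * bonf (k - l) w) := by
  have h := Finset.sum_range_diag_flip (k + 1)
    (fun l j => (v.choose l : ℝ) * ((-1) ^ l * ((-1) ^ j * (w.choose j : ℝ))))
  unfold bonf
  refine Eq.trans (sum_congr rfl fun m _ => ?_) (h.trans (sum_congr rfl fun l hl => ?_))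
  · rw [Nat.add_choose_eq, Nat.cast_sum, Finset.Nat.sum_antidiagonal_eq_sum_range_succ_mk,
      mul_sum]
    refine sum_congr rfl fun l hl => ?_
    have e : (-1 : ℝ) ^ m = (-1) ^ l * (-1) ^ (m - l) := by
      rw [← pow_add, Nat.add_sub_cancel' (Nat.lt_succ_iff.1 (mem_range.1 hl))]
    rw [e]
    push_cast
    ring
  · have e : k + 1 - l = k - l + 1 := by
      have := mem_range.1 hl
      omega
    rw [e, mul_sum, mul_sum]

theorem sum_level_aux (y S : ℕ) :
    ∑ s ∈ range S, (2 * s + 2) * (y / 2 ^ s) + (4 * S + 8) * (y / 2 ^ S) ≤ 8 * y := by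
  induction S with
  | zero => simp
  | succ S ih =>
    rw [sum_range_succ]
    have h : 2 * (y / 2 ^ (S + 1)) ≤ y / 2 ^ S := by
      rw [pow_succ, ← Nat.div_div_eq_div_mul]
      omega
    nlinarith [Nat.mul_le_mul_left (2 * S + 6) h]

theorem pow_le_big (n S : ℕ) {l m : ℕ} (hl : l ≤ 2 * S + 2) (hm : m ≤ 2 * S + 3) :
    ((n : ℝ) + l + 1) ^ m ≤ ((n : ℝ) + 2 * S + 3) ^ (2 * S + 3) := by
  have h1 : (l : ℝ) ≤ 2 * S + 2 := by exact_mod_cast hl
  have h2 : (0 : ℝ) ≤ n := Nat.cast_nonneg n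
  have h3 : (0 : ℝ) ≤ S := Nat.cast_nonneg S
  calc ((n : ℝ) + l + 1) ^ m ≤ ((n : ℝ) + 2 * S + 3) ^ m :=
        pow_le_pow_left₀ (by positivity) (by linarith) m
    _ ≤ _ := pow_le_pow_right₀ (by linarith) hm

theorem prod_le_big {S : ℕ} {B : ℝ} {g : Fin S → ℝ} (h0 : ∀ s, 0 ≤ g s) (h1 : ∀ s, g s ≤ B) :
    ∏ s, g s ≤ B ^ S := by
  calc ∏ s, g s ≤ ∏ _s : Fin S, B := prod_le_prod (fun s _ => h0 s) fun s _ => h1 s
    _ = B ^ S := by rw [prod_const, card_univ, Fintype.card_fin]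

theorem bl_spec (h : F[X]) (y s : ℕ) :
    ∀ P ∈ bl h y s, P.Monic ∧ Irreducible P ∧ P.natDegree ≤ y / 2 ^ s := fun _ hP =>
  have := mem_blk.1 hP
  ⟨this.1, this.2.1, this.2.2.2.1⟩

end TSep

theorem Om_mul (S : Finset F[X]) {d e : F[X]} (hd : d ≠ 0) (he : e ≠ 0) :
    Om S (d * e) = Om S d + Om S e := by
  classical
  unfold Om
  rw [← sum_add_distrib]
  refine sum_congr rfl fun P _ => ?_
  rw [← Multiset.count_add]
  congr 1
  convert UniqueFactorizationMonoid.normalizedFactors_mul hd he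

theorem Om_of_squarefree {S : Finset F[X]} (hS : ∀ P ∈ S, P.Monic ∧ Irreducible P) {d : F[X]}
    (hd : Squarefree d) : Om S d = om S d := by
  classical
  unfold Om om
  rw [card_filter]
  refine sum_congr rfl fun P hP => ?_
  rw [Multiset.count_eq_of_nodup
    ((UniqueFactorizationMonoid.squarefree_iff_nodup_normalizedFactors hd.ne_zero).1 hd)]
  refine if_congr ?_ rfl rfl
  rw [Polynomial.mem_normalizedFactors_iff hd.ne_zero]
  exact ⟨fun h => h.2.2, fun h => ⟨(hS P hP).2, (hS P hP).1, h⟩⟩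

theorem Om_eq_zero {S : Finset F[X]} (hS : ∀ P ∈ S, P.Monic ∧ Irreducible P) {d : F[X]}
    (hd : d ≠ 0) : Om S d = 0 ↔ ∀ P ∈ S, ¬ P ∣ d := by
  classical
  unfold Om
  rw [sum_eq_zero_iff]
  refine forall₂_congr fun P hP => ?_
  rw [Multiset.count_eq_zero, Polynomial.mem_normalizedFactors_iff hd]
  exact not_congr ⟨fun h => h.2.2, fun h => ⟨(hS P hP).2, (hS P hP).1, h⟩⟩

theorem bonf_zero (k : ℕ) : bonf k 0 = 1 := by
  unfold bonf
  rw [sum_range_succ', sum_eq_zero fun l _ => by simp]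
  simp

theorem bonf_nonneg (s w : ℕ) : 0 ≤ bonf (2 * s + 2) w := by
  cases w with
  | zero => rw [bonf_zero]; exact zero_le_one
  | succ w =>
    rw [TSep.bonf_succ, Even.neg_one_pow ⟨s + 1, by ring⟩]
    positivity

theorem bonf_le (s w : ℕ) : bonf (2 * s + 2) w ≤ ind (w = 0) + 3 ^ w / 2 ^ (2 * s + 3) := by
  cases w with
  | zero =>
    rw [bonf_zero, ind_pos rfl]
    exact le_add_of_nonneg_right (by positivity)
  | succ w =>
    rw [TSep.bonf_succ, Even.neg_one_pow ⟨s + 1, by ring⟩, ind_neg (Nat.succ_ne_zero w), zero_add,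
      one_mul, le_div_iff₀ (by positivity)]
    refine le_trans ?_ (TSep.choose_le (w + 1) (2 * s + 3))
    refine mul_le_mul_of_nonneg_right ?_ (by positivity)
    rw [Nat.choose_succ_succ]
    exact_mod_cast Nat.le_add_right _ _

theorem sum_level (y S : ℕ) : ∑ s ∈ range S, (2 * s + 2) * (y / 2 ^ s) ≤ 8 * y :=
  (Nat.le_add_right _ _).trans (TSep.sum_level_aux y S)

theorem sieve_nu (h : F[X]) {n y S : ℕ} (hy : y < n) :
    ∃ (κ : F[X] → ℝ) (Z : Finset (Fin S → ℕ)) (a b α : (Fin S → ℕ) → F[X] → ℝ),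
      Sieve n (8 * y) ((((n : ℝ) + 2 * S + 3) ^ (2 * S + 3)) ^ S) (nu h y S) κ Z a b α := by
  classical
  have hnu : ∀ f, nu h y S f = ∏ s : Fin S, bonf (2 * s + 2) (Om (bl h y s) f) := fun f =>
    (Fin.prod_univ_eq_prod_range (fun s => bonf (2 * s + 2) (Om (bl h y s) f)) S).symm
  have hlev : ∀ z : Fin S → ℕ, (∀ s, z s ≤ 2 * s + 2) →
      ∑ s : Fin S, z s * (y / 2 ^ (s : ℕ)) ≤ 8 * y := fun z hz => by
    refine le_trans (sum_le_sum fun s _ => Nat.mul_le_mul_right _ (hz s)) ?_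
    rw [Fin.sum_univ_eq_sum_range (fun s => (2 * s + 2) * (y / 2 ^ s)) S]
    exact sum_level y S
  obtain ⟨κ, hκ⟩ := lev_prod (univ : Finset (Fin S)) (n := n)
    (fun s => (2 * s + 2) * (y / 2 ^ (s : ℕ)))
    (fun s => ((n : ℝ) + (2 * s + 2 : ℕ) + 1) ^ (2 * (s : ℕ) + 2 + 1))
    (fun s f => bonf (2 * s + 2) (Om (bl h y s) f))
    (fun s _ => lev_bonf (TSep.bl_spec h y s) n (2 * s + 2))
  have hα : ∀ z : Fin S → ℕ, ∃ α, Lev n (∑ s : Fin S, z s * (y / 2 ^ (s : ℕ)))
      (∏ s : Fin S, ((n : ℝ) + z s + 1) ^ z s)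
      (fun f : F[X] => ∏ s : Fin S, ((Om (bl h y s) f).choose (z s) : ℝ)) α := fun z =>
    lev_prod (univ : Finset (Fin S)) (n := n) (fun s => z s * (y / 2 ^ (s : ℕ)))
      (fun s => ((n : ℝ) + z s + 1) ^ z s)
      (fun s f => ((Om (bl h y s) f).choose (z s) : ℝ))
      (fun s _ => lev_choose (TSep.bl_spec h y s) n (z s))
  choose α hα using hα
  have hmem : ∀ z ∈ Fintype.piFinset (fun s : Fin S => range (2 * s + 2 + 1)),
      ∀ s : Fin S, z s ≤ 2 * s + 2 := fun z hz s =>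
    Nat.lt_succ_iff.1 (mem_range.1 (Fintype.mem_piFinset.1 hz s))
  have hzero : ∀ P : F[X], P ≠ 0 → (∀ Q : F[X], Irreducible Q → Q ∣ P → y < Q.natDegree) →
      nu h y S P = 1 := fun P hP hQ => by
    rw [hnu]
    refine prod_eq_one fun s _ => ?_
    rw [(Om_eq_zero (fun Q hQ => ⟨(TSep.bl_spec h y s Q hQ).1, (TSep.bl_spec h y s Q hQ).2.1⟩)
      hP).2 fun Q hQs hd => ?_, bonf_zero]
    have h1 := TSep.bl_spec h y s Q hQs
    have h2 := hQ Q h1.2.1 hd
    have h3 : y / 2 ^ (s : ℕ) ≤ y := Nat.div_le_self _ _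
    omega
  refine ⟨κ, Fintype.piFinset (fun s : Fin S => range (2 * s + 2 + 1)),
    fun z d => ∏ s : Fin S, ((Om (bl h y s) d).choose (z s) : ℝ),
    fun z e => ∏ s : Fin S, (-1) ^ z s * bonf (2 * s + 2 - z s) (Om (bl h y s) e), α,
    ?_, ?_, ?_, ?_, ?_, ?_, ?_, ?_⟩
  · intro P _ hP hn
    refine hzero P hP.ne_zero fun Q hQ hd => ?_
    rw [natDegree_eq_of_degree_eq (degree_eq_degree_of_associated (hQ.associated_of_dvd hP hd))]
    omega
  · exact hzero 1 one_ne_zero fun Q hQ hd => absurd (isUnit_of_dvd_one hd) hQ.not_isUnit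
  · intro f
    exact prod_nonneg fun s _ => bonf_nonneg s _
  · have e : nu h y S = fun f => ∏ s : Fin S, bonf (2 * s + 2) (Om (bl h y s) f) := funext hnu
    rw [e]
    refine hκ.mono (hlev (fun s => 2 * s + 2) fun _ => le_rfl)
      (TSep.prod_le_big (fun s => by positivity) fun s => TSep.pow_le_big n S ?_ ?_) <;>
    · have := s.2
      omega
  · intro d e hd he
    rw [hnu]
    simp only [Om_mul _ hd.ne_zero he.ne_zero, TSep.bonf_add, ← prod_mul_distrib]
    exact Finset.prod_univ_sum (fun s : Fin S => range (2 * s + 2 + 1))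
      (fun s l => ((Om (bl h y s) d).choose l : ℝ) *
        ((-1) ^ l * bonf (2 * s + 2 - l) (Om (bl h y s) e)))
  · rw [Fintype.card_piFinset, Nat.cast_prod]
    refine TSep.prod_le_big (fun s => by positivity) fun s => ?_
    have h1 := TSep.pow_le_big n S (l := 2 * s + 2) (m := 1) (by have := s.2; omega) (by omega)
    have h2 : (0 : ℝ) ≤ n := Nat.cast_nonneg n
    rw [card_range]
    push_cast at h1 ⊢
    linarith
  · intro z hz
    refine (hα z).mono (hlev z (hmem z hz))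
      (TSep.prod_le_big (fun s => by positivity) fun s => TSep.pow_le_big n S ?_ ?_) <;>
    · have := s.2
      have := hmem z hz s
      omega
  · intro z _ e he hn
    rw [abs_prod]
    refine TSep.prod_le_big (fun s => abs_nonneg _) fun s => ?_
    obtain ⟨β, hβ⟩ := lev_bonf (TSep.bl_spec h y s) n (2 * s + 2 - z s)
    rw [abs_mul, abs_pow, abs_neg, abs_one, one_pow, one_mul]
    refine (hβ.abs_le he hn).trans (TSep.pow_le_big n S ?_ ?_) <;>
    · have := s.2
      omega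

end Pool.Agent.MP_43e117_nt
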