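import Mathlib
import Pool.Agent.MP_43e117_nt.TBasB
import Pool.Agent.MP_43e117_nt.TSep
import Pool.Agent.MP_43e117_nt.TEuler

/- Twin primes of `F[X]`: the local estimate for one block of the sieve. -/

set_option autoImplicit false
set_option linter.unusedSectionVars false

namespace Pool.Agent.MP_43e117_nt

open Polynomial Finset Pool.Agent.MP_4fffd4_nt Pool.Agent.MP_c853c5_nt
open scoped BigOperators

variable {F : Type*} [Field F] [Fintype F]

theorem sum_inv_blk (h : F[X]) (z : ℕ) :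
    ∑ P ∈ blk F h (z / 2) z, 1 / qq F P.natDegree ≤ 1 := by
  classical
  have h0 : ∀ P : F[X], 0 ≤ 1 / qq F P.natDegree := fun P => (one_div_pos.2 (qq_pos _)).le
  have h1 : blk F h (z / 2) z ⊆ (Ioc (z / 2) z).biUnion (irrF F) := by
    intro P hP
    obtain ⟨a, b, c, d, _⟩ := mem_blk.1 hP
    exact mem_biUnion.2 ⟨_, mem_Ioc.2 ⟨c, d⟩, mem_irrF.2 ⟨a, rfl, b⟩⟩
  refine (sum_le_sum_of_subset_of_nonneg h1 fun P _ _ => h0 P).trans ?_
  rw [sum_biUnion fun i _ j _ hij => disjoint_left.2 fun P hi hj =>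
    hij ((mem_irrF.1 hi).2.1.symm.trans (mem_irrF.1 hj).2.1)]
  have h2 : ∀ j ∈ Ioc (z / 2) z, ∑ P ∈ irrF F j, 1 / qq F P.natDegree ≤
      1 / ((z / 2 + 1 : ℕ) : ℝ) := fun j hj => (sum_inv_irrF j).trans
    (one_div_le_one_div_of_le (by positivity) (by exact_mod_cast (mem_Ioc.1 hj).1))
  refine (sum_le_card_nsmul _ _ _ h2).trans ?_
  rw [Nat.card_Ioc, nsmul_eq_mul, mul_one_div, div_le_one (by positivity)]
  exact_mod_cast (by omega : z - z / 2 ≤ z / 2 + 1)

namespace TModA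

omit [Fintype F] in
theorem prod_om (S : Finset F[X]) (f : F[X]) (α : ℝ) :
    ∏ P ∈ S, (1 + α * ind (P ∣ f)) = (1 + α) ^ om S f := by
  classical
  unfold om
  rw [← prod_const, prod_filter]
  refine prod_congr rfl fun P _ => ?_
  by_cases hP : P ∣ f
  · rw [ind_pos hP, if_pos hP, mul_one]
  · rw [ind_neg hP, if_neg hP, mul_zero, add_zero]

theorem zero_pow_ind (n : ℕ) : (0 : ℝ) ^ n = ind (n = 0) := by
  rcases Nat.eq_zero_or_pos n with h | h
  · rw [ind_pos h, h, pow_zero]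
  · rw [ind_neg h.ne', zero_pow h.ne']

theorem two_le_qq {P : F[X]} (hP : Irreducible P) : 2 ≤ qq F P.natDegree := by
  have := two_pow_le_qq (F := F) 1
  rw [pow_one] at this
  exact this.trans (qq_mono hP.natDegree_pos)

theorem factor {a a' c c' : F[X]} {S : Finset F[X]} (hS : ∀ P ∈ S, P.Monic ∧ Irreducible P)
    (hd : ∀ P ∈ S, ∀ t, ¬ (P ∣ c + a * t ∧ P ∣ c' + a' * t)) {l : ℕ}
    (hl : ∑ P ∈ S, P.natDegree ≤ l) (α : ℝ) :
    𝔼 t : degreeLT F l, (1 + α) ^ om S (c + a * t.1) * (1 + α) ^ om S (c' + a' * t.1) =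
      ∏ P ∈ S, (1 + α * ((𝔼 t : degreeLT F l, ind (P ∣ c + a * t.1)) +
        𝔼 t : degreeLT F l, ind (P ∣ c' + a' * t.1))) := by
  have key := expect_prod_coprime S (fun P => P) (fun P hP => (hS P hP).1.ne_zero)
    (fun P hP Q hQ hPQ => (hS P hP).2.coprime_iff_not_dvd.2 fun hdv => hPQ
      (eq_of_monic_of_associated (hS P hP).1 (hS Q hQ).1
        (((hS P hP).2.dvd_irreducible_iff_associated (hS Q hQ).2).1 hdv)))
    (fun P f => 1 + α * (ind (P ∣ c + a * f) + ind (P ∣ c' + a' * f)))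
    (fun P _ f t => by
      have e : ∀ x y : F[X], (P ∣ x + y * (f + P * t)) = (P ∣ x + y * f) := fun x y => by
        rw [mul_add, ← add_assoc, dvd_add_left ⟨y * t, by ring⟩]
      simp only [e]) hl
  have e1 : ∀ t : degreeLT F l,
      (1 + α) ^ om S (c + a * t.1) * (1 + α) ^ om S (c' + a' * t.1) =
      ∏ P ∈ S, (1 + α * (ind (P ∣ c + a * t.1) + ind (P ∣ c' + a' * t.1))) := by
    intro t
    rw [← prod_om, ← prod_om, ← prod_mul_distrib]
    refine prod_congr rfl fun P hP => ?_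
    by_cases h1 : P ∣ c + a * t.1
    · rw [ind_neg fun h2 => hd P hP t.1 ⟨h1, h2⟩]; ring
    · rw [ind_neg h1]; ring
  simp only [e1]
  rw [key]
  refine prod_congr rfl fun P _ => ?_
  rw [expect_add_distrib, ← mul_expect, expect_add_distrib, expect_const univ_nonempty]

theorem mean_eq {P a : F[X]} (hP : P.Monic) (hi : Irreducible P) (ha : ¬ P ∣ a) (c : F[X])
    {l : ℕ} (hl : P.natDegree ≤ l) :
    𝔼 t : degreeLT F l, ind (P ∣ c + a * t.1) = 1 / qq F P.natDegree := by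
  simp only [add_comm c]
  exact expect_lin hP (hi.coprime_iff_not_dvd.2 ha).symm c hl

theorem mean_le {P a : F[X]} (hP : P.Monic) (hi : Irreducible P) {c : F[X]}
    (ha : P ∣ a → ∀ t, ¬ P ∣ c + a * t) {l : ℕ} (hl : P.natDegree ≤ l) :
    𝔼 t : degreeLT F l, ind (P ∣ c + a * t.1) ≤ 1 / qq F P.natDegree := by
  by_cases h : P ∣ a
  · simp only [fun t => ind_neg (ha h t)]
    rw [expect_const univ_nonempty]
    exact (one_div_pos.2 (qq_pos _)).le
  · exact (mean_eq hP hi h c hl).le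

theorem exp_le_VS {S : Finset F[X]} (hS : ∀ P ∈ S, Irreducible P)
    (hS' : ∑ P ∈ S, 1 / qq F P.natDegree ≤ 1) : Real.exp 4 ≤ VS S ^ 2 * Real.exp 8 := by
  have hx : ∀ P ∈ S, 0 ≤ 1 / qq F P.natDegree ∧ 1 / qq F P.natDegree ≤ 1 / 2 := fun P hP =>
    ⟨(one_div_pos.2 (qq_pos _)).le, one_div_le_one_div_of_le two_pos (two_le_qq (hS P hP))⟩
  have h1 := prod_inv_le_exp S (fun P => 1 / qq F P.natDegree) hx
  have hV : 0 < VS S := prod_pos fun P hP => by linarith [(hx P hP).2]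
  rw [prod_inv_distrib] at h1
  have h2 : (VS S)⁻¹ ≤ Real.exp 2 := h1.trans (Real.exp_le_exp.2 (by linarith))
  have h3 : 1 ≤ VS S * Real.exp 2 := by
    rwa [inv_le_iff_one_le_mul₀' hV] at h2
  have h4 : Real.exp 8 = Real.exp 2 ^ 2 * Real.exp 4 := by
    rw [sq, ← Real.exp_add, ← Real.exp_add]; norm_num
  rw [h4, ← mul_assoc, ← mul_pow]
  exact le_mul_of_one_le_left (Real.exp_pos _).le (one_le_pow₀ h3)

theorem bonf_add_le (s x w : ℕ) : bonf (2 * s + 2) (x + w) ≤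
    0 ^ x * ind (w = 0) + 3 ^ x * (3 ^ w / 2 ^ (2 * s + 3)) := by
  refine (bonf_le s (x + w)).trans_eq ?_
  rw [← zero_pow_ind, ← zero_pow_ind, pow_add, pow_add, mul_div_assoc]

theorem arith {A A' B B' i i' u u' : ℝ} (hA : 0 ≤ A) (hA1 : A ≤ B) (hA' : 0 ≤ A')
    (hA1' : A' ≤ B') (hi : 0 ≤ i) (hi' : 0 ≤ i') (hu : 0 ≤ u) (hu' : 0 ≤ u') :
    (A * i + B * u) * (A' * i' + B' * u') ≤
      i * i' * (A * A') + (i * u' + u * i' + u * u') * (B * B') := by
  have h1 : i * u' * (A * B') ≤ i * u' * (B * B') := by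
    have : 0 ≤ B' := hA'.trans hA1'
    gcongr
  have h2 : u * i' * (B * A') ≤ u * i' * (B * B') := by
    have : 0 ≤ B := hA.trans hA1
    gcongr
  nlinarith

end TModA

open TModA in
theorem block_bound {h e e' a a' c c' : F[X]} {S : Finset F[X]}
    (hS : ∀ P ∈ S, P.Monic ∧ Irreducible P ∧ ¬ P ∣ h)
    (hS' : ∑ P ∈ S, 1 / qq F P.natDegree ≤ 1) (he : e ≠ 0) (he' : e' ≠ 0) (ha : a ∣ e')
    (ha' : a' ∣ e) (hc : c' * e' = c * e + h) (haa : a' * e' = a * e) (s : ℕ) {l : ℕ}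
    (hl : ∑ P ∈ S, P.natDegree ≤ l) :
    𝔼 t : degreeLT F l, bonf (2 * s + 2) (om S (c + a * t.1) + Om S e) *
      bonf (2 * s + 2) (om S (c' + a' * t.1) + Om S e') ≤
      VS S ^ 2 * (gb (2 * s + 2) (Om S e) * gb (2 * s + 2) (Om S e')) := by
  have hS2 : ∀ P ∈ S, P.Monic ∧ Irreducible P := fun P hP => ⟨(hS P hP).1, (hS P hP).2.1⟩
  have hh : ∀ t, h = (c' + a' * t) * e' - (c + a * t) * e := fun t => by
    linear_combination -hc - t * haa
  have hno : ∀ P ∈ S, ∀ t, P ∣ (c' + a' * t) * e' → ¬ P ∣ (c + a * t) * e := fun P hP t h1 h2 =>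
    (hS P hP).2.2 (hh t ▸ dvd_sub h1 h2)
  have hd : ∀ P ∈ S, ∀ t, ¬ (P ∣ c + a * t ∧ P ∣ c' + a' * t) := fun P hP t h1 =>
    hno P hP t (h1.2.mul_right _) (h1.1.mul_right _)
  have hdeg : ∀ P ∈ S, P.natDegree ≤ l := fun P hP =>
    (single_le_sum (f := fun P : F[X] => P.natDegree) (fun _ _ => Nat.zero_le _) hP).trans hl
  set i := ind (Om S e = 0) with hi
  set i' := ind (Om S e' = 0) with hi'
  set u : ℝ := 3 ^ Om S e / 2 ^ (2 * s + 3) with hu
  set u' : ℝ := 3 ^ Om S e' / 2 ^ (2 * s + 3) with hu'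
  have i0 : 0 ≤ i := ind_nonneg _
  have i0' : 0 ≤ i' := ind_nonneg _
  have u0 : 0 ≤ u := by positivity
  have u0' : 0 ≤ u' := by positivity
  have hpt : ∀ t : degreeLT F l, bonf (2 * s + 2) (om S (c + a * t.1) + Om S e) *
      bonf (2 * s + 2) (om S (c' + a' * t.1) + Om S e') ≤
      i * i' * ((1 + -1) ^ om S (c + a * t.1) * (1 + -1) ^ om S (c' + a' * t.1)) +
      (i * u' + u * i' + u * u') *
        ((1 + 2) ^ om S (c + a * t.1) * (1 + 2) ^ om S (c' + a' * t.1)) := by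
    intro t
    have b1 := bonf_add_le s (om S (c + a * t.1)) (Om S e)
    have b2 := bonf_add_le s (om S (c' + a' * t.1)) (Om S e')
    refine (mul_le_mul b1 b2 (bonf_nonneg _ _) ((bonf_nonneg _ _).trans b1)).trans ?_
    rw [show (1 : ℝ) + -1 = 0 by norm_num, show (1 : ℝ) + 2 = 3 by norm_num]
    exact arith (by positivity) (pow_le_pow_left₀ le_rfl (by norm_num) _) (by positivity)
      (pow_le_pow_left₀ le_rfl (by norm_num) _) i0 i0' u0 u0'
  refine (expect_le_expect fun t _ => hpt t).trans ?_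
  rw [expect_add_distrib, ← mul_expect, ← mul_expect, factor hS2 hd hl, factor hS2 hd hl]
  have m1 : ∀ P ∈ S, 𝔼 t : degreeLT F l, ind (P ∣ c + a * t.1) ≤ 1 / qq F P.natDegree :=
    fun P hP => mean_le (hS P hP).1 (hS P hP).2.1 (fun h1 t h2 =>
      hno P hP t ((h1.trans ha).mul_left _) (h2.mul_right _)) (hdeg P hP)
  have m2 : ∀ P ∈ S, 𝔼 t : degreeLT F l, ind (P ∣ c' + a' * t.1) ≤ 1 / qq F P.natDegree :=
    fun P hP => mean_le (hS P hP).1 (hS P hP).2.1 (fun h1 t h2 =>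
      hno P hP t (h2.mul_right _) ((h1.trans ha').mul_left _)) (hdeg P hP)
  have n1 : ∀ x y P : F[X], 0 ≤ 𝔼 t : degreeLT F l, ind (P ∣ x + y * t.1) := fun x y P =>
    expect_nonneg fun _ _ => ind_nonneg _
  have B : ∏ P ∈ S, (1 + 2 * ((𝔼 t : degreeLT F l, ind (P ∣ c + a * t.1)) +
      𝔼 t : degreeLT F l, ind (P ∣ c' + a' * t.1))) ≤ VS S ^ 2 * Real.exp 8 := by
    refine le_trans ?_ (exp_le_VS (fun P hP => (hS P hP).2.1) hS')
    refine (prod_le_prod (g := fun P => Real.exp (4 * (1 / qq F P.natDegree)))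
      (fun P _ => by linarith [n1 c a P, n1 c' a' P]) fun P hP => ?_).trans ?_
    · linarith [m1 P hP, m2 P hP, Real.add_one_le_exp (4 * (1 / qq F P.natDegree))]
    · rw [← Real.exp_sum, ← mul_sum]
      exact Real.exp_le_exp.2 (by linarith)
  have A : i * i' * ∏ P ∈ S, (1 + -1 * ((𝔼 t : degreeLT F l, ind (P ∣ c + a * t.1)) +
      𝔼 t : degreeLT F l, ind (P ∣ c' + a' * t.1))) ≤ i * i' * VS S ^ 2 := by
    by_cases w : Om S e = 0
    swap
    · rw [hi, ind_neg w, zero_mul, zero_mul, zero_mul]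
    by_cases w' : Om S e' = 0
    swap
    · rw [hi', ind_neg w', mul_zero, zero_mul, zero_mul]
    refine mul_le_mul_of_nonneg_left ?_ (mul_nonneg i0 i0')
    rw [VS, ← prod_pow]
    refine prod_le_prod (fun P hP => ?_) fun P hP => ?_
    · have := one_div_le_one_div_of_le two_pos (two_le_qq (hS P hP).2.1)
      linarith [m1 P hP, m2 P hP]
    · rw [mean_eq (hS P hP).1 (hS P hP).2.1
          (fun h1 => (Om_eq_zero hS2 he').1 w' P hP (h1.trans ha)) c (hdeg P hP),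
        mean_eq (hS P hP).1 (hS P hP).2.1
          (fun h1 => (Om_eq_zero hS2 he).1 w P hP (h1.trans ha')) c' (hdeg P hP)]
      nlinarith [sq_nonneg (1 / qq F P.natDegree)]
  have g1 : gb (2 * s + 2) (Om S e) = i + Real.exp 8 * u := by rw [gb, mul_div_assoc]
  have g2 : gb (2 * s + 2) (Om S e') = i' + Real.exp 8 * u' := by rw [gb, mul_div_assoc]
  have E : 1 ≤ Real.exp 8 := Real.one_le_exp (by norm_num)
  have C := mul_le_mul_of_nonneg_left B (by positivity : 0 ≤ i * u' + u * i' + u * u')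
  refine (add_le_add A C).trans ?_
  rw [g1, g2]
  have D : VS S ^ 2 * Real.exp 8 * (u * u') * 1 ≤ VS S ^ 2 * Real.exp 8 * (u * u') * Real.exp 8 :=
    mul_le_mul_of_nonneg_left E (by positivity)
  nlinarith

end Pool.Agent.MP_43e117_nt
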