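import Mathlib
import Pool.Agent.MP_43e117_nt.TModA
import Pool.Agent.MP_43e117_nt.TEuler
import Pool.Agent.MP_c853c5_nt.SLine

/- Twin primes of `F[X]`: mean value of the majorant of the sieve weight. -/

set_option autoImplicit false
set_option linter.unusedSectionVars false

namespace Pool.Agent.MP_43e117_nt

open Polynomial Finset Pool.Agent.MP_4fffd4_nt Pool.Agent.MP_c853c5_nt
open scoped BigOperators

variable {F : Type*} [Field F] [Fintype F]

namespace TMass

theorem cover {y d : ℕ} (hd : d ≤ y) (S : ℕ) (h : y / 2 ^ S < d) :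
    ∃ s < S, y / 2 ^ (s + 1) < d ∧ d ≤ y / 2 ^ s := by
  induction S with
  | zero => simp at h; omega
  | succ S ih =>
    by_cases h1 : y / 2 ^ S < d
    · obtain ⟨s, hs, h2⟩ := ih h1
      exact ⟨s, by omega, h2⟩
    · exact ⟨S, by omega, h, by omega⟩

theorem div_anti (y : ℕ) {s t : ℕ} (h : s ≤ t) : y / 2 ^ t ≤ y / 2 ^ s :=
  Nat.div_le_div_left (Nat.pow_le_pow_right two_pos h) (by positivity)

theorem bl_unique {h P : F[X]} {y s t : ℕ} (hs : P ∈ bl h y s) (ht : P ∈ bl h y t) : s = t := by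
  obtain ⟨-, -, h1, h2, -⟩ := mem_blk.1 hs
  obtain ⟨-, -, h3, h4, -⟩ := mem_blk.1 ht
  rcases lt_trichotomy s t with H | H | H
  · have := div_anti y (show s + 1 ≤ t from H)
    omega
  · exact H
  · have := div_anti y (show t + 1 ≤ s from H)
    omega

theorem sum_bl (h : F[X]) (y s : ℕ) : ∑ P ∈ bl h y s, 1 / qq F P.natDegree ≤ 1 := by
  have := sum_inv_blk h (y / 2 ^ s)
  rwa [Nat.div_div_eq_div_mul, ← pow_succ] at this

theorem inv_nonneg' (k : ℕ) : 0 ≤ 1 / qq F k := (one_div_pos.2 (qq_pos k)).le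

theorem inv_le_half {P : F[X]} (hP : Irreducible P) : 1 / qq F P.natDegree ≤ 1 / 2 := by
  refine one_div_le_one_div_of_le two_pos (le_trans ?_ (two_pow_le_qq _))
  exact le_self_pow₀ one_le_two hP.natDegree_pos.ne'

theorem sum_deg {T : Finset F[X]} {a b : ℕ}
    (hT : ∀ P ∈ T, P.Monic ∧ Irreducible P ∧ a < P.natDegree ∧ P.natDegree ≤ b) :
    ∑ P ∈ T, 1 / qq F P.natDegree ≤ ((b - a : ℕ) : ℝ) / (a + 1) := by
  classical
  calc _ = ∑ j ∈ Ioc a b, ∑ P ∈ T with P.natDegree = j, 1 / qq F P.natDegree :=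
        (sum_fiberwise_of_maps_to (fun P hP => mem_Ioc.2 (hT P hP).2.2) _).symm
    _ ≤ ∑ _j ∈ Ioc a b, 1 / ((a : ℝ) + 1) := by
        refine sum_le_sum fun j hj => le_trans (sum_le_sum_of_subset_of_nonneg (fun P hP => ?_)
          fun P _ _ => inv_nonneg' _) ((sum_inv_irrF j).trans ?_)
        · rw [mem_filter] at hP
          exact mem_irrF.2 ⟨(hT P hP.1).1, hP.2, (hT P hP.1).2.1⟩
        · exact one_div_le_one_div_of_le (by positivity) (by exact_mod_cast (mem_Ioc.1 hj).1)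
    _ = _ := by rw [sum_const, Nat.card_Ioc, nsmul_eq_mul, mul_one_div]

open Classical in
/-- The primes outside the blocks. -/
noncomputable def rest (h : F[X]) (y S n : ℕ) : Finset F[X] :=
  (irrLE F n).filter fun P => ¬ ∃ s ∈ range S, P ∈ bl h y s

theorem sum_rest {h : F[X]} (hh : h ≠ 0) {y S D n : ℕ} (h2 : y / 2 ^ S ≤ 15)
    (hn : n - y ≤ D * y) :
    ∑ P ∈ rest h y S n, 1 / qq F P.natDegree ≤ 15 + h.natDegree + D := by
  classical
  set T := rest h y S n
  have hT : ∀ P ∈ T, P.Monic ∧ Irreducible P ∧ P.natDegree ≤ n ∧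
      (P.natDegree ≤ 15 ∨ P ∣ h ∨ y < P.natDegree) := by
    intro P hP
    obtain ⟨h3, h4⟩ := mem_filter.1 hP
    obtain ⟨h5, h6, h7⟩ := mem_irrLE.1 h3
    refine ⟨h5, h6, h7, ?_⟩
    by_contra hne
    push Not at hne
    obtain ⟨s, hs, h8⟩ := cover hne.2.2 S (by omega)
    exact h4 ⟨s, mem_range.2 hs, mem_blk.2 ⟨h5, h6, h8.1, h8.2, hne.2.1⟩⟩
  have e1 : ∑ P ∈ T with P.natDegree ≤ 15, 1 / qq F P.natDegree ≤ 15 := by
    refine (sum_deg (a := 0) (b := 15) fun P hP => ?_).trans (by norm_num)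
    obtain ⟨h3, h4⟩ := mem_filter.1 hP
    exact ⟨(hT P h3).1, (hT P h3).2.1, (hT P h3).2.1.natDegree_pos, h4⟩
  have e2 : ∑ P ∈ T with P ∣ h, 1 / qq F P.natDegree ≤ h.natDegree := by
    have h3 := SLine.card_le_natDegree hh (T.filter (· ∣ h)) fun P hP => by
      obtain ⟨h3, h4⟩ := mem_filter.1 hP
      exact ⟨(hT P h3).1, (hT P h3).2.1, h4⟩
    calc _ ≤ ∑ _P ∈ T with _P ∣ h, (1 : ℝ) := sum_le_sum fun P _ =>
          (div_le_one (qq_pos _)).2 (one_le_qq _)
      _ ≤ _ := by rw [sum_const, nsmul_eq_mul, mul_one]; exact_mod_cast h3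
  have e3 : ∑ P ∈ T with y < P.natDegree, 1 / qq F P.natDegree ≤ D := by
    refine (sum_deg (a := y) (b := n) fun P hP => ?_).trans ?_
    · obtain ⟨h3, h4⟩ := mem_filter.1 hP
      exact ⟨(hT P h3).1, (hT P h3).2.1, h4, (hT P h3).2.2.1⟩
    · rw [div_le_iff₀ (by positivity)]
      exact_mod_cast hn.trans (Nat.mul_le_mul_left _ (Nat.le_succ y))
  refine le_trans ?_ (add_le_add (add_le_add e1 e2) e3)
  rw [sum_filter, sum_filter, sum_filter, ← sum_add_distrib, ← sum_add_distrib]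
  refine sum_le_sum fun P hP => ?_
  have := inv_nonneg' (F := F) P.natDegree
  rcases (hT P hP).2.2.2 with H | H | H <;> rw [if_pos H] <;> split_ifs <;> linarith

open Classical in
/-- The weight attached to values `c s` on the blocks. -/
noncomputable def ww (h : F[X]) (y S : ℕ) (c : ℕ → ℝ) (P : F[X]) : ℝ :=
  ∏ s ∈ range S, if P ∈ bl h y s then c s else 1

theorem ww_cases (h : F[X]) (y S : ℕ) (c : ℕ → ℝ) (P : F[X]) :
    ((¬ ∃ s ∈ range S, P ∈ bl h y s) ∧ ww h y S c P = 1) ∨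
      ∃ s ∈ range S, P ∈ bl h y s ∧ ww h y S c P = c s := by
  by_cases H : ∃ s ∈ range S, P ∈ bl h y s
  · obtain ⟨s, hs, hP⟩ := H
    refine Or.inr ⟨s, hs, hP, ?_⟩
    unfold ww
    rw [prod_eq_single_of_mem s hs fun t _ ht => if_neg fun h' => ht (bl_unique h' hP), if_pos hP]
  · exact Or.inl ⟨H, prod_eq_one fun s hs => if_neg fun h' => H ⟨s, hs, h'⟩⟩

open Classical in
theorem cm_ww (h : F[X]) (y S : ℕ) (c : ℕ → ℝ) (e : F[X]) :
    cm (ww h y S c) e = ∏ s ∈ range S, c s ^ Om (bl h y s) e := by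
  unfold cm Om
  generalize UniqueFactorizationMonoid.normalizedFactors e = M
  induction M using Multiset.induction_on with
  | empty => simp
  | cons a M ih =>
    rw [Multiset.map_cons, Multiset.prod_cons, ih, ww, ← prod_mul_distrib]
    refine prod_congr rfl fun s _ => ?_
    simp only [Multiset.count_cons, sum_add_distrib, pow_add, sum_ite_eq']
    split_ifs <;> ring

theorem GG_eq (h : F[X]) (y S : ℕ) (e : F[X]) : GG h y S e = ∑ σ ∈ (range S).powerset,
    (∏ s ∈ σ, Real.exp 8 / 2 ^ (2 * s + 3)) *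
      cm (ww h y S fun s => if s ∈ σ then 3 else 0) e := by
  unfold GG gb
  simp only [add_comm (ind _)]
  rw [prod_add]
  refine sum_congr rfl fun σ hσ => ?_
  rw [cm_ww, ← prod_sdiff (mem_powerset.1 hσ), mul_comm (∏ _ ∈ range S \ σ, _), ← mul_assoc,
    ← prod_mul_distrib]
  congr 1
  · refine prod_congr rfl fun s hs => ?_
    rw [if_pos hs]
    ring
  · refine prod_congr rfl fun s hs => ?_
    rw [if_neg (mem_sdiff.1 hs).2, zero_pow_eq]
    unfold ind
    congr

theorem sum_cm {h : F[X]} (hh : h ≠ 0) {y S D m n : ℕ} (h1 : 8 ≤ y / 2 ^ S)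
    (h2 : y / 2 ^ S ≤ 15) (hm : m ≤ n) (hn : n ≤ D * y) (σ : Finset ℕ) :
    (m : ℝ) * ∑ e ∈ monF F m, cm (ww h y S fun s => if s ∈ σ then 3 else 0) e ≤
      5 * qq F m * Real.exp (2 * (3 * σ.card + (15 + h.natDegree + D))) := by
  classical
  set c : ℕ → ℝ := fun s => if s ∈ σ then 3 else 0 with hc
  have c0 : ∀ s, 0 ≤ c s := fun s => by simp only [hc]; split_ifs <;> norm_num
  have c3 : ∀ s, c s ≤ 3 := fun s => by simp only [hc]; split_ifs <;> norm_num
  have hb : ∀ P s, s ∈ range S → P ∈ bl h y s → 8 < P.natDegree := fun P s hs hP => by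
    have := div_anti y (show s + 1 ≤ S from mem_range.1 hs)
    have := (mem_blk.1 hP).2.2.1
    omega
  have w0 : ∀ P, 0 ≤ ww h y S c P := fun P => by
    rcases ww_cases h y S c P with ⟨-, H⟩ | ⟨s, -, -, H⟩ <;> rw [H]
    exacts [zero_le_one, c0 s]
  refine (hall_ten w0 (fun P => ?_) (fun P hP => ?_) hm).trans (mul_le_mul_of_nonneg_left
    ((prod_inv_le_exp _ _ fun P hP => ⟨div_nonneg (w0 P) (qq_pos _).le, ?_⟩).trans
      (Real.exp_le_exp.2 (mul_le_mul_of_nonneg_left ?_ zero_le_two)))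
    (mul_nonneg (by norm_num) (qq_pos _).le))
  · rcases ww_cases h y S c P with ⟨-, H⟩ | ⟨s, -, -, H⟩ <;> rw [H]
    exacts [by norm_num, c3 s]
  · rcases ww_cases h y S c P with ⟨-, H⟩ | ⟨s, hs, h3, -⟩
    · exact H.le
    · have := hb P s hs h3
      omega
  · rcases ww_cases h y S c P with ⟨-, H⟩ | ⟨s, hs, h3, H⟩ <;> rw [H]
    · exact inv_le_half (mem_irrLE.1 hP).2.1
    · rw [div_le_div_iff₀ (qq_pos _) two_pos]
      have h4 : (2 : ℝ) ^ 8 ≤ qq F P.natDegree :=
        (pow_le_pow_right₀ one_le_two (hb P s hs h3).le).trans (two_pow_le_qq _)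
      have := c3 s
      linarith
  · have e1 : ∑ s ∈ σ, ∑ P ∈ irrLE F n, (if P ∈ bl h y s then 3 * (1 / qq F P.natDegree) else 0) ≤
        3 * σ.card := by
      calc _ ≤ ∑ _s ∈ σ, (3 : ℝ) := sum_le_sum fun s _ => by
            rw [← sum_filter, ← mul_sum]
            have := (sum_le_sum_of_subset_of_nonneg
              (show (irrLE F n).filter (· ∈ bl h y s) ⊆ bl h y s from
                fun P hP => (mem_filter.1 hP).2) fun P _ _ => inv_nonneg' P.natDegree).trans
              (sum_bl h y s)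
            linarith
        _ = _ := by rw [sum_const, nsmul_eq_mul, mul_comm]
    refine le_trans ?_ (add_le_add e1 (sum_rest hh h2 ((Nat.sub_le n y).trans hn)))
    unfold rest
    rw [sum_comm, sum_filter, ← sum_add_distrib]
    refine sum_le_sum fun P _ => ?_
    have h0 := inv_nonneg' (F := F) P.natDegree
    have h3 : ∀ s ∈ σ, 0 ≤ if P ∈ bl h y s then 3 * (1 / qq F P.natDegree) else 0 :=
      fun s _ => by split_ifs <;> linarith
    rcases ww_cases h y S c P with ⟨H', H⟩ | ⟨s, hs, h4, H⟩ <;> rw [H]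
    · rw [if_pos H']
      linarith [sum_nonneg h3]
    · rw [if_neg (not_not.2 ⟨s, hs, h4⟩), add_zero]
      by_cases h5 : s ∈ σ
      · refine le_trans (le_of_eq ?_) (single_le_sum h3 h5)
        rw [if_pos h4, hc]
        simp only [if_pos h5]
        ring
      · simp only [hc, if_neg h5, zero_div]
        exact sum_nonneg h3

theorem sum_pow (S : ℕ) : ∑ s ∈ range S, (1 : ℝ) / 2 ^ (2 * s + 3) ≤ 1 := by
  calc _ ≤ ∑ s ∈ range S, (1 / 2 : ℝ) * (1 / 2) ^ s := sum_le_sum fun s _ => by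
        rw [← pow_succ', one_div_pow]
        exact one_div_le_one_div_of_le (by positivity) (pow_le_pow_right₀ one_le_two (by omega))
    _ ≤ 1 := by
        rw [← mul_sum]
        linarith [sum_geometric_two_le S]

end TMass

open TMass

theorem sum_GG {h : F[X]} (hh : h ≠ 0) {y S D m n : ℕ} (h1 : 8 ≤ y / 2 ^ S) (h2 : y / 2 ^ S ≤ 15)
    (hm : m ≤ n) (hn : n ≤ D * y) :
    (m : ℝ) * ∑ e ∈ monF F m, GG h y S e ≤
      5 * Real.exp (Real.exp 14 + 2 * (15 + h.natDegree + D)) * qq F m := by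
  set C : ℝ := 15 + h.natDegree + D with hC
  have hq := qq_pos (F := F) m
  simp only [GG_eq]
  rw [sum_comm, mul_sum]
  calc _ ≤ ∑ σ ∈ (range S).powerset, (5 * qq F m * Real.exp (2 * C)) *
          ∏ s ∈ σ, Real.exp 14 * (1 / 2 ^ (2 * s + 3)) := by
        refine sum_le_sum fun σ _ => ?_
        rw [← mul_sum, mul_left_comm]
        refine (mul_le_mul_of_nonneg_left (sum_cm hh h1 h2 hm hn σ)
          (prod_nonneg fun s _ => by positivity)).trans (le_of_eq ?_)
        have e : ∏ s ∈ σ, Real.exp 14 * (1 / 2 ^ (2 * s + 3)) =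
            (∏ s ∈ σ, Real.exp 8 / 2 ^ (2 * s + 3)) * Real.exp (σ.card * 6) := by
          rw [Real.exp_nat_mul, ← prod_const, ← prod_mul_distrib]
          refine prod_congr rfl fun s _ => ?_
          rw [show (14 : ℝ) = 8 + 6 by norm_num, Real.exp_add]
          ring
        rw [e, ← hC, show 2 * (3 * (σ.card : ℝ) + C) = 2 * C + σ.card * 6 by ring, Real.exp_add]
        ring
    _ = (5 * qq F m * Real.exp (2 * C)) *
          ∏ s ∈ range S, (1 + Real.exp 14 * (1 / 2 ^ (2 * s + 3))) := by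
        rw [← mul_sum, prod_one_add]
    _ ≤ (5 * qq F m * Real.exp (2 * C)) * Real.exp (Real.exp 14) := by
        refine mul_le_mul_of_nonneg_left ?_ (by positivity)
        calc _ ≤ ∏ s ∈ range S, Real.exp (Real.exp 14 * (1 / 2 ^ (2 * s + 3))) :=
              prod_le_prod (fun s _ => by positivity) fun s _ => by
                rw [add_comm]; exact Real.add_one_le_exp _
          _ ≤ _ := by
              rw [← Real.exp_sum, ← mul_sum]
              exact Real.exp_le_exp.2 (mul_le_of_le_one_right (Real.exp_pos _).le (sum_pow S))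
    _ = _ := by rw [Real.exp_add]; ring

theorem prod_VS {h : F[X]} (hh : h ≠ 0) {y S : ℕ} (h2 : y / 2 ^ S ≤ 15) :
    (y : ℝ) * ∏ s ∈ range S, VS (bl h y s) ≤ Real.exp (2 * (15 + h.natDegree)) := by
  classical
  have hr : ∀ P ∈ rest h y S y, Irreducible P := fun P hP => (mem_irrLE.1 (mem_filter.1 hP).1).2.1
  have e1 : VS (irrLE F y) = (∏ s ∈ range S, VS (bl h y s)) * VS (rest h y S y) := by
    unfold VS rest
    rw [← prod_biUnion fun s _ t _ hst => disjoint_left.2 fun P h3 h4 => hst (bl_unique h3 h4),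
      ← prod_filter_mul_prod_filter_not (irrLE F y) fun P => ∃ s ∈ range S, P ∈ bl h y s]
    congr 2
    ext P
    rw [mem_filter, mem_biUnion]
    refine ⟨fun H => H.2, fun H => ⟨?_, H⟩⟩
    obtain ⟨s, -, hs⟩ := H
    obtain ⟨h3, h4, -, h5, -⟩ := mem_blk.1 hs
    exact mem_irrLE.2 ⟨h3, h4, h5.trans (Nat.div_le_self _ _)⟩
  have e2 : 0 < VS (rest h y S y) := prod_pos fun P hP => by linarith [inv_le_half (hr P hP)]
  have e3 : (VS (rest h y S y))⁻¹ ≤ Real.exp (2 * (15 + h.natDegree)) := by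
    unfold VS
    rw [← prod_inv_distrib]
    refine (prod_inv_le_exp _ _ fun P hP => ⟨inv_nonneg' _, inv_le_half (hr P hP)⟩).trans
      (Real.exp_le_exp.2 (mul_le_mul_of_nonneg_left ?_ zero_le_two))
    simpa using sum_rest (D := 0) (n := y) hh h2 (by simp)
  have e4 : 0 ≤ ∏ s ∈ range S, VS (bl h y s) := prod_nonneg fun s _ => prod_nonneg fun P hP => by
    linarith [inv_le_half (mem_blk.1 hP).2.1]
  have e5 := mertens (F := F) y
  rw [e1, ← mul_assoc, ← le_div_iff₀ e2, one_div] at e5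
  nlinarith

end Pool.Agent.MP_43e117_nt
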