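import Mathlib
import Pool.Agent.MP_43e117_nt.TCond

/- Twin primes of `F[X]`: the main term in the model. -/

set_option autoImplicit false
set_option linter.unusedSectionVars false

namespace Pool.Agent.MP_43e117_nt

open Polynomial Finset Pool.Agent.MP_4fffd4_nt Pool.Agent.MP_c853c5_nt
open scoped BigOperators

variable {F : Type*} [Field F] [Fintype F]

namespace TMain

variable (F) in
/-- Monic polynomials of degree at most `R`, with their degrees. -/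
noncomputable def sg (R : ℕ) : Finset (Σ _ : ℕ, F[X]) := (range (R + 1)).sigma (monF F)

variable (F) in
/-- The index set of the expansion. -/
noncomputable def ix (R i : ℕ) : Finset ((Σ _ : ℕ, F[X]) × F[X] × (Σ _ : ℕ, F[X])) :=
  sg F R ×ˢ monF F i ×ˢ sg F R

/-- The probability of the event. -/
noncomputable def ev (h : F[X]) (N : ℕ) (K D₁ D₂ : F[X]) : ℝ :=
  𝔼 f : degreeLT F N, ind (K ∣ f.1) * ind (D₁ ∣ f.1 + h) * ind (D₂ ∣ f.1 + h)

open Classical in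
/-- The local weights. -/
noncomputable def ww (h K : F[X]) : F[X] → ℝ := fun P => if P ∣ K ∨ P ∣ h then 1 else 0

/-- The Euler product. -/
noncomputable def eu (h K D₁ D₂ : F[X]) : ℝ :=
  ∏ P ∈ pf (K * D₁ * D₂), (1 - ww h K P) / (1 - 1 / qq F P.natDegree)

/-- A sum over the events. -/
noncomputable def SS (h : F[X]) (N R i : ℕ) (k₁ k₂ : F[X] → ℝ) (g : F[X] → F[X] → F[X] → ℝ) : ℝ :=
  ∑ x ∈ ix F R i, k₁ x.1.2 * mu x.2.1 * k₂ x.2.2.2 *
    (ev h N x.1.2 x.2.1 x.2.2.2 * g x.1.2 x.2.1 x.2.2.2)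

theorem mem_sg {R : ℕ} {a : Σ _ : ℕ, F[X]} (ha : a ∈ sg F R) :
    a.2.Monic ∧ a.2.natDegree = a.1 ∧ a.2.natDegree ≤ R := by
  simp only [sg, mem_sigma, mem_range, mem_monF] at ha
  exact ⟨ha.2.1, ha.2.2, by omega⟩

theorem mem_ix {R i : ℕ} {x : (Σ _ : ℕ, F[X]) × F[X] × (Σ _ : ℕ, F[X])} (hx : x ∈ ix F R i) :
    (x.1.2.Monic ∧ x.1.2.natDegree ≤ R) ∧ (x.2.1.Monic ∧ x.2.1.natDegree = i) ∧
      x.2.2.2.Monic ∧ x.2.2.2.natDegree ≤ R := by
  simp only [ix, mem_product, mem_monF] at hx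
  exact ⟨⟨(mem_sg hx.1).1, (mem_sg hx.1).2.2⟩, hx.2.1, (mem_sg hx.2.2).1, (mem_sg hx.2.2).2.2⟩

theorem pf_irr {K D₁ D₂ : F[X]} (hK : K.Monic) (h₁ : D₁.Monic) (h₂ : D₂.Monic) :
    ∀ P ∈ pf (K * D₁ * D₂), P.Monic ∧ Irreducible P := fun _ hP =>
  have := (mem_pf ((hK.mul h₁).mul h₂).ne_zero).1 hP
  ⟨this.1, this.2.1⟩

theorem expand (h : F[X]) {N R i i' : ℕ} (hN : R + i' + R + i ≤ N) (k₁ k₂ : F[X] → ℝ) :
    mcorr h N (tr k₁ R i) (tr k₂ R i') =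
      SS h N R i' k₁ k₂ fun K D₁ D₂ => cc (pf (K * D₁ * D₂)) (ww h K) i := by
  have e : ∀ f : F[X], tr k₁ R i f * tr k₂ R i' (f + h) = ∑ x ∈ ix F R i',
      k₁ x.1.2 * mu x.2.1 * k₂ x.2.2.2 *
        (ind (x.1.2 ∣ f) * ind (x.2.1 ∣ f + h) * ind (x.2.2.2 ∣ f + h) * up mu i f) := fun f => by
    have u : ∀ (k : F[X] → ℝ) (g : F[X]), upLE k R g = ∑ a ∈ sg F R, ind (a.2 ∣ g) * k a.2 :=
      fun k g => by rw [sg, sum_sigma]; rfl
    rw [tr, tr, u, u, up.eq_1 mu i', sum_mul_sum, ← sum_product', mul_assoc, sum_mul_sum,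
      ← sum_product', mul_sum]
    exact sum_congr rfl fun x _ => by ring
  simp only [mcorr, e]
  rw [expect_sum_comm]
  refine sum_congr rfl fun x hx => ?_
  obtain ⟨⟨a, a'⟩, ⟨b, b'⟩, c, c'⟩ := mem_ix hx
  rw [← mul_expect, cond_mean a b c (by omega)]
  rfl

theorem abs_SS {h : F[X]} {n R i : ℕ} (hn : 2 ≤ n) (hhn : h.natDegree ≤ n) (hR : R ≤ n)
    (hi : i ≤ n) {τ B C : ℝ} (hτ : DivB F τ (5 * n)) {k₁ k₂ : F[X] → ℝ}
    (h₁ : ∀ K : F[X], K.Monic → K.natDegree ≤ n → |k₁ K| ≤ B)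
    (h₂ : ∀ K : F[X], K.Monic → K.natDegree ≤ n → |k₂ K| ≤ B) {g : F[X] → F[X] → F[X] → ℝ}
    (hC : 0 ≤ C) (hg : ∀ x ∈ ix F R i, |g x.1.2 x.2.1 x.2.2.2| ≤ C) :
    |SS h (5 * n) R i k₁ k₂ g| ≤ B ^ 2 * C * (2 * τ ^ 3) := by
  have hB : 0 ≤ B := (abs_nonneg _).trans (h₁ 1 monic_one (by simp))
  have s : ∑ x ∈ ix F R i, ev h (5 * n) x.1.2 x.2.1 x.2.2.2 ≤ 2 * τ ^ 3 := by
    simp only [ix, sg, sum_product, sum_sigma]
    exact sum_events hn hhn hR hi hτ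
  refine (abs_sum_le_sum_abs _ _).trans (le_trans ?_ (mul_le_mul_of_nonneg_left s (by positivity)))
  rw [mul_sum]
  refine sum_le_sum fun x hx => ?_
  obtain ⟨⟨a, a'⟩, -, c, c'⟩ := mem_ix hx
  have e0 : 0 ≤ ev h (5 * n) x.1.2 x.2.1 x.2.2.2 := expect_nonneg fun f _ =>
    mul_nonneg (mul_nonneg (ind_nonneg _) (ind_nonneg _)) (ind_nonneg _)
  rw [abs_mul, abs_mul, abs_mul, abs_mul, abs_of_nonneg e0]
  calc _ ≤ B * 1 * B * (ev h (5 * n) x.1.2 x.2.1 x.2.2.2 * C) := by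
        gcongr
        exacts [h₁ _ a (by omega), abs_mu_le _, h₂ _ c (by omega), hg x hx]
    _ = _ := by ring

theorem NN_bd {h : F[X]} (hh : h ≠ 0) {n R i j : ℕ} (hR : 2 * R ≤ j) (hRn : R ≤ n) (hi : i ≤ n)
    {τ : ℝ} (hτ : DivB F τ (5 * n)) {x : (Σ _ : ℕ, F[X]) × F[X] × (Σ _ : ℕ, F[X])}
    (hx : x ∈ ix F R i) : (3 / 4) ^ j * NN (pf (x.1.2 * x.2.1 * x.2.2.2)) (ww h x.1.2) ≤
      τ ^ 2 * (4 / 3) ^ h.natDegree * (3 / 4) ^ R := by
  obtain ⟨⟨a, a'⟩, ⟨b, b'⟩, c, c'⟩ := mem_ix hx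
  have e : (3 / 4 : ℝ) ^ R * (4 / 3) ^ R = 1 := by rw [← mul_pow]; norm_num
  calc _ ≤ (3 / 4 : ℝ) ^ j * (τ ^ 2 * (4 / 3) ^ (x.1.2.natDegree + h.natDegree)) :=
        mul_le_mul_of_nonneg_left (NN_le hh a b c hτ (by omega)) (by positivity)
    _ ≤ (3 / 4 : ℝ) ^ (R + R) * (τ ^ 2 * (4 / 3) ^ (R + h.natDegree)) := by
        gcongr ?_ * (_ * ?_)
        · exact pow_le_pow_of_le_one (by norm_num) (by norm_num) (by omega)
        · exact pow_le_pow_right₀ (by norm_num) (by omega)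
    _ = _ := by
        rw [pow_add, pow_add]
        linear_combination τ ^ 2 * (4 / 3) ^ h.natDegree * (3 / 4) ^ R * e

theorem eu_zero (h : F[X]) {K D₁ D₂ : F[X]} (hK : K.Monic) (h₁ : D₁.Monic) (h₂ : D₂.Monic)
    (h1 : K ≠ 1) : eu h K D₁ D₂ = 0 := by
  obtain ⟨P, a, b, c⟩ := exists_monic_irreducible_factor K fun hu => h1 (hK.isUnit_iff.1 hu)
  refine prod_eq_zero ((mem_pf ((hK.mul h₁).mul h₂).ne_zero).2
    ⟨a, b, (c.mul_right _).mul_right _⟩) ?_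
  simp [ww, c]

theorem SS_eu (h : F[X]) (N R i : ℕ) {k₁ k₁' : F[X] → ℝ} (e : k₁ 1 = k₁' 1) (k₂ : F[X] → ℝ) :
    SS h N R i k₁ k₂ (eu h) = SS h N R i k₁' k₂ (eu h) := sum_congr rfl fun x hx => by
  obtain ⟨⟨a, -⟩, ⟨b, -⟩, c, -⟩ := mem_ix hx
  by_cases h1 : x.1.2 = 1
  · rw [h1, e]
  · rw [eu_zero h a b c h1]; simp

theorem approx {h : F[X]} (hh : h ≠ 0) {n R : ℕ} (hn : 2 ≤ n) (hhn : h.natDegree ≤ n)
    (hR1 : 1 ≤ R) (hR : 2 * R ≤ n) {τ B : ℝ} (hτ : DivB F τ (5 * n)) {k₁ k₂ : F[X] → ℝ}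
    (h₁ : ∀ K : F[X], K.Monic → K.natDegree ≤ n → |k₁ K| ≤ B)
    (h₂ : ∀ K : F[X], K.Monic → K.natDegree ≤ n → |k₂ K| ≤ B) :
    |∑ i ∈ range (2 * R), ∑ i' ∈ range (2 * R), ((n : ℝ) - i) * ((n : ℝ) - i') *
      mcorr h (5 * n) (tr k₁ R i) (tr k₂ R i') -
      ∑ i' ∈ range (2 * R), ((n : ℝ) - i') * SS h (5 * n) R i' k₁ k₂ (eu h)| ≤
      6 * n ^ 3 * B ^ 2 * τ ^ 5 * (4 / 3) ^ h.natDegree * (3 / 4) ^ R := by
  have t0 : 0 ≤ τ := zero_le_one.trans hτ.one_le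
  rw [sum_comm, ← sum_sub_distrib]
  refine (abs_sum_le_sum_abs _ _).trans ((sum_le_card_nsmul _ _ (n * (B ^ 2 *
    (3 * n * (τ ^ 2 * (4 / 3) ^ h.natDegree * (3 / 4) ^ R)) * (2 * τ ^ 3))) fun j hj => ?_).trans ?_)
  · have hj := mem_range.1 hj
    have e : ∑ i ∈ range (2 * R), ((n : ℝ) - i) * ((n : ℝ) - j) *
        mcorr h (5 * n) (tr k₁ R i) (tr k₂ R j) - ((n : ℝ) - j) * SS h (5 * n) R j k₁ k₂ (eu h) =
        ((n : ℝ) - j) * SS h (5 * n) R j k₁ k₂ fun K D₁ D₂ => ∑ i ∈ range (2 * R),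
          ((n : ℝ) - i) * cc (pf (K * D₁ * D₂)) (ww h K) i - eu h K D₁ D₂ := by
      rw [sum_congr rfl fun i hi => by
        rw [expand h (i := i) (by have := mem_range.1 hi; omega)]]
      simp only [SS, mul_sub _ (∑ i ∈ range (2 * R), _), sum_sub_distrib, mul_sum,
        mul_sub _ (∑ i ∈ ix F R j, _)]
      rw [sum_comm]
      congr 1
      exact sum_congr rfl fun x _ => sum_congr rfl fun i _ => by ring
    have j1 : (j : ℝ) ≤ n := by exact_mod_cast (by omega : j ≤ n)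
    rw [e, abs_mul, abs_of_nonneg (sub_nonneg.2 j1)]
    refine mul_le_mul (sub_le_self _ j.cast_nonneg) (abs_SS hn hhn (by omega) (by omega) hτ h₁ h₂
      (by positivity) fun x hx => ?_) (abs_nonneg _) n.cast_nonneg
    obtain ⟨⟨a, -⟩, ⟨b, -⟩, c, -⟩ := mem_ix hx
    refine (cc_abel (pf_irr a b c) _ (by omega) hR).trans ?_
    rw [mul_assoc]
    exact mul_le_mul_of_nonneg_left (NN_bd hh le_rfl (by omega) (by omega) hτ hx) (by positivity)
  · have : ((2 * R : ℕ) : ℝ) ≤ n := by exact_mod_cast hR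
    rw [card_range, nsmul_eq_mul]
    refine (mul_le_mul_of_nonneg_right this (by positivity)).trans (le_of_eq ?_)
    ring

open Classical in
/-- The unit of the convolution. -/
noncomputable def dl (K : F[X]) : ℝ := if K = 1 then 1 else 0

theorem sum_dl (R : ℕ) (G : F[X] → ℝ) : ∑ a ∈ sg F R, dl a.2 * G a.2 = G 1 := by
  rw [sum_eq_single ⟨0, 1⟩]
  · simp [dl]
  · intro a ha h1
    have := (mem_sg ha).2.1
    rw [dl, if_neg, zero_mul]
    intro e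
    rw [e, natDegree_one] at this
    exact h1 (Sigma.ext this.symm (heq_of_eq e))
  · intro h1
    exact absurd (by simp [sg, mem_monF]) h1

theorem qq_sqfree {d : F[X]} (hd : d.Monic) (hs : Squarefree d) :
    qq F d.natDegree = ∏ P ∈ pf d, qq F P.natDegree := by
  classical
  have e : ∏ P ∈ pf d, P = d := by
    rw [pf, prod_eq_multiset_prod, Multiset.map_id', Multiset.toFinset_val,
      Multiset.dedup_eq_self.2
        ((UniqueFactorizationMonoid.squarefree_iff_nodup_normalizedFactors hd.ne_zero).1 hs),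
      UniqueFactorizationMonoid.prod_normalizedFactors_eq hd.ne_zero, hd.normalize_eq_self]
  conv_lhs => rw [← e, natDegree_prod_of_monic _ _ fun P hP => ((mem_pf hd.ne_zero).1 hP).1]
  exact (prod_pow_eq_pow_sum _ _ _).symm

theorem main_eq (h : F[X]) {n R I N : ℕ} (hN : I ≤ N) :
    ∑ j ∈ range I, ((n : ℝ) - j) * SS h N R j dl dl (eu h) = mainT h n I := by
  refine sum_congr rfl fun j hj => congrArg _ ?_
  have hj := mem_range.1 hj
  have e : SS h N R j dl dl (eu h) = ∑ a ∈ sg F R, dl a.2 * ∑ d ∈ monF F j, ∑ b ∈ sg F R,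
      dl b.2 * (mu d * (ev h N a.2 d b.2 * eu h a.2 d b.2)) := by
    simp only [SS, ix, sum_product, mul_sum]
    exact sum_congr rfl fun a _ => sum_congr rfl fun d _ => sum_congr rfl fun b _ => by ring
  rw [e, sum_dl R fun K => ∑ d ∈ monF F j, ∑ b ∈ sg F R,
    dl b.2 * (mu d * (ev h N K d b.2 * eu h K d b.2))]
  refine sum_congr rfl fun d hd => ?_
  obtain ⟨m, hd⟩ := mem_monF.1 hd
  rw [sum_dl R fun D => mu d * (ev h N 1 d D * eu h 1 d D)]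
  by_cases hs : Squarefree d
  · have a := expect_lin m isCoprime_one_left h (n := N) (by omega)
    simp only [one_mul] at a
    simp only [ev, eu, ind_pos (one_dvd _), one_mul, mul_one]
    rw [a, qq_sqfree m hs, one_div, ← prod_inv_distrib, ← prod_mul_distrib]
    refine congrArg _ (prod_congr rfl fun P hP => ?_)
    have : ¬ P ∣ 1 := ((mem_pf m.ne_zero).1 hP).2.1.not_dvd_one
    have q := qq_pos (F := F) P.natDegree
    by_cases c : P ∣ h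
    · simp [ww, c]
    · simp only [ww, c, this, or_self, if_false, sub_zero]
      rw [← one_div, one_div_mul_one_div, mul_sub, mul_one, mul_one_div_cancel q.ne']
  · simp [mu, hs]

end TMain

open TMain

theorem mcorr_small {h : F[X]} (hh : h ≠ 0) {n R i i' : ℕ} (hn : 2 ≤ n) (hhn : h.natDegree ≤ n)
    (hi : i ≤ n) (hi' : i' ≤ n) (hR : 2 * R ≤ i) {τ B : ℝ} (hτ : DivB F τ (5 * n))
    {κ : F[X] → ℝ} (hκ : ∀ K : F[X], K.Monic → K.natDegree ≤ n → |κ K| ≤ B) :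
    |mcorr h (5 * n) (tr κ R i) (tr κ R i')| ≤
      6 * B ^ 2 * τ ^ 5 * (4 / 3) ^ h.natDegree * (3 / 4) ^ R := by
  rw [expand h (by omega)]
  refine (abs_SS (C := 3 * (τ ^ 2 * (4 / 3) ^ h.natDegree * (3 / 4) ^ R)) hn hhn (by omega) hi' hτ
    hκ hκ (by positivity) fun x hx => ?_).trans (le_of_eq (by ring))
  obtain ⟨⟨a, -⟩, ⟨b, -⟩, c, -⟩ := mem_ix hx
  refine (abs_cc_le (pf_irr a b c) _ _).trans ?_
  rw [mul_assoc]
  exact mul_le_mul_of_nonneg_left (NN_bd hh hR (by omega) hi' hτ hx) (by norm_num)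

theorem mcorr_main [CharP F 2] {h : F[X]} (hh : h ≠ 0) {n R : ℕ} (hn : 2 ≤ n)
    (hhn : h.natDegree ≤ n) (hR1 : 1 ≤ R) (hR : 2 * R ≤ n) {τ B : ℝ} (hτ : DivB F τ (5 * n))
    {κ : F[X] → ℝ} (hκ : ∀ K : F[X], K.Monic → K.natDegree ≤ n → |κ K| ≤ B) (hκ1 : κ 1 = 1) :
    |∑ i ∈ range (2 * R), ∑ i' ∈ range (2 * R), ((n : ℝ) - i) * ((n : ℝ) - i') *
      mcorr h (5 * n) (tr κ R i) (tr κ R i') - mainT h n (2 * R)| ≤
      18 * n ^ 3 * B ^ 2 * τ ^ 5 * (4 / 3) ^ h.natDegree * (3 / 4) ^ R := by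
  have hB : 1 ≤ B := by simpa [hκ1] using hκ 1 monic_one (by simp)
  have hd : ∀ K : F[X], K.Monic → K.natDegree ≤ n → |dl K| ≤ B := fun K _ _ => by
    unfold dl; split_ifs
    · simpa using hB
    · simpa using zero_le_one.trans hB
  have e : κ 1 = dl (1 : F[X]) := by simp [dl, hκ1]
  have a := approx hh hn hhn hR1 hR hτ hκ hκ
  have b := approx hh hn hhn hR1 hR hτ hd hκ
  have c := approx hh hn hhn hR1 hR hτ hκ hd
  simp only [SS_eu h _ _ _ e] at a c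
  rw [main_eq h (by omega)] at c
  have hN : h.degree < (5 * n : ℕ) := degree_le_natDegree.trans_lt (by exact_mod_cast (by omega))
  rw [sum_comm, sum_congr rfl fun i _ => sum_congr rfl fun j _ => by
    rw [mcorr_comm hN, mul_comm ((n : ℝ) - j)]] at b
  rw [abs_le] at a b c ⊢
  constructor <;> linarith [a.1, a.2, b.1, b.2, c.1, c.2]

end Pool.Agent.MP_43e117_nt
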