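import Mathlib
import Pool.Agent.MP_43e117_nt.TRep
import Pool.Agent.MP_43e117_nt.TRepL

/- Twin primes of `F[X]`: the regions of the decomposition. -/

set_option autoImplicit false
set_option linter.unusedSectionVars false

namespace Pool.Agent.MP_43e117_nt

open Polynomial Finset Pool.Agent.MP_4fffd4_nt Pool.Agent.MP_c853c5_nt
open scoped BigOperators

variable {F : Type*} [Field F] [Fintype F]

/-- The three analytic estimates. -/
structure Est (h : F[X]) (n G E : ℕ) (δ : ℝ) : Prop where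
  K : ∀ (I I' : ℕ) (α β : F[X] → ℝ), Bd I α → Bd I' β →
    (I + I' ≤ n ∨ (2 * I ≤ n + G ∧ 2 * I' ≤ n + G)) →
    |corr h n (up α I) (up β I') - qq F n * mcorr h (5 * n) (up α I) (up β I')| ≤ δ
  L : ∀ i ε₁ ε₂ μ κ : ℕ, i + ε₁ + ε₂ = n → μ + κ = n →
    (ε₁ + E ≤ κ ∧ 2 * κ + 4 * ε₂ + E ≤ n ∨ ε₁ + ε₂ + E ≤ κ ∧ 2 * κ + E ≤ n) →
    ∀ α₁ β₁ α₂ β₂ : F[X] → ℝ, Bd μ α₁ → Bd κ β₁ → Bd ε₁ α₂ →
      (∀ e ∈ monF F ε₂, |β₂ e| ≤ ind (Squarefree e)) →
      |corr h n (cv α₁ β₁ μ κ) (cv3 lam α₂ β₂ i ε₁ ε₂)| ≤ δ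
  U : ∀ i ε₁ ε₂ κ : ℕ, i + ε₁ + ε₂ = n → n ≤ 2 * i → κ + E ≤ i →
    2 * κ + E ≤ n → ∀ β₁ α₂ β₂ : F[X] → ℝ, Bd κ β₁ → Bd ε₁ α₂ → Bd ε₂ β₂ →
      |corr h n (up β₁ κ) (cv3 lam α₂ β₂ i ε₁ ε₂)| ≤ δ

namespace TReg

variable {h : F[X]} {n : ℕ}

theorem add_mem (hn : h.degree < n) {f : F[X]} (hf : f ∈ monF F n) : f + h ∈ monF F n := by
  obtain ⟨h1, h2⟩ := mem_monF.1 hf
  have : h.degree < f.degree := by rwa [degree_eq_natDegree h1.ne_zero, h2]
  exact mem_monF.2 ⟨h1.add_of_left this, by rw [natDegree_add_eq_left_of_degree_lt this, h2]⟩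

theorem corr_sum_right {ι : Type*} (s : Finset ι) (Ψ : F[X] → ℝ) (Φ : ι → F[X] → ℝ) :
    corr h n Ψ (fun f => ∑ x ∈ s, Φ x f) = ∑ x ∈ s, corr h n Ψ (Φ x) := by
  simp only [corr, Finset.mul_sum]
  exact Finset.sum_comm

theorem corr_sum_left {ι : Type*} (s : Finset ι) (Ψ : F[X] → ℝ) (Φ : ι → F[X] → ℝ) :
    corr h n (fun f => ∑ x ∈ s, Φ x f) Ψ = ∑ x ∈ s, corr h n (Φ x) Ψ := by
  simp only [corr, Finset.sum_mul]
  exact Finset.sum_comm

theorem corr_mul_right (c : ℝ) (Ψ Φ : F[X] → ℝ) :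
    corr h n Ψ (fun f => c * Φ f) = c * corr h n Ψ Φ := by
  simp only [corr, Finset.mul_sum]
  exact Finset.sum_congr rfl fun _ _ => by ring

theorem corr_mul_left (c : ℝ) (Ψ Φ : F[X] → ℝ) :
    corr h n (fun f => c * Φ f) Ψ = c * corr h n Φ Ψ := by
  simp only [corr, Finset.mul_sum]
  exact Finset.sum_congr rfl fun _ _ => by ring

theorem corr_congr_right (hn : h.degree < n) (Ψ : F[X] → ℝ) {Φ Φ' : F[X] → ℝ}
    (H : ∀ f ∈ monF F n, Φ f = Φ' f) : corr h n Ψ Φ = corr h n Ψ Φ' :=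
  Finset.sum_congr rfl fun f hf => by rw [H _ (add_mem hn hf)]

theorem corr_congr_left (Ψ : F[X] → ℝ) {Φ Φ' : F[X] → ℝ}
    (H : ∀ f ∈ monF F n, Φ f = Φ' f) : corr h n Φ Ψ = corr h n Φ' Ψ :=
  Finset.sum_congr rfl fun f hf => by rw [H _ hf]

theorem pert_right (hn : h.degree < n) {Ψ Φ Φ' : F[X] → ℝ} {A c : ℝ} (hA : 0 ≤ A) (hc : 0 ≤ c)
    {T : ℕ} (hΨ : ∀ f ∈ monF F n, |Ψ f| ≤ A)
    (H : ∀ f ∈ monF F n, |Φ f - Φ' f| ≤ ind (Sq T f) * c) :
    |corr h n Ψ Φ - corr h n Ψ Φ'| ≤ A * c * (2 * qq F n / qq F T) := by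
  unfold corr
  rw [← Finset.sum_sub_distrib]
  refine (Finset.abs_sum_le_sum_abs _ _).trans ((Finset.sum_le_sum
    (g := fun f => A * c * ind (Sq T (f + h))) fun f hf => ?_).trans ?_)
  · rw [← mul_sub, abs_mul, mul_assoc, mul_comm c]
    exact mul_le_mul (hΨ f hf) (H _ (add_mem hn hf)) (abs_nonneg _) hA
  · rw [← Finset.mul_sum, sum_monF_shift hn fun f => ind (Sq T f)]
    exact mul_le_mul_of_nonneg_left (sum_Sq n T) (mul_nonneg hA hc)

theorem pert_left [CharP F 2] (hn : h.degree < n) {Ψ Φ Φ' : F[X] → ℝ} {A c : ℝ} (hA : 0 ≤ A)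
    (hc : 0 ≤ c) {T : ℕ} (hΨ : ∀ f ∈ monF F n, |Ψ f| ≤ A)
    (H : ∀ f ∈ monF F n, |Φ f - Φ' f| ≤ ind (Sq T f) * c) :
    |corr h n Φ Ψ - corr h n Φ' Ψ| ≤ A * c * (2 * qq F n / qq F T) := by
  rw [corr_comm hn Φ, corr_comm hn Φ']
  exact pert_right hn hA hc hΨ H

theorem up_scale {A : ℝ} (hA : A ≠ 0) (c : F[X] → ℝ) (I : ℕ) (f : F[X]) :
    up c I f = A * up (fun D => c D / A) I f := by
  simp only [up, Finset.mul_sum]
  exact Finset.sum_congr rfl fun _ _ => by field_simp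

theorem cv_scale {A : ℝ} (hA : A ≠ 0) (a b : F[X] → ℝ) (i j : ℕ) (f : F[X]) :
    cv a b i j f = A ^ 2 * cv (fun D => a D / A) (fun D => b D / A) i j f := by
  simp only [cv, Finset.mul_sum]
  exact Finset.sum_congr rfl fun _ _ => Finset.sum_congr rfl fun _ _ => by field_simp

theorem cv3_scale {A : ℝ} (hA : A ≠ 0) (a b c : F[X] → ℝ) (i j k : ℕ) (f : F[X]) :
    cv3 a b c i j k f = A ^ 2 * cv3 a (fun D => b D / A) (fun D => c D / A) i j k f := by
  simp only [cv3, Finset.mul_sum]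
  exact Finset.sum_congr rfl fun _ _ => Finset.sum_congr rfl fun _ _ =>
    Finset.sum_congr rfl fun _ _ => by field_simp

theorem abs_div_le {x A c : ℝ} (hA : 0 < A) (hx : |x| ≤ A * c) : |x / A| ≤ c := by
  rwa [abs_div, abs_of_pos hA, div_le_iff₀' hA]

variable {R T : ℕ} {Q : ℝ} {ν κ : F[X] → ℝ}

theorem nl_sub_tr (hν : Lev n R Q ν κ) (hτ : DivB F Q n) (i : ℕ) {f : F[X]} (hf : f ∈ monF F n) :
    |nl ν i f - tr κ (R + 2 * T) i f| ≤ ind (Sq T f) * (2 * (Q * Q)) := by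
  by_cases hT : Sq T f
  · rw [ind_pos hT, one_mul, two_mul (Q * Q)]
    exact (abs_sub _ _).trans (add_le_add (abs_nl_le hν hτ i hf) (abs_tr_le hν hτ _ i hf))
  · rw [nl_eq_tr hν i hf hT, sub_self, abs_zero, ind_neg hT, zero_mul]

theorem tr_eq (hν : Lev n R Q ν κ) (hτ : DivB F Q n) {i R' : ℕ} (hi : i + R' ≤ n) :
    ∃ c : F[X] → ℝ, (∀ t ∈ range (R' + 1), Bd (i + t) c) ∧
      tr κ R' i = fun f => ∑ t ∈ range (R' + 1), Q ^ 2 * up c (i + t) f := by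
  have hQ : 0 < Q := one_pos.trans_le hτ.one_le
  obtain ⟨c, h1, h2⟩ := tr_eq_up hν hτ hi
  refine ⟨fun D => c D / Q ^ 2, fun t ht D hD => abs_div_le (by positivity) ?_,
    funext fun f => ?_⟩
  · obtain ⟨a1, a2⟩ := mem_monF.1 hD
    have := mem_range.1 ht
    rw [mul_one, sq]
    exact h1 D a1 (by omega)
  · rw [h2]
    exact Finset.sum_congr rfl fun t _ => up_scale (by positivity) c _ f

theorem regA [CharP F 2] (hn : h.degree < n) {G E : ℕ} {δ : ℝ} (hE : Est h n G E δ)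
    (hν : Lev n R Q ν κ) (hτ : DivB F Q n) (hQ : (n : ℝ) + 2 ≤ Q) {i i' : ℕ}
    (hi : i + (R + 2 * T) ≤ n) (hi' : i' + (R + 2 * T) ≤ n)
    (hc : i + i' + 2 * (R + 2 * T) ≤ n ∨
      (2 * (i + (R + 2 * T)) ≤ n + G ∧ 2 * (i' + (R + 2 * T)) ≤ n + G)) :
    |corr h n (nl ν i) (nl ν i') -
      qq F n * mcorr h (5 * n) (tr κ (R + 2 * T) i) (tr κ (R + 2 * T) i')| ≤
      Q ^ 6 * δ + 4 * Q ^ 4 * (2 * qq F n / qq F T) := by
  have hQ0 : 0 < Q := one_pos.trans_le hτ.one_le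
  have h1 := pert_left hn (by positivity) (by positivity) (fun f hf => abs_nl_le hν hτ i' hf)
    fun f hf => nl_sub_tr (T := T) hν hτ i hf
  have h2 := pert_right hn (by positivity) (by positivity)
    (fun f hf => abs_tr_le hν hτ (R + 2 * T) i hf) fun f hf => nl_sub_tr (T := T) hν hτ i' hf
  have h3 : |corr h n (tr κ (R + 2 * T) i) (tr κ (R + 2 * T) i') -
      qq F n * mcorr h (5 * n) (tr κ (R + 2 * T) i) (tr κ (R + 2 * T) i')| ≤ Q ^ 6 * δ := by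
    obtain ⟨c, a1, a2⟩ := tr_eq hν hτ hi
    obtain ⟨c', a1', a2'⟩ := tr_eq hν hτ hi'
    have e : corr h n (tr κ (R + 2 * T) i) (tr κ (R + 2 * T) i') -
        qq F n * mcorr h (5 * n) (tr κ (R + 2 * T) i) (tr κ (R + 2 * T) i') =
        ∑ t ∈ range (R + 2 * T + 1), ∑ t' ∈ range (R + 2 * T + 1), Q ^ 4 *
          (corr h n (up c (i + t)) (up c' (i' + t')) -
            qq F n * mcorr h (5 * n) (up c (i + t)) (up c' (i' + t'))) := by
      rw [a2, a2', corr_sum_left]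
      simp only [corr_sum_right, corr_mul_left, corr_mul_right, mcorr, Finset.sum_mul_sum,
        Finset.expect_sum_comm]
      simp only [mul_sub, Finset.sum_sub_distrib, Finset.mul_sum, Finset.mul_expect]
      congr 1
      · exact Finset.sum_congr rfl fun _ _ => Finset.sum_congr rfl fun _ _ => by ring
      · exact Finset.sum_congr rfl fun _ _ => Finset.sum_congr rfl fun _ _ =>
          Finset.expect_congr rfl fun _ _ => by ring
    have hδ : 0 ≤ δ := (abs_nonneg _).trans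
      (hE.K 0 0 (fun _ => 0) (fun _ => 0) (fun _ _ => by simp) (fun _ _ => by simp) (by omega))
    have hR : ((R + 2 * T + 1 : ℕ) : ℝ) ≤ Q := le_trans (by exact_mod_cast (by omega)) hQ
    rw [e]
    refine (Finset.abs_sum_le_sum_abs _ _).trans ((Finset.sum_le_card_nsmul _ _
      (Q * (Q ^ 4 * δ)) fun t ht => (Finset.abs_sum_le_sum_abs _ _).trans
        ((Finset.sum_le_card_nsmul _ _ (Q ^ 4 * δ) fun t' ht' => ?_).trans ?_)).trans ?_)
    · rw [abs_mul, abs_of_pos (by positivity)]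
      have := mem_range.1 ht
      have := mem_range.1 ht'
      exact mul_le_mul_of_nonneg_left (hE.K _ _ _ _ (a1 t ht) (a1' t' ht') (by omega))
        (by positivity)
    · rw [card_range, nsmul_eq_mul]
      gcongr
    · rw [card_range, nsmul_eq_mul]
      calc _ ≤ Q * (Q * (Q ^ 4 * δ)) := by gcongr
        _ = _ := by ring
  have h4 := abs_sub_le (corr h n (nl ν i) (nl ν i')) (corr h n (tr κ (R + 2 * T) i) (nl ν i'))
    (qq F n * mcorr h (5 * n) (tr κ (R + 2 * T) i) (tr κ (R + 2 * T) i'))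
  have h5 := abs_sub_le (corr h n (tr κ (R + 2 * T) i) (nl ν i'))
    (corr h n (tr κ (R + 2 * T) i) (tr κ (R + 2 * T) i'))
    (qq F n * mcorr h (5 * n) (tr κ (R + 2 * T) i) (tr κ (R + 2 * T) i'))
  linarith [show Q * Q * (2 * (Q * Q)) * (2 * qq F n / qq F T) =
    2 * Q ^ 4 * (2 * qq F n / qq F T) by ring]

variable {ι : Type} {Z : Finset ι} {a b α : ι → F[X] → ℝ}

theorem side (hn : h.degree < n) (hs : Sieve n R Q ν κ Z a b α) (hτ : DivB F Q n)
    (hQ : (n : ℝ) + 2 ≤ Q) {i m : ℕ} (hm : i + m = n) (hi : R + 2 * T ≤ i) {Ψ : F[X] → ℝ}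
    (hΨ : ∀ f ∈ monF F n, |Ψ f| ≤ Q) {Y : ℝ} (hY0 : 0 ≤ Y)
    (hY : ∀ σ j, σ < T → j ≤ R → ∀ α₂ β₂ : F[X] → ℝ, Bd (m + 2 * σ) α₂ →
      (∀ e ∈ monF F j, |β₂ e| ≤ ind (Squarefree e)) →
      |corr h n Ψ (cv3 lam α₂ β₂ (i - j - 2 * σ) (m + 2 * σ) j)| ≤ Y) :
    |corr h n Ψ (nl ν i)| ≤ qq F T * Q ^ 4 * Y + Q ^ 8 * (2 * qq F n / qq F T) := by
  have hQ0 : 0 < Q := one_pos.trans_le hτ.one_le
  have hq := qq_pos (F := F) n
  have hq' := qq_pos (F := F) T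
  have hR : (R : ℝ) + 2 ≤ Q := le_trans (by exact_mod_cast (by omega)) hQ
  rw [corr_congr_right hn Ψ fun f hf => nl_eq_cv hs hm hf, corr_sum_right]
  refine (Finset.abs_sum_le_sum_abs _ _).trans ((Finset.sum_le_card_nsmul _ _
    (qq F T * Q ^ 3 * Y + Q ^ 7 * (2 * qq F n / qq F T)) fun z hz => ?_).trans ?_)
  · obtain ⟨b', c, h1, h2, h3⟩ := cv_eq_cv3 (T := T) (hs.leva z hz) (b := b z) (m := m)
      (fun e he => hs.bdb z hz e (mem_monF.1 he).1 (by rw [(mem_monF.1 he).2]; omega)) hτ hm hi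
    have h4 := pert_right hn hQ0.le (by positivity) hΨ h3
    have h5 : |corr h n Ψ fun f => ∑ σ ∈ range T, ∑ s ∈ monF F σ, ∑ j ∈ range (R + 1),
        cv3 lam (b' s) (c s) (i - j - 2 * σ) (m + 2 * σ) j f| ≤ qq F T * Q ^ 3 * Y := by
      rw [corr_sum_right]
      refine (Finset.abs_sum_le_sum_abs _ _).trans ((Finset.sum_le_sum
        (g := fun σ => qq F σ * (Q ^ 3 * Y)) fun σ hσ => ?_).trans ?_)
      · rw [corr_sum_right, ← sum_one_monF, Finset.sum_mul]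
        refine (Finset.abs_sum_le_sum_abs _ _).trans (Finset.sum_le_sum fun s _ => ?_)
        rw [corr_sum_right]
        refine (Finset.abs_sum_le_sum_abs _ _).trans ((Finset.sum_le_card_nsmul _ _
          (Q ^ 2 * Y) fun j hj => ?_).trans ?_)
        · rw [funext (cv3_scale hQ0.ne' lam (b' s) (c s) _ _ _), corr_mul_right, abs_mul,
            abs_of_pos (by positivity)]
          exact mul_le_mul_of_nonneg_left (hY σ j (mem_range.1 hσ)
            (Nat.lt_succ_iff.1 (mem_range.1 hj)) _ _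
            (fun e _ => abs_div_le hQ0 (by rw [mul_one]; exact h1 s e))
            fun e _ => abs_div_le hQ0 (h2 s e)) (by positivity)
        · rw [card_range, nsmul_eq_mul]
          push_cast
          calc _ ≤ Q * (Q ^ 2 * Y) := by gcongr; linarith
            _ = _ := by ring
      · rw [← Finset.sum_mul, mul_assoc]
        exact mul_le_mul_of_nonneg_right (sum_range_qq T) (by positivity)
    have h6 : Q * ((R + 2) * Q ^ 3 * Q ^ 2) * (2 * qq F n / qq F T) ≤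
        Q ^ 7 * (2 * qq F n / qq F T) := by
      calc _ ≤ Q * (Q * Q ^ 3 * Q ^ 2) * (2 * qq F n / qq F T) := by gcongr
        _ = _ := by ring
    have h7 := abs_sub_abs_le_abs_sub (corr h n Ψ (cv (fun d => mu d * a z d) (b z) i m))
      (corr h n Ψ fun f => ∑ σ ∈ range T, ∑ s ∈ monF F σ, ∑ j ∈ range (R + 1),
        cv3 lam (b' s) (c s) (i - j - 2 * σ) (m + 2 * σ) j f)
    linarith
  · rw [nsmul_eq_mul]
    calc _ ≤ Q * (qq F T * Q ^ 3 * Y + Q ^ 7 * (2 * qq F n / qq F T)) := by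
          gcongr; exact hs.cardZ
      _ = _ := by ring

theorem regU [CharP F 2] (hn : h.degree < n) {G E : ℕ} {δ : ℝ} (hδ : 0 ≤ δ) (hE : Est h n G E δ)
    (hs : Sieve n R Q ν κ Z a b α) (hτ : DivB F Q n) (hQ : (n : ℝ) + 2 ≤ Q) {i i' : ℕ}
    (hi : i ≤ n) (h1 : n + E + 2 * (R + 2 * T) ≤ 2 * i) (h2 : 2 * i' + 2 * (R + 2 * T) + E ≤ n) :
    |corr h n (nl ν i') (nl ν i)| ≤
      qq F T * Q ^ 7 * δ + (Q ^ 11 + 2 * Q ^ 4) * (2 * qq F n / qq F T) := by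
  have hQ0 : 0 < Q := one_pos.trans_le hτ.one_le
  have hq := qq_pos (F := F) n
  have hq' := qq_pos (F := F) T
  have h3 := pert_left hn (by positivity) (by positivity) (fun f hf => abs_nl_le hs.lev hτ i hf)
    fun f hf => nl_sub_tr (T := T) hs.lev hτ i' hf
  obtain ⟨c, a1, a2⟩ := tr_eq (R' := R + 2 * T) (i := i') hs.lev hτ (by omega)
  have h4 : |corr h n (tr κ (R + 2 * T) i') (nl ν i)| ≤
      Q * (Q ^ 2 * (qq F T * Q ^ 4 * δ + Q ^ 8 * (2 * qq F n / qq F T))) := by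
    rw [a2, corr_sum_left]
    refine (Finset.abs_sum_le_sum_abs _ _).trans ((Finset.sum_le_card_nsmul _ _
      (Q ^ 2 * (qq F T * Q ^ 4 * δ + Q ^ 8 * (2 * qq F n / qq F T))) fun t ht => ?_).trans ?_)
    · have := mem_range.1 ht
      rw [corr_mul_left, abs_mul, abs_of_pos (by positivity)]
      refine mul_le_mul_of_nonneg_left (side (m := n - i) hn hs hτ hQ (by omega) (by omega)
        (fun f hf => ?_) hδ fun σ j hσ hj α₂ β₂ b1 b2 => hE.U _ _ _ _ (by omega) (by omega)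
          (by omega) (by omega) _ _ _ (a1 t ht) b1
            fun e he => (b2 e he).trans (ind_le_one _)) (by positivity)
      simpa using abs_up_le hτ (a1 t ht) (mem_monF.1 hf).1.ne_zero (mem_monF.1 hf).2.le
    · have hR : ((R + 2 * T + 1 : ℕ) : ℝ) ≤ Q := le_trans (by exact_mod_cast (by omega)) hQ
      rw [card_range, nsmul_eq_mul]
      gcongr
  have h5 := abs_sub_abs_le_abs_sub (corr h n (nl ν i') (nl ν i))
    (corr h n (tr κ (R + 2 * T) i') (nl ν i))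
  linarith [show Q * Q * (2 * (Q * Q)) * (2 * qq F n / qq F T) + Q * (Q ^ 2 *
    (qq F T * Q ^ 4 * δ + Q ^ 8 * (2 * qq F n / qq F T))) =
    qq F T * Q ^ 7 * δ + (Q ^ 11 + 2 * Q ^ 4) * (2 * qq F n / qq F T) by ring]

theorem regL (hn : h.degree < n) {G E : ℕ} {δ : ℝ} (hδ : 0 ≤ δ) (hE : Est h n G E δ)
    (hs : Sieve n R Q ν κ Z a b α) (hτ : DivB F Q n) (hQ : (n : ℝ) + 2 ≤ Q) {i i' m m' k : ℕ}
    (hm : i + m = n) (hm' : i' + m' = n) (hi : R + 2 * T ≤ i) (hk : k = i' ∨ k = m')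
    (hc : m + 2 * T + E ≤ k ∧ 2 * k + 4 * R + E ≤ n ∨ m + (R + 2 * T) + E ≤ k ∧ 2 * k + E ≤ n) :
    |corr h n (nl ν i') (nl ν i)| ≤ qq F T * Q ^ 7 * δ + Q ^ 11 * (2 * qq F n / qq F T) := by
  have hQ0 : 0 < Q := one_pos.trans_le hτ.one_le
  have hq := qq_pos (F := F) n
  have hq' := qq_pos (F := F) T
  rw [corr_congr_left _ fun f hf => nl_eq_cv hs hm' hf, corr_sum_left]
  refine (Finset.abs_sum_le_sum_abs _ _).trans ((Finset.sum_le_card_nsmul _ _
    (Q ^ 2 * (qq F T * Q ^ 4 * δ + Q ^ 8 * (2 * qq F n / qq F T))) fun z hz => ?_).trans ?_)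
  · have b1 : Bd i' fun d => mu d * a z d / Q := fun d hd => abs_div_le hQ0 (by
      rw [abs_mul, mul_comm Q]
      exact mul_le_mul (abs_mu_le d) ((hs.leva z hz).abs_le (mem_monF.1 hd).1
        (by rw [(mem_monF.1 hd).2]; omega)) (abs_nonneg _) zero_le_one)
    have b2 : Bd m' fun d => b z d / Q := fun d hd => abs_div_le hQ0 (by
      rw [mul_one]
      exact hs.bdb z hz d (mem_monF.1 hd).1 (by rw [(mem_monF.1 hd).2]; omega))
    rw [funext (cv_scale hQ0.ne' (fun d => mu d * a z d) (b z) i' m'), corr_mul_left, abs_mul,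
      abs_of_pos (by positivity)]
    refine mul_le_mul_of_nonneg_left (side hn hs hτ hQ hm hi (fun f _ => ?_) hδ
      fun σ j hσ hj α₂ β₂ b3 b4 => ?_) (by positivity)
    · simpa using abs_cv_le hτ b1 b2 hm'.le f
    · rcases hk with rfl | rfl
      · rw [_root_.funext (cv_comm _ _ k m')]
        exact hE.L _ _ _ _ _ (by omega) (by omega) (by omega) _ _ _ _ b2 b1 b3 b4
      · exact hE.L _ _ _ _ _ (by omega) (by omega) (by omega) _ _ _ _ b1 b2 b3 b4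
  · rw [nsmul_eq_mul]
    calc _ ≤ Q * (Q ^ 2 * (qq F T * Q ^ 4 * δ + Q ^ 8 * (2 * qq F n / qq F T))) := by
          gcongr; exact hs.cardZ
      _ = _ := by ring

end TReg

end Pool.Agent.MP_43e117_nt
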