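import Mathlib
import Pool.Agent.MP_43e117_nt.TReg
import Pool.Agent.MP_43e117_nt.TMain

/- Twin primes of `F[X]`: summation over all pieces. -/

set_option autoImplicit false
set_option linter.unusedSectionVars false

namespace Pool.Agent.MP_43e117_nt

open Polynomial Finset Pool.Agent.MP_4fffd4_nt Pool.Agent.MP_c853c5_nt
open scoped BigOperators

variable {F : Type*} [Field F] [Fintype F]

namespace TSum

open TReg

/-- The thin strips that are estimated by the sieve. -/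
def Strip (n E i i' : ℕ) : Prop :=
  (n < 2 * i + E ∧ 2 * i < n + E) ∨ (n < 2 * i' + E ∧ 2 * i' < n + E) ∨ (i < i' + E ∧ i' < i + E)

theorem sum_ind_le_card {s : Finset ℕ} {P : ℕ → Prop} {a E : ℕ} (h : ∀ i, P i → a ≤ i ∧ i < a + E) :
    ∑ i ∈ s, ind (P i) ≤ E := by
  classical
  rw [show ∑ i ∈ s, ind (P i) = ((s.filter P).card : ℝ) by
    rw [Finset.card_filter]; push_cast
    exact Finset.sum_congr rfl fun _ _ => by unfold ind; congr]
  exact_mod_cast (Finset.card_le_card (t := Ico a (a + E)) fun i hi =>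
    mem_Ico.2 (h i (mem_filter.1 hi).2)).trans (by simp)

theorem sum_strip (n E : ℕ) : ∑ i ∈ range n, ∑ i' ∈ range n, ind (Strip n E i i') ≤ 4 * E * n := by
  have h1 : ∑ i ∈ range n, ind (n < 2 * i + E ∧ 2 * i < n + E) ≤ E :=
    sum_ind_le_card (a := (n + 1 - E) / 2) fun i hi => by omega
  have h2 : ∀ i, ∑ i' ∈ range n, ind (i < i' + E ∧ i' < i + E) ≤ (2 * E : ℕ) := fun i =>
    sum_ind_le_card (a := i + 1 - E) fun i' hi => by omega
  calc _ ≤ ∑ i ∈ range n, ∑ i' ∈ range n, (ind (n < 2 * i + E ∧ 2 * i < n + E) +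
        (ind (n < 2 * i' + E ∧ 2 * i' < n + E) + ind (i < i' + E ∧ i' < i + E))) :=
        Finset.sum_le_sum fun i _ => Finset.sum_le_sum fun i' _ =>
          (ind_le_add id).trans (add_le_add le_rfl (ind_le_add id))
    _ ≤ ∑ i ∈ range n, (n * ind (n < 2 * i + E ∧ 2 * i < n + E) + (E + 2 * E)) := by
        refine Finset.sum_le_sum fun i _ => ?_
        rw [Finset.sum_add_distrib, Finset.sum_add_distrib, Finset.sum_const, card_range,
          nsmul_eq_mul]
        exact add_le_add le_rfl (add_le_add h1 (by exact_mod_cast h2 i))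
    _ ≤ _ := by
        rw [Finset.sum_add_distrib, ← Finset.mul_sum, Finset.sum_const, card_range, nsmul_eq_mul]
        nlinarith [(Nat.cast_nonneg n : (0 : ℝ) ≤ n)]

variable [CharP F 2] {h : F[X]} {n R T G E : ℕ} {Q δ : ℝ} {ν κ : F[X] → ℝ} {ι : Type}
  {Z : Finset ι} {a b α : ι → F[X] → ℝ}

theorem cases (hn : h.degree < n) (hδ : 0 ≤ δ) (hE : Est h n G E δ)
    (hs : Sieve n R Q ν κ Z a b α) (hτ : DivB F Q n) (hQ : (n : ℝ) + 2 ≤ Q)
    (hG : 20 * (R + 2 * T) + 20 * E ≤ G) (hG' : G ≤ n) {i i' : ℕ} (hi : i < n) (hi' : i' ≤ i)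
    {ε : ℝ} (hε : qq F T * Q ^ 7 * δ + 5 * Q ^ 11 * (2 * qq F n / qq F T) ≤ ε) :
    (Strip n (E + 2 * T) i i' ∧ n + 2 * R ≤ i + i') ∨
      |corr h n (nl ν i') (nl ν i) -
        qq F n * mcorr h (5 * n) (tr κ (R + 2 * T) i') (tr κ (R + 2 * T) i)| ≤ ε ∨
      (2 * (R + 2 * T) ≤ i ∧ |corr h n (nl ν i') (nl ν i)| ≤ ε) := by
  have hQ1 := hτ.one_le
  have hq : 0 < 2 * qq F n / qq F T := by
    have := qq_pos (F := F) n
    have := qq_pos (F := F) T
    positivity
  have h4 : Q ^ 4 ≤ Q ^ 11 := pow_le_pow_right₀ hQ1 (by norm_num)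
  have h11 : 0 ≤ Q ^ 11 * (2 * qq F n / qq F T) := by positivity
  have h4' := mul_le_mul_of_nonneg_right h4 hq.le
  by_cases hA : i + i' + 2 * (R + 2 * T) ≤ n ∨ 2 * (i + (R + 2 * T)) ≤ n + G
  · refine Or.inr (Or.inl ((regA hn hE hs.lev hτ hQ (by omega) (by omega) (by omega)).trans ?_))
    have : Q ^ 6 * δ ≤ qq F T * Q ^ 7 * δ := by
      calc _ = 1 * Q ^ 6 * δ := by ring
        _ ≤ _ := by
          gcongr
          · exact (qq_pos _).le
          · exact one_le_qq _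
          · norm_num
    linarith
  by_cases hU : 2 * i' + 2 * (R + 2 * T) + E ≤ n
  · exact Or.inr (Or.inr ⟨by omega, (regU hn hδ hE hs hτ hQ hi.le (by omega) hU).trans
      (by linarith)⟩)
  by_cases hS : Strip n (E + 2 * T) i i'
  · refine Or.inl ⟨hS, ?_⟩
    unfold Strip at hS
    omega
  unfold Strip at hS
  refine Or.inr (Or.inr ⟨by omega, ?_⟩)
  by_cases hL : 2 * i' + E ≤ n
  · exact (regL (T := T) (m := n - i) (m' := n - i') (k := i') hn hδ hE hs hτ hQ (by omega)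
      (by omega) (by omega) (Or.inl rfl) (by omega)).trans (by linarith)
  · exact (regL (T := T) (m := n - i) (m' := n - i') (k := n - i') hn hδ hE hs hτ hQ (by omega)
      (by omega) (by omega) (Or.inr rfl) (by omega)).trans (by linarith)

theorem abs_corr_nl (hν : ∀ f, 0 ≤ ν f) (i i' : ℕ) : |corr h n (nl ν i) (nl ν i')| ≤
    corr h n (fun f => ν f * up (fun d => |mu d|) i f) fun f => ν f * up (fun d => |mu d|) i' f := by
  have key : ∀ i f, |nl ν i f| ≤ ν f * up (fun d => |mu d|) i f := fun i f => by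
    rw [nl, abs_mul, abs_of_nonneg (hν f)]
    refine mul_le_mul_of_nonneg_left ((Finset.abs_sum_le_sum_abs _ _).trans_eq ?_) (hν f)
    exact Finset.sum_congr rfl fun D _ => by rw [abs_mul, abs_of_nonneg (ind_nonneg _)]
  refine (Finset.abs_sum_le_sum_abs _ _).trans (Finset.sum_le_sum fun f _ => ?_)
  rw [abs_mul]
  exact mul_le_mul (key _ _) (key _ _) (abs_nonneg _) ((abs_nonneg _).trans (key _ _))

theorem term (hn : h.natDegree < n) (hδ : 0 ≤ δ) (hE : Est h n G E δ)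
    (hs : Sieve n R Q ν κ Z a b α) (hτ : DivB F Q n) (hQ : (n : ℝ) + 2 ≤ Q)
    (hG : 20 * (R + 2 * T) + 20 * E ≤ G) (hG' : G ≤ n) {C : ℝ} (hC : 0 ≤ C) (hM : Mass h n R C ν)
    {ε ε' : ℝ} (hε : qq F T * Q ^ 7 * δ + 5 * Q ^ 11 * (2 * qq F n / qq F T) ≤ ε)
    (hε' : ∀ i i', i < n → i' < n → 2 * (R + 2 * T) ≤ i →
      |mcorr h (5 * n) (tr κ (R + 2 * T) i) (tr κ (R + 2 * T) i')| ≤ ε') (hε0 : 0 ≤ ε')
    {i i' : ℕ} (hi : i < n) (hi' : i' < n) :
    |((n : ℝ) - i) * ((n : ℝ) - i') * (corr h n (nl ν i) (nl ν i') -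
      ind (i < 2 * (R + 2 * T)) * (ind (i' < 2 * (R + 2 * T)) *
        (qq F n * mcorr h (5 * n) (tr κ (R + 2 * T) i) (tr κ (R + 2 * T) i'))))| ≤
      n ^ 2 * (ε + qq F n * ε') + ind (Strip n (E + 2 * T) i i') * (C * qq F n / (n : ℝ) ^ 2) := by
  have hd : h.degree < n := degree_le_natDegree.trans_lt (by exact_mod_cast hn)
  have hd5 : h.degree < (5 * n : ℕ) := hd.trans_le (by exact_mod_cast (by omega))
  have hq := qq_pos (F := F) n
  have hq' := qq_pos (F := F) T
  have hQ0 : 0 < Q := one_pos.trans_le hτ.one_le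
  have hε1 : 0 ≤ ε := le_trans (by positivity) hε
  wlog hle : i ≤ i' generalizing i i'
  · have := this hi' hi (by omega)
    rw [corr_comm hd, mcorr_comm hd5, mul_left_comm (ind _), mul_comm ((n : ℝ) - i')] at this
    refine this.trans (add_le_add le_rfl (mul_le_mul_of_nonneg_right (ind_mono ?_) (by positivity)))
    unfold Strip
    omega
  have a1 : (0 : ℝ) ≤ n - i := sub_nonneg.2 (by exact_mod_cast hi.le)
  have a2 : (0 : ℝ) ≤ n - i' := sub_nonneg.2 (by exact_mod_cast hi'.le)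
  have a3 : ((n : ℝ) - i) * (n - i') ≤ n ^ 2 := by
    rw [sq]
    exact mul_le_mul (sub_le_self _ (Nat.cast_nonneg _)) (sub_le_self _ (Nat.cast_nonneg _)) a2
      (Nat.cast_nonneg _)
  have a4 : 0 ≤ ind (Strip n (E + 2 * T) i i') * (C * qq F n / (n : ℝ) ^ 2) :=
    mul_nonneg (ind_nonneg _) (by positivity)
  have a5 : ∀ x : ℝ, |x| ≤ ε + qq F n * ε' → |((n : ℝ) - i) * (n - i') * x| ≤
      n ^ 2 * (ε + qq F n * ε') + ind (Strip n (E + 2 * T) i i') * (C * qq F n / (n : ℝ) ^ 2) :=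
    fun x hx => by
      rw [abs_mul, abs_of_nonneg (mul_nonneg a1 a2)]
      exact (mul_le_mul a3 hx (abs_nonneg _) (by positivity)).trans (le_add_of_nonneg_right a4)
  rcases cases hd hδ hE hs hτ hQ hG hG' hi' hle hε with ⟨h1, h2⟩ | h1 | ⟨h1, h2⟩
  · rw [ind_neg (P := i' < 2 * (R + 2 * T)) (by omega), zero_mul, mul_zero, sub_zero, abs_mul,
      abs_of_nonneg (mul_nonneg a1 a2), ind_pos (P := Strip n (E + 2 * T) i i') (by
        unfold Strip at h1 ⊢; omega), one_mul]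
    refine le_trans ?_ (le_add_of_nonneg_left (by positivity))
    exact (mul_le_mul_of_nonneg_left (abs_corr_nl hs.nonneg i i') (mul_nonneg a1 a2)).trans
      (hM i i' hi hi' (by omega))
  · refine a5 _ ?_
    by_cases h2 : i' < 2 * (R + 2 * T)
    · rw [ind_pos h2, ind_pos (P := i < 2 * (R + 2 * T)) (by omega), one_mul, one_mul]
      exact h1.trans (le_add_of_nonneg_right (by positivity))
    · rw [ind_neg h2, zero_mul, mul_zero, sub_zero]
      have h3 := hε' i' i hi' hi (by omega)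
      rw [mcorr_comm hd5] at h3
      have h4 := abs_sub_abs_le_abs_sub (corr h n (nl ν i) (nl ν i'))
        (qq F n * mcorr h (5 * n) (tr κ (R + 2 * T) i) (tr κ (R + 2 * T) i'))
      rw [abs_mul, abs_of_pos hq] at h4
      have h5 := mul_le_mul_of_nonneg_left h3 hq.le
      linarith
  · refine a5 _ ?_
    rw [ind_neg (P := i' < 2 * (R + 2 * T)) (by omega), zero_mul, mul_zero, sub_zero]
    exact h2.trans (le_add_of_nonneg_right (by positivity))

theorem sum_ind_lt {I n : ℕ} (hI : I ≤ n) (φ : ℕ → ℝ) :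
    ∑ i ∈ range n, ind (i < I) * φ i = ∑ i ∈ range I, φ i := by
  rw [← Finset.sum_subset (range_subset_range.2 hI) fun i _ hi => by
    rw [ind_neg (by simpa using hi), zero_mul]]
  exact Finset.sum_congr rfl fun i hi => by rw [ind_pos (mem_range.1 hi), one_mul]

theorem total (hn : h.natDegree < n) (hδ : 0 ≤ δ) (hE : Est h n G E δ)
    (hs : Sieve n R Q ν κ Z a b α) (hτ : DivB F Q n) (hQ : (n : ℝ) + 2 ≤ Q)
    (hG : 20 * (R + 2 * T) + 20 * E ≤ G) (hG' : G ≤ n) {C : ℝ} (hC : 0 ≤ C) (hM : Mass h n R C ν)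
    {ε ε' : ℝ} (hε : qq F T * Q ^ 7 * δ + 5 * Q ^ 11 * (2 * qq F n / qq F T) ≤ ε)
    (hε' : ∀ i i', i < n → i' < n → 2 * (R + 2 * T) ≤ i →
      |mcorr h (5 * n) (tr κ (R + 2 * T) i) (tr κ (R + 2 * T) i')| ≤ ε') (hε0 : 0 ≤ ε') :
    |corr h n (fun f => ν f * vm f) (fun f => ν f * vm f) - qq F n *
      ∑ i ∈ range (2 * (R + 2 * T)), ∑ i' ∈ range (2 * (R + 2 * T)), ((n : ℝ) - i) *
        ((n : ℝ) - i') * mcorr h (5 * n) (tr κ (R + 2 * T) i) (tr κ (R + 2 * T) i')| ≤
      n ^ 4 * (ε + qq F n * ε') + 4 * (E + 2 * T : ℕ) * n * (C * qq F n / (n : ℝ) ^ 2) := by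
  have hd : h.degree < n := degree_le_natDegree.trans_lt (by exact_mod_cast hn)
  have hq := qq_pos (F := F) n
  have e1 : ∀ f ∈ monF F n, ν f * vm f = ∑ i ∈ range n, ((n : ℝ) - i) * nl ν i f := fun f hf => by
    rw [vm_eq_sum (by omega) hf, Finset.mul_sum]
    exact Finset.sum_congr rfl fun i _ => by rw [nl]; ring
  have e2 : corr h n (fun f => ν f * vm f) (fun f => ν f * vm f) - qq F n *
      ∑ i ∈ range (2 * (R + 2 * T)), ∑ i' ∈ range (2 * (R + 2 * T)), ((n : ℝ) - i) *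
        ((n : ℝ) - i') * mcorr h (5 * n) (tr κ (R + 2 * T) i) (tr κ (R + 2 * T) i') =
      ∑ i ∈ range n, ∑ i' ∈ range n, ((n : ℝ) - i) * ((n : ℝ) - i') *
        (corr h n (nl ν i) (nl ν i') - ind (i < 2 * (R + 2 * T)) * (ind (i' < 2 * (R + 2 * T)) *
          (qq F n * mcorr h (5 * n) (tr κ (R + 2 * T) i) (tr κ (R + 2 * T) i')))) := by
    rw [corr_congr_left _ e1, corr_congr_right hd _ e1, corr_sum_left,
      ← sum_ind_lt (n := n) (I := 2 * (R + 2 * T)) (by omega), Finset.mul_sum,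
      ← Finset.sum_sub_distrib]
    refine Finset.sum_congr rfl fun i _ => ?_
    rw [corr_mul_left, corr_sum_right, ← sum_ind_lt (n := n) (I := 2 * (R + 2 * T)) (by omega),
      Finset.mul_sum, Finset.mul_sum, Finset.mul_sum, ← Finset.sum_sub_distrib]
    refine Finset.sum_congr rfl fun i' _ => ?_
    rw [corr_mul_right]
    ring
  rw [e2]
  refine (Finset.abs_sum_le_sum_abs _ _).trans ((Finset.sum_le_sum fun i hi =>
    (Finset.abs_sum_le_sum_abs _ _).trans (Finset.sum_le_sum fun i' hi' =>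
      term hn hδ hE hs hτ hQ hG hG' hC hM hε hε' hε0 (mem_range.1 hi) (mem_range.1 hi'))).trans ?_)
  simp only [Finset.sum_add_distrib, Finset.sum_const, card_range, nsmul_eq_mul, ← Finset.sum_mul]
  exact add_le_add (le_of_eq (by ring))
    (mul_le_mul_of_nonneg_right (sum_strip n _) (by positivity))

theorem twin_sub (hn : h.natDegree < n) (hs : Sieve n R Q ν κ Z a b α) (hQ : (n : ℝ) + 2 ≤ Q) :
    |(n : ℝ) ^ 2 * ∑ f ∈ monF F n, ind (Irreducible f ∧ Irreducible (f + h)) -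
      corr h n (fun f => ν f * vm f) fun f => ν f * vm f| ≤
      4 * Q ^ 4 * (2 * qq F n / qq F (n / 3)) := by
  have hd : h.degree < n := degree_le_natDegree.trans_lt (by exact_mod_cast hn)
  have hn0 : (0 : ℝ) ≤ n := Nat.cast_nonneg n
  have hQ0 : 0 < Q := by linarith
  have b1 : ∀ f ∈ monF F n, |ν f * vm f| ≤ Q * Q := fun f hf => by
    obtain ⟨h1, h2⟩ := mem_monF.1 hf
    rw [abs_mul, abs_of_nonneg (vm_nonneg f)]
    exact mul_le_mul (hs.lev.abs_le h1 h2.le) ((vm_le f).trans (by rw [h2]; linarith))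
      (vm_nonneg f) hQ0.le
  have b2 : ∀ f ∈ monF F n, |n * ind (Irreducible f)| ≤ Q * Q := fun f _ => by
    rw [abs_mul, abs_of_nonneg hn0, abs_of_nonneg (ind_nonneg _)]
    exact mul_le_mul (by linarith) ((ind_le_one _).trans (by linarith)) (ind_nonneg _) hQ0.le
  have b3 : ∀ f ∈ monF F n, |n * ind (Irreducible f) - ν f * vm f| ≤
      ind (Sq (n / 3) f) * (2 * (Q * Q)) := fun f hf => by
    by_cases hT : Sq (n / 3) f
    · rw [ind_pos hT, one_mul, two_mul (Q * Q)]
      exact (abs_sub _ _).trans (add_le_add (b2 f hf) (b1 f hf))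
    · rw [ind_neg hT, zero_mul, vm_eq_of_not_Sq hf hT]
      by_cases hi : Irreducible f
      · rw [hs.one f (mem_monF.1 hf).1 hi (mem_monF.1 hf).2]; simp
      · simp [ind_neg hi]
  have h1 := pert_left hd (by positivity) (by positivity) b2 b3
  have h2 := pert_right hd (by positivity) (by positivity) b1 b3
  have e : (n : ℝ) ^ 2 * ∑ f ∈ monF F n, ind (Irreducible f ∧ Irreducible (f + h)) =
      corr h n (fun f => n * ind (Irreducible f)) fun f => n * ind (Irreducible f) := by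
    rw [corr, Finset.mul_sum]
    exact Finset.sum_congr rfl fun f _ => by rw [SVar.ind_and]; ring
  have h3 := abs_sub_le (corr h n (fun f => n * ind (Irreducible f)) fun f => n * ind (Irreducible f))
    (corr h n (fun f => ν f * vm f) fun f => n * ind (Irreducible f))
    (corr h n (fun f => ν f * vm f) fun f => ν f * vm f)
  rw [e]
  linarith [show Q * Q * (2 * (Q * Q)) * (2 * qq F n / qq F (n / 3)) =
    2 * Q ^ 4 * (2 * qq F n / qq F (n / 3)) by ring]

end TSum

end Pool.Agent.MP_43e117_nt
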