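import Mathlib
import Pool.Agent.MP_43e117_nt.TSum
import Pool.Agent.MP_43e117_nt.TLU
import Pool.Agent.MP_43e117_nt.TK
import Pool.Agent.MP_43e117_nt.TSieve
import Pool.Agent.MP_43e117_nt.TSing

/- Twin primes of `F[X]`, characteristic two: the asymptotic formula. -/

set_option autoImplicit false
set_option linter.unusedSectionVars false

namespace Pool.Agent.MP_43e117_nt

open Polynomial Finset Filter Pool.Agent.MP_4fffd4_nt Pool.Agent.MP_c853c5_nt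
open scoped BigOperators

variable {F : Type*} [Field F] [Fintype F]

namespace TFin

theorem mul_div_le {c C M : ℕ} (hC : 0 < C) (h : c * C ≤ M) (n : ℕ) : c * (n / M) ≤ n / C :=
  (Nat.le_div_iff_mul_le hC).2 (by nlinarith [Nat.div_mul_le_self n M, Nat.zero_le (n / M)])

theorem div_qq_mono (n : ℕ) {a b : ℕ} (h : a ≤ b) : qq F n / qq F b ≤ qq F n / qq F a :=
  div_le_div_of_nonneg_left (qq_pos n).le (qq_pos a) (qq_mono h)

theorem small {t R : ℕ} (h : 36 * (Fintype.card F * t) ≤ R) :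
    qq F t ^ 12 * (3 / 4) ^ R ≤ 1 := by
  calc _ ≤ ((2 : ℝ) ^ (Fintype.card F * t)) ^ 12 * (3 / 4) ^ (36 * (Fintype.card F * t)) :=
        mul_le_mul (pow_le_pow_left₀ (qq_pos t).le (qq_le_two_pow t) 12)
          (pow_le_pow_of_le_one (by norm_num) (by norm_num) h) (by positivity) (by positivity)
    _ = (2 ^ 12 * (3 / 4) ^ 36) ^ (Fintype.card F * t) := by
        rw [mul_pow, ← pow_mul, ← pow_mul, ← pow_mul, mul_comm 12]
    _ ≤ 1 := pow_le_one₀ (by positivity) (by norm_num)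

theorem numer {Q N H ζ C₀ x c s m S q n E : ℝ} (hQ : n + 2 ≤ Q) (hn : 0 ≤ n) (hN : Q ^ 5 ≤ N)
    (hq : 0 < q) (hH : 0 ≤ H) (hζ : 0 ≤ ζ) (hζ' : Q ^ 12 * ζ ≤ 1)
    (h1 : |x - c| ≤ 4 * Q ^ 4 * (2 * q / N))
    (h2 : |c - q * s| ≤ n ^ 4 * (Q ^ 30 * Q ^ 7 * (q / Q ^ 100) + 5 * Q ^ 11 * (2 * q / Q ^ 30) +
      q * (6 * Q ^ 2 * Q ^ 5 * H * ζ)) + E * q)
    (h3 : |s - m| ≤ 18 * n ^ 3 * Q ^ 2 * Q ^ 5 * H * ζ) (h4 : |m - S| ≤ |C₀| * n * ζ) :
    |x / q - S| ≤ (19 + 24 * H + |C₀|) / Q + E := by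
  have hQ1 : 1 ≤ Q := by linarith
  have hQ0 : 0 < Q := by linarith
  have hnQ : n ≤ Q := by linarith
  have hz : ∀ k ≤ 11, Q ^ k * ζ ≤ 1 / Q := fun k hk => by
    rw [le_div_iff₀ hQ0]
    calc _ = Q ^ (k + 1) * ζ := by ring
      _ ≤ Q ^ 12 * ζ := mul_le_mul_of_nonneg_right (pow_le_pow_right₀ hQ1 (by omega)) hζ
      _ ≤ 1 := hζ'
  have hw : ∀ k l, k + 1 ≤ l → Q ^ k / Q ^ l ≤ 1 / Q := fun k l hk => by
    rw [div_le_div_iff₀ (by positivity) hQ0, one_mul, ← pow_succ]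
    exact pow_le_pow_right₀ hQ1 hk
  have a1 : |x - c| ≤ q * (8 * (1 / Q)) := by
    calc _ ≤ 4 * Q ^ 4 * (2 * q / Q ^ 5) := h1.trans (by gcongr)
      _ = _ := by field_simp; ring
  have a2 : |c - q * s| ≤ q * ((11 + 6 * H) * (1 / Q) + E) := by
    calc _ ≤ Q ^ 4 * (Q ^ 30 * Q ^ 7 * (q / Q ^ 100) + 5 * Q ^ 11 * (2 * q / Q ^ 30) +
          q * (6 * Q ^ 2 * Q ^ 5 * H * ζ)) + E * q := h2.trans (by gcongr)
      _ = q * (Q ^ 41 / Q ^ 100 + 10 * (Q ^ 15 / Q ^ 30) + 6 * H * (Q ^ 11 * ζ) + E) := by ring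
      _ ≤ q * (1 / Q + 10 * (1 / Q) + 6 * H * (1 / Q) + E) := by
          have := hw 41 100 (by norm_num)
          have := hw 15 30 (by norm_num)
          have := mul_le_mul_of_nonneg_left (hz 11 le_rfl) hH
          exact mul_le_mul_of_nonneg_left (by linarith) hq.le
      _ = _ := by ring
  have a3 : |s - m| ≤ 18 * H * (1 / Q) := by
    calc _ ≤ 18 * Q ^ 3 * Q ^ 2 * Q ^ 5 * H * ζ := h3.trans (by gcongr)
      _ = 18 * H * (Q ^ 10 * ζ) := by ring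
      _ ≤ _ := by gcongr; exact hz _ (by norm_num)
  have a4 : |m - S| ≤ |C₀| * (1 / Q) := by
    calc _ ≤ |C₀| * Q * ζ := h4.trans (by gcongr)
      _ = |C₀| * (Q ^ 1 * ζ) := by ring
      _ ≤ _ := by gcongr; exact hz _ (by norm_num)
  have a5 : |x / q - s| ≤ 8 * (1 / Q) + ((11 + 6 * H) * (1 / Q) + E) := by
    rw [show x / q - s = (x - q * s) / q by field_simp, abs_div, abs_of_pos hq, div_le_iff₀' hq,
      mul_add]
    exact (abs_sub_le x c _).trans (add_le_add a1 a2)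
  have a6 := abs_sub_le (x / q) s S
  have a7 := abs_sub_le s m S
  rw [div_eq_mul_one_div _ Q]
  linarith

end TFin

open TFin in
theorem twin_tendsto [CharP F 2] {h : F[X]} (hh : h ≠ 0) {S C₀ : ℝ}
    (hS : ∀ n I : ℕ, 1 ≤ I → I ≤ n → |mainT h n I - S| ≤ C₀ * n * (3 / 4) ^ I) :
    Tendsto (fun n : ℕ => (n : ℝ) ^ 2 *
      (∑ f ∈ monF F n, ind (Irreducible f ∧ Irreducible (f + h))) / qq F n) atTop (nhds S) := by
  rw [Metric.tendsto_atTop]
  intro ε hε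
  obtain ⟨D, hD, CK, hCK, n₁, HK⟩ := central hh
  obtain ⟨C, hC, HS⟩ := exists_sieve hh (D := 100 * D) (by omega)
  obtain ⟨M₀, hM₀⟩ := exists_nat_gt (16 * C / ε)
  obtain ⟨M, hM, hM'⟩ : ∃ M : ℕ, 100 * D ≤ M ∧ 16 * C / ε < M :=
    ⟨M₀ + 100 * D, by omega, hM₀.trans_le (by exact_mod_cast Nat.le_add_right _ _)⟩
  obtain ⟨CL, hCL, n₂, HL⟩ := estL hh (2 * M)
  obtain ⟨CU, hCU, n₃, HU⟩ := estU hh (2 * M)
  have hq : 0 < Fintype.card F := Fintype.card_pos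
  obtain ⟨W, hW⟩ : ∃ W, W = 100 * (CK + CL + CU + M + Fintype.card F * (100 * D)) := ⟨_, rfl⟩
  have hW0 : 0 < W := by omega
  obtain ⟨n₄, HS⟩ := HS W hW0
  obtain ⟨n₅, Hτ⟩ := exists_DivB (F := F) 5 W hW0
  obtain ⟨n₆, HQ⟩ := exists_poly (F := F) 3 1 W hW0
  obtain ⟨n₇, hn₇⟩ := exists_nat_gt (2 * (19 + 24 * (4 / 3) ^ h.natDegree + |C₀|) / ε)
  refine ⟨n₁ + n₂ + n₃ + n₄ + n₅ + n₆ + n₇ + h.natDegree + M + 2, fun n hn => ?_⟩
  obtain ⟨ν, κ, ι, Z, a, b, α, hs, hm⟩ := HS n (by omega)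
  have hτ := Hτ n (by omega)
  have hn0 : (2 : ℝ) ≤ n := by exact_mod_cast (by omega)
  have hQ : (n : ℝ) + 2 ≤ qq F (n / W) := le_trans (by push_cast; linarith) (HQ n (by omega))
  have b1 := mul_div_le (c := 100) hCK (M := W) (by omega) n
  have b2 := mul_div_le (c := 100) hCL (M := W) (by omega) n
  have b3 := mul_div_le (c := 100) hCU (M := W) (by omega) n
  have b4 := mul_div_le (c := 100) (C := M) (by omega) (M := W) (by omega) n
  have b5 := mul_div_le (c := 100 * Fintype.card F) (C := 100 * D) (by omega) (M := W)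
    (by rw [mul_assoc]; omega) n
  have b6 := mul_div_le (c := 1) (C := 100 * D) (by omega) (M := M) (by omega) n
  have b7 := mul_div_le (c := 100) hD (M := 100 * D) le_rfl n
  have b8 := Nat.div_le_self n D
  have b9 := Nat.div_mul_le_self n M
  have b10 : 1 ≤ n / M := (Nat.le_div_iff_mul_le (by omega)).2 (by omega)
  have b11 : n ≤ 2 * M * (n / M) := by
    have := Nat.lt_mul_div_succ n (b := M) (by omega)
    nlinarith
  rw [mul_assoc] at b5
  generalize n / W = t at *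
  generalize n / (100 * D) = R at *
  generalize n / M = E at *
  have hE : Est h n (n / D) E (qq F n / qq F (100 * t)) :=
    ⟨fun I I' α β h1 h2 h3 => (HK n (by omega) I I' α β h1 h2 h3).trans (div_qq_mono n b1),
      fun i ε₁ ε₂ μ κ h1 h2 h3 α₁ β₁ α₂ β₂ h4 h5 h6 h7 =>
        (HL n (by omega) E i ε₁ ε₂ μ κ b11 h1 h2 h3 α₁ β₁ α₂ β₂ h4 h5 h6 h7).trans
          (div_qq_mono n b2),
      fun i ε₁ ε₂ κ h1 h2 h3 h4 β₁ α₂ β₂ h5 h6 h7 =>
        (HU n (by omega) E i ε₁ ε₂ κ b11 h1 h2 h3 h4 β₁ α₂ β₂ h5 h6 h7).trans (div_qq_mono n b3)⟩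
  have hq0 := qq_pos (F := F) n
  have hq1 := qq_pos (F := F) t
  have hκ : ∀ K : F[X], K.Monic → K.natDegree ≤ n → |κ K| ≤ qq F t := fun K => hs.lev.abs_coef
  have h1 := TSum.twin_sub (h := h) (by omega) hs hQ
  have h2 := TSum.total (T := 30 * t) (by omega) (div_pos hq0 (qq_pos _)).le hE hs
    (hτ.mono (by omega)) hQ (by omega) b8 hC hm le_rfl
    (fun i i' hi hi' hR => mcorr_small hh (by omega) (by omega) hi.le hi'.le hR hτ hκ)
    (by positivity)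
  have h3 := mcorr_main hh (n := n) (R := R + 2 * (30 * t)) (by omega) (by omega) (by omega)
    (by omega) hτ hκ (hs.lev.coef_one.trans hs.unit)
  have h4 : |mainT h n (2 * (R + 2 * (30 * t))) - S| ≤ |C₀| * n * (3 / 4) ^ (R + 2 * (30 * t)) := by
    refine (hS n _ (by omega) (by omega)).trans ?_
    exact mul_le_mul (mul_le_mul_of_nonneg_right (le_abs_self _) (by positivity))
      (pow_le_pow_of_le_one (by norm_num) (by norm_num) (by omega)) (by positivity)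
      (by positivity)
  rw [show qq F (30 * t) = qq F t ^ 30 by rw [qq_pow, mul_comm],
    show qq F (100 * t) = qq F t ^ 100 by rw [qq_pow, mul_comm],
    show 4 * ((E + 2 * (30 * t) : ℕ) : ℝ) * n * (C * qq F n / (n : ℝ) ^ 2) =
      4 * ((E + 2 * (30 * t) : ℕ) : ℝ) * C / n * qq F n by field_simp] at h2
  have h5 := numer hQ (by positivity) (by rw [qq_pow]; exact qq_mono (by omega)) hq0
    (by positivity) (by positivity) (small (by omega)) h1 h2 h3 h4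
  have h6 : 4 * ((E + 2 * (30 * t) : ℕ) : ℝ) * C / n ≤ ε / 2 := by
    have c1 : ((E + 2 * (30 * t) : ℕ) : ℝ) * M ≤ 2 * n := by
      exact_mod_cast (by nlinarith : (E + 2 * (30 * t)) * M ≤ 2 * n)
    have c2 : (0 : ℝ) < M := by exact_mod_cast (by omega)
    rw [div_lt_iff₀ hε] at hM'
    rw [div_le_iff₀ (by positivity)]
    refine le_of_mul_le_mul_right ?_ c2
    nlinarith [mul_le_mul_of_nonneg_right c1 hC, mul_le_mul_of_nonneg_left hM'.le
      (by positivity : (0 : ℝ) ≤ n)]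
  have h7 : (19 + 24 * (4 / 3) ^ h.natDegree + |C₀|) / qq F t < ε / 2 := by
    have c1 : (n₇ : ℝ) ≤ n := by exact_mod_cast (by omega)
    rw [div_lt_iff₀ hε] at hn₇
    rw [div_lt_iff₀ hq1]
    nlinarith
  rw [Real.dist_eq]
  linarith

end Pool.Agent.MP_43e117_nt
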